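import Mathlib
import Pool.Agent.MP_f37147_nt.PP.Ker
import Pool.Agent.Mg.F43e117.Gb7fff1
import Pool.Agent.Mg.F43e117.G789a6f
import Pool.Agent.Mg.F43e117.G16e741
import Pool.Agent.Mg.F346737.G0ea311

section

/- Prime pairs over `F[X]`, characteristic two: definitions and the list of steps. -/

set_option autoImplicit false
set_option linter.unusedSectionVars false

namespace Pool.Agent.PPf

open Polynomial Finset Pool.Agent.MP_4fffd4_nt Pool.Agent.MP_c853c5_nt Pool.Agent.MP_43e117_nt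
open scoped BigOperators

section Twin

variable {F : Type} [Field F] [Fintype F]

/-- A family of periodic weights. -/
structure Fam (h : F[X]) (n R lo hi : ℕ) {ι : Type} (Z : Finset ι) (M : ι → F[X])
    (Φ : ι → F[X] → ℝ) : Prop where
  hR : R ≤ n
  mon : ∀ z ∈ Z, (M z).Monic
  deg : ∀ z ∈ Z, (M z).natDegree ≤ R
  per : ∀ z ∈ Z, Per (M z) (Φ z)
  supp : ∀ z ∈ Z, ∀ f, Φ z f ≠ 0 → IsCoprime (f * (f + h)) (M z)
  hdv : ∀ z ∈ Z, ∀ P : F[X], Irreducible P → P ∣ h → P ∣ M z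
  win : ∀ z ∈ Z, ∀ P : F[X], Irreducible P → P ∣ M z → P.natDegree < lo ∨ hi < P.natDegree
  bd : ∀ f ∈ monF F n, ∑ z ∈ Z, |Φ z f| ≤ 1
  card : (Z.card : ℝ) ≤ qq F R

/-- The sum of the family. -/
noncomputable def tot {ι : Type} (Z : Finset ι) (Φ : ι → F[X] → ℝ) (f : F[X]) : ℝ :=
  ∑ z ∈ Z, Φ z f

/-- Multiplication by a weight. -/
noncomputable def tw (Ψ A : F[X] → ℝ) (f : F[X]) : ℝ := Ψ f * A f

/-- The weight is bounded on average along lines, against tilted product laws. -/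
def Line (h W : F[X]) (Ψ : F[X] → ℝ) (R : ℕ) (K : ℝ) : Prop :=
  ∀ (c a : F[X]) (S : Finset F[X]) (θ : F[X] → F[X] → ℝ) (l : ℕ), IsCoprime a W →
    (∀ P : F[X], Irreducible P → P ∣ a → P ∣ c * (c + h)) →
    (∀ P ∈ S, P.Monic ∧ Irreducible P ∧ ¬ P ∣ W) → (∀ P ∈ S, Per P (θ P)) →
    (∀ P ∈ S, ∀ t, 0 ≤ θ P t ∧ θ P t ≤ 9) →
    (∀ P ∈ S, ¬ P ∣ a → ∀ t, ¬ P ∣ (c + a * t) * (c + a * t + h) → θ P t = 1) →
    R + ∑ P ∈ S, P.natDegree ≤ l →
    𝔼 t : degreeLT F l, Ψ (c + a * t.1) * ∏ P ∈ S, θ P t.1 ≤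
      K * ∏ P ∈ S, 𝔼 t : degreeLT F l, θ P t.1

open Classical in
/-- The bound for the main term. -/
def Main (W : F[X]) (n : ℕ) {ι : Type} (Z : Finset ι) (M : ι → F[X]) (Φ : ι → F[X] → ℝ)
    (K : ℝ) : Prop :=
  ∑ z ∈ Z, (𝔼 f : degreeLT F (5 * n), Φ z f.1) *
    ∏ P ∈ pf (M z) \ pf W, (1 - 2 / qq F P.natDegree)⁻¹ ≤ K

/-- The three analytic estimates with a weight. -/
structure EstW (Ψ : F[X] → ℝ) (h : F[X]) (n G E' E : ℕ) (δ : ℝ) : Prop where
  K : ∀ (I I' : ℕ) (α β : F[X] → ℝ), Bd I α → Bd I' β →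
    (I + I' + E' ≤ n ∨ (2 * I ≤ n + G ∧ 2 * I' ≤ n + G)) →
    |corr h n (tw Ψ (up α I)) (up β I') - qq F n * mcorr h (5 * n) (tw Ψ (up α I)) (up β I')| ≤ δ
  L : ∀ i ε₁ ε₂ μ κ : ℕ, i + ε₁ + ε₂ = n → μ + κ = n →
    (ε₁ + E ≤ κ ∧ 2 * κ + 4 * ε₂ + E' ≤ n ∨ ε₁ + ε₂ + E ≤ κ ∧ 2 * κ + E' ≤ n) →
    ∀ α₁ β₁ α₂ β₂ : F[X] → ℝ, Bd μ α₁ → Bd κ β₁ → Bd ε₁ α₂ →
      (∀ e ∈ monF F ε₂, |β₂ e| ≤ ind (Squarefree e)) →
      |corr h n (tw Ψ (cv α₁ β₁ μ κ)) (cv3 lam α₂ β₂ i ε₁ ε₂)| ≤ δ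
  U : ∀ i ε₁ ε₂ κ : ℕ, i + ε₁ + ε₂ = n → n ≤ 2 * i → κ + E' ≤ i →
    2 * κ + E' ≤ n → ∀ β₁ α₂ β₂ : F[X] → ℝ, Bd κ β₁ → Bd ε₁ α₂ → Bd ε₂ β₂ →
      |corr h n (tw Ψ (up β₁ κ)) (cv3 lam α₂ β₂ i ε₁ ε₂)| ≤ δ

/-- The upper bound sieve estimate with a weight. -/
def MassW (Ψ : F[X] → ℝ) (h : F[X]) (n Q : ℕ) (C : ℝ) (ν : F[X] → ℝ) : Prop :=
  ∀ i i', i < n → i' < n → n + Q ≤ i + i' →
    ((n : ℝ) - i) * ((n : ℝ) - i') *
      corr h n (tw Ψ fun f => ν f * up (fun d => |mu d|) i f)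
        (fun f => ν f * up (fun d => |mu d|) i' f) ≤ C * qq F n / (n : ℝ) ^ 2

/-- The truncated piece, restricted to divisors coprime to `M`. -/
noncomputable def trM (M : F[X]) (κ : F[X] → ℝ) (R i : ℕ) (f : F[X]) : ℝ :=
  up (fun d => mu d * ind (IsCoprime d M)) i f * upLE (fun K => κ K * ind (IsCoprime K M)) R f

end Twin

/-- The lower end of the window of excluded degrees. -/
def wlo (M n : ℕ) : ℕ := n / (8 * (128 * M + 136))

/-- The upper end of the window of excluded degrees. -/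
def whi (M n : ℕ) : ℕ := n / (128 * M + 136)

section Weight

variable {F : Type} [Field F] [Fintype F] {κ : Type} [Fintype κ] [DecidableEq κ]

noncomputable instance decPs (Ps : Finset F[X]) : DecidableEq Ps := Classical.decEq _

/-- The roots are distinct modulo the primes that do not divide `W`. -/
def Roots (W : F[X]) (ρ : F[X] → κ → F[X]) : Prop :=
  ∀ P : F[X], Irreducible P → ¬ P ∣ W → ∀ l l', P ∣ ρ P l - ρ P l' → l = l'

/-- A set of primes that do not divide `W`. -/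
def Good (W : F[X]) (Ps : Finset F[X]) : Prop := ∀ P ∈ Ps, P.Monic ∧ Irreducible P ∧ ¬ P ∣ W

open Classical in
/-- The local function. -/
noncomputable def psi (ρ : F[X] → κ → F[X]) (J : Finset κ) (P : F[X]) (l : κ) (f : F[X]) : ℝ :=
  ind (∀ j ∈ J, ¬ P ∣ f - ρ P j) * if P ∣ f - ρ P l then -1 else 1 / (qq F P.natDegree - 1)

/-- A product of local functions. -/
noncomputable def lamA (ρ : F[X] → κ → F[X]) (J : Finset κ) (Ps : Finset F[X])
    (A : Ps → Finset κ) (f : F[X]) : ℝ :=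
  ∏ P : Ps, ∏ l ∈ A P, psi ρ J P.1 l f

open Classical in
/-- The sieve weight. -/
noncomputable def wt (ρ : F[X] → κ → F[X]) (J : Finset κ) (Ps : Finset F[X]) (W x : F[X])
    (Y : (Ps → Finset κ) → ℝ) (f : F[X]) : ℝ :=
  ind (W ∣ f - x) * (∑ A : Ps → Finset κ, Y A * lamA ρ J Ps A f) ^ 2

open Classical in
/-- The modulus of one term. -/
noncomputable def md (Ps : Finset F[X]) (W : F[X]) (z : (Ps → Finset κ) × (Ps → Finset κ)) :
    F[X] :=
  W * ∏ P : Ps with z.1 P ≠ ∅ ∨ z.2 P ≠ ∅, P.1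

/-- One term of the weight. -/
noncomputable def ph (ρ : F[X] → κ → F[X]) (J : Finset κ) (Ps : Finset F[X]) (W x : F[X])
    (Y : (Ps → Finset κ) → ℝ) (z : (Ps → Finset κ) × (Ps → Finset κ)) (f : F[X]) : ℝ :=
  ind (W ∣ f - x) * (Y z.1 * Y z.2) * (lamA ρ J Ps z.1 f * lamA ρ J Ps z.2 f)

open Classical in
/-- The indices of the terms. -/
noncomputable def ZZ (Ps : Finset F[X]) (Y : (Ps → Finset κ) → ℝ) :
    Finset ((Ps → Finset κ) × (Ps → Finset κ)) :=
  univ.filter fun z => Y z.1 ≠ 0 ∧ Y z.2 ≠ 0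

/-- The norms of the primes. -/
noncomputable def nm (Ps : Finset F[X]) (P : Ps) : ℝ := qq F P.1.natDegree

/-- The degrees of the primes. -/
noncomputable def dP (Ps : Finset F[X]) (P : Ps) : ℕ := P.1.natDegree

open Classical in
/-- The quadratic form of the model. -/
noncomputable def fm (Ps : Finset F[X]) (u : Ps → ℝ) (J : Finset κ)
    (Y : (Ps → Finset κ) → ℝ) : ℝ :=
  form (fun P => ker (nm Ps P) (u P) J) Y

open Classical in
/-- The standing assumptions on the weight. -/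
structure Ctx (ρ : F[X] → κ → F[X]) (Ps : Finset F[X]) (W : F[X]) (Y : (Ps → Finset κ) → ℝ)
    (D R : ℕ) : Prop where
  mon : W.Monic
  good : Good W Ps
  roots : Roots W ρ
  y01 : ∀ A, 0 ≤ Y A ∧ Y A ≤ 1
  lev : ∀ A, Y A ≠ 0 → ∑ l, dg (dP Ps) A l ≤ D
  hW : W.natDegree + 2 * D ≤ R
  hK : 4 * D + 4 * Fintype.card κ ≤ R

variable (F) in
open Classical in
/-- The primes of the sieve. -/
noncomputable def prm (W : F[X]) (lo hi D : ℕ) : Finset F[X] :=
  (irrLE F D).filter fun P => ¬ P ∣ W ∧ (P.natDegree < lo ∨ hi < P.natDegree)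

end Weight

section Steps

variable (F : Type) [Field F] [Fintype F] [CharP F 2]

/-- A1: the parameters, with the range of `d`. -/
def SPar : Prop := ∀ M C₀ : ℕ, ∃ C : ℕ, C₀ ≤ C ∧ 0 < C ∧ ∃ n₀ : ℕ, ∀ n, n₀ ≤ n →
  ∀ N L, n ≤ 4 * N → N ≤ n → n ≤ M * L → 2 * L ≤ N →
    ∃ d u r, Par F N L (n / C) d u r ∧ n ≤ 64 * (M + 1) * d ∧ 8 * (M + 1) * d ≤ n

/-- A2: one smooth variable. -/
def STypeU : Prop := ∀ (h : F[X]) (N L η d u r n μ κ ε i b R lo hi : ℕ) (τ : ℝ)
  (c : F[X] → F[X] → ℝ) (B : F[X]) (ι : Type) (Z : Finset ι) (M : ι → F[X]) (Φ : ι → F[X] → ℝ),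
  h ≠ 0 → Par F N L η d u r → μ + κ = n → i + ε = n → i + κ + b = 2 * N + 1 →
  κ + b + 2 * L + 2 * R ≤ i → DivB F τ n →
  100 * n * τ ^ 4 * qq F (2 * h.natDegree) ≤ qq F η →
  (∀ k ∈ monF F κ, ∀ e ∈ monF F ε, |c k e| ≤ 1) → B ∈ monF F b → Squarefree B →
  Fam h n R lo hi Z M Φ → lo ≤ d → d ≤ hi →
    |cfg h μ κ ε 0 i fun m k e₁ e₂ d' => tot Z Φ (m * k) * (c k e₁ * lam d') *
      gw (goodV F d u) r (od (d' * (k * e₂ * B)))| ≤ qq F n / qq F (4 * η)

/-- A3: the off diagonal terms. -/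
def STwo : Prop := ∀ (h : F[X]) (N L η d u r n μ κ ε₁ ε₂ i b R lo hi : ℕ)
  (B k k' e₁ e₂ e₂' : F[X]) (ι : Type) (Z : Finset ι) (M : ι → F[X]) (Φ : ι → F[X] → ℝ),
  h ≠ 0 → Par F N L η d u r → μ + κ = n → i + ε₁ + ε₂ = n → i + κ + ε₂ + b = 2 * N + 1 →
  ε₁ + b + 4 * ε₂ + 2 * L + 4 * R ≤ μ → h.natDegree < d → B ∈ monF F b → k ∈ monF F κ →
  k' ∈ monF F κ → k ≠ k' → e₁ ∈ monF F ε₁ → e₂ ∈ monF F ε₂ → e₂' ∈ monF F ε₂ → Squarefree e₂' →
  Fam h n R lo hi Z M Φ → lo ≤ d → d ≤ hi →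
    |∑ m ∈ monF F μ, ∑ a ∈ monF F i, ∑ a' ∈ monF F i,
      ind (a * (e₁ * e₂) = m * k + h) * ind (a' * (e₁ * e₂') = m * k' + h) *
        (tot Z Φ (m * k) * (lam a * gw (goodV F d u) r (od (a * (k * e₂ * B)))) *
          (tot Z Φ (m * k') * (lam a' * gw (goodV F d u) r (od (a' * (k' * e₂' * B))))))| ≤
    ∑ m ∈ monF F μ, ∑ a ∈ monF F i, ∑ a' ∈ monF F i,
      ind (a * (e₁ * e₂) = m * k + h) * ind (a' * (e₁ * e₂') = m * k' + h) *
        (3 * ind (SLine.Bad d u (a * (k * e₂ * B))) + 2 * ind (SLine.Bad d u (a' * (k' * e₂' * B))) +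
          (4 * n / qq F d + 1 / qq F (10 * η)))

/-- A4: the bilinear sum. -/
def STypeL : Prop := ∀ (h : F[X]) (N L η d u r n μ κ ε₁ ε₂ i b R lo hi : ℕ) (τ : ℝ)
  (α β : F[X] → F[X] → ℝ) (B : F[X]) (ι : Type) (Z : Finset ι) (M : ι → F[X])
  (Φ : ι → F[X] → ℝ),
  h ≠ 0 → Par F N L η d u r → μ + κ = n → i + ε₁ + ε₂ = n → i + κ + ε₂ + b = 2 * N + 1 →
  ε₁ + b + 4 * ε₂ + 2 * L + 4 * R ≤ μ → ε₁ + 10 * η ≤ κ → DivB F τ n →
  100 * n * τ ^ 4 * qq F (2 * h.natDegree) ≤ qq F η →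
  (∀ m ∈ monF F μ, ∀ e ∈ monF F ε₁, |α m e| ≤ 1) →
  (∀ k ∈ monF F κ, ∀ e ∈ monF F ε₂, |β k e| ≤ ind (Squarefree e)) → B ∈ monF F b →
  Squarefree B → Fam h n R lo hi Z M Φ → lo ≤ d → d ≤ hi →
    |cfg h μ κ ε₁ ε₂ i fun m k e₁ e₂ d' => tot Z Φ (m * k) * (α m e₁ * (β k e₂ * lam d')) *
      gw (goodV F d u) r (od (d' * (k * e₂ * B)))| ≤ qq F n / qq F (4 * η)

/-- A5: the two estimates for the Liouville function. -/
def SLU : Prop := ∀ (h : F[X]) (M₀ : ℕ), h ≠ 0 → ∃ C : ℕ, 0 < C ∧ ∃ n₀ : ℕ, ∀ n, n₀ ≤ n →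
  ∀ (E R : ℕ) (ι : Type) (Z : Finset ι) (M : ι → F[X]) (Φ : ι → F[X] → ℝ), n ≤ M₀ * E →
    Fam h n R (wlo M₀ n) (whi M₀ n) Z M Φ →
    (∀ i ε₁ ε₂ μ κ : ℕ, i + ε₁ + ε₂ = n → μ + κ = n →
      (ε₁ + E ≤ κ ∧ 2 * κ + 4 * ε₂ + (E + 4 * R) ≤ n ∨
        ε₁ + ε₂ + E ≤ κ ∧ 2 * κ + (E + 4 * R) ≤ n) →
      ∀ α₁ β₁ α₂ β₂ : F[X] → ℝ, Bd μ α₁ → Bd κ β₁ → Bd ε₁ α₂ →
        (∀ e ∈ monF F ε₂, |β₂ e| ≤ ind (Squarefree e)) →
        |corr h n (tw (tot Z Φ) (cv α₁ β₁ μ κ)) (cv3 lam α₂ β₂ i ε₁ ε₂)| ≤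
          qq F n / qq F (n / C)) ∧
    ∀ i ε₁ ε₂ κ : ℕ, i + ε₁ + ε₂ = n → n ≤ 2 * i → κ + (E + 4 * R) ≤ i →
      2 * κ + (E + 4 * R) ≤ n → ∀ β₁ α₂ β₂ : F[X] → ℝ, Bd κ β₁ → Bd ε₁ α₂ → Bd ε₂ β₂ →
        |corr h n (tw (tot Z Φ) (up β₁ κ)) (cv3 lam α₂ β₂ i ε₁ ε₂)| ≤ qq F n / qq F (n / C)

/-- A6: one frequency. -/
def SFreq : Prop := ∀ (e : F → ℝ) (a : F[X]) (n I I' l η : ℕ) (α β : F[X] → ℝ), Chr e → a ≠ 0 →
  n + 1 = I + I' → 1 ≤ η → a.natDegree ≤ l → I + 10 * η + 1 ≤ I' + l → I' ≤ I →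
  1 + 10 * η ≤ l → 100 * l ≤ I' → DivB F (qq F η) (2 * n) → (100 * n : ℝ) ^ 3 ≤ qq F η →
  Bd I α → Bd I' β →
    |∑ d ∈ monF F I, ∑ x ∈ monF F I', α d * β x *
      (ind (IsCoprime d x) * e (SFour.res (a * iv d x) d))| ≤ 2 * qq F (n + 1) / qq F η

/-- A7: the central range in one residue class. -/
def SClass : Prop := ∀ h : F[X], h ≠ 0 → ∃ n₀ : ℕ, ∀ n, n₀ ≤ n →
  ∀ (M φ : F[X]) (I I' : ℕ) (α β : F[X] → ℝ), M.Monic → M.natDegree ≤ n / 1000000 →
    IsCoprime (φ * (φ + h)) M → (∀ P : F[X], Irreducible P → P ∣ h → P ∣ M) →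
    Bd I α → Bd I' β → I' ≤ I → 2 * I ≤ n + n / 100000 →
    |corr h n (tw (fun f => ind (M ∣ f - φ)) (up α I)) (up β I') -
      qq F n * mcorr h (5 * n) (tw (fun f => ind (M ∣ f - φ)) (up α I)) (up β I')| ≤
      qq F n / qq F (3 * (n / 100000))

/-- A8: the central range. -/
def SCent : Prop := ∀ h : F[X], h ≠ 0 → ∃ n₀ : ℕ, ∀ n, n₀ ≤ n →
  ∀ (R lo hi : ℕ) (ι : Type) (Z : Finset ι) (M : ι → F[X]) (Φ : ι → F[X] → ℝ),
    R ≤ n / 1000000 → Fam h n R lo hi Z M Φ →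
    ∀ (I I' : ℕ) (α β : F[X] → ℝ), Bd I α → Bd I' β →
      (I + I' + R ≤ n ∨ (2 * I ≤ n + n / 100000 ∧ 2 * I' ≤ n + n / 100000)) →
      |corr h n (tw (tot Z Φ) (up α I)) (up β I') -
        qq F n * mcorr h (5 * n) (tw (tot Z Φ) (up α I)) (up β I')| ≤
        qq F n / qq F (n / 100000)

/-- B0: the weight factors out of the model. -/
def SFact : Prop := ∀ (h M : F[X]) (Φ κ : F[X] → ℝ) (N R i i' : ℕ), M.Monic → Per M Φ →
  (∀ f, Φ f ≠ 0 → IsCoprime (f * (f + h)) M) → M.natDegree + 2 * R + i + i' ≤ N →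
    mcorr h N (tw Φ (tr κ R i)) (tr κ R i') =
      (𝔼 f : degreeLT F N, Φ f.1) * mcorr h N (trM M κ R i) (trM M κ R i')

/-- B1, B2: the restricted model. -/
def SRestr : Prop := ∀ (h M : F[X]) (κ : F[X] → ℝ) (n R : ℕ) (τ B : ℝ), M.Monic →
  M.natDegree ≤ n → (∀ P : F[X], Irreducible P → P ∣ h → P ∣ M) → 2 ≤ n → h.natDegree ≤ n →
  1 ≤ R → 2 * R ≤ n → DivB F τ (5 * n) →
  (∀ K : F[X], K.Monic → K.natDegree ≤ n → |κ K| ≤ B) → κ 1 = 1 →
    (∀ i i', i ≤ n → i' ≤ n → 2 * R ≤ i ∨ 2 * R ≤ i' →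
      |mcorr h (5 * n) (trM M κ R i) (trM M κ R i')| ≤ 6 * B ^ 2 * τ ^ 5 * (3 / 4) ^ R) ∧
    |∑ i ∈ range (2 * R), ∑ i' ∈ range (2 * R), ((n : ℝ) - i) * ((n : ℝ) - i') *
      mcorr h (5 * n) (trM M κ R i) (trM M κ R i') - (VS (pf M))⁻¹ * mainT M n (2 * R)| ≤
      18 * n ^ 3 * B ^ 2 * τ ^ 5 * (3 / 4) ^ R

/-- B3: the model with a weight. -/
def SMod : Prop := ∀ (h W : F[X]) (κ : F[X] → ℝ) (n R R' lo hi : ℕ) (τ B K : ℝ) (ι : Type)
  (Z : Finset ι) (M : ι → F[X]) (Φ : ι → F[X] → ℝ), Fam h n R lo hi Z M Φ →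
  (∀ z ∈ Z, W ∣ M z) → (∀ P : F[X], Irreducible P → P.natDegree ≤ 15 → P ∣ W) → 0 ≤ K →
  Main W n Z M Φ K → 2 ≤ n → h.natDegree ≤ n → 1 ≤ R' → 2 * R' ≤ n → DivB F τ (5 * n) →
  (∀ K : F[X], K.Monic → K.natDegree ≤ n → |κ K| ≤ B) → κ 1 = 1 →
    (∀ i i', i ≤ n → i' ≤ n → 2 * R' ≤ i ∨ 2 * R' ≤ i' →
      |mcorr h (5 * n) (tw (tot Z Φ) (tr κ R' i)) (tr κ R' i')| ≤
        6 * B ^ 2 * τ ^ 5 * (3 / 4) ^ R') ∧
    ∑ i ∈ range (2 * R'), ∑ i' ∈ range (2 * R'), ((n : ℝ) - i) * ((n : ℝ) - i') *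
      mcorr h (5 * n) (tw (tot Z Φ) (tr κ R' i)) (tr κ R' i') ≤
      (VS (pf W))⁻¹ ^ 2 * K + (18 + 3 * Real.exp 18) * n ^ 3 * B ^ 2 * τ ^ 6 * (3 / 4) ^ R'

/-- C1: mean values of the majorant, with constants that do not depend on `W`. -/
def SGG : Prop := ∀ (W : F[X]) (y S D m n : ℕ), W ≠ 0 →
  (∀ P : F[X], Irreducible P → P.natDegree ≤ 15 → P ∣ W) → W.natDegree ≤ y →
  8 ≤ y / 2 ^ S → y / 2 ^ S ≤ 15 → m ≤ n → n ≤ D * y →
    (m : ℝ) * ∑ e ∈ monF F m, ind (IsCoprime e W) * GG W y S e ≤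
      5 * Real.exp (Real.exp 14 + 2 * D) * qq F m ∧
    (y : ℝ) * ∏ s ∈ range S, VS (bl W y s) ≤ (VS (pf W))⁻¹

/-- C2: the sieve weight along a line. -/
def SLineW : Prop := ∀ (h W e e' : F[X]) (n i i' m m' y S R lo hi : ℕ) (K : ℝ) (ι : Type)
  (Z : Finset ι) (M : ι → F[X]) (Φ : ι → F[X] → ℝ), Fam h n R lo hi Z M Φ →
  (∀ z ∈ Z, W ∣ M z) → (∀ P : F[X], Irreducible P → P ∣ h → P ∣ W) →
  (∀ f, 0 ≤ tot Z Φ f) → 0 ≤ K → Line h W (tot Z Φ) R K → i + m = n → i' + m' = n →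
  e ∈ monF F m → e' ∈ monF F m' → n + 16 * y + R ≤ i + i' →
    (∑ d ∈ monF F i, ∑ d' ∈ monF F i', ind (d' * e' = d * e + h) * (tot Z Φ (d * e) *
      (nu W y S (d * e) * |mu d| * (nu W y S (d' * e') * |mu d'|)))) * qq F n ≤
      qq F (i + i') * K * (∏ s ∈ range S, VS (bl W y s)) ^ 2 *
        (ind (IsCoprime e W) * GG W y S e * (ind (IsCoprime e' W) * GG W y S e'))

/-- C3: the sieve bound. -/
def SMass : Prop := ∀ (h W : F[X]) (n y S D R lo hi : ℕ) (K : ℝ) (ι : Type)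
  (Z : Finset ι) (M : ι → F[X]) (Φ : ι → F[X] → ℝ), Fam h n R lo hi Z M Φ →
  (∀ z ∈ Z, W ∣ M z) → W ≠ 0 → (∀ P : F[X], Irreducible P → P.natDegree ≤ 15 ∨ P ∣ h → P ∣ W) →
  (∀ f, 0 ≤ tot Z Φ f) → 0 ≤ K → Line h W (tot Z Φ) R K → W.natDegree ≤ y →
  8 ≤ y / 2 ^ S → y / 2 ^ S ≤ 15 → n ≤ D * y → h.natDegree < n →
    MassW (tot Z Φ) h n (16 * y + R)
      ((5 * D * Real.exp (Real.exp 14 + 2 * D)) ^ 2 * ((VS (pf W))⁻¹ ^ 2 * K)) (nu W y S)

/-- R1: the regions. -/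
def SCase : Prop := ∀ (Ψ ν κ : F[X] → ℝ) (h : F[X]) (n R T G E' E i i' : ℕ) (Q δ : ℝ) (ι : Type)
  (Z : Finset ι) (a b α : ι → F[X] → ℝ), h.natDegree < n → 0 ≤ δ → EstW Ψ h n G E' E δ →
  (∀ f ∈ monF F n, |Ψ f| ≤ 1) → Sieve n R Q ν κ Z a b α → DivB F Q n → (n : ℝ) + 2 ≤ Q →
  20 * (R + 2 * T) + 20 * E' ≤ G → G ≤ n → E ≤ E' → 1 ≤ E → i ≤ n → i' ≤ i →
    Thin n G (R + 2 * T) E' (E + 2 * T) i i' ∨
      |corr h n (tw Ψ (nl ν i')) (nl ν i) -
        qq F n * mcorr h (5 * n) (tw Ψ (tr κ (R + 2 * T) i')) (tr κ (R + 2 * T) i)| ≤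
        qq F T * Q ^ 7 * δ + 5 * Q ^ 11 * (2 * qq F n / qq F T) ∨
      (2 * (R + 2 * T) ≤ i ∧ |corr h n (tw Ψ (nl ν i')) (nl ν i)| ≤
        qq F T * Q ^ 7 * δ + 5 * Q ^ 11 * (2 * qq F n / qq F T))

/-- R2: summation over all pieces. -/
def STotal : Prop := ∀ (Ψ ν κ : F[X] → ℝ) (h : F[X]) (n R T G E' E Θ : ℕ) (Q δ C ε' Mn : ℝ)
  (ι : Type) (Z : Finset ι) (a b α : ι → F[X] → ℝ), h.natDegree < n → 0 ≤ δ →
  EstW Ψ h n G E' E δ → EstW (fun f => Ψ (f + h)) h n G E' E δ →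
  (∀ f ∈ monF F n, 0 ≤ Ψ f ∧ Ψ f ≤ 1) → Sieve n R Q ν κ Z a b α → DivB F Q n →
  (n : ℝ) + 2 ≤ Q → 20 * (R + 2 * T) + 20 * E' ≤ G → G ≤ n → E ≤ E' → 1 ≤ E →
  2 * (E + 2 * T) ≤ Θ → Θ ≤ n → 0 ≤ C → MassW Ψ h n (2 * R + E') C ν → 0 ≤ ε' →
  (∀ i i', i ≤ n → i' ≤ n → 2 * (R + 2 * T) ≤ i ∨ 2 * (R + 2 * T) ≤ i' →
    |mcorr h (5 * n) (tw Ψ (tr κ (R + 2 * T) i)) (tr κ (R + 2 * T) i')| ≤ ε') →
  ∑ i ∈ range (2 * (R + 2 * T)), ∑ i' ∈ range (2 * (R + 2 * T)), ((n : ℝ) - i) * ((n : ℝ) - i') *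
    mcorr h (5 * n) (tw Ψ (tr κ (R + 2 * T) i)) (tr κ (R + 2 * T) i') ≤ Mn →
    (n : ℝ) ^ 2 * ∑ f ∈ monF F n, Ψ f * ind (Irreducible f ∧ Irreducible (f + h)) ≤
      qq F n * Mn + 2 * Q ^ 4 * (qq F T * Q ^ 7 * δ + 5 * Q ^ 11 * (2 * qq F n / qq F T) +
        qq F n * ε') + 10 * ((E' : ℝ) ^ 2 + Θ * E' + (n : ℝ) ^ 2 * (E + 2 * T : ℕ) / Θ) *
          (C * qq F n / (n : ℝ) ^ 2)

/-- R3: the weighted twin prime bound, with the constant `C`. -/
def STwin (C : ℝ) : Prop := ∀ (N : ℕ) (h W : F[X]), 100000 ≤ N → h ≠ 0 → W ≠ 0 →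
  (∀ P : F[X], Irreducible P → P.natDegree ≤ 15 ∨ P ∣ h → P ∣ W) →
  ∃ H : ℕ, 0 < H ∧ ∃ n₀ : ℕ, ∀ n, n₀ ≤ n → ∀ (K : ℝ) (ι : Type) (Z : Finset ι) (M : ι → F[X])
    (Φ : ι → F[X] → ℝ), Fam h n (n / N ^ 2) (wlo (2 * N ^ 4) n) (whi (2 * N ^ 4) n) Z M Φ →
    (∀ z ∈ Z, W ∣ M z) → (∀ f, 0 ≤ tot Z Φ f) → 0 ≤ K → Line h W (tot Z Φ) (n / N ^ 2) K →
    Main W n Z M Φ K →
      (n : ℝ) ^ 2 * ∑ f ∈ monF F n, tot Z Φ f * ind (Irreducible f ∧ Irreducible (f + h)) ≤
        (1 + C / (N : ℝ) ^ 3) * (qq F n * ((VS (pf W))⁻¹ ^ 2 * K)) + qq F n / qq F (n / H)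

/-- E0: the local mean. -/
def SLocM : Prop := ∀ (κ : Type) [Fintype κ] [DecidableEq κ] (ρ : F[X] → κ → F[X])
  (J s s' : Finset κ) (W P c a : F[X]) (l : ℕ), Roots W ρ → P.Monic → Irreducible P → ¬ P ∣ W →
  ¬ P ∣ a → P.natDegree ≤ l → ¬ (s = ∅ ∧ s' = ∅) →
    𝔼 t : degreeLT F l, (∏ m ∈ s, psi ρ J P m (c + a * t.1)) * ∏ m ∈ s', psi ρ J P m (c + a * t.1) =
      ee (qq F P.natDegree) J s s'

open Classical in
/-- E1: the mean of one term along a line. -/
def STerm : Prop := ∀ (κ : Type) [Fintype κ] [DecidableEq κ] (ρ : F[X] → κ → F[X]) (J : Finset κ)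
  (Ps : Finset F[X]) (W x c a : F[X]) (Y : (Ps → Finset κ) → ℝ)
  (z : (Ps → Finset κ) × (Ps → Finset κ)) (S : Finset F[X]) (θ : F[X] → F[X] → ℝ) (l : ℕ),
  W.Monic → Good W Ps → Roots W ρ → IsCoprime a W →
  (∀ P ∈ Ps, P ∣ a → ∃ j ∈ J, P ∣ c - ρ P j) → Good W S → (∀ P ∈ S, Per P (θ P)) →
  (∀ P ∈ S, ¬ P ∣ a → ∀ t, (∀ j ∈ J, ¬ P ∣ c + a * t - ρ P j) → θ P t = 1) →
  (∀ P ∈ S, ¬ P ∣ a → 𝔼 t : degreeLT F l, θ P t.1 ≠ 0) →
  (md Ps W z).natDegree + ∑ P ∈ S, P.natDegree ≤ l →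
    𝔼 t : degreeLT F l, ph ρ J Ps W x Y z (c + a * t.1) * ∏ P ∈ S, θ P t.1 =
      1 / qq F W.natDegree * (∏ P ∈ S, 𝔼 t : degreeLT F l, θ P t.1) * (Y z.1 * Y z.2 *
        ∏ P : Ps, ker (nm Ps P) (if P.1 ∣ a then 0 else if P.1 ∈ S then
          (𝔼 t : degreeLT F l, θ P.1 t.1)⁻¹ else 1) J (z.1 P) (z.2 P))

/-- E2: the terms of the weight. -/
def SCard : Prop := ∀ (κ : Type) [Fintype κ] [DecidableEq κ] (ρ : F[X] → κ → F[X]) (J : Finset κ)
  (Ps : Finset F[X]) (W x : F[X]) (Y : (Ps → Finset κ) → ℝ) (D R : ℕ), Ctx ρ Ps W Y D R →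
    ((ZZ Ps Y).card : ℝ) ≤ qq F R ∧ (∀ f, wt ρ J Ps W x Y f = tot (ZZ Ps Y) (ph ρ J Ps W x Y) f) ∧
    ∀ z ∈ ZZ Ps Y, (md Ps W z).Monic ∧ (md Ps W z).natDegree ≤ R ∧
      Per (md Ps W z) (ph ρ J Ps W x Y z) ∧ (∀ f, |ph ρ J Ps W x Y z f| ≤ 1) ∧
      (∀ P : F[X], Irreducible P → P ∣ md Ps W z → P ∣ W ∨ ∃ P' ∈ Ps, P'.natDegree = P.natDegree) ∧
      ∀ f, ph ρ J Ps W x Y z f ≠ 0 → W ∣ f - x ∧ ∀ P ∈ Ps, P ∣ md Ps W z → ∀ j ∈ J, ¬ P ∣ f - ρ P j

/-- E3: the pointwise bound. -/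
def SBd : Prop := ∀ (κ : Type) [Fintype κ] [DecidableEq κ] (ρ : F[X] → κ → F[X]) (J : Finset κ)
  (Ps : Finset F[X]) (W x f : F[X]) (Y : (Ps → Finset κ) → ℝ) (n : ℕ) (τ : ℝ), Good W Ps →
  (∀ A, 0 ≤ Y A ∧ Y A ≤ 1) → (∀ P ∈ Ps, P.natDegree ≤ n) → 1 ≤ n → DivB F τ (5 * n) →
  (∀ l, ∃ g : F[X], g ≠ 0 ∧ g.natDegree ≤ 5 * n ∧ ∀ P ∈ Ps, P ∣ f - ρ P l → P ∣ g) →
    ∑ z ∈ ZZ Ps Y, |ph ρ J Ps W x Y z f| ≤ (τ * (3 * n) ^ 2) ^ (2 * Fintype.card κ)

/-- E4a: the weight belongs to the class. -/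
def SInstF : Prop := ∀ (κ : Type) [Fintype κ] [DecidableEq κ] (ρ : F[X] → κ → F[X]) (i j : κ)
  (Ps : Finset F[X]) (h W x : F[X]) (Y : (Ps → Finset κ) → ℝ) (D R n lo hi : ℕ) (B : ℝ),
  Ctx ρ Ps W Y D R → R ≤ n → (∀ P, ρ P i = 0) → (∀ P, ρ P j = h) → IsCoprime (x * (x + h)) W →
  (∀ P : F[X], Irreducible P → P ∣ h → P ∣ W) → W.natDegree < lo →
  (∀ P ∈ Ps, P.natDegree < lo ∨ hi < P.natDegree) → 0 < B →
  (∀ f ∈ monF F n, ∑ z ∈ ZZ Ps Y, |ph ρ {i, j} Ps W x Y z f| ≤ B) →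
    Fam h n R lo hi (ZZ Ps Y) (md Ps W) fun z f => ph ρ {i, j} Ps W x Y z f / B

/-- E4b: the bounds along lines and for the main term. -/
def SInstL : Prop := ∀ (κ : Type) [Fintype κ] [DecidableEq κ] (ρ : F[X] → κ → F[X]) (i j : κ)
  (Ps : Finset F[X]) (h W x : F[X]) (Y : (Ps → Finset κ) → ℝ) (D R n : ℕ) (B I : ℝ),
  Ctx ρ Ps W Y D R → R ≤ n → (∀ P, ρ P i = 0) → (∀ P, ρ P j = h) →
  (∀ P : F[X], Irreducible P → P.natDegree ≤ 15 → P ∣ W) → 0 < B →
  (∀ u, Adm0 (nm Ps) u → fm Ps u {i, j} Y ≤ I) →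
    Line h W (tot (ZZ Ps Y) fun z f => ph ρ {i, j} Ps W x Y z f / B) R
      (I / qq F W.natDegree / B) ∧
    Main W n (ZZ Ps Y) (md Ps W) (fun z f => ph ρ {i, j} Ps W x Y z f / B)
      (I / qq F W.natDegree / B)

/-- E5: from residue classes to the weight. -/
def SEq : Prop := ∀ (κ : Type) [Fintype κ] [DecidableEq κ] (ρ : F[X] → κ → F[X])
  (Ps : Finset F[X]) (W x : F[X]) (Y : (Ps → Finset κ) → ℝ) (D R n : ℕ), Ctx ρ Ps W Y D R →
  R ≤ n →
    ∑ f ∈ monF F n, wt ρ ∅ Ps W x Y f = qq F n / qq F W.natDegree * fm Ps (fun _ => 1) ∅ Y ∧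
    ∀ (j : κ) (π : F[X] → ℝ) (err : ℝ),
      (∀ S ⊆ Ps, (W * ∏ P ∈ S, P).natDegree ≤ R → ∀ y, W ∣ y - x → (∀ P ∈ S, ¬ P ∣ y - ρ P j) →
        |∑ f ∈ monF F n, π f * ind (W * ∏ P ∈ S, P ∣ f - y) -
          qq F n / qq F (W * ∏ P ∈ S, P).natDegree * (VS (pf (W * ∏ P ∈ S, P)))⁻¹| ≤ err) →
      |∑ f ∈ monF F n, π f * wt ρ {j} Ps W x Y f - qq F n / qq F W.natDegree * (VS (pf W))⁻¹ *
        fm Ps (fun P => (1 - 1 / nm Ps P)⁻¹) {j} Y| ≤ qq F (2 * R) * err

open Classical in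
/-- G1: the lower bound for the mass. -/
def SGlow : Prop := ∀ (W : F[X]) (lo hi D t : ℕ), W ≠ 0 → 1 ≤ lo → hi ≤ 16 * lo → t ≤ D →
  Real.exp (-32) * VS (pf W) * t ≤ mom (nm (prm F W lo hi D)) (dP (prm F W lo hi D)) (cut t)

open Classical in
/-- G2: the upper bounds for the mass. -/
def SGup : Prop := ∀ (W : F[X]) (lo hi D : ℕ), W ≠ 0 →
  (∀ t, 1 ≤ t → W.natDegree ≤ t →
    mom (nm (prm F W lo hi D)) (dP (prm F W lo hi D)) (cut t) ≤ Real.exp 3 * VS (pf W) * t) ∧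
  (1 ≤ D → W.natDegree ≤ D →
    ∏ P, (1 + 1 / (nm (prm F W lo hi D) P - 1)) ≤ Real.exp 3 * VS (pf W) * D) ∧
  ∀ w : ℕ, (∀ P : F[X], Irreducible P → P.natDegree ≤ w → P ∣ W) →
    ∑ P, 1 / nm (prm F W lo hi D) P ^ 2 ≤ 1 / 2 ^ w ∧ ∀ P, 2 ^ w ≤ nm (prm F W lo hi D) P

/-- P1: the bound of Weil for Dirichlet characters. -/
def SWeil : Prop := ∀ (M : F[X]) (χ : MulChar (AdjoinRoot M) ℂ) (n : ℕ), M.Monic → χ ≠ 1 → 1 ≤ n →
  ‖(n : ℂ) * ∑ P ∈ irrF F n, χ (AdjoinRoot.mk M P)‖ ≤ (M.natDegree + 2) * √(qq F n)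

/-- P2: primes in residue classes. -/
def SPnt : Prop := ∀ (M y : F[X]) (n : ℕ), M.Monic → M.natDegree < n → IsCoprime y M →
  |∑ f ∈ monF F n, n * ind (Irreducible f) * ind (M ∣ f - y) -
    qq F n / qq F M.natDegree * (VS (pf M))⁻¹| ≤ 4 * n * (qq F n / qq F (n / 2))

/-- P3: prime values of the quadratic form in residue classes. -/
def SQap : Prop := ∀ (C n₀ n n' : ℕ) (a c d M M' y v : F[X]),
  Pool.Agent.MP_f37147_nt.CoreSt F C n₀ → ¬ IsSquare (a * c) → M.Monic → M = d * M' →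
  (∀ P : F[X], Irreducible P → P ∣ a * d → P ∣ M') → a * y ^ 2 + c = d * v → IsCoprime v M' →
  n = n' + M.natDegree → n₀ ≤ n' → a.natDegree + 2 * M.natDegree ≤ n' / C →
  c.natDegree ≤ n' / C →
    |∑ f ∈ monF F n, (2 * n + a.natDegree - d.natDegree : ℝ) *
      ind (∃ Q, Irreducible Q ∧ a * f ^ 2 + c = d * Q) * ind (M ∣ f - y) -
      qq F n / qq F M.natDegree * (VS (pf M))⁻¹| ≤ qq F n / qq F (n' / C)

/-- F2: the choice of the modulus and of the roots. -/
def SRoot : Prop := ∀ (k w : ℕ) (a c d x₀ y₀ : F[X]) (h : Fin k → F[X]), Function.Injective h →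
  d ≠ 0 → ¬ IsSquare (a * c) → a * x₀ ^ 2 + c = d * y₀ →
  (∀ R : F[X], Irreducible R → ∃ t, ¬ R ∣ y₀ + a * d * t ^ 2 ∧ ∀ l, ¬ R ∣ x₀ + d * t + h l) →
    ∃ (W W' x v : F[X]) (ρ : F[X] → Option (Fin k) → F[X]), W.Monic ∧ W = d * W' ∧
      (∀ P : F[X], Irreducible P → P.natDegree ≤ w ∨ P ∣ a * d → P ∣ W') ∧
      (∀ l l', l ≠ l' → ∀ P : F[X], Irreducible P → P ∣ h l + h l' → P ∣ W) ∧
      a * x ^ 2 + c = d * v ∧ IsCoprime v W' ∧ (∀ l, IsCoprime (x + h l) W) ∧ Roots W ρ ∧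
      (∀ P l, ρ P (some l) = h l) ∧
      ∀ P : F[X], Irreducible P → ¬ P ∣ W → ∀ f, P ∣ f - ρ P none ↔ P ∣ a * f ^ 2 + c

/-- T1: one linear form is prime. -/
def SOne : Prop := ∀ (κ : Type) [Fintype κ] [DecidableEq κ] (ρ : F[X] → κ → F[X]) (j : κ)
  (Ps : Finset F[X]) (h W x : F[X]) (Y : (Ps → Finset κ) → ℝ) (D R n : ℕ), Ctx ρ Ps W Y D R →
  R < n → h.natDegree < n → (∀ P ∈ Ps, P.natDegree < n) → (∀ P, ρ P j = h) →
  IsCoprime (x + h) W →
    qq F n / qq F W.natDegree * (VS (pf W))⁻¹ * fm Ps (fun P => (1 - 1 / nm Ps P)⁻¹) {j} Y -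
      qq F (2 * R) * (4 * n * (qq F n / qq F (n / 2))) ≤
      n * ∑ f ∈ monF F n, wt ρ ∅ Ps W x Y f * ind (Irreducible (f + h))

/-- T2: the quadratic form is prime. -/
def SQuad : Prop := ∀ (κ : Type) [Fintype κ] [DecidableEq κ] (ρ : F[X] → κ → F[X]) (j : κ)
  (Ps : Finset F[X]) (a c d W W' x v : F[X]) (Y : (Ps → Finset κ) → ℝ) (D R n C n₀ : ℕ),
  Pool.Agent.MP_f37147_nt.CoreSt F C n₀ → Ctx ρ Ps W Y D R → R < n →
  (∀ P ∈ Ps, P.natDegree < n) → ¬ IsSquare (a * c) → W = d * W' →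
  (∀ P : F[X], Irreducible P → P ∣ a * d → P ∣ W') → a * x ^ 2 + c = d * v → IsCoprime v W' →
  (∀ P : F[X], Irreducible P → ¬ P ∣ W → ∀ f, P ∣ f - ρ P j ↔ P ∣ a * f ^ 2 + c) →
  n₀ + R ≤ n → a.natDegree + 2 * R ≤ (n - R) / C → c.natDegree ≤ (n - R) / C →
    qq F n / qq F W.natDegree * (VS (pf W))⁻¹ * fm Ps (fun P => (1 - 1 / nm Ps P)⁻¹) {j} Y -
      qq F (2 * R) * (qq F n / qq F ((n - R) / C)) ≤
      (2 * n + a.natDegree - d.natDegree : ℝ) * ∑ f ∈ monF F n,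
        wt ρ ∅ Ps W x Y f * ind (∃ Q, Irreducible Q ∧ a * f ^ 2 + c = d * Q)

/-- T3: two linear forms are prime. -/
def SPair (C : ℝ) : Prop := ∀ (κ : Type) [Fintype κ] [DecidableEq κ] (N : ℕ) (s s' W : F[X]),
  100000 ≤ N → s ≠ s' → W ≠ 0 →
  (∀ P : F[X], Irreducible P → P.natDegree ≤ 15 ∨ P ∣ s + s' → P ∣ W) →
  ∃ H : ℕ, 0 < H ∧ ∃ n₀ : ℕ, ∀ n, n₀ ≤ n → ∀ (ρ : F[X] → κ → F[X]) (i j : κ) (Ps : Finset F[X])
    (x : F[X]) (Y : (Ps → Finset κ) → ℝ) (D : ℕ) (I : ℝ), Ctx ρ Ps W Y D (n / N ^ 2) →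
    (∀ P, ρ P i = s) → (∀ P, ρ P j = s') → IsCoprime (x + s) W → IsCoprime (x + s') W →
    (∀ P ∈ Ps, P.natDegree < n ∧
      (P.natDegree < wlo (2 * N ^ 4) n ∨ whi (2 * N ^ 4) n < P.natDegree)) →
    (∀ f ∈ monF F n, ∀ l, ∃ g : F[X], g ≠ 0 ∧ g.natDegree ≤ 5 * n ∧
      ∀ P ∈ Ps, P ∣ f - ρ P l → P ∣ g) → 0 ≤ I → (∀ u, Adm0 (nm Ps) u → fm Ps u {i, j} Y ≤ I) →
      (n : ℝ) ^ 2 * ∑ f ∈ monF F n,
        wt ρ ∅ Ps W x Y f * ind (Irreducible (f + s) ∧ Irreducible (f + s')) ≤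
        (1 + C / (N : ℝ) ^ 3) * (qq F n * ((VS (pf W))⁻¹ ^ 2 * (I / qq F W.natDegree))) +
          qq F n / qq F (n / H)

/-- F3: joint admissibility of congruent shifts. -/
def SAdm : Prop := ∀ (k : ℕ) (a c d : F[X]) (h x y : Fin k → F[X]) (l₀ : Fin k), IsCoprime a d →
  (∀ l, a * x l ^ 2 + (c + a * h l ^ 2) = d * y l ∧ IsCoprime (x l * y l) (a * d) ∧
    (Fintype.card F = 2 → IsCoprime (x l * y l) (X * (X + 1)))) →
  (∀ R : F[X], Irreducible R → Fintype.card F ^ R.natDegree ≤ k + 1 → ∀ l, R ∣ h l - h l₀) →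
    ∀ R : F[X], Irreducible R →
      ∃ t, ¬ R ∣ y l₀ + a * d * t ^ 2 ∧ ∀ l, ¬ R ∣ x l₀ + h l₀ + d * t + h l

/-- The theorem for tuples of `k` shifts. -/
def STuple (k : ℕ) : Prop := ∀ (a c d x₀ y₀ : F[X]) (h : Fin k → F[X]), Function.Injective h →
  d ≠ 0 → ¬ IsSquare (a * c) → a * x₀ ^ 2 + c = d * y₀ →
  (∀ R : F[X], Irreducible R → ∃ t, ¬ R ∣ y₀ + a * d * t ^ 2 ∧ ∀ l, ¬ R ∣ x₀ + d * t + h l) →
    ∃ n₀ : ℕ, ∀ n, n₀ ≤ n → ∃ f ∈ monF F n, (∃ Q, Irreducible Q ∧ a * f ^ 2 + c = d * Q) ∧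
      ∃ l, Irreducible (f + h l)

/-- The final statement, with the bound `K`. -/
def SFinal (K : ℕ) : Prop := ∀ a c d : F[X], d ≠ 0 → ¬ IsSquare (a * c) →
  {h : F[X] | (∃ x y : F[X], a * x ^ 2 + (c + a * h ^ 2) = d * y ∧ IsCoprime (x * y) (a * d) ∧
      (Fintype.card F = 2 → IsCoprime (x * y) (X * (X + 1)))) ∧
    {p : F[X] × F[X] | p.1.Monic ∧ Irreducible p.1 ∧ Irreducible p.2 ∧
      a * p.1 ^ 2 + (c + a * h ^ 2) = d * p.2}.Finite}.encard ≤ K

end Steps

end Pool.Agent.PPf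

end

section

/- Prime pairs over `F[X]`: basic facts on families of weights. -/

set_option autoImplicit false
set_option linter.unusedSectionVars false

namespace Pool.Agent.PPf

open Polynomial Finset Pool.Agent.MP_4fffd4_nt Pool.Agent.MP_c853c5_nt Pool.Agent.MP_43e117_nt
open scoped BigOperators

variable {F : Type} [Field F] [Fintype F]

theorem add_add_self [CharP F 2] (f h : F[X]) : f + h + h = f := by
  have h2 : (2 : F[X]) = 0 := by exact_mod_cast CharP.cast_eq_zero F[X] 2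
  linear_combination h * h2

theorem add_mem_mon {h f : F[X]} {n : ℕ} (hn : h.degree < n) (hf : f ∈ monF F n) :
    f + h ∈ monF F n := by
  obtain ⟨h1, h2⟩ := mem_monF.1 hf
  have : h.degree < f.degree := by rwa [degree_eq_natDegree h1.ne_zero, h2]
  exact mem_monF.2 ⟨h1.add_of_left this, by rw [natDegree_add_eq_left_of_degree_lt this, h2]⟩

theorem corr_swap [CharP F 2] {h : F[X]} {n : ℕ} (hn : h.degree < n) (Ψ A B : F[X] → ℝ) :
    corr h n (tw Ψ A) B = corr h n (tw (fun f => Ψ (f + h)) B) A := by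
  rw [corr_comm hn]
  exact Finset.sum_congr rfl fun f _ => by simp only [tw]; ring

theorem mcorr_swap [CharP F 2] {h : F[X]} {N : ℕ} (hn : h.degree < N) (Ψ A B : F[X] → ℝ) :
    mcorr h N (tw Ψ A) B = mcorr h N (tw (fun f => Ψ (f + h)) B) A := by
  rw [mcorr_comm hn]
  exact Finset.expect_congr rfl fun f _ => by simp only [tw]; ring

variable {h : F[X]} {n R lo hi : ℕ} {ι : Type} {Z : Finset ι} {M : ι → F[X]} {Φ : ι → F[X] → ℝ}

theorem Fam.shift [CharP F 2] (H : Fam h n R lo hi Z M Φ) (hn : h.degree < n) :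
    Fam h n R lo hi Z M fun z f => Φ z (f + h) :=
  ⟨H.hR, H.mon, H.deg, fun z hz f t => by
      have := H.per z hz (f + h) t
      rwa [add_right_comm] at this,
    fun z hz f hf => by
      have := H.supp z hz _ hf
      rwa [add_add_self, mul_comm] at this,
    H.hdv, H.win, fun f hf => H.bd _ (add_mem_mon hn hf), H.card⟩

theorem tot_shift (Z : Finset ι) (Φ : ι → F[X] → ℝ) (h : F[X]) :
    (tot Z fun z f => Φ z (f + h)) = fun f => tot Z Φ (f + h) := rfl

theorem Fam.abs_tot (H : Fam h n R lo hi Z M Φ) {f : F[X]} (hf : f ∈ monF F n) :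
    |tot Z Φ f| ≤ 1 := (Finset.abs_sum_le_sum_abs _ _).trans (H.bd f hf)

theorem Fam.abs_le (H : Fam h n R lo hi Z M Φ) {z : ι} (hz : z ∈ Z) (f : F[X]) : |Φ z f| ≤ 1 := by
  have hm := H.mon z hz
  have h1 : ((f - X ^ n) %ₘ M z).degree < n := (degree_modByMonic_lt _ hm).trans_le
    (degree_le_natDegree.trans (by exact_mod_cast (H.deg z hz).trans H.hR))
  have h2 : X ^ n + (f - X ^ n) %ₘ M z ∈ monF F n :=
    add_mem_mon h1 (mem_monF.2 ⟨monic_X_pow n, natDegree_X_pow n⟩)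
  have h3 : f = X ^ n + (f - X ^ n) %ₘ M z + M z * ((f - X ^ n) /ₘ M z) := by
    linear_combination -modByMonic_add_div (f - X ^ n) (M z)
  rw [h3, H.per z hz]
  exact (Finset.single_le_sum (f := fun z' => |Φ z' (X ^ n + (f - X ^ n) %ₘ M z)|)
    (fun _ _ => abs_nonneg _) hz).trans (H.bd _ h2)

theorem Fam.sum_mean (H : Fam h n R lo hi Z M Φ) {l : ℕ} (hl : R ≤ l) :
    ∑ z ∈ Z, |𝔼 f : degreeLT F l, Φ z f.1| ≤ 1 := by
  have hq := qq_pos (F := F) n
  refine le_of_mul_le_mul_left ?_ hq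
  rw [Finset.mul_sum, mul_one]
  refine le_trans (Finset.sum_le_sum fun z hz => ?_)
    ((Finset.sum_comm.trans_le (Finset.sum_le_sum H.bd)).trans_eq (sum_one_monF n))
  rw [← abs_of_pos hq, ← abs_mul, ← sum_monF_per (H.mon z hz).ne_zero (H.per z hz)
    ((H.deg z hz).trans H.hR) ((H.deg z hz).trans hl)]
  exact Finset.abs_sum_le_sum_abs _ _

theorem Fam.not_dvd (H : Fam h n R lo hi Z M Φ) {d : ℕ} (h1 : lo ≤ d) (h2 : d ≤ hi) {z : ι}
    (hz : z ∈ Z) {P : F[X]} (hP : P ∈ irrF F d) : ¬ P ∣ M z := fun e => by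
  obtain ⟨-, a, b⟩ := mem_irrF.1 hP
  have := H.win z hz P b e
  omega

theorem MassW.mono {Ψ ν : F[X] → ℝ} {Q Q' : ℕ} {C : ℝ} (H : MassW Ψ h n Q C ν) (hQ : Q ≤ Q') :
    MassW Ψ h n Q' C ν := fun i i' a b c => H i i' a b (by omega)

variable {κ : Type} [Fintype κ] [DecidableEq κ]

theorem wt_nonneg (ρ : F[X] → κ → F[X]) (J : Finset κ) (Ps : Finset F[X]) (W x : F[X])
    (Y : (Ps → Finset κ) → ℝ) (f : F[X]) : 0 ≤ wt ρ J Ps W x Y f :=
  mul_nonneg (ind_nonneg _) (sq_nonneg _)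

theorem wt_good {ρ : F[X] → κ → F[X]} {J : Finset κ} {Ps : Finset F[X]} (W x : F[X])
    (Y : (Ps → Finset κ) → ℝ) {f : F[X]} (H : ∀ P ∈ Ps, ∀ j ∈ J, ¬ P ∣ f - ρ P j) :
    wt ρ J Ps W x Y f = wt ρ ∅ Ps W x Y f := by
  have e : ∀ A, lamA ρ J Ps A f = lamA ρ ∅ Ps A f := fun A =>
    Finset.prod_congr rfl fun P _ => Finset.prod_congr rfl fun l _ => by
      rw [psi, psi, ind_pos (H P.1 P.2), ind_pos (by simp)]
  simp only [wt, e]

theorem wt_shift (ρ : F[X] → κ → F[X]) (J : Finset κ) (Ps : Finset F[X]) (W x s : F[X])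
    (Y : (Ps → Finset κ) → ℝ) (f : F[X]) :
    wt (fun P l => ρ P l + s) J Ps W (x + s) Y (f + s) = wt ρ J Ps W x Y f := by
  have e : ∀ P l, psi (fun P l => ρ P l + s) J P l (f + s) = psi ρ J P l f := fun P l => by
    rw [psi, psi, add_sub_add_right_eq_sub]
    simp only [add_sub_add_right_eq_sub]
  rw [wt, wt, add_sub_add_right_eq_sub]
  simp only [lamA, e]

theorem Ctx.shift {ρ : F[X] → κ → F[X]} {Ps : Finset F[X]} {W : F[X]}
    {Y : (Ps → Finset κ) → ℝ} {D R : ℕ} (H : Ctx ρ Ps W Y D R) (s : F[X]) :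
    Ctx (fun P l => ρ P l + s) Ps W Y D R :=
  ⟨H.mon, H.good, fun P a b l l' e => H.roots P a b l l' (by
    rwa [add_sub_add_right_eq_sub] at e), H.y01, H.lev, H.hW, H.hK⟩

end Pool.Agent.PPf

end

section

/- Prime pairs over `F[X]`: a periodic weight factors out of the model. -/

set_option autoImplicit false
set_option linter.unusedSectionVars false

namespace Pool.Agent.PPf

open Polynomial Finset Pool.Agent.MP_4fffd4_nt Pool.Agent.MP_c853c5_nt Pool.Agent.MP_43e117_nt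
open scoped BigOperators

namespace FactX

variable {F : Type} [Field F] [Fintype F]

/-- The weight factors out against `g` times any periodic function of small modulus. -/
def Q (M : F[X]) (Φ : F[X] → ℝ) (N k : ℕ) (g : F[X] → ℝ) : Prop :=
  ∀ (m : F[X]) (ψ : F[X] → ℝ), m ≠ 0 → IsCoprime M m → Per m ψ → m.natDegree ≤ k →
    𝔼 f : degreeLT F N, Φ f.1 * (g f.1 * ψ f.1) =
      (𝔼 f : degreeLT F N, Φ f.1) * 𝔼 f : degreeLT F N, g f.1 * ψ f.1

variable {M : F[X]} {Φ g : F[X] → ℝ} {N k : ℕ}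

theorem Q_one (hM : M ≠ 0) (hΦ : Per M Φ) (hk : M.natDegree + k ≤ N) :
    Q M Φ N k fun _ => 1 := fun m ψ hm hc hψ hd => by
  simp only [one_mul]
  exact expect_mul_coprime hM hm hc hΦ hψ (by omega)

theorem Q_mono {k' : ℕ} (H : Q M Φ N k g) (hk : k' ≤ k) : Q M Φ N k' g :=
  fun m ψ hm hc hψ hd => H m ψ hm hc hψ (hd.trans hk)

theorem Q_sum {ι : Type} (S : Finset ι) (G : ι → F[X] → ℝ) (H : ∀ x ∈ S, Q M Φ N k (G x)) :
    Q M Φ N k fun f => ∑ x ∈ S, G x f := fun m ψ hm hc hψ hd => by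
  simp only [Finset.sum_mul, Finset.mul_sum, Finset.expect_sum_comm]
  exact Finset.sum_congr rfl fun x hx => H x hx m ψ hm hc hψ hd

theorem Q_ind {i : ℕ} (H : Q M Φ N (k + i) g) {D : F[X]} (hD : D ∈ monF F i) (c : ℝ) (s : F[X]) :
    Q M Φ N k fun f => g f * (ind (D ∣ f + s) * (c * ind (IsCoprime D M))) := by
  intro m ψ hm hc hψ hd
  obtain ⟨h1, h2⟩ := mem_monF.1 hD
  by_cases hDM : IsCoprime D M
  · have hp : Per (m * D) fun f => ind (D ∣ f + s) * (c * ind (IsCoprime D M)) * ψ f := by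
      intro f t
      have e1 : ψ (f + m * D * t) = ψ f := by rw [mul_assoc, hψ]
      have e2 : D ∣ f + m * D * t + s ↔ D ∣ f + s := by
        rw [show f + m * D * t + s = f + s + D * (m * t) by ring]
        exact dvd_add_left (dvd_mul_right _ _)
      simp only [e1, e2]
    have := H (m * D) _ (mul_ne_zero hm h1.ne_zero) (hc.mul_right hDM.symm) hp
      (natDegree_mul_le.trans (by omega))
    simpa only [mul_assoc] using this
  · simp [ind_neg hDM]

theorem Q_up {i : ℕ} (H : Q M Φ N (k + i) g) (a : F[X] → ℝ) (s : F[X]) :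
    Q M Φ N k fun f => g f * up (fun d => a d * ind (IsCoprime d M)) i (f + s) := by
  simp only [up, Finset.mul_sum]
  exact Q_sum _ _ fun D hD => Q_ind H hD _ s

theorem Q_upLE {R : ℕ} (H : Q M Φ N (k + R) g) (a : F[X] → ℝ) (s : F[X]) :
    Q M Φ N k fun f => g f * upLE (fun d => a d * ind (IsCoprime d M)) R (f + s) := by
  simp only [upLE, Finset.mul_sum]
  exact Q_sum _ _ fun t ht =>
    Q_up (Q_mono H (by have := Finset.mem_range.1 ht; omega)) a s

theorem Q_trM {R i : ℕ} (H : Q M Φ N (k + R + i) g) (κ : F[X] → ℝ) (s : F[X]) :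
    Q M Φ N k fun f => g f * trM M κ R i (f + s) := by
  have := Q_upLE (Q_up H mu s) κ s
  simpa only [trM, mul_assoc] using this

theorem up_cop {f : F[X]} (hf : IsCoprime f M) (a : F[X] → ℝ) (i : ℕ) :
    up a i f = up (fun d => a d * ind (IsCoprime d M)) i f :=
  Finset.sum_congr rfl fun D _ => by
    by_cases hD : D ∣ f
    · simp only [ind_pos (hf.of_isCoprime_of_dvd_left hD), mul_one]
    · rw [ind_neg hD, zero_mul, zero_mul]

theorem tr_cop {f : F[X]} (hf : IsCoprime f M) (κ : F[X] → ℝ) (R i : ℕ) :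
    tr κ R i f = trM M κ R i f := by
  rw [tr, trM, up_cop hf, upLE, upLE]
  exact congrArg _ (Finset.sum_congr rfl fun t _ => up_cop hf κ t)

end FactX

variable (F : Type) [Field F] [Fintype F] [CharP F 2]

theorem sFact : SFact F := by
  intro h M Φ κ N R i i' hM hΦ hs hN
  have H0 : FactX.Q M Φ N (0 + R + i' + R + i) fun _ => 1 :=
    FactX.Q_one hM.ne_zero hΦ (by omega)
  have H := FactX.Q_trM (FactX.Q_trM H0 κ 0) κ h 1 (fun _ => 1) one_ne_zero isCoprime_one_right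
    (fun _ _ => rfl) (by simp)
  simp only [one_mul, mul_one, add_zero] at H
  rw [mcorr, mcorr, ← H]
  refine Finset.expect_congr rfl fun f _ => ?_
  by_cases h0 : Φ f.1 = 0
  · simp [tw, h0]
  · have hc := hs _ h0
    rw [tw, FactX.tr_cop hc.of_mul_left_left, FactX.tr_cop hc.of_mul_left_right, mul_assoc]

end Pool.Agent.PPf

end

section

/- Prime pairs over `F[X]`: the local mean of a product of local functions. -/

set_option autoImplicit false
set_option linter.unusedSectionVars false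

namespace Pool.Agent.PPf

open Polynomial Finset Pool.Agent.MP_4fffd4_nt Pool.Agent.MP_c853c5_nt Pool.Agent.MP_43e117_nt
open scoped BigOperators

namespace LocMX

variable {F : Type} [Field F] [Fintype F] {κ : Type} [Fintype κ] [DecidableEq κ]

theorem point {ρ : F[X] → κ → F[X]} {J s s' : Finset κ} {P : F[X]}
    (hr : ∀ l l', P ∣ ρ P l - ρ P l' → l = l') (hs : ¬ (s = ∅ ∧ s' = ∅)) (f : F[X]) :
    (∏ m ∈ s, psi ρ J P m f) * ∏ m ∈ s', psi ρ J P m f =
      ∑ l ∈ Jᶜ, ind (P ∣ f - ρ P l) *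
        ((∏ m ∈ s, vv (qq F P.natDegree) l m) * ∏ m ∈ s', vv (qq F P.natDegree) l m) +
      (1 - ∑ l, ind (P ∣ f - ρ P l)) * (1 / (qq F P.natDegree - 1)) ^ (s.card + s'.card) := by
  by_cases h : ∃ l₀, P ∣ f - ρ P l₀
  · obtain ⟨l₀, h₀⟩ := h
    have hu : ∀ l, P ∣ f - ρ P l → l₀ = l := fun l hl => hr _ _ (by
      have := dvd_sub hl h₀
      rwa [sub_sub_sub_cancel_left] at this)
    have h1 : ∑ l, ind (P ∣ f - ρ P l) = 1 := by
      rw [Finset.sum_eq_single l₀ (fun l _ hl => ind_neg fun e => hl (hu l e).symm)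
        (fun e => absurd (Finset.mem_univ _) e), ind_pos h₀]
    rw [h1, sub_self, zero_mul, add_zero]
    by_cases hJ : l₀ ∈ J
    · have h2 : ∀ m, psi ρ J P m f = 0 := fun m => by
        rw [psi, ind_neg fun e => e l₀ hJ h₀, zero_mul]
      have h3 : ∀ t : Finset κ, t ≠ ∅ → ∏ m ∈ t, psi ρ J P m f = 0 := fun t ht => by
        obtain ⟨m, hm⟩ := Finset.nonempty_iff_ne_empty.2 ht
        exact Finset.prod_eq_zero hm (h2 m)
      rw [Finset.sum_eq_zero fun l hl => by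
        rw [ind_neg fun e => Finset.mem_compl.1 hl (hu l e ▸ hJ), zero_mul]]
      by_cases e : s = ∅
      · rw [h3 s' fun e' => hs ⟨e, e'⟩, mul_zero]
      · rw [h3 s e, zero_mul]
    · have h2 : ∀ m, psi ρ J P m f = vv (qq F P.natDegree) l₀ m := fun m => by
        rw [psi, vv, ind_pos fun j hj e => hJ (hu j e ▸ hj), one_mul]
        by_cases e : l₀ = m
        · rw [if_pos e, if_pos (e ▸ h₀)]
        · rw [if_neg e, if_neg fun e' => e (hu m e')]
      rw [Finset.sum_eq_single l₀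
        (fun l _ hl => by rw [ind_neg fun e => hl (hu l e).symm, zero_mul])
        (fun e => absurd (Finset.mem_compl.2 hJ) e), ind_pos h₀, one_mul]
      simp only [h2]
  · have h0 : ∀ l, ¬ P ∣ f - ρ P l := fun l e => h ⟨l, e⟩
    have h1 : ∀ l, ind (P ∣ f - ρ P l) = 0 := fun l => ind_neg (h0 l)
    have h2 : ∀ m, psi ρ J P m f = 1 / (qq F P.natDegree - 1) := fun m => by
      rw [psi, ind_pos fun j _ => h0 j, one_mul, if_neg (h0 m)]
    simp only [h1, h2, zero_mul, Finset.sum_const_zero, Finset.prod_const, sub_zero, one_mul,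
      zero_add, pow_add]

end LocMX

variable (F : Type) [Field F] [Fintype F] [CharP F 2]

theorem sLocM : SLocM F := by
  intro κ _ _ ρ J s s' W P c a l hρ hm hi hW ha hl hs
  have hc : IsCoprime a P := (hi.coprime_iff_not_dvd.2 ha).symm
  have h1 : ∀ j, 𝔼 t : degreeLT F l, ind (P ∣ c + a * t.1 - ρ P j) = 1 / qq F P.natDegree := by
    intro j
    rw [← expect_lin hm hc (c - ρ P j) hl]
    refine Finset.expect_congr rfl fun t _ => ?_
    rw [show c + a * t.1 - ρ P j = a * t.1 + (c - ρ P j) by ring]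
  have hq := qq_pos (F := F) P.natDegree
  simp only [LocMX.point (hρ P hi hW) hs]
  rw [Finset.expect_add_distrib, Finset.expect_sum_comm, ← Finset.expect_mul,
    Finset.expect_sub_distrib, Finset.expect_sum_comm, Finset.expect_const Finset.univ_nonempty]
  simp only [← Finset.expect_mul, h1]
  rw [ee, ← Finset.mul_sum, Finset.sum_const, Finset.card_univ, nsmul_eq_mul]
  field_simp

end Pool.Agent.PPf

end

section

/- Prime pairs over `F[X]`: the mean of one term of the weight along a line. -/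

set_option autoImplicit false
set_option linter.unusedSectionVars false

namespace Pool.Agent.PPf

open Polynomial Finset Pool.Agent.MP_4fffd4_nt Pool.Agent.MP_c853c5_nt Pool.Agent.MP_43e117_nt
open scoped BigOperators

namespace TermX

variable {F : Type} [Field F] [Fintype F]

theorem fac1 {W : F[X]} (hW : W.Monic) {T : Finset F[X]} (hT : Good W T) {Φ : F[X] → ℝ}
    (hΦ : Per W Φ) {G : F[X] → F[X] → ℝ} (hG : ∀ P ∈ T, Per P (G P)) {l : ℕ}
    (hl : W.natDegree + ∑ P ∈ T, P.natDegree ≤ l) :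
    𝔼 t : degreeLT F l, Φ t.1 * ∏ P ∈ T, G P t.1 =
      (𝔼 t : degreeLT F l, Φ t.1) * ∏ P ∈ T, 𝔼 t : degreeLT F l, G P t.1 := by
  have h0 : ∀ P ∈ T, P ≠ 0 := fun P hP => (hT P hP).1.ne_zero
  rw [← expect_prod_coprime T (fun P => P) h0 (fun P hP Q hQ hne =>
    (hT P hP).2.1.coprime_iff_not_dvd.2 fun h => hne (eq_of_monic_of_associated (hT P hP).1
      (hT Q hQ).1 ((hT P hP).2.1.associated_of_dvd (hT Q hQ).2.1 h))) G hG (by omega)]
  refine expect_mul_coprime hW.ne_zero (Finset.prod_ne_zero_iff.2 h0)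
    (IsCoprime.prod_right fun P hP => ((hT P hP).2.1.coprime_iff_not_dvd.2 (hT P hP).2.2).symm) hΦ
    (Ψ := fun f => ∏ P ∈ T, G P f) (fun f t => Finset.prod_congr rfl fun P hP => ?_)
    (by rwa [natDegree_prod _ _ h0])
  obtain ⟨c, hc⟩ := Finset.dvd_prod_of_mem (fun P : F[X] => P) hP
  rw [hc, mul_assoc, hG P hP]

open Classical in
theorem fac2 {W : F[X]} (hW : W.Monic) {A S : Finset F[X]} (hA : Good W A) (hS : Good W S)
    (hd : Disjoint A S) {Φ : F[X] → ℝ} (hΦ : Per W Φ) {g θ : F[X] → F[X] → ℝ}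
    (hg : ∀ P ∈ A, Per P (g P)) (hθ : ∀ P ∈ S, Per P (θ P)) {l : ℕ}
    (hl : W.natDegree + ∑ P ∈ A, P.natDegree + ∑ P ∈ S, P.natDegree ≤ l) :
    𝔼 t : degreeLT F l, Φ t.1 * ((∏ P ∈ A, g P t.1) * ∏ P ∈ S, θ P t.1) =
      (𝔼 t : degreeLT F l, Φ t.1) * ((∏ P ∈ A, 𝔼 t : degreeLT F l, g P t.1) *
        ∏ P ∈ S, 𝔼 t : degreeLT F l, θ P t.1) := by
  have h := fac1 hW (T := A ∪ S) (fun P hP => (mem_union.1 hP).elim (hA P) (hS P)) hΦ
    (G := fun P => if P ∈ A then g P else θ P) (fun P hP => by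
      by_cases h : P ∈ A
      · rw [if_pos h]
        exact hg P h
      · rw [if_neg h]
        exact hθ P ((mem_union.1 hP).resolve_left h)) (l := l) (by rw [sum_union hd]; omega)
  have e : ∀ f : F[X] → (F[X] → ℝ) → ℝ, ∏ P ∈ A ∪ S, f P (if P ∈ A then g P else θ P) =
      (∏ P ∈ A, f P (g P)) * ∏ P ∈ S, f P (θ P) := fun f => by
    rw [prod_union hd, prod_congr rfl fun P hP => by rw [if_pos hP],
      prod_congr rfl fun P (hP : P ∈ S) => by rw [if_neg (disjoint_right.1 hd hP)]]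
  rw [e fun _ u => 𝔼 t : degreeLT F l, u t.1] at h
  rw [← h]
  exact Finset.expect_congr rfl fun t _ => by rw [e fun _ u => u t.1]

variable {κ : Type} [Fintype κ] [DecidableEq κ]

theorem psi_per (ρ : F[X] → κ → F[X]) (J : Finset κ) (P c a : F[X]) (m : κ) (f t : F[X]) :
    psi ρ J P m (c + a * (f + P * t)) = psi ρ J P m (c + a * f) := by
  have e : ∀ r, P ∣ c + a * (f + P * t) - r ↔ P ∣ c + a * f - r := fun r => by
    rw [show c + a * (f + P * t) - r = c + a * f - r + P * (a * t) by ring]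
    exact dvd_add_left (dvd_mul_right _ _)
  unfold psi
  simp only [e]
  by_cases h : P ∣ c + a * f - ρ P m
  · rw [if_pos h, if_pos ((e _).2 h)]
  · rw [if_neg h, if_neg (mt (e _).1 h)]

theorem loc_zero {ρ : F[X] → κ → F[X]} {J s s' : Finset κ} {P f : F[X]} (h : s ≠ ∅ ∨ s' ≠ ∅)
    (hf : ¬ ∀ j ∈ J, ¬ P ∣ f - ρ P j) :
    (∏ m ∈ s, psi ρ J P m f) * ∏ m ∈ s', psi ρ J P m f = 0 := by
  have e : ∀ m, psi ρ J P m f = 0 := fun m => by rw [psi, ind_neg hf, zero_mul]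
  rcases h with h | h <;> obtain ⟨m, hm⟩ := nonempty_iff_ne_empty.2 h
  · rw [prod_eq_zero hm (e m), zero_mul]
  · rw [prod_eq_zero hm (e m), mul_zero]

end TermX

variable (F : Type) [Field F] [Fintype F] [CharP F 2]

open TermX Classical in
theorem sTerm (h : SLocM F) : STerm F := by
  intro κ _ _ ρ J Ps W x c a Y z S θ l hW hPs hρ ha hpa hS hθ hθ1 hθ0 hl
  obtain ⟨s, hs⟩ : ∃ s : F[X] → Finset κ, ∀ P : Ps, z.1 P = s P.1 :=
    ⟨fun P => if h : P ∈ Ps then z.1 ⟨P, h⟩ else ∅, fun P => by simp only [dif_pos P.2]⟩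
  obtain ⟨s', hs'⟩ : ∃ s : F[X] → Finset κ, ∀ P : Ps, z.2 P = s P.1 :=
    ⟨fun P => if h : P ∈ Ps then z.2 ⟨P, h⟩ else ∅, fun P => by simp only [dif_pos P.2]⟩
  obtain ⟨A, hA⟩ : ∃ A, A = Ps.filter fun P => s P ≠ ∅ ∨ s' P ≠ ∅ := ⟨_, rfl⟩
  have mA : ∀ P ∈ A, P ∈ Ps ∧ (s P ≠ ∅ ∨ s' P ≠ ∅) := fun P hP => mem_filter.1 (hA ▸ hP)
  have gA : Good W A := fun P hP => hPs P (mA P hP).1
  obtain ⟨g, hg⟩ : ∃ g : F[X] → F[X] → ℝ, g = fun P t =>
      (∏ m ∈ s P, psi ρ J P m (c + a * t)) * ∏ m ∈ s' P, psi ρ J P m (c + a * t) := ⟨_, rfl⟩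
  have e1 : md Ps W z = W * ∏ P ∈ A, P := by
    rw [md, prod_filter, hA, prod_filter]
    simp only [hs, hs']
    rw [prod_coe_sort Ps fun P => if s P ≠ ∅ ∨ s' P ≠ ∅ then P else 1]
  rw [e1, hW.natDegree_mul (monic_prod_of_monic _ _ fun P hP => (gA P hP).1),
    natDegree_prod _ _ fun P hP => (gA P hP).1.ne_zero] at hl
  have e2 : ∀ t, ph ρ J Ps W x Y z (c + a * t) =
      Y z.1 * Y z.2 * (ind (W ∣ a * t + (c - x)) * ∏ P ∈ A, g P t) := fun t => by
    rw [ph, lamA, lamA, ← prod_mul_distrib, show c + a * t - x = a * t + (c - x) by ring]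
    simp only [hs, hs']
    rw [prod_coe_sort Ps fun P => (∏ m ∈ s P, psi ρ J P m (c + a * t)) *
      ∏ m ∈ s' P, psi ρ J P m (c + a * t), hA, hg, prod_filter_of_ne fun P _ hP => ?_]
    · ring
    · by_contra hc
      rw [not_or, not_not, not_not] at hc
      exact hP (by simp only [hc.1, hc.2, prod_empty, mul_one])
  have e3 : ∀ u : F[X] → ℝ, ∏ P : Ps, ker (nm Ps P) (u P.1) J (z.1 P) (z.2 P) =
      ∏ P ∈ A, u P * ee (qq F P.natDegree) J (s P) (s' P) := fun u => by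
    simp only [hs, hs', nm]
    rw [prod_coe_sort Ps fun P => ker (qq F P.natDegree) (u P) J (s P) (s' P), hA, prod_filter]
    refine prod_congr rfl fun P _ => ?_
    rw [ker]
    by_cases hc : s P = ∅ ∧ s' P = ∅
    · rw [if_pos hc, if_neg (by tauto)]
    · rw [if_neg hc, if_pos (by tauto)]
  rw [e3 fun P => if P ∣ a then 0 else if P ∈ S then (𝔼 t : degreeLT F l, θ P t.1)⁻¹ else 1]
  simp only [e2]
  by_cases hc : ∃ P ∈ A, P ∣ a
  · obtain ⟨P, hP, hd⟩ := hc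
    obtain ⟨j, hj, hj'⟩ := hpa P (mA P hP).1 hd
    have e4 : ∀ t, ∏ P ∈ A, g P t = 0 := fun t => prod_eq_zero hP (by
      rw [hg]
      refine loc_zero (mA P hP).2 fun h' => h' j hj ?_
      rw [show c + a * t - ρ P j = c - ρ P j + a * t by ring]
      exact hj'.add (hd.mul_right t))
    rw [prod_eq_zero hP (by rw [if_pos hd, zero_mul])]
    simp [e4]
  have nd : ∀ P ∈ A, ¬ P ∣ a := fun P hP hd => hc ⟨P, hP, hd⟩
  have e5 : ∀ f : F[X] → ℝ, ∏ P ∈ S, f P =
      (∏ P ∈ A, if P ∈ S then f P else 1) * ∏ P ∈ S \ A, f P := fun f => by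
    rw [prod_ite_mem, inter_comm, prod_inter_mul_prod_sdiff]
  have e6 : ∀ t, (∏ P ∈ A, g P t) * ∏ P ∈ S, θ P t = (∏ P ∈ A, g P t) * ∏ P ∈ S \ A, θ P t := by
    intro t
    rw [e5 fun P => θ P t, ← mul_assoc, ← prod_mul_distrib]
    refine congrArg (· * _) (prod_congr rfl fun P hP => ?_)
    split_ifs with hP'
    · by_cases h' : ∀ j ∈ J, ¬ P ∣ c + a * t - ρ P j
      · rw [hθ1 P hP' (nd P hP) t h', mul_one]
      · rw [hg]
        simp only [loc_zero (mA P hP).2 h', zero_mul]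
    · rw [mul_one]
  have hs1 : ∑ P ∈ S \ A, P.natDegree ≤ ∑ P ∈ S, P.natDegree := sum_le_sum_of_subset sdiff_subset
  have e7 := fac2 hW gA (S := S \ A) (fun P hP => hS P (mem_sdiff.1 hP).1) disjoint_sdiff
    (Φ := fun t => ind (W ∣ a * t + (c - x))) (fun f t => by
      show ind (W ∣ a * (f + W * t) + (c - x)) = ind (W ∣ a * f + (c - x))
      rw [show a * (f + W * t) + (c - x) = a * f + (c - x) + W * (a * t) by ring]
      simp only [dvd_add_left (dvd_mul_right W (a * t))])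
    (g := g) (θ := θ) (fun P _ f t => by simp only [hg, psi_per])
    (fun P hP => hθ P (mem_sdiff.1 hP).1) (l := l) (by omega)
  have e8 : ∀ P ∈ A, 𝔼 t : degreeLT F l, g P t.1 = ee (qq F P.natDegree) J (s P) (s' P) := by
    intro P hP
    have := single_le_sum (f := fun P : F[X] => P.natDegree) (fun _ _ => Nat.zero_le _) hP
    rw [hg]
    exact h κ ρ J (s P) (s' P) W P c a l hρ (gA P hP).1 (gA P hP).2.1 (gA P hP).2.2 (nd P hP)
      (by omega) (by have := (mA P hP).2; tauto)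
  rw [expect_lin hW ha _ (by omega), prod_congr rfl e8] at e7
  have e9 : (∏ P ∈ A, if P ∈ S then 𝔼 t : degreeLT F l, θ P t.1 else 1) *
      ∏ P ∈ A, (if P ∣ a then 0 else if P ∈ S then (𝔼 t : degreeLT F l, θ P t.1)⁻¹ else 1) *
        ee (qq F P.natDegree) J (s P) (s' P) =
      ∏ P ∈ A, ee (qq F P.natDegree) J (s P) (s' P) := by
    rw [← prod_mul_distrib]
    refine prod_congr rfl fun P hP => ?_
    rw [if_neg (nd P hP)]
    split_ifs with hP'
    · rw [mul_inv_cancel_left₀ (hθ0 P hP' (nd P hP))]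
    · rw [one_mul, one_mul]
  simp only [mul_assoc (Y z.1 * Y z.2), mul_assoc (ind _), e6]
  rw [← Finset.mul_expect, e7, e5 fun P => 𝔼 t : degreeLT F l, θ P t.1, ← e9]
  ring

end Pool.Agent.PPf

end

section

/- Prime pairs over `F[X]`: the sieve weight belongs to the class of periodic weights. -/

set_option autoImplicit false
set_option linter.unusedSectionVars false

namespace Pool.Agent.PPf

open Polynomial Finset Pool.Agent.MP_4fffd4_nt Pool.Agent.MP_c853c5_nt Pool.Agent.MP_43e117_nt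
open scoped BigOperators

variable (F : Type) [Field F] [Fintype F] [CharP F 2]

theorem sInstF (h : SCard F) : SInstF F := by
  intro κ _ _ ρ i j Ps s W x Y D R n lo hi B H hR hi0 hj hx hs hW hP hB hbd
  classical
  obtain ⟨h1, -, h3⟩ := h κ ρ {i, j} Ps W x Y D R H
  refine ⟨hR, fun z hz => (h3 z hz).1, fun z hz => (h3 z hz).2.1, fun z hz f t => ?_,
    fun z hz f hf => ?_, fun z _ P a b => (hs P a b).trans (Dvd.intro _ rfl),
    fun z hz P a b => ?_, fun f hf => ?_, h1⟩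
  · exact congrArg (· / B) ((h3 z hz).2.2.1 f t)
  · obtain ⟨⟨t, ht⟩, h5⟩ := (h3 z hz).2.2.2.2.2 f fun e => hf (by rw [e, zero_div])
    refine IsCoprime.mul_right ?_ (IsCoprime.prod_right fun P hP' => ?_)
    · have e : f * (f + s) = x * (x + s) + W * (t * (2 * x + s + W * t)) := by
        have e1 : f = x + W * t := by linear_combination ht
        rw [e1]
        ring
      rw [e]
      exact hx.add_mul_left_left _
    · have hd : P.1 ∣ md Ps W z := Dvd.dvd.mul_left (Finset.dvd_prod_of_mem _ hP') _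
      have hirr := (H.good P.1 P.2).2.1
      have a1 := h5 P.1 P.2 hd i (by simp)
      have a2 := h5 P.1 P.2 hd j (by simp)
      rw [hi0, sub_zero] at a1
      rw [hj, CharTwo.sub_eq_add] at a2
      exact ((hirr.coprime_iff_not_dvd.2 a1).mul_right (hirr.coprime_iff_not_dvd.2 a2)).symm
  · rcases (h3 z hz).2.2.2.2.1 P a b with e | ⟨P', e1, e2⟩
    · exact Or.inl ((natDegree_le_of_dvd e H.mon.ne_zero).trans_lt hW)
    · rw [← e2]
      exact hP P' e1
  · have e : ∀ z, |ph ρ {i, j} Ps W x Y z f / B| = |ph ρ {i, j} Ps W x Y z f| / B := fun z => by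
      rw [abs_div, abs_of_pos hB]
    simp only [e]
    rw [← Finset.sum_div, div_le_one hB]
    exact hbd f hf

end Pool.Agent.PPf

end

section

/- Prime pairs over `F[X]`: the bounds along lines and for the main term. -/

set_option autoImplicit false
set_option linter.unusedSectionVars false

namespace Pool.Agent.PPf

open Polynomial Finset Pool.Agent.MP_4fffd4_nt Pool.Agent.MP_c853c5_nt Pool.Agent.MP_43e117_nt
open scoped BigOperators

namespace InstLX

theorem inv_close {p m : ℝ} (hp : 65536 ≤ p) (h1 : 1 - 2 / p ≤ m) (h2 : m ≤ 1 + 16 / p) :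
    m ≠ 0 ∧ |m⁻¹ - 1| ≤ 20 / p := by
  have hp0 : 0 < p := by linarith
  have h3 : 2 / p ≤ 1 / 10 := by
    rw [div_le_div_iff₀ hp0 (by norm_num)]
    linarith
  have hm : 0 < m := by linarith
  have h4 : 0 < 1 / p := by positivity
  have e2 : 2 / p = 2 * (1 / p) := by ring
  have e16 : 16 / p = 16 * (1 / p) := by ring
  have e20 : 20 / p = 20 * (1 / p) := by ring
  refine ⟨hm.ne', ?_⟩
  have e : m⁻¹ - 1 = (1 - m) / m := by field_simp
  rw [e, abs_div, abs_of_pos hm, div_le_iff₀ hm, e20, abs_le]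
  rw [e2] at h1 h3
  rw [e16] at h2
  constructor <;> nlinarith

variable {F : Type} [Field F] [Fintype F]

theorem big {W P : F[X]} (hW : ∀ P : F[X], Irreducible P → P.natDegree ≤ 15 → P ∣ W)
    (hP : Irreducible P) (hPW : ¬ P ∣ W) : 65536 ≤ qq F P.natDegree := by
  have h1 : 16 ≤ P.natDegree := by
    by_contra hc
    exact hPW (hW P hP (by omega))
  have h2 := two_pow_le_qq (F := F) 16
  have h3 := qq_mono (F := F) h1
  norm_num at h2
  linarith

theorem mean_bd {P c a h : F[X]} {θ : F[X] → ℝ} {l : ℕ} (hm : P.Monic) (hP : Irreducible P)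
    (ha : ¬ P ∣ a) (hl : P.natDegree ≤ l) (hb : ∀ t, 0 ≤ θ t ∧ θ t ≤ 9)
    (h1 : ∀ t, ¬ P ∣ (c + a * t) * (c + a * t + h) → θ t = 1) :
    1 - 2 / qq F P.natDegree ≤ 𝔼 t : degreeLT F l, θ t.1 ∧
      𝔼 t : degreeLT F l, θ t.1 ≤ 1 + 16 / qq F P.natDegree := by
  have hc : IsCoprime a P := (hP.coprime_iff_not_dvd.2 ha).symm
  have e1 := expect_lin hm hc c hl
  have e2 := expect_lin hm hc (c + h) hl
  have key : ∀ t, 1 - (ind (P ∣ a * t + c) + ind (P ∣ a * t + (c + h))) ≤ θ t ∧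
      θ t ≤ 1 + 8 * (ind (P ∣ a * t + c) + ind (P ∣ a * t + (c + h))) := by
    intro t
    have n1 := ind_nonneg (P ∣ a * t + c)
    have n2 := ind_nonneg (P ∣ a * t + (c + h))
    obtain ⟨b1, b2⟩ := hb t
    by_cases hd : P ∣ (c + a * t) * (c + a * t + h)
    · rcases hP.prime.dvd_or_dvd hd with hd | hd
      · have : ind (P ∣ a * t + c) = 1 := ind_pos (by rwa [add_comm])
        constructor <;> linarith
      · have : ind (P ∣ a * t + (c + h)) = 1 :=
          ind_pos (by rwa [← add_assoc, add_comm (a * t)])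
        constructor <;> linarith
    · rw [h1 t hd]
      constructor <;> linarith
  have e3 : 𝔼 t : degreeLT F l, (ind (P ∣ a * t.1 + c) + ind (P ∣ a * t.1 + (c + h))) =
      2 / qq F P.natDegree := by
    rw [Finset.expect_add_distrib, e1, e2]
    ring
  constructor
  · have := Finset.expect_le_expect (s := (univ : Finset (degreeLT F l))) fun t _ => (key t.1).1
    rwa [Finset.expect_sub_distrib, e3, Finset.expect_const univ_nonempty] at this
  · have := Finset.expect_le_expect (s := (univ : Finset (degreeLT F l))) fun t _ => (key t.1).2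
    rw [Finset.expect_add_distrib, ← Finset.mul_expect, e3,
      Finset.expect_const univ_nonempty] at this
    refine this.trans_eq ?_
    ring

variable {κ : Type} [Fintype κ] [DecidableEq κ]

theorem sum_ZZ (Ps : Finset F[X]) (u : Ps → ℝ) (J : Finset κ) (Y : (Ps → Finset κ) → ℝ) :
    ∑ z ∈ ZZ Ps Y, Y z.1 * Y z.2 * ∏ P : Ps, ker (nm Ps P) (u P) J (z.1 P) (z.2 P) =
      fm Ps u J Y := by
  classical
  unfold ZZ fm form
  rw [← Fintype.sum_prod_type']
  refine Finset.sum_subset (filter_subset _ _) fun z _ hz => ?_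
  have : Y z.1 * Y z.2 = 0 := by
    by_contra hc
    exact hz (mem_filter.2 ⟨mem_univ _, mul_ne_zero_iff.1 hc⟩)
  rw [this, zero_mul]

theorem prod_act {Ps : Finset F[X]} {W : F[X]} (hW : W.Monic) (hg : Good W Ps)
    (z : (Ps → Finset κ) × (Ps → Finset κ)) (T : Finset F[X])
    (hT : ∀ P, P ∈ T ↔ P ∈ pf (md Ps W z) ∧ P ∉ pf W) (g : F[X] → ℝ) :
    ∏ P ∈ T, g P = ∏ P : Ps, if z.1 P = ∅ ∧ z.2 P = ∅ then 1 else g P.1 := by
  classical
  have h0 : md Ps W z ≠ 0 :=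
    mul_ne_zero hW.ne_zero (Finset.prod_ne_zero_iff.2 fun P _ => (hg P.1 P.2).1.ne_zero)
  have e : T = (univ.filter fun P : Ps => ¬ (z.1 P = ∅ ∧ z.2 P = ∅)).map
      (Function.Embedding.subtype _) := by
    ext P
    rw [hT, mem_pf h0, mem_pf hW.ne_zero, mem_map]
    constructor
    · rintro ⟨⟨h1, h2, h3⟩, h4⟩
      rcases h2.prime.dvd_or_dvd h3 with h5 | h5
      · exact absurd ⟨h1, h2, h5⟩ h4
      · obtain ⟨Q, hQ, h6⟩ := h2.prime.exists_mem_finset_dvd h5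
        refine ⟨Q, mem_filter.2 ⟨mem_univ _, not_and_or.2 (mem_filter.1 hQ).2⟩, ?_⟩
        exact (eq_of_monic_of_associated h1 (hg Q.1 Q.2).1
          (h2.associated_of_dvd (hg Q.1 Q.2).2.1 h6)).symm
    · rintro ⟨Q, hQ, rfl⟩
      obtain ⟨h1, h2, h3⟩ := hg Q.1 Q.2
      refine ⟨⟨h1, h2, Dvd.dvd.mul_left ?_ _⟩, fun h => h3 h.2.2⟩
      exact Finset.dvd_prod_of_mem (fun P : Ps => P.1)
        (mem_filter.2 ⟨mem_univ _, not_and_or.1 (mem_filter.1 hQ).2⟩)
  rw [e, Finset.prod_map, Finset.prod_filter]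
  refine Finset.prod_congr rfl fun P _ => ?_
  by_cases h : z.1 P = ∅ ∧ z.2 P = ∅
  · rw [if_neg (not_not.2 h), if_pos h]
  · rw [if_pos h, if_neg h]
    rfl

end InstLX

variable (F : Type) [Field F] [Fintype F] [CharP F 2]

open InstLX in
theorem sInstL (h1 : STerm F) (h2 : SCard F) : SInstL F := by
  classical
  intro κ _ _ ρ i j Ps h W x Y D R n B I H hR hi hj hW hB hI
  obtain ⟨-, -, hz⟩ := h2 κ ρ {i, j} Ps W x Y D R H
  have hq := qq_pos (F := F) W.natDegree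
  have h2' : (2 : F[X]) = 0 := by exact_mod_cast CharP.cast_eq_zero F[X] 2
  have hsub : ∀ f : F[X], f - h = f + h := fun f => by linear_combination (-h) * h2'
  constructor
  · intro c a S θ l hc ha hS hper hb hθ hl
    have hm : ∀ P ∈ S, ¬ P ∣ a → (𝔼 t : degreeLT F l, θ P t.1) ≠ 0 ∧
        |(𝔼 t : degreeLT F l, θ P t.1)⁻¹ - 1| ≤ 20 / qq F P.natDegree := by
      intro P hP hPa
      obtain ⟨p1, p2, p3⟩ := hS P hP
      have hd : P.natDegree ≤ l :=
        ((Finset.single_le_sum (f := fun P : F[X] => P.natDegree) (fun _ _ => Nat.zero_le _)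
          hP).trans (Nat.le_add_left _ _)).trans hl
      obtain ⟨m1, m2⟩ := mean_bd p1 p2 hPa hd (hb P hP) (hθ P hP hPa)
      exact inv_close (big hW p2 p3) m1 m2
    have hu : Adm0 (nm Ps) fun P : Ps => if P.1 ∣ a then 0 else if P.1 ∈ S then
        (𝔼 t : degreeLT F l, θ P.1 t.1)⁻¹ else 1 := by
      intro P
      by_cases hPa : P.1 ∣ a
      · exact Or.inl (if_pos hPa)
      · right
        simp only [if_neg hPa]
        by_cases hPS : P.1 ∈ S
        · rw [if_pos hPS]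
          exact (hm P.1 hPS hPa).2
        · rw [if_neg hPS, sub_self, abs_zero]
          exact div_nonneg (by norm_num) (qq_pos _).le
    have hI' := hI _ hu
    have hπ : 0 ≤ ∏ P ∈ S, 𝔼 t : degreeLT F l, θ P t.1 :=
      Finset.prod_nonneg fun P hP => Finset.expect_nonneg fun t _ => (hb P hP t.1).1
    have hT := fun z (hzz : z ∈ ZZ Ps Y) => h1 κ ρ {i, j} Ps W x c a Y z S θ l H.mon H.good H.roots hc
      (fun P hP hPa => by
        rcases (H.good P hP).2.1.prime.dvd_or_dvd (ha P (H.good P hP).2.1 hPa) with e | e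
        · exact ⟨i, mem_insert_self _ _, by rwa [hi, sub_zero]⟩
        · exact ⟨j, mem_insert_of_mem (mem_singleton_self _), by rwa [hj, hsub]⟩)
      hS hper
      (fun P hP hPa t ht => hθ P hP hPa t fun e => by
        rcases (hS P hP).2.1.prime.dvd_or_dvd e with e | e
        · exact ht i (mem_insert_self _ _) (by rwa [hi, sub_zero])
        · exact ht j (mem_insert_of_mem (mem_singleton_self _)) (by rwa [hj, hsub]))
      (fun P hP hPa => (hm P hP hPa).1)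
      ((Nat.add_le_add_right (hz z hzz).2.1 _).trans hl)
    have e : 𝔼 t : degreeLT F l, tot (ZZ Ps Y) (fun z f => ph ρ {i, j} Ps W x Y z f / B)
        (c + a * t.1) * ∏ P ∈ S, θ P t.1 = (∑ z ∈ ZZ Ps Y,
          𝔼 t : degreeLT F l, ph ρ {i, j} Ps W x Y z (c + a * t.1) * ∏ P ∈ S, θ P t.1) / B := by
      rw [← Finset.expect_sum_comm, Finset.expect_div]
      refine Finset.expect_congr rfl fun t _ => ?_
      rw [tot, Finset.sum_mul, Finset.sum_div]
      exact Finset.sum_congr rfl fun z _ => by ring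
    rw [e, Finset.sum_congr rfl hT, ← Finset.mul_sum, sum_ZZ]
    refine (div_le_div_of_nonneg_right
      (mul_le_mul_of_nonneg_left hI' (mul_nonneg (by positivity) hπ)) hB.le).trans_eq ?_
    ring
  · have hu : Adm0 (nm Ps) fun P : Ps => (1 - 2 / qq F P.1.natDegree)⁻¹ := by
      intro P
      obtain ⟨-, p2, p3⟩ := H.good P.1 P.2
      have hp := qq_pos (F := F) P.1.natDegree
      refine Or.inr (inv_close (big hW p2 p3) le_rfl ?_).2
      have : 0 ≤ 2 / qq F P.1.natDegree := by positivity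
      have : 0 ≤ 16 / qq F P.1.natDegree := by positivity
      linarith
    have hI' := hI _ hu
    unfold Main
    rw [← sum_ZZ] at hI'
    refine le_trans (le_of_eq ?_) (div_le_div_of_nonneg_right
      (div_le_div_of_nonneg_right hI' hq.le) hB.le)
    rw [Finset.sum_div, Finset.sum_div]
    refine Finset.sum_congr rfl fun z hzz => ?_
    have hT := h1 κ ρ {i, j} Ps W x 0 1 Y z ∅ (fun _ _ => 1) (5 * n) H.mon H.good H.roots
      isCoprime_one_left
      (fun P hP hPa => absurd (isUnit_of_dvd_one hPa) (H.good P hP).2.1.not_isUnit)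
      (fun _ hP => absurd hP (notMem_empty _)) (fun _ hP => absurd hP (notMem_empty _))
      (fun _ hP => absurd hP (notMem_empty _)) (fun _ hP => absurd hP (notMem_empty _))
      (by
        have := (hz z hzz).2.1
        rw [Finset.sum_empty]
        omega)
    simp only [Finset.prod_empty, mul_one, zero_add, one_mul, notMem_empty, if_false] at hT
    rw [prod_act H.mon H.good z _ (fun P => Finset.mem_sdiff), ← Finset.expect_div, hT]
    have e : (∏ P : Ps, ker (nm Ps P) (if P.1 ∣ 1 then 0 else 1) {i, j} (z.1 P) (z.2 P)) *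
        (∏ P : Ps, if z.1 P = ∅ ∧ z.2 P = ∅ then 1 else (1 - 2 / qq F P.1.natDegree)⁻¹) =
        ∏ P : Ps, ker (nm Ps P) (1 - 2 / qq F P.1.natDegree)⁻¹ {i, j} (z.1 P) (z.2 P) := by
      rw [← Finset.prod_mul_distrib]
      refine Finset.prod_congr rfl fun P _ => ?_
      rw [if_neg fun e => (H.good P.1 P.2).2.1.not_isUnit (isUnit_of_dvd_one e), ker, ker]
      by_cases hh : z.1 P = ∅ ∧ z.2 P = ∅
      · rw [if_pos hh, if_pos hh, if_pos hh, mul_one]
      · rw [if_neg hh, if_neg hh, if_neg hh]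
        ring
    rw [← e]
    ring

end Pool.Agent.PPf

end

section

/- Prime pairs over `F[X]`: from residue classes to the weight. -/

set_option autoImplicit false
set_option linter.unusedSectionVars false

namespace Pool.Agent.PPf

open Polynomial Finset Pool.Agent.MP_4fffd4_nt Pool.Agent.MP_c853c5_nt Pool.Agent.MP_43e117_nt
open scoped BigOperators

namespace EqX

variable {F : Type} [Field F] [Fintype F] {κ : Type} [Fintype κ] [DecidableEq κ]

theorem sum_res {M : F[X]} (hM : M.Monic) {Φ : F[X] → ℝ} (hΦ : Per M Φ) (f : F[X]) :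
    Φ f = ∑ y ∈ ltF F M.natDegree, Φ y * ind (M ∣ f - y) := by
  have hd : (f %ₘ M).degree < M.natDegree :=
    (degree_modByMonic_lt f hM).trans_eq (degree_eq_natDegree hM.ne_zero)
  rw [Finset.sum_eq_single_of_mem (f %ₘ M) (mem_ltF.2 hd)]
  · rw [ind_pos ⟨f /ₘ M, by linear_combination -modByMonic_add_div f M⟩, mul_one,
      ← hΦ (f %ₘ M) (f /ₘ M), modByMonic_add_div]
  · intro y hy hne
    rw [ind_neg, mul_zero]
    intro h
    apply hne
    rw [modByMonic_eq_of_dvd_sub hM h]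
    exact ((modByMonic_eq_self_iff hM).2
      ((mem_ltF.1 hy).trans_eq (degree_eq_natDegree hM.ne_zero).symm)).symm

theorem sum_lt (l : ℕ) (Φ : F[X] → ℝ) :
    ∑ y ∈ ltF F l, Φ y = qq F l * 𝔼 t : degreeLT F l, Φ t.1 := by
  rw [expect_LT, qq, mul_div_cancel₀ _ (pow_pos card_pos' l).ne']
  exact Finset.sum_map _ _ _

open Classical in
/-- The active primes of one term. -/
noncomputable def act (Ps : Finset F[X]) (z : (Ps → Finset κ) × (Ps → Finset κ)) : Finset Ps :=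
  univ.filter fun P => z.1 P ≠ ∅ ∨ z.2 P ≠ ∅

theorem md_eq (Ps : Finset F[X]) (W : F[X]) (z : (Ps → Finset κ) × (Ps → Finset κ)) :
    md Ps W z = W * ∏ P ∈ (act Ps z).map (Function.Embedding.subtype _), P := by
  rw [Finset.prod_map]
  rfl

theorem act_sub (Ps : Finset F[X]) (z : (Ps → Finset κ) × (Ps → Finset κ)) :
    (act Ps z).map (Function.Embedding.subtype _) ⊆ Ps := by
  intro P hP
  obtain ⟨Q, -, rfl⟩ := Finset.mem_map.1 hP
  exact Q.2

theorem VS_mul {W : F[X]} (hW : W.Monic) {S : Finset F[X]} (hS : Good W S) :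
    VS (pf (W * ∏ P ∈ S, P)) = VS (pf W) * VS S := by
  classical
  have h0 : W * ∏ P ∈ S, P ≠ 0 :=
    mul_ne_zero hW.ne_zero (Finset.prod_ne_zero_iff.2 fun P hP => (hS P hP).1.ne_zero)
  have e : pf (W * ∏ P ∈ S, P) = pf W ∪ S := by
    ext P
    rw [mem_union, mem_pf h0, mem_pf hW.ne_zero]
    constructor
    · rintro ⟨a, b, c⟩
      rcases b.prime.dvd_or_dvd c with c | c
      · exact Or.inl ⟨a, b, c⟩
      · obtain ⟨Q, hQ, c⟩ := b.prime.exists_mem_finset_dvd c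
        rw [eq_of_monic_of_associated a (hS Q hQ).1 (b.associated_of_dvd (hS Q hQ).2.1 c)]
        exact Or.inr hQ
    · rintro (⟨a, b, c⟩ | h)
      · exact ⟨a, b, c.mul_right _⟩
      · exact ⟨(hS P h).1, (hS P h).2.1, (Finset.dvd_prod_of_mem (fun P => P) h).mul_left _⟩
  rw [e, VS, Finset.prod_union]
  · rfl
  · exact Finset.disjoint_left.2 fun P h1 h2 => (hS P h2).2.2 ((mem_pf hW.ne_zero).1 h1).2.2

theorem ker_split (Ps : Finset F[X]) (z : (Ps → Finset κ) × (Ps → Finset κ)) (p u : Ps → ℝ)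
    (J : Finset κ) :
    ∏ P : Ps, ker (p P) (u P) J (z.1 P) (z.2 P) =
      (∏ P ∈ act Ps z, u P) * ∏ P : Ps, ker (p P) 1 J (z.1 P) (z.2 P) := by
  rw [act, Finset.prod_filter, ← Finset.prod_mul_distrib]
  refine Finset.prod_congr rfl fun P _ => ?_
  unfold ker
  by_cases h : z.1 P = ∅ ∧ z.2 P = ∅
  · rw [if_pos h, if_pos h, if_neg (by simp [h.1, h.2]), one_mul]
  · rw [if_neg h, if_neg h, if_pos (by tauto), one_mul]

theorem sum_ZZ (Ps : Finset F[X]) (Y : (Ps → Finset κ) → ℝ) (u : Ps → ℝ) (J : Finset κ) :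
    ∑ z ∈ ZZ Ps Y, Y z.1 * Y z.2 * ∏ P : Ps, ker (nm Ps P) (u P) J (z.1 P) (z.2 P) =
      fm Ps u J Y := by
  rw [ZZ, Finset.sum_filter_of_ne, fm, form, ← Finset.univ_product_univ, Finset.sum_product]
  intro z _ h
  exact ⟨left_ne_zero_of_mul (left_ne_zero_of_mul h), right_ne_zero_of_mul (left_ne_zero_of_mul h)⟩

theorem mean [CharP F 2] (h1 : STerm F) {ρ : F[X] → κ → F[X]} {Ps : Finset F[X]} {W : F[X]}
    {Y : (Ps → Finset κ) → ℝ} {D R : ℕ} (H : Ctx ρ Ps W Y D R) (J : Finset κ) (x : F[X])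
    (z : (Ps → Finset κ) × (Ps → Finset κ)) {l : ℕ} (hl : (md Ps W z).natDegree ≤ l) :
    𝔼 t : degreeLT F l, ph ρ J Ps W x Y z t.1 = 1 / qq F W.natDegree * (Y z.1 * Y z.2 *
      ∏ P : Ps, ker (nm Ps P) 1 J (z.1 P) (z.2 P)) := by
  have hu : ∀ P ∈ Ps, ¬ P ∣ 1 := fun P hP e => (H.good P hP).2.1.not_isUnit (isUnit_of_dvd_one e)
  have := h1 κ ρ J Ps W x 0 1 Y z ∅ (fun _ _ => 1) l H.mon H.good H.roots isCoprime_one_left
    (fun P hP e => absurd e (hu P hP)) (fun P hP => absurd hP (Finset.notMem_empty P))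
    (fun P hP => absurd hP (Finset.notMem_empty P)) (fun P hP => absurd hP (Finset.notMem_empty P))
    (fun P hP => absurd hP (Finset.notMem_empty P)) (by simpa using hl)
  simp only [Finset.prod_empty, mul_one, one_mul, zero_add, Finset.notMem_empty, if_false] at this
  rw [this]
  congr 2
  refine Finset.prod_congr rfl fun P _ => ?_
  rw [if_neg (hu P.1 P.2)]

theorem term [CharP F 2] (h1 : STerm F) {ρ : F[X] → κ → F[X]} {Ps : Finset F[X]} {W : F[X]}
    {Y : (Ps → Finset κ) → ℝ} {D R n : ℕ} (H : Ctx ρ Ps W Y D R) (j : κ) (x : F[X])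
    (π : F[X] → ℝ) {err : ℝ}
    (he : ∀ S ⊆ Ps, (W * ∏ P ∈ S, P).natDegree ≤ R → ∀ y, W ∣ y - x →
      (∀ P ∈ S, ¬ P ∣ y - ρ P j) → |∑ f ∈ monF F n, π f * ind (W * ∏ P ∈ S, P ∣ f - y) -
        qq F n / qq F (W * ∏ P ∈ S, P).natDegree * (VS (pf (W * ∏ P ∈ S, P)))⁻¹| ≤ err)
    (z : (Ps → Finset κ) × (Ps → Finset κ)) (a : (md Ps W z).Monic)
    (b : (md Ps W z).natDegree ≤ R) (c : Per (md Ps W z) (ph ρ {j} Ps W x Y z))
    (d : ∀ f, |ph ρ {j} Ps W x Y z f| ≤ 1)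
    (e : ∀ f, ph ρ {j} Ps W x Y z f ≠ 0 → W ∣ f - x ∧ ∀ P ∈ Ps, P ∣ md Ps W z →
      ∀ j' ∈ ({j} : Finset κ), ¬ P ∣ f - ρ P j') :
    |∑ f ∈ monF F n, π f * ph ρ {j} Ps W x Y z f - qq F n / qq F W.natDegree * (VS (pf W))⁻¹ *
      (Y z.1 * Y z.2 * ∏ P : Ps, ker (nm Ps P) (1 - 1 / nm Ps P)⁻¹ {j} (z.1 P) (z.2 P))| ≤
      qq F R * err := by
  have h0 : 0 ≤ err := (abs_nonneg _).trans (he ∅ (Finset.empty_subset _)
    (by rw [Finset.prod_empty, mul_one]; have := H.hW; omega) x (by simp)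
    fun P hP => absurd hP (Finset.notMem_empty P))
  have hm := md_eq Ps W z
  have hs := act_sub Ps z
  have hv : (VS (pf (md Ps W z)))⁻¹ = (VS (pf W))⁻¹ * ∏ P ∈ act Ps z, (1 - 1 / nm Ps P)⁻¹ := by
    rw [hm, VS_mul H.mon fun P hP => H.good P (hs hP), mul_inv, VS, VS, Finset.prod_map,
      Finset.prod_inv_distrib]
    rfl
  have e1 : ∑ f ∈ monF F n, π f * ph ρ {j} Ps W x Y z f =
      ∑ y ∈ ltF F (md Ps W z).natDegree, ph ρ {j} Ps W x Y z y *
        ∑ f ∈ monF F n, π f * ind (md Ps W z ∣ f - y) := by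
    simp only [Finset.mul_sum]
    rw [Finset.sum_comm]
    refine Finset.sum_congr rfl fun f _ => ?_
    rw [sum_res a c f, Finset.mul_sum]
    exact Finset.sum_congr rfl fun y _ => by ring
  have e2 : qq F n / qq F W.natDegree * (VS (pf W))⁻¹ *
      (Y z.1 * Y z.2 * ∏ P : Ps, ker (nm Ps P) (1 - 1 / nm Ps P)⁻¹ {j} (z.1 P) (z.2 P)) =
      ∑ y ∈ ltF F (md Ps W z).natDegree, ph ρ {j} Ps W x Y z y *
        (qq F n / qq F (md Ps W z).natDegree * (VS (pf (md Ps W z)))⁻¹) := by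
    rw [← Finset.sum_mul, sum_lt, mean h1 H {j} x z le_rfl, hv,
      ker_split Ps z (nm Ps) (fun P => (1 - 1 / nm Ps P)⁻¹)]
    have := (qq_pos (F := F) (md Ps W z).natDegree).ne'
    field_simp
  rw [e1, e2, ← Finset.sum_sub_distrib]
  refine (Finset.abs_sum_le_sum_abs _ _).trans ?_
  refine le_trans (Finset.sum_le_sum (g := fun _ => 1 * err) fun y _ => ?_) ?_
  · rw [← mul_sub, abs_mul]
    by_cases hy : ph ρ {j} Ps W x Y z y = 0
    · rw [hy, abs_zero, zero_mul, one_mul]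
      exact h0
    · obtain ⟨k1, k2⟩ := e y hy
      refine mul_le_mul (d y) ?_ (abs_nonneg _) zero_le_one
      rw [hm]
      refine he _ hs (hm ▸ b) y k1 fun P hP => k2 P (hs hP) ?_ j (Finset.mem_singleton_self j)
      rw [hm]
      exact (Finset.dvd_prod_of_mem (fun P => P) hP).mul_left _
  · rw [← Finset.sum_mul, sum_one_ltF]
    exact mul_le_mul_of_nonneg_right (qq_mono b) h0

end EqX

open EqX

variable (F : Type) [Field F] [Fintype F] [CharP F 2]

theorem sEq (h1 : STerm F) (h2 : SCard F) : SEq F := by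
  intro κ _ _ ρ Ps W x Y D R n H hR
  refine ⟨?_, fun j π err he => ?_⟩
  · obtain ⟨-, a, b⟩ := h2 κ ρ ∅ Ps W x Y D R H
    simp only [a, tot]
    rw [Finset.sum_comm, ← sum_ZZ, Finset.mul_sum]
    refine Finset.sum_congr rfl fun z hz => ?_
    obtain ⟨b1, b2, b3, -⟩ := b z hz
    rw [sum_monF_per b1.ne_zero b3 (b2.trans hR) le_rfl, mean h1 H ∅ x z le_rfl]
    ring
  · obtain ⟨c, a, b⟩ := h2 κ ρ {j} Ps W x Y D R H
    have h0 : 0 ≤ err := (abs_nonneg _).trans (he ∅ (Finset.empty_subset _)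
      (by rw [Finset.prod_empty, mul_one]; have := H.hW; omega) x (by simp)
      fun P hP => absurd hP (Finset.notMem_empty P))
    simp only [a, tot, Finset.mul_sum]
    rw [Finset.sum_comm, ← sum_ZZ, Finset.mul_sum, ← Finset.sum_sub_distrib]
    refine (Finset.abs_sum_le_sum_abs _ _).trans ?_
    refine le_trans (Finset.sum_le_sum (g := fun _ => qq F R * err) fun z hz => ?_) ?_
    · obtain ⟨b1, b2, b3, b4, -, b5⟩ := b z hz
      exact term h1 H j x π he z b1 b2 b3 b4 b5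
    · rw [Finset.sum_const, nsmul_eq_mul, two_mul, qq_add, mul_assoc]
      exact mul_le_mul_of_nonneg_right c (mul_nonneg (qq_pos R).le h0)

end Pool.Agent.PPf

end

section

/- Prime pairs over `F[X]`: upper bounds for the mass of the sieve. -/

set_option autoImplicit false
set_option linter.unusedSectionVars false

namespace Pool.Agent.PPf

open Polynomial Finset Pool.Agent.MP_4fffd4_nt Pool.Agent.MP_c853c5_nt Pool.Agent.MP_43e117_nt
open scoped BigOperators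

namespace GupX

variable {F : Type} [Field F] [Fintype F]

theorem sum_wt {T : Finset F[X]} {a b : ℕ}
    (hT : ∀ P ∈ T, P.Monic ∧ Irreducible P ∧ a < P.natDegree ∧ P.natDegree ≤ b) (g : ℕ → ℝ)
    (hg : ∀ j, 0 ≤ g j) :
    ∑ P ∈ T, g P.natDegree * (1 / qq F P.natDegree) ≤ ∑ j ∈ Ioc a b, g j * (1 / j) := by
  classical
  rw [← sum_fiberwise_of_maps_to (t := Ioc a b) (g := fun P : F[X] => P.natDegree)
    (fun P hP => mem_Ioc.2 (hT P hP).2.2)]
  refine sum_le_sum fun j _ => ?_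
  rw [sum_congr rfl (g := fun P => g j * (1 / qq F P.natDegree)) fun P hP => by
    rw [(mem_filter.1 hP).2], ← mul_sum]
  refine mul_le_mul_of_nonneg_left (le_trans (sum_le_sum_of_subset_of_nonneg (fun P hP => ?_)
    fun P _ _ => (one_div_pos.2 (qq_pos _)).le) (sum_inv_irrF j)) (hg j)
  obtain ⟨h1, h2⟩ := mem_filter.1 hP
  exact mem_irrF.2 ⟨(hT P h1).1, h2, (hT P h1).2.1⟩

theorem geo (a b : ℕ) : ∑ j ∈ Ioc a b, (1 : ℝ) / 2 ^ j ≤ 1 / 2 ^ a := by
  have key : ∀ k : ℕ, ∑ j ∈ Ioc a (a + k), (1 : ℝ) / 2 ^ j = 1 / 2 ^ a - 1 / 2 ^ (a + k) := by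
    intro k
    induction k with
    | zero => simp
    | succ k ih =>
      rw [← add_assoc, sum_Ioc_succ_top (by omega), ih, pow_succ]
      field_simp
      ring
  rcases le_total a b with h | h
  · obtain ⟨k, rfl⟩ := Nat.exists_eq_add_of_le h
    rw [key]
    exact sub_le_self _ (by positivity)
  · rw [Ioc_eq_empty (by omega), sum_empty]
    positivity

theorem sum_sq {T : Finset F[X]} {a b : ℕ}
    (hT : ∀ P ∈ T, P.Monic ∧ Irreducible P ∧ a < P.natDegree ∧ P.natDegree ≤ b) :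
    ∑ P ∈ T, 1 / qq F P.natDegree ^ 2 ≤ 1 / 2 ^ a := by
  have h := sum_wt hT (fun j => 1 / 2 ^ j) fun j => by positivity
  refine le_trans (sum_le_sum fun P _ => ?_) (h.trans (le_trans (sum_le_sum fun j hj => ?_)
    (geo a b)))
  · rw [sq, ← one_div_mul_one_div]
    exact mul_le_mul_of_nonneg_right (one_div_le_one_div_of_le (by positivity) (two_pow_le_qq _))
      (one_div_pos.2 (qq_pos _)).le
  · have h1 : (1 : ℝ) ≤ j := by exact_mod_cast (by have := (mem_Ioc.1 hj).1; omega : 1 ≤ j)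
    exact mul_le_of_le_one_right (by positivity) ((div_le_one (by linarith)).2 h1)

theorem harm (t : ℕ) : ∑ j ∈ Ioc 0 t, (1 : ℝ) * (1 / j) ≤ 1 + Real.log t := by
  refine le_trans (le_of_eq ?_) (harmonic_le_one_add_log t)
  induction t with
  | zero => simp
  | succ t ih =>
    rw [sum_Ioc_succ_top (by omega), ih, harmonic_succ]
    push_cast
    ring

theorem two_le {P : F[X]} (h : Irreducible P) : 2 ≤ qq F P.natDegree :=
  le_trans (le_self_pow₀ one_le_two h.natDegree_pos.ne') (two_pow_le_qq _)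

theorem full {t : ℕ} (ht : 1 ≤ t) :
    ∏ P ∈ irrLE F t, (1 + 1 / (qq F P.natDegree - 1)) ≤ Real.exp 3 * t := by
  have hT : ∀ P ∈ irrLE F t, P.Monic ∧ Irreducible P ∧ 0 < P.natDegree ∧ P.natDegree ≤ t :=
    fun P hP => by
      obtain ⟨a, b, c⟩ := mem_irrLE.1 hP
      exact ⟨a, b, b.natDegree_pos, c⟩
  have h1 := (sum_wt hT (fun _ => 1) fun _ => zero_le_one).trans (harm t)
  have h2 := sum_sq hT
  have h3 : ∑ P ∈ irrLE F t, 1 / (qq F P.natDegree - 1) ≤ 3 + Real.log t := by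
    refine le_trans (sum_le_sum (g := fun P => 1 * (1 / qq F P.natDegree) +
      2 * (1 / qq F P.natDegree ^ 2)) fun P hP => ?_) ?_
    · have := two_le (hT P hP).2.1
      generalize qq F P.natDegree = p at this
      rw [div_le_iff₀ (by linarith)]
      have e : (1 * (1 / p) + 2 * (1 / p ^ 2)) * (p - 1) = 1 + (p - 2) / p ^ 2 := by
        field_simp
        ring
      rw [e]
      exact le_add_of_nonneg_right (div_nonneg (by linarith) (by positivity))
    · rw [sum_add_distrib, ← mul_sum (a := 2)]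
      norm_num at h2 ⊢
      norm_num at h1
      linarith
  have ht' : (0 : ℝ) < t := by exact_mod_cast ht
  calc _ ≤ ∏ P ∈ irrLE F t, Real.exp (1 / (qq F P.natDegree - 1)) :=
        prod_le_prod (fun P hP => by
          have := two_le (hT P hP).2.1
          exact add_nonneg zero_le_one (one_div_nonneg.2 (by linarith))) fun P _ => by
          rw [add_comm]; exact Real.add_one_le_exp _
    _ ≤ Real.exp (3 + Real.log t) := by
        rw [← Real.exp_sum]; exact Real.exp_le_exp.2 h3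
    _ = _ := by rw [Real.exp_add, Real.exp_log ht']

theorem key {A : Finset F[X]} {W : F[X]} {t : ℕ} (hW : W ≠ 0) (ht : 1 ≤ t)
    (hd : W.natDegree ≤ t) (hA : A ⊆ irrLE F t) (hn : ∀ P ∈ A, ¬ P ∣ W) :
    ∏ P ∈ A, (1 + 1 / (qq F P.natDegree - 1)) ≤ Real.exp 3 * VS (pf W) * t := by
  classical
  have h1 : pf W ⊆ irrLE F t := fun P hP => by
    obtain ⟨a, b, c⟩ := (mem_pf hW).1 hP
    exact mem_irrLE.2 ⟨a, b, (natDegree_le_of_dvd c hW).trans hd⟩
  have h2 : Disjoint A (pf W) := disjoint_left.2 fun P a b => hn P a ((mem_pf hW).1 b).2.2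
  have h3 : ∀ P ∈ irrLE F t, 1 ≤ 1 + 1 / (qq F P.natDegree - 1) := fun P hP => by
    have := two_le (mem_irrLE.1 hP).2.1
    exact le_add_of_nonneg_right (one_div_nonneg.2 (by linarith))
  have h4 : ∏ P ∈ A ∪ pf W, (1 + 1 / (qq F P.natDegree - 1)) ≤ Real.exp 3 * t :=
    le_trans (prod_le_prod_of_subset_of_one_le (union_subset hA h1)
      (fun P hP => zero_le_one.trans (h3 P (union_subset hA h1 hP))) fun P hP _ => h3 P hP)
      (full ht)
  have h5 : (∏ P ∈ pf W, (1 + 1 / (qq F P.natDegree - 1))) * VS (pf W) = 1 := by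
    rw [VS, ← prod_mul_distrib]
    refine prod_eq_one fun P hP => ?_
    have := two_le (mem_irrLE.1 (h1 hP)).2.1
    generalize qq F P.natDegree = p at this
    have a1 : p - 1 ≠ 0 := by linarith
    have a2 : p ≠ 0 := by linarith
    field_simp
    ring
  have h6 : 0 ≤ VS (pf W) := prod_nonneg fun P hP => by
    have := two_le (mem_irrLE.1 (h1 hP)).2.1
    exact sub_nonneg.2 ((div_le_one (by linarith)).2 (by linarith))
  rw [prod_union h2] at h4
  calc _ = (∏ P ∈ A, (1 + 1 / (qq F P.natDegree - 1))) *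
        (∏ P ∈ pf W, (1 + 1 / (qq F P.natDegree - 1))) * VS (pf W) := by
        rw [mul_assoc, h5, mul_one]
    _ ≤ Real.exp 3 * t * VS (pf W) := mul_le_mul_of_nonneg_right h4 h6
    _ = _ := by ring

theorem mom_le {ι : Type} [Fintype ι] [DecidableEq ι] (p : ι → ℝ) (w : ι → ℕ) (t : ℕ)
    (hp : ∀ i, 0 ≤ 1 / (p i - 1)) :
    mom p w (cut t) ≤ ∏ i, (1 + if w i ≤ t then 1 / (p i - 1) else 0) := by
  rw [prod_one_add, powerset_univ, mom]
  refine sum_le_sum fun s _ => ?_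
  unfold cut
  split_ifs with h
  · rw [one_mul]
    refine le_of_eq (prod_congr rfl fun i hi => ?_)
    rw [if_pos ((single_le_sum (fun _ _ => Nat.zero_le _) hi).trans h)]
  · rw [zero_mul]
    exact prod_nonneg fun i _ => by
      split_ifs
      · exact hp i
      · exact le_rfl

theorem mem_prm {W P : F[X]} {lo hi D : ℕ} (h : P ∈ prm F W lo hi D) :
    P ∈ irrLE F D ∧ ¬ P ∣ W := by
  classical
  unfold prm at h
  exact ⟨(mem_filter.1 h).1, (mem_filter.1 h).2.1⟩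

end GupX

open GupX in
theorem sGup (F : Type) [Field F] [Fintype F] [CharP F 2] : SGup F := by
  classical
  intro W lo hi D hW
  refine ⟨fun t ht hd => ?_, fun hD hd => ?_, fun w hw => ?_⟩
  · refine (mom_le _ _ t fun P => ?_).trans ?_
    · have := two_le (mem_irrLE.1 (mem_prm P.2).1).2.1
      exact one_div_nonneg.2 (by unfold nm; linarith)
    · refine le_trans (le_of_eq ?_) (key (A := (prm F W lo hi D).filter fun P => P.natDegree ≤ t)
        hW ht hd (fun P hP => ?_) fun P hP => (mem_prm (mem_filter.1 hP).1).2)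
      · rw [prod_filter, ← prod_coe_sort (prm F W lo hi D)]
        refine prod_congr rfl fun P _ => ?_
        unfold dP nm
        split_ifs
        · rfl
        · exact add_zero _
      · obtain ⟨a, b, -⟩ := mem_irrLE.1 (mem_prm (mem_filter.1 hP).1).1
        exact mem_irrLE.2 ⟨a, b, (mem_filter.1 hP).2⟩
  · refine le_trans (le_of_eq ?_) (key (A := prm F W lo hi D) hW hD hd
      (fun P hP => (mem_prm hP).1) fun P hP => (mem_prm hP).2)
    rw [← prod_coe_sort (prm F W lo hi D)]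
    rfl
  · have hT : ∀ P ∈ prm F W lo hi D,
        P.Monic ∧ Irreducible P ∧ w < P.natDegree ∧ P.natDegree ≤ D := fun P hP => by
      obtain ⟨a, b, c⟩ := mem_irrLE.1 (mem_prm hP).1
      exact ⟨a, b, not_le.1 fun e => (mem_prm hP).2 (hw P b e), c⟩
    refine ⟨le_trans (le_of_eq ?_) (sum_sq hT), fun P => ?_⟩
    · rw [← sum_coe_sort (prm F W lo hi D)]
      rfl
    · exact (pow_le_pow_right₀ one_le_two (hT P.1 P.2).2.2.1.le).trans (two_pow_le_qq _)

end Pool.Agent.PPf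

end

section

/- Prime pairs over `F[X]`: the bound of Weil for Dirichlet characters. -/

set_option autoImplicit false
set_option linter.unusedSectionVars false

namespace Pool.Agent.PPf

open Polynomial Finset Pool.Agent.MP_4fffd4_nt Pool.Agent.MP_c853c5_nt Pool.Agent.MP_43e117_nt
open scoped BigOperators Classical

namespace WeilX

open Pool.Agent.MP_d232b3_nt (KK VV mem_VV card_VV fix_iff integral)
open Pool.Agent.MP_346737_nt.FF (rho Setup rho_eq_sum)

variable {F : Type} [Field F] [Fintype F]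

theorem rho_mk (M f : F[X]) : rho (AdjoinRoot.root M) 1 f = AdjoinRoot.mk M f := by
  rw [rho_eq_sum, ← AdjoinRoot.aeval_eq, aeval_eq_sum_range]
  simp

theorem setup {M : F[X]} (hM : M.Monic) : ∃ adj, Setup (AdjoinRoot.root M) 1 M adj := by
  obtain ⟨g, hg⟩ := dvd_iff_isRoot.2 (AdjoinRoot.isRoot_root M)
  refine ⟨-g, hM.ne_zero, ?_⟩
  rw [AdjoinRoot.algebraMap_eq, hg, C_1]
  ring

theorem fin {M : F[X]} (hM : M.Monic) : Finite (AdjoinRoot M) :=
  have := hM.finite_adjoinRoot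
  Module.finite_of_finite F

theorem shift {n : ℕ} {c : F[X]} (hc : c.degree < n) (G : F[X] → ℂ) :
    ∑ f ∈ monF F n, G (f + c) = ∑ f ∈ monF F n, G f := by
  rw [monF, sum_map, sum_map]
  exact Fintype.sum_equiv (Equiv.addRight ⟨c, mem_degreeLT.2 hc⟩) _ _ fun y =>
    congrArg G (add_assoc (X ^ n) y.1 c)

theorem aa_zero {M : F[X]} (hM : M.Monic) {χ : MulChar (AdjoinRoot M) ℂ} (hχ : χ ≠ 1) {m : ℕ}
    (hm : M.natDegree ≤ m) : ∑ f ∈ monF F m, χ (AdjoinRoot.mk M f) = 0 := by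
  have := fin hM
  have := Fintype.ofFinite (AdjoinRoot M)
  have h1 : ∀ r : AdjoinRoot M, ∑ f ∈ monF F m, χ (AdjoinRoot.mk M f) =
      ∑ f ∈ monF F m, χ (AdjoinRoot.mk M f + r) := fun r => by
    obtain ⟨g, rfl⟩ := AdjoinRoot.mk_surjective r
    rw [← shift (c := g %ₘ M) ((degree_modByMonic_lt g hM).trans_le
      (degree_le_natDegree.trans (by exact_mod_cast hm)))]
    refine sum_congr rfl fun f _ => ?_
    rw [map_add, AdjoinRoot.mk_eq_mk.2 (dvd_modByMonic_sub g M)]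
  have h2 : ∑ _r : AdjoinRoot M, ∑ f ∈ monF F m, χ (AdjoinRoot.mk M f) = 0 := by
    rw [sum_congr rfl fun r _ => h1 r, sum_comm]
    refine sum_eq_zero fun f _ => ?_
    rw [← MulChar.sum_eq_zero_of_ne_one hχ]
    exact Fintype.sum_equiv (Equiv.addLeft (AdjoinRoot.mk M f)) _ _ fun _ => rfl
  rw [sum_const, nsmul_eq_mul, mul_eq_zero] at h2
  exact h2.resolve_left (Nat.cast_ne_zero.2 Fintype.card_ne_zero)

theorem fibre {n : ℕ} (hn : n ≠ 0) {P : F[X]} (hP : P ∈ irrF F n) :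
    (((VV F n).filter fun x => (minpoly F x).natDegree = n).filter
      fun x => minpoly F x = P).card = n := by
  obtain ⟨h1, h2, h3⟩ := mem_irrF.1 hP
  have e : (((VV F n).filter fun x => (minpoly F x).natDegree = n).filter
      fun x => minpoly F x = P) = (P.aroots (KK F)).toFinset := by
    ext x
    rw [mem_filter, mem_filter, mem_VV hn, fix_iff, Multiset.mem_toFinset, mem_aroots]
    refine ⟨fun h => ⟨h1.ne_zero, h.2 ▸ minpoly.aeval F x⟩, fun h => ?_⟩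
    rw [← minpoly.eq_of_irreducible_of_monic h3 h.2 h1, h2]
    exact ⟨⟨dvd_rfl, rfl⟩, rfl⟩
  rw [e, Multiset.toFinset_card_of_nodup
    (nodup_roots (PerfectField.separable_of_irreducible h3).map),
    IsAlgClosed.card_aroots_eq_natDegree, h2]

theorem top {n : ℕ} (hn : n ≠ 0) (G : F[X] → ℂ) :
    ∑ x ∈ (VV F n).filter fun x => (minpoly F x).natDegree = n,
      G (MP_d232b3_nt.cc x n) = n * ∑ P ∈ irrF F n, G P := by
  rw [← sum_fiberwise_of_maps_to (t := irrF F n) (g := fun x => minpoly F x) fun x hx =>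
    mem_irrF.2 ⟨minpoly.monic (integral x), (mem_filter.1 hx).2,
      minpoly.irreducible (integral x)⟩, mul_sum]
  refine sum_congr rfl fun P hP => ?_
  rw [sum_congr rfl (g := fun _ => G P), sum_const, fibre hn hP, nsmul_eq_mul]
  intro x hx
  obtain ⟨h1, h2⟩ := mem_filter.1 hx
  rw [MP_d232b3_nt.cc, (mem_filter.1 h1).2, Nat.div_self (Nat.pos_of_ne_zero hn), pow_one, h2]

theorem geo {q : ℕ} (hq : 2 ≤ q) (k : ℕ) : ∑ d ∈ Icc 1 k, q ^ d ≤ 2 * q ^ k := by
  induction k with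
  | zero => simp
  | succ k ih =>
    rw [sum_Icc_succ_top (by omega), pow_succ]
    nlinarith [Nat.mul_le_mul_left (q ^ k) hq]

theorem low {n : ℕ} (hn : n ≠ 0) :
    (((VV F n).filter fun x => ¬ (minpoly F x).natDegree = n).card : ℝ) ≤ 2 * √(qq F n) := by
  have h1 : ((VV F n).filter fun x => ¬ (minpoly F x).natDegree = n) ⊆
      (Icc 1 (n / 2)).biUnion (VV F) := fun x hx => by
    obtain ⟨h2, h3⟩ := mem_filter.1 hx
    have h4 := minpoly.natDegree_pos (integral x)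
    obtain ⟨e, he⟩ := (fix_iff x n).1 ((mem_VV hn).1 h2)
    refine mem_biUnion.2 ⟨_, mem_Icc.2 ⟨h4, ?_⟩, (mem_VV h4.ne').2 ((fix_iff x _).2 dvd_rfl)⟩
    rcases e with _ | _ | e
    · omega
    · omega
    · rw [Nat.le_div_iff_mul_le two_pos]
      exact (Nat.mul_le_mul_left _ (by omega)).trans he.ge
  have h2 := ((card_le_card h1).trans card_biUnion_le).trans
    ((sum_congr rfl fun d hd => card_VV (by have := (mem_Icc.1 hd).1; omega)).trans_le
      (geo Fintype.one_lt_card _))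
  have h3 : ((Fintype.card F : ℝ) ^ (n / 2)) ≤ √(qq F n) := Real.le_sqrt_of_sq_le (by
    rw [← pow_mul, qq]
    exact pow_le_pow_right₀ (by exact_mod_cast Fintype.card_pos) (by omega))
  refine le_trans (by exact_mod_cast h2) (mul_le_mul_of_nonneg_left h3 two_pos.le)

end WeilX

variable (F : Type) [Field F] [Fintype F] [CharP F 2]

theorem sWeil : SWeil F := by
  intro M χ n hM hχ hn
  have hn0 : n ≠ 0 := by omega
  have := WeilX.fin hM
  obtain ⟨adj, hS⟩ := WeilX.setup hM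
  have h1 := Pool.Agent.MP_346737_nt.FF.weilG hS χ (κ := M.natDegree) (fun m hm => by
    simp only [WeilX.rho_mk]
    exact WeilX.aa_zero hM hχ hm.le) hn0
  simp only [WeilX.rho_mk] at h1
  rw [Pool.Agent.MP_d232b3_nt.SS, ← sum_filter_add_sum_filter_not _
    fun x => (minpoly F x).natDegree = n, WeilX.top hn0 fun P => χ (AdjoinRoot.mk M P)] at h1
  have h2 := (norm_sum_le_of_le _ fun x _ => MP_346737_nt.FF.FWeilX.norm_chi χ
    (AdjoinRoot.mk M (Pool.Agent.MP_d232b3_nt.cc x n))).trans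
    ((sum_const _).trans (nsmul_one _) |>.trans_le (WeilX.low (F := F) hn0))
  refine le_trans ?_ ((add_le_add h1 h2).trans_eq (by rw [qq]; ring))
  exact (congrArg _ (add_sub_cancel_right _ _)).symm.trans_le (norm_sub_le _ _)

end Pool.Agent.PPf

end

section

/- Prime pairs over `F[X]`: primes in residue classes. -/

set_option autoImplicit false
set_option linter.unusedSectionVars false

namespace Pool.Agent.PPf

open Polynomial Finset Pool.Agent.MP_4fffd4_nt Pool.Agent.MP_c853c5_nt Pool.Agent.MP_43e117_nt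
open scoped BigOperators

namespace PntX

section Char

open scoped Classical

variable {R : Type*} [CommRing R] [Fintype R] [Fintype (MulChar R ℂ)]

theorem card_char : Fintype.card (MulChar R ℂ) = Fintype.card Rˣ := by
  rw [← Nat.card_eq_fintype_card, ← Nat.card_eq_fintype_card]
  exact MulChar.card_eq_card_units_of_hasEnoughRootsOfUnity R ℂ

theorem sum_char (a : R) :
    ∑ ψ : MulChar R ℂ, ψ a = if a = 1 then (Fintype.card Rˣ : ℂ) else 0 := by
  split_ifs with ha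
  · simp only [ha, map_one, sum_const, card_univ, nsmul_eq_mul, mul_one, card_char]
  · obtain ⟨χ, hχ⟩ := MulChar.exists_apply_ne_one_of_hasEnoughRootsOfUnity R ℂ ha
    refine eq_zero_of_mul_eq_self_left hχ ?_
    simp only [mul_sum, ← MulChar.mul_apply]
    exact Fintype.sum_bijective _ (Group.mulLeft_bijective χ) _ _ fun χ' => rfl

omit [Fintype (MulChar R ℂ)] in
theorem norm_char (χ : MulChar R ℂ) (u : Rˣ) : ‖χ u‖ = 1 := by
  have h : ‖χ u‖ ^ Fintype.card Rˣ = 1 := by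
    rw [← norm_pow, ← map_pow, ← Units.val_pow_eq_pow_val, pow_card_eq_one, Units.val_one,
      map_one, norm_one]
  exact (pow_eq_one_iff_of_nonneg (norm_nonneg _) Fintype.card_ne_zero).1 h

omit [Fintype (MulChar R ℂ)] in
theorem sum_ind_unit : ∑ a : R, ind (IsUnit a) = Fintype.card Rˣ := by
  have h : (univ.filter fun a : R => IsUnit a) = univ.image (Units.val : Rˣ → R) := by
    ext a
    simp only [mem_filter, mem_univ, true_and, mem_image]
    exact Iff.rfl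
  have e : ∀ a : R, ind (IsUnit a) = if IsUnit a then 1 else 0 := fun a => by
    split_ifs with h
    · exact ind_pos h
    · exact ind_neg h
  simp only [e]
  rw [Finset.sum_boole, h, Finset.card_image_of_injective _ Units.val_injective, card_univ]

end Char

variable {F : Type} [Field F] [Fintype F]

theorem pi_low {n : ℕ} (hn : 1 ≤ n) : qq F n ≤ n * (irrF F n).card + 2 * qq F (n / 2) := by
  classical
  have h0 : ∑ e ∈ monF F n, vm e = (Fintype.card F : ℝ) ^ n := by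
    obtain ⟨m, rfl⟩ : ∃ m, n = m + 1 := ⟨n - 1, by omega⟩
    exact SConv.sum_vm_succ m
  have h1 : ∀ g ∈ monF F n, vm g ≤ (if Irreducible g then (n : ℝ) else 0) +
      ∑ d ∈ range (n / 2 + 1), ∑ P ∈ irrF F d, if g = P ^ (n / d) then (d : ℝ) else 0 := by
    intro g hg
    have a1 : (0 : ℝ) ≤ if Irreducible g then (n : ℝ) else 0 := by positivity
    have a2 : ∀ d, ∀ P ∈ irrF F d, (0 : ℝ) ≤ if g = P ^ (n / d) then (d : ℝ) else 0 :=
      fun d P _ => by positivity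
    have a3 : ∀ d ∈ range (n / 2 + 1),
        (0 : ℝ) ≤ ∑ P ∈ irrF F d, if g = P ^ (n / d) then (d : ℝ) else 0 :=
      fun d _ => sum_nonneg (a2 d)
    rcases SConv.vm_cases g with h | ⟨P, b1, b2, a, ha, e, h⟩
    · rw [h]; exact add_nonneg a1 (sum_nonneg a3)
    have b3 := (mem_monF.1 hg).2
    rw [e, b1.natDegree_pow] at b3
    rcases Nat.eq_or_lt_of_le (Nat.succ_le_of_lt ha) with h2 | h2
    · rw [← h2] at e b3
      simp only [Nat.succ_eq_add_one, zero_add, pow_one, one_mul] at e b3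
      rw [h, b3, if_pos (e ▸ b2)]
      exact le_add_of_nonneg_right (sum_nonneg a3)
    · have b4 := b2.natDegree_pos
      have b5 : P.natDegree ∈ range (n / 2 + 1) := by
        rw [mem_range, Nat.lt_succ_iff, Nat.le_div_iff_mul_le two_pos, ← b3, mul_comm]
        exact Nat.mul_le_mul_right _ h2
      refine le_add_of_nonneg_of_le a1 (le_trans ?_ (single_le_sum a3 b5))
      refine le_trans ?_ (single_le_sum (a2 _) (mem_irrF.2 ⟨b1, rfl, b2⟩))
      rw [h, if_pos (by rw [← b3, Nat.mul_div_cancel _ b4, e])]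
  have h2 := sum_le_sum h1
  rw [h0, sum_add_distrib, ← sum_filter, sum_const, nsmul_eq_mul, sum_comm] at h2
  have h3 : ∑ d ∈ range (n / 2 + 1), ∑ g ∈ monF F n, ∑ P ∈ irrF F d,
      (if g = P ^ (n / d) then (d : ℝ) else 0) ≤ 2 * (Fintype.card F : ℝ) ^ (n / 2) := by
    refine (sum_le_sum fun d _ => ?_).trans (SConv.geom _)
    rw [sum_comm]
    refine (sum_le_card_nsmul _ _ (d : ℝ) fun P _ => ?_).trans ?_
    · rw [sum_ite_eq']
      split_ifs
      · exact le_rfl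
      · positivity
    · rw [nsmul_eq_mul, mul_comm]
      exact SConv.card_irrF_le d
  have h5 : ((monF F n).filter Irreducible).card = (irrF F n).card := by
    unfold irrF; congr
  rw [h5] at h2
  unfold qq
  linarith

theorem isUnit_mk_iff {M P : F[X]} : IsUnit (AdjoinRoot.mk M P) ↔ IsCoprime P M := by
  constructor
  · intro h
    obtain ⟨y, hy⟩ := h.exists_left_inv
    obtain ⟨a, rfl⟩ := AdjoinRoot.mk_surjective y
    rw [← map_mul, ← map_one (AdjoinRoot.mk M), AdjoinRoot.mk_eq_mk] at hy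
    obtain ⟨k, hk⟩ := hy
    exact ⟨a, -k, by linear_combination hk⟩
  · rintro ⟨a, b, h⟩
    refine IsUnit.of_mul_eq_one (AdjoinRoot.mk M a) ?_
    rw [← map_mul, ← map_one (AdjoinRoot.mk M), AdjoinRoot.mk_eq_mk]
    exact ⟨-b, by linear_combination h⟩

theorem pf_coprime {M : F[X]} (hM : M ≠ 0) :
    ∀ P ∈ pf M, ∀ Q ∈ pf M, P ≠ Q → IsCoprime P Q := fun P hP Q hQ hne => by
  obtain ⟨a1, a2, -⟩ := (mem_pf hM).1 hP
  obtain ⟨b1, b2, -⟩ := (mem_pf hM).1 hQ
  exact a2.coprime_iff_not_dvd.2 fun h =>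
    hne (eq_of_monic_of_associated a1 b1 (a2.associated_of_dvd b2 h))

theorem deg_pf {M : F[X]} (hM : M ≠ 0) : ∑ P ∈ pf M, P.natDegree ≤ M.natDegree := by
  rw [← natDegree_prod _ _ fun P hP => ((mem_pf hM).1 hP).1.ne_zero]
  exact natDegree_le_of_dvd (Finset.prod_dvd_of_coprime
    (fun P hP Q hQ h => pf_coprime hM P hP Q hQ h) fun P hP => ((mem_pf hM).1 hP).2.2) hM

theorem ind_coprime {M : F[X]} (hM : M ≠ 0) (t : F[X]) :
    ind (IsCoprime t M) = ∏ P ∈ pf M, (1 - ind (P ∣ 1 * t + 0)) := by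
  by_cases h : IsCoprime t M
  · rw [ind_pos h]
    refine (Finset.prod_eq_one fun P hP => ?_).symm
    obtain ⟨-, a2, a3⟩ := (mem_pf hM).1 hP
    rw [ind_neg, sub_zero]
    rw [one_mul, add_zero]
    exact fun h' => a2.not_isUnit (h.isUnit_of_dvd' h' a3)
  · rw [ind_neg h]
    have : ∃ P ∈ pf M, P ∣ t := by
      by_contra hc
      refine h (isCoprime_of_irreducible_dvd (fun e => hM e.2) fun z hz h1 h2 => hc ?_)
      classical
      exact ⟨normalize z, (mem_pf hM).2 ⟨monic_normalize hz.ne_zero,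
        (normalize_associated z).symm.irreducible hz, (normalize_associated z).dvd.trans h2⟩,
        (normalize_associated z).dvd.trans h1⟩
    obtain ⟨P, hP, h1⟩ := this
    refine (Finset.prod_eq_zero hP ?_).symm
    rw [ind_pos (by rwa [one_mul, add_zero]), sub_self]

theorem mk_bij {M : F[X]} (hM : M.Monic) :
    Function.Bijective fun t : degreeLT F M.natDegree => AdjoinRoot.mk M t.1 := by
  constructor
  · intro t t' h
    have h1 := AdjoinRoot.mk_eq_mk.1 h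
    have h2 := mem_degreeLT.1 (t - t').2
    rw [← degree_eq_natDegree hM.ne_zero] at h2
    exact Subtype.ext (sub_eq_zero.1 (eq_zero_of_dvd_of_degree_lt h1 h2))
  · intro a
    obtain ⟨f, rfl⟩ := AdjoinRoot.mk_surjective a
    refine ⟨⟨f %ₘ M, mem_degreeLT.2 ?_⟩, ?_⟩
    · rw [← degree_eq_natDegree hM.ne_zero]
      exact degree_modByMonic_lt _ hM
    · exact AdjoinRoot.mk_eq_mk.2 ⟨-(f /ₘ M), by linear_combination modByMonic_add_div f M⟩

open scoped Classical in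
theorem card_units {M : F[X]} (hM : M.Monic) [Fintype (AdjoinRoot M)] :
    (Fintype.card (AdjoinRoot M)ˣ : ℝ) = qq F M.natDegree * VS (pf M) := by
  rw [← sum_ind_unit, ← (mk_bij hM).sum_comp fun a => ind (IsUnit a)]
  simp only [isUnit_mk_iff, ind_coprime hM.ne_zero]
  rw [← Fintype.card_mul_expect, card_degreeLT, Nat.cast_pow,
    expect_prod_coprime (pf M) (fun P => P) (fun P hP => ((mem_pf hM.ne_zero).1 hP).1.ne_zero)
      (pf_coprime hM.ne_zero) (fun P t => 1 - ind (P ∣ 1 * t + 0)) (fun P _ f t => by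
        simp only [one_mul, add_zero]
        rw [SPsi.ind_congr (dvd_add_left (dvd_mul_right P t))]) (deg_pf hM.ne_zero)]
  unfold VS
  congr 1
  refine Finset.prod_congr rfl fun P hP => ?_
  obtain ⟨a1, -, a3⟩ := (mem_pf hM.ne_zero).1 hP
  rw [Finset.expect_sub_distrib, Finset.expect_const univ_nonempty,
    expect_lin a1 isCoprime_one_left 0 (natDegree_le_of_dvd a3 hM.ne_zero)]

theorem sqrt_le (n : ℕ) : √(qq F n) ≤ qq F n / qq F (n / 2) ∧
    qq F (n / 2) ≤ qq F n / qq F (n / 2) := by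
  have h1 := qq_pos (F := F) n
  have h2 := qq_pos (F := F) (n / 2)
  have h3 : qq F (n / 2) * qq F (n / 2) ≤ qq F n := by
    rw [← qq_add]; exact qq_mono (by omega)
  refine ⟨?_, (le_div_iff₀ h2).2 h3⟩
  rw [le_div_iff₀ h2]
  have h4 : qq F (n / 2) ≤ √(qq F n) := Real.le_sqrt_of_sq_le (by rw [sq]; exact h3)
  calc _ ≤ √(qq F n) * √(qq F n) := by gcongr
    _ = _ := Real.mul_self_sqrt h1.le

end PntX

open PntX

variable (F : Type) [Field F] [Fintype F] [CharP F 2]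

theorem sPnt (h : SWeil F) : SPnt F := by
  classical
  intro M y n hM hn hy
  have hn1 : 1 ≤ n := by omega
  have : Finite (AdjoinRoot M) := Finite.of_surjective _ (mk_bij hM).2
  have : Fintype (AdjoinRoot M) := Fintype.ofFinite _
  have : Fintype (MulChar (AdjoinRoot M) ℂ) := Fintype.ofFinite _
  obtain ⟨u, hu⟩ := isUnit_mk_iff.2 hy
  have hφ := card_units hM
  set φ : ℝ := (Fintype.card (AdjoinRoot M)ˣ : ℝ) with hφd
  have hφ1 : 1 ≤ φ := by rw [hφd]; exact_mod_cast Fintype.card_pos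
  have hφ0 : 0 < φ := by linarith
  set A : ℝ := ∑ f ∈ monF F n, n * ind (Irreducible f) * ind (M ∣ f - y) with hA
  have hA1 : A = n * ∑ P ∈ irrF F n, ind (M ∣ P - y) := by
    rw [hA, irrF, sum_filter, mul_sum]
    refine sum_congr rfl fun f _ => ?_
    by_cases hf : Irreducible f
    · rw [ind_pos hf, if_pos hf, mul_one]
    · rw [ind_neg hf, if_neg hf, mul_zero, zero_mul]
  have h1 : ((φ * A : ℝ) : ℂ) = ∑ χ : MulChar (AdjoinRoot M) ℂ,
      χ (u⁻¹ : (AdjoinRoot M)ˣ) * ((n : ℂ) * ∑ P ∈ irrF F n, χ (AdjoinRoot.mk M P)) := by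
    simp only [mul_left_comm _ (n : ℂ), ← mul_sum univ]
    simp only [Finset.mul_sum (irrF F n), ← map_mul]
    rw [Finset.sum_comm, hA1, mul_left_comm, mul_sum (irrF F n)]
    push_cast
    congr 1
    refine sum_congr rfl fun P _ => ?_
    rw [sum_char]
    simp only [Units.inv_mul_eq_one, hu]
    by_cases e : M ∣ P - y
    · rw [ind_pos e, if_pos (AdjoinRoot.mk_eq_mk.2 e).symm, hφd]; simp
    · rw [ind_neg e, if_neg fun e' => e (AdjoinRoot.mk_eq_mk.1 e'.symm)]; simp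
  have h2 : (1 : MulChar (AdjoinRoot M) ℂ) (u⁻¹ : (AdjoinRoot M)ˣ) *
      ((n : ℂ) * ∑ P ∈ irrF F n, (1 : MulChar (AdjoinRoot M) ℂ) (AdjoinRoot.mk M P)) =
      ((n * (irrF F n).card : ℝ) : ℂ) := by
    rw [MulChar.one_apply_coe, one_mul, sum_congr rfl (g := fun _ => (1 : ℂ)) fun P hP => ?_]
    · simp
    · obtain ⟨-, a2, a3⟩ := mem_irrF.1 hP
      refine MulChar.one_apply (isUnit_mk_iff.2 (a3.coprime_iff_not_dvd.2 fun e => ?_))
      have := natDegree_le_of_dvd e hM.ne_zero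
      omega
  rw [← Finset.add_sum_erase _ _ (mem_univ (1 : MulChar (AdjoinRoot M) ℂ)), h2] at h1
  have h3 : |φ * A - n * (irrF F n).card| ≤ φ * ((M.natDegree + 2) * √(qq F n)) := by
    rw [← Real.norm_eq_abs, ← Complex.norm_real, Complex.ofReal_sub, h1, add_sub_cancel_left]
    refine (norm_sum_le _ _).trans ((sum_le_card_nsmul _ _ ((M.natDegree + 2) * √(qq F n))
      fun χ hχ => ?_).trans ?_)
    · rw [norm_mul, norm_char, one_mul]
      exact h M χ n hM (ne_of_mem_erase hχ) hn1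
    · rw [nsmul_eq_mul, hφd, ← card_char]
      gcongr
      exact_mod_cast card_le_univ _
  have h4 := pi_low (F := F) hn1
  have h5 : (n : ℝ) * (irrF F n).card ≤ qq F n := SConv.card_irrF_le n
  obtain ⟨h6, h7⟩ := sqrt_le (F := F) n
  set T := qq F n / qq F (n / 2)
  have hT : 0 ≤ T := (Real.sqrt_nonneg _).trans h6
  have hq := qq_pos (F := F) M.natDegree
  have h8 : qq F n / qq F M.natDegree * (VS (pf M))⁻¹ = qq F n / φ := by
    rw [hφ, div_mul_eq_div_div, div_eq_mul_inv _ (VS _)]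
  have h9 : (M.natDegree + 2 : ℝ) ≤ n + 1 := by exact_mod_cast (by omega : M.natDegree + 2 ≤ n + 1)
  have hn' : (1 : ℝ) ≤ n := by exact_mod_cast hn1
  have h10 : (M.natDegree + 2) * √(qq F n) ≤ (n + 1) * T := by gcongr
  have h11 : |φ * A - qq F n| ≤ φ * (4 * n * T) := by
    have a1 : φ * ((M.natDegree + 2) * √(qq F n)) ≤ φ * ((n + 1) * T) := by gcongr
    have a2 : 2 * T ≤ φ * (2 * T) := le_mul_of_one_le_left (by positivity) hφ1
    have a3 : φ * ((n + 1) * T) + φ * (2 * T) ≤ φ * (4 * n * T) := by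
      rw [← mul_add]
      gcongr
      nlinarith
    rw [abs_le] at h3 ⊢
    constructor <;> linarith [h3.1, h3.2]
  rw [h8, show A - qq F n / φ = (φ * A - qq F n) / φ by field_simp, abs_div, abs_of_pos hφ0,
    div_le_iff₀' hφ0]
  exact h11

end Pool.Agent.PPf

end

section

/- Prime pairs over `F[X]`: prime values of the quadratic form in residue classes. -/

set_option autoImplicit false
set_option linter.unusedSectionVars false

namespace Pool.Agent.PPf

open Polynomial Finset Pool.Agent.MP_4fffd4_nt Pool.Agent.MP_c853c5_nt Pool.Agent.MP_43e117_nt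
open scoped BigOperators

namespace QapX

variable {F : Type} [Field F] [Fintype F]

theorem sum_class {m x : F[X]} (hm : m.Monic) (hx : x.degree < m.degree) (n : ℕ)
    (p : F[X] → Prop) : ∑ f ∈ monF F (n + m.natDegree), ind (p f) * ind (m ∣ f - x) =
      ∑ h ∈ monF F n, ind (p (x + m * h)) := by
  classical
  rw [← Pool.Agent.MP_f37147_nt.QPairA.card_class hm hx n p, Finset.card_filter]
  push_cast
  refine Finset.sum_congr rfl fun f _ => ?_
  by_cases h1 : p f <;> by_cases h2 : m ∣ f - x <;> simp [ind, h1, h2]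

theorem sing_eq {b M : F[X]} (hb : b ≠ 0) (hM : M ≠ 0)
    (h : ∀ P : F[X], Irreducible P → (P ∣ b ↔ P ∣ M)) :
    Pool.Agent.MP_f37147_nt.sing b = (VS (pf M))⁻¹ := by
  have e : Pool.Agent.MP_f37147_nt.pf b = pf M := by
    ext P
    rw [Pool.Agent.MP_f37147_nt.mem_pf hb, mem_pf hM]
    exact and_congr_right fun _ => and_congr_right (h P)
  rw [Pool.Agent.MP_f37147_nt.sing, e, VS, Finset.prod_inv_distrib]
  rfl

end QapX

variable (F : Type) [Field F] [Fintype F] [CharP F 2]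

theorem sQap : SQap F := by
  intro C n₀ n n' a c d M M' y v hcore hsq hM hMd hP hy hv hn hn₀ h1 h2
  have h2F : (2 : F[X]) = 0 := by exact_mod_cast CharP.cast_eq_zero F[X] 2
  have ha : a ≠ 0 := by
    rintro rfl
    exact hsq ⟨0, by simp⟩
  have hd : d ≠ 0 := left_ne_zero_of_mul (hMd ▸ hM.ne_zero)
  have hM' : M' ≠ 0 := right_ne_zero_of_mul (hMd ▸ hM.ne_zero)
  have hb : a * M * M' ≠ 0 := mul_ne_zero (mul_ne_zero ha hM.ne_zero) hM'
  obtain ⟨l, hl, a₂, hm₂, ea⟩ := Pool.Agent.MP_f37147_nt.QPairA.normal hb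
  have hl' : Polynomial.C l * Polynomial.C l⁻¹ = 1 := by rw [← C_mul, mul_inv_cancel₀ hl, C_1]
  have hu : IsUnit (Polynomial.C l) := isUnit_C.2 hl.isUnit
  obtain ⟨x, hx⟩ : ∃ x, x = y %ₘ M := ⟨_, rfl⟩
  obtain ⟨t, ht⟩ : ∃ t, x + M * t = y := ⟨_, hx ▸ modByMonic_add_div y M⟩
  have hxd : x.degree < M.degree := hx ▸ degree_modByMonic_lt y hM
  obtain ⟨w, hw⟩ : ∃ w, w = v + a * M * M' * t ^ 2 := ⟨_, rfl⟩
  have hxw : a * x ^ 2 + c = d * w := by
    rw [← ht] at hy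
    rw [hw]
    linear_combination hy - (a * x * M * t + a * M ^ 2 * t ^ 2) * h2F + a * M * t ^ 2 * hMd
  have hdv : ∀ P : F[X], Irreducible P → (P ∣ a₂ ↔ P ∣ M') := fun P p => by
    rw [← hu.dvd_mul_left, ← ea]
    refine ⟨fun h => ?_, fun h => h.mul_left _⟩
    rw [hMd, ← mul_assoc, mul_assoc] at h
    rcases p.prime.dvd_or_dvd h with h | h
    · exact hP P p h
    · exact (p.prime.dvd_or_dvd h).elim id id
  obtain ⟨c₂, hc₂⟩ : ∃ c₂, c₂ = Polynomial.C l⁻¹ * w := ⟨_, rfl⟩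
  have hw₂ : w = Polynomial.C l * c₂ := by rw [hc₂]; linear_combination -w * hl'
  have hMd' : M.natDegree = d.natDegree + M'.natDegree := by rw [hMd, natDegree_mul hd hM']
  have hd₂ : a₂.natDegree + d.natDegree = a.natDegree + 2 * M.natDegree := by
    rw [← natDegree_C_mul (p := a₂) hl, ← ea, natDegree_mul (mul_ne_zero ha hM.ne_zero) hM',
      natDegree_mul ha hM.ne_zero]
    omega
  have hcop : IsCoprime a₂ c₂ := by
    refine isCoprime_of_irreducible_dvd (fun h => hm₂.ne_zero h.1) fun P p p1 p2 => ?_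
    have b1 := (hdv P p).1 p1
    have b2 : P ∣ v + a * M * M' * t ^ 2 := by rw [← hw, hw₂]; exact p2.mul_left _
    exact p.not_isUnit (hv.isUnit_of_dvd'
      ((dvd_add_left ((b1.mul_left _).mul_right _)).1 b2) b1)
  have hder : derivative (a₂ * c₂) ≠ 0 := by
    intro h0
    have b1 : Polynomial.C l ^ 2 * (a₂ * c₂) = M' ^ 2 * ((a * x) ^ 2 * 1 + a * c) := by
      linear_combination (-(M' ^ 2 * a)) * hxw - (Polynomial.C l * c₂) * ea - a * M * M' * hw₂ +
        a * M' * w * hMd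
    have b3 := congrArg derivative b1
    rw [Pool.Agent.MP_f37147_nt.QPairA.dsq, Pool.Agent.MP_f37147_nt.QPairA.dsq, derivative_add,
      Pool.Agent.MP_f37147_nt.QPairA.dsq, h0, derivative_one, mul_zero, mul_zero, zero_add] at b3
    exact mul_ne_zero (pow_ne_zero 2 hM')
      (Pool.Agent.MP_f37147_nt.derivative_ne_zero_iff.2 hsq) b3.symm
  have hdc : c₂.natDegree ≤ n' / C := by
    refine (hc₂ ▸ natDegree_C_mul_le _ _ : c₂.natDegree ≤ w.natDegree).trans ?_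
    rcases eq_or_ne w 0 with h0 | h0
    · rw [h0, natDegree_zero]
      exact Nat.zero_le _
    have b2 := natDegree_mul hd h0
    have b3 : x.natDegree ≤ M.natDegree := natDegree_le_natDegree hxd.le
    have b4 := natDegree_add_le (a * x ^ 2) c
    have b5 : (a * x ^ 2).natDegree ≤ a.natDegree + 2 * x.natDegree :=
      natDegree_mul_le.trans (Nat.add_le_add_left natDegree_pow_le _)
    rw [hxw, b2] at b4
    rcases le_max_iff.1 b4 with b6 | b6 <;> omega
  have H := hcore n' hn₀ a₂ c₂ hm₂ hcop hder (by omega) hdc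
  rw [QapX.sing_eq hm₂.ne_zero hM.ne_zero fun P p => (hdv P p).trans
    ⟨fun h => hMd ▸ h.mul_left d, fun h => (p.prime.dvd_or_dvd (hMd ▸ h)).elim
      (fun h => hP P p (h.mul_left a)) id⟩] at H
  have e1 : ∑ f ∈ monF F n, ind (∃ Q, Irreducible Q ∧ a * f ^ 2 + c = d * Q) * ind (M ∣ f - y) =
      Pool.Agent.MP_f37147_nt.npr a₂ c₂ n' := by
    have b1 : ∀ f, M ∣ f - y ↔ M ∣ f - x := fun f => by
      rw [← ht, ← sub_sub]
      exact dvd_sub_left (dvd_mul_right M t)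
    simp only [b1]
    rw [hn, QapX.sum_class hM hxd n' fun f => ∃ Q, Irreducible Q ∧ a * f ^ 2 + c = d * Q]
    refine Finset.sum_congr rfl fun h _ => congrArg ind (propext ?_)
    have b3 : a * (x + M * h) ^ 2 + c = d * (Polynomial.C l * (a₂ * h ^ 2 + c₂)) := by
      linear_combination hxw + a * x * M * h * h2F + d * hw₂ + d * h ^ 2 * ea +
        a * M * h ^ 2 * hMd
    rw [b3, ← irreducible_isUnit_mul hu]
    exact ⟨fun ⟨Q, b6, b7⟩ => mul_left_cancel₀ hd b7 ▸ b6, fun b6 => ⟨_, b6, rfl⟩⟩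
  have e2 : (2 * n + a.natDegree - d.natDegree : ℝ) = 2 * n' + a₂.natDegree := by
    have : (a₂.natDegree + d.natDegree : ℝ) = a.natDegree + 2 * M.natDegree := by
      exact_mod_cast hd₂
    rw [hn]; push_cast; linarith
  have e3 : qq F n / qq F M.natDegree = (Fintype.card F : ℝ) ^ n' := by
    rw [hn, qq, pow_add]
    exact mul_div_cancel_right₀ _ (qq_pos (F := F) _).ne'
  simp only [mul_assoc]
  rw [← Finset.mul_sum, e1, e2, e3]
  refine H.trans (div_le_div_of_nonneg_right ?_ (qq_pos (F := F) _).le)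
  exact pow_le_pow_right₀ (one_le_two.trans two_le_card) (by omega)

end Pool.Agent.PPf

end

section

/- Prime pairs over `F[X]`: the choice of the modulus and of the roots. -/

set_option autoImplicit false
set_option linter.unusedSectionVars false

namespace Pool.Agent.PPf

open Polynomial Finset Pool.Agent.MP_4fffd4_nt Pool.Agent.MP_c853c5_nt Pool.Agent.MP_43e117_nt
open scoped BigOperators

namespace RootX

variable {F : Type} [Field F] [Fintype F]

theorem exists_monic {P : F[X]} (hP : Irreducible P) :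
    ∃ Q : F[X], Q.Monic ∧ Irreducible Q ∧ P ∣ Q ∧ Q ∣ P ∧ Q.natDegree = P.natDegree := by
  classical
  have h1 : Associated P (normalize P) := associated_normalize P
  exact ⟨normalize P, monic_normalize hP.ne_zero, h1.irreducible hP, h1.dvd, h1.symm.dvd,
    (natDegree_eq_of_degree_eq (degree_eq_degree_of_associated h1)).symm⟩

theorem crt (S : Finset F[X]) (t : F[X] → F[X]) (hS : ∀ P ∈ S, P.Monic ∧ Irreducible P) :
    ∃ T : F[X], ∀ P ∈ S, P ∣ T - t P := by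
  classical
  induction S using Finset.induction_on with
  | empty => exact ⟨0, fun P hP => absurd hP (Finset.notMem_empty P)⟩
  | insert P S hP ih =>
    obtain ⟨T, hT⟩ := ih fun Q hQ => hS Q (Finset.mem_insert_of_mem hQ)
    obtain ⟨a1, a2⟩ := hS P (Finset.mem_insert_self P S)
    have hc : IsCoprime P (∏ Q ∈ S, Q) := IsCoprime.prod_right fun Q hQ => by
      obtain ⟨b1, b2⟩ := hS Q (Finset.mem_insert_of_mem hQ)
      refine a2.coprime_iff_not_dvd.2 fun e => hP ?_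
      rw [eq_of_monic_of_associated a1 b1 (a2.associated_of_dvd b2 e)]
      exact hQ
    obtain ⟨u, v, huv⟩ := hc
    refine ⟨T * u * P + t P * v * ∏ Q ∈ S, Q, fun Q hQ => ?_⟩
    rcases Finset.mem_insert.1 hQ with rfl | hQ
    · exact ⟨(T - t Q) * u, by linear_combination t Q * huv⟩
    · have h1 : Q ∣ ∏ Q ∈ S, Q := Finset.dvd_prod_of_mem (fun Q => Q) hQ
      have h2 := dvd_add (hT Q hQ) (h1.mul_left ((t P - T) * v))
      rwa [show T - t Q + (t P - T) * v * ∏ Q ∈ S, Q =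
        T * u * P + t P * v * ∏ Q ∈ S, Q - t Q by linear_combination (-T) * huv] at h2

theorem exists_shift (g : F[X]) (hg : g ≠ 0) (B : F[X] → F[X] → Prop)
    (hB : ∀ R : F[X], Irreducible R → ∃ t, B R t) :
    ∃ T : F[X], ∀ P : F[X], Irreducible P → P ∣ g →
      ∃ Q t : F[X], Q ∣ P ∧ B Q t ∧ Q ∣ T - t := by
  choose! t ht using hB
  obtain ⟨T, hT⟩ := crt (pf g) t fun P hP => ⟨((mem_pf hg).1 hP).1, ((mem_pf hg).1 hP).2.1⟩
  refine ⟨T, fun P hP e => ?_⟩
  obtain ⟨Q, q1, q2, -, q4, -⟩ := exists_monic hP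
  exact ⟨Q, t Q, q4, ht Q q2, hT Q ((mem_pf hg).2 ⟨q1, q2, q4.trans e⟩)⟩

theorem exists_root [CharP F 2] (a c : F[X]) : ∃ r : F[X] → F[X], ∀ P : F[X], Irreducible P →
    ¬ P ∣ a → ∀ f, P ∣ f - r P ↔ P ∣ a * f ^ 2 + c := by
  have H : ∀ P : F[X], Irreducible P ∧ ¬ P ∣ a → ∃ r, P ∣ a * r ^ 2 + c := fun P hP =>
    Pool.Agent.MP_f37147_nt.sol_exists c hP.1.squarefree (hP.1.coprime_iff_not_dvd.2 hP.2)
  choose! r hr using H
  refine ⟨r, fun P hP ha f => ⟨fun e => ?_, fun e => Pool.Agent.MP_f37147_nt.sol_unique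
    hP.squarefree (hP.coprime_iff_not_dvd.2 ha) e (hr P ⟨hP, ha⟩)⟩⟩
  have h1 := dvd_add (hr P ⟨hP, ha⟩) (e.mul_left (a * (f + r P)))
  rwa [show a * r P ^ 2 + c + a * (f + r P) * (f - r P) = a * f ^ 2 + c by ring] at h1

theorem exists_mod [CharP F 2] {k : ℕ} (w : ℕ) {a c d : F[X]} {h : Fin k → F[X]}
    (hh : Function.Injective h) (hd : d ≠ 0) (hac : ¬ IsSquare (a * c)) :
    ∃ g : F[X], g ≠ 0 ∧ a * d ∣ g ∧ (∀ l l', l ≠ l' → h l + h l' ∣ g) ∧
      (∀ l, a * h l ^ 2 + c ∣ g) ∧ ∀ P : F[X], Irreducible P → P.natDegree ≤ w → P ∣ g := by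
  classical
  have h2 : (2 : F[X]) = 0 := by exact_mod_cast CharP.cast_eq_zero F[X] 2
  have ha : a ≠ 0 := fun e => hac ⟨0, by rw [e, zero_mul, zero_mul]⟩
  refine ⟨a * d * (∏ p ∈ (univ : Finset (Fin k)).offDiag, (h p.1 + h p.2)) *
    (∏ l, (a * h l ^ 2 + c)) * ∏ P ∈ irrLE F w, P, ?_, ?_, ?_, ?_, ?_⟩
  · refine mul_ne_zero (mul_ne_zero (mul_ne_zero (mul_ne_zero ha hd) ?_) ?_) ?_
    · refine Finset.prod_ne_zero_iff.2 fun p hp e => (Finset.mem_offDiag.1 hp).2.2 (hh ?_)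
      linear_combination e - h p.2 * h2
    · refine Finset.prod_ne_zero_iff.2 fun l _ e => hac ⟨a * h l, ?_⟩
      linear_combination a * e - a ^ 2 * h l ^ 2 * h2
    · exact Finset.prod_ne_zero_iff.2 fun P hP => (mem_irrLE.1 hP).1.ne_zero
  · exact ((dvd_mul_right _ _).mul_right _).mul_right _
  · intro l l' e
    have h1 : h l + h l' ∣ ∏ p ∈ (univ : Finset (Fin k)).offDiag, (h p.1 + h p.2) :=
      Finset.dvd_prod_of_mem (fun p : Fin k × Fin k => h p.1 + h p.2) (a := (l, l'))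
        (Finset.mem_offDiag.2 ⟨mem_univ _, mem_univ _, e⟩)
    exact ((h1.mul_left _).mul_right _).mul_right _
  · intro l
    have h1 : a * h l ^ 2 + c ∣ ∏ l, (a * h l ^ 2 + c) :=
      Finset.dvd_prod_of_mem (fun l => a * h l ^ 2 + c) (mem_univ l)
    exact (h1.mul_left _).mul_right _
  · intro P hP e
    obtain ⟨Q, q1, q2, q3, -, q5⟩ := exists_monic hP
    have h1 : Q ∣ ∏ P ∈ irrLE F w, P :=
      Finset.dvd_prod_of_mem (fun P => P) (mem_irrLE.2 ⟨q1, q2, q5.trans_le e⟩)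
    exact (q3.trans h1).mul_left _

end RootX

variable (F : Type) [Field F] [Fintype F] [CharP F 2]

open RootX in
theorem sRoot : SRoot F := by
  intro k w a c d x₀ y₀ h hh hd hac hx hadm
  have h2 : (2 : F[X]) = 0 := by exact_mod_cast CharP.cast_eq_zero F[X] 2
  obtain ⟨g, g0, g1, g2, g3, g4⟩ := exists_mod w hh hd hac
  obtain ⟨T, hT⟩ := exists_shift g g0
    (fun R t => ¬ R ∣ y₀ + a * d * t ^ 2 ∧ ∀ l, ¬ R ∣ x₀ + d * t + h l) hadm
  obtain ⟨r, hr⟩ := exists_root a c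
  have hdg : d * g ≠ 0 := mul_ne_zero hd g0
  have hu : IsUnit (C (d * g).leadingCoeff⁻¹) :=
    isUnit_C.2 (IsUnit.mk0 _ (inv_ne_zero (leadingCoeff_ne_zero.2 hdg)))
  have hm : (d * (g * C (d * g).leadingCoeff⁻¹)).Monic := by
    rw [← mul_assoc]
    exact monic_mul_leadingCoeff_inv hdg
  have k1 : ∀ P : F[X], P ∣ g → P ∣ d * (g * C (d * g).leadingCoeff⁻¹) := fun P e =>
    (e.mul_right _).mul_left _
  have k2 : ∀ P : F[X], Irreducible P → P ∣ d * (g * C (d * g).leadingCoeff⁻¹) → P ∣ g :=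
    fun P hP e => by
      rcases hP.prime.dvd_or_dvd e with e | e
      · exact (e.mul_left a).trans g1
      · exact (hu.dvd_mul_right).1 e
  refine ⟨d * (g * C (d * g).leadingCoeff⁻¹), g * C (d * g).leadingCoeff⁻¹, x₀ + d * T,
    y₀ + a * d * T ^ 2, fun P o => o.elim (r P) h, hm, rfl, ?_, ?_, ?_, ?_, ?_, ?_,
    fun _ _ => rfl, ?_⟩
  · intro P hP e
    exact (e.elim (g4 P hP) fun e => e.trans g1).mul_right _
  · intro l l' e P _ e'
    exact k1 P (e'.trans (g2 l l' e))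
  · linear_combination hx + a * x₀ * d * T * h2
  · refine isCoprime_of_irreducible_dvd (fun e => hm.ne_zero (by rw [e.2, mul_zero]))
      fun P hP e e' => ?_
    obtain ⟨Q, t, q1, q2, q3⟩ := hT P hP (k2 P hP (e'.mul_left d))
    have h1 := dvd_sub (q1.trans e) (q3.mul_left (a * d * (T + t)))
    rw [show y₀ + a * d * T ^ 2 - a * d * (T + t) * (T - t) = y₀ + a * d * t ^ 2 by ring] at h1
    exact q2.1 h1
  · intro l
    refine isCoprime_of_irreducible_dvd (fun e => hm.ne_zero e.2) fun P hP e e' => ?_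
    obtain ⟨Q, t, q1, q2, q3⟩ := hT P hP (k2 P hP e')
    have h1 := dvd_sub (q1.trans e) (q3.mul_left d)
    rw [show x₀ + d * T + h l - d * (T - t) = x₀ + d * t + h l by ring] at h1
    exact q2.2 l h1
  · intro P hP hW l l' e
    have ha : ¬ P ∣ a := fun e => hW (k1 P ((e.mul_right d).trans g1))
    rcases l with _ | l <;> rcases l' with _ | l'
    · rfl
    · exact absurd (k1 P (((hr P hP ha (h l')).1 (dvd_sub_comm.1 e)).trans (g3 l'))) hW
    · exact absurd (k1 P (((hr P hP ha (h l)).1 e).trans (g3 l))) hW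
    · by_contra hne
      have h1 : P ∣ h l - h l' := e
      rw [show h l - h l' = h l + h l' by linear_combination (-h l') * h2] at h1
      exact hW (k1 P (h1.trans (g2 l l' fun e => hne (by rw [e]))))
  · intro P hP hW f
    exact hr P hP (fun e => hW (k1 P ((e.mul_right d).trans g1))) f

end Pool.Agent.PPf

end

section

/- Prime pairs over `F[X]`: joint admissibility of congruent shifts. -/

set_option autoImplicit false
set_option linter.unusedSectionVars false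

namespace Pool.Agent.PPf

open Polynomial Finset Pool.Agent.MP_4fffd4_nt Pool.Agent.MP_c853c5_nt Pool.Agent.MP_43e117_nt
open scoped BigOperators

namespace AdmX

variable {E : Type} [Field E] [Fintype E] [CharP E 2]

theorem sq_inj {u v : E} (h : u ^ 2 = v ^ 2) : u = v := by
  have h2 : (2 : E) = 0 := by exact_mod_cast CharP.cast_eq_zero E 2
  have h3 : (u - v) ^ 2 = 0 := by linear_combination h + (v ^ 2 - u * v) * h2
  exact sub_eq_zero.1 (pow_eq_zero_iff two_ne_zero |>.1 h3)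

theorem avoid (B y : E) (S : Finset E) (hy : B = 0 → y ≠ 0) (hS : S.card + 1 < Fintype.card E) :
    ∃ T, y + B * T ^ 2 ≠ 0 ∧ T ∉ S := by
  classical
  have h1 : (univ.filter fun T : E => y + B * T ^ 2 = 0).card ≤ 1 := by
    refine card_le_one.2 fun u hu v hv => ?_
    have hu' := (mem_filter.1 hu).2
    have hv' := (mem_filter.1 hv).2
    have hB : B ≠ 0 := fun e => hy e (by simpa [e] using hu')
    exact sq_inj (mul_left_cancel₀ hB (by linear_combination hu' - hv'))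
  have h2 : ((univ.filter fun T : E => y + B * T ^ 2 = 0) ∪ S).card < (univ : Finset E).card := by
    have := card_union_le (univ.filter fun T : E => y + B * T ^ 2 = 0) S
    rw [card_univ]
    omega
  obtain ⟨T, -, hT⟩ := exists_mem_notMem_of_card_lt_card h2
  rw [mem_union, not_or, mem_filter] at hT
  exact ⟨T, fun e => hT.1 ⟨mem_univ _, e⟩, hT.2⟩

theorem core {k : ℕ} {A C D : E} {H X Y : Fin k → E} (l₀ : Fin k) (hAD : D = 0 → A ≠ 0)
    (heq : ∀ l, A * X l ^ 2 + (C + A * H l ^ 2) = D * Y l)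
    (hc : A * D = 0 → ∀ l, X l * Y l ≠ 0) (h2 : Fintype.card E = 2 → X l₀ * Y l₀ ≠ 0)
    (hs : Fintype.card E ≤ k + 1 → ∀ l, H l = H l₀) :
    ∃ T, Y l₀ + A * D * T ^ 2 ≠ 0 ∧ ∀ l, X l₀ + H l₀ + D * T + H l ≠ 0 := by
  classical
  have t2 : (2 : E) = 0 := by exact_mod_cast CharP.cast_eq_zero E 2
  by_cases hD : D = 0
  · have hc' := hc (by rw [hD, mul_zero])
    refine ⟨0, by simpa using right_ne_zero_of_mul (hc' l₀), fun l e => ?_⟩
    have e1 := heq l
    have e2 := heq l₀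
    rw [hD, zero_mul] at e1 e2
    have e3 : X l + H l = X l₀ + H l₀ := sq_inj (mul_left_cancel₀ (hAD hD) (by
      linear_combination e1 - e2 + (A * X l * H l - A * X l₀ * H l₀) * t2))
    exact left_ne_zero_of_mul (hc' l) (by linear_combination e3 + e - H l * t2)
  have hy : A * D = 0 → Y l₀ ≠ 0 := fun e => right_ne_zero_of_mul (hc e l₀)
  by_cases hk : Fintype.card E ≤ k + 1
  · by_cases hq : Fintype.card E = 2
    · refine ⟨0, by simpa using right_ne_zero_of_mul (h2 hq), fun l e => ?_⟩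
      rw [hs hk l] at e
      exact left_ne_zero_of_mul (h2 hq) (by linear_combination e - H l₀ * t2)
    · have := Fintype.one_lt_card (α := E)
      obtain ⟨T, h1, h3⟩ := avoid (A * D) (Y l₀) {X l₀ / D} hy (by rw [card_singleton]; omega)
      refine ⟨T, h1, fun l e => h3 ?_⟩
      rw [hs hk l] at e
      rw [mem_singleton, eq_div_iff hD]
      linear_combination e - (H l₀ + X l₀) * t2
  · obtain ⟨T, h1, h3⟩ := avoid (A * D) (Y l₀) (univ.image fun l => (X l₀ + H l₀ + H l) / D) hy (by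
      have := card_image_le (s := univ) (f := fun l => (X l₀ + H l₀ + H l) / D)
      rw [card_univ, Fintype.card_fin] at this
      omega)
    refine ⟨T, h1, fun l e => h3 (mem_image.2 ⟨l, mem_univ _, ?_⟩)⟩
    rw [div_eq_iff hD]
    linear_combination e - D * T * t2

omit [Fintype E] [CharP E 2] in
theorem ne_of_cop {A : Type} [CommRing A] (φ : A →+* E) {u v : A} (h : IsCoprime u v)
    (hv : φ v = 0) : φ u ≠ 0 := by
  intro hu
  have := h.map φ
  rw [hu, hv] at this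
  exact not_isCoprime_zero_zero this

end AdmX

variable (F : Type) [Field F] [Fintype F] [CharP F 2]

theorem sAdm : SAdm F := by
  intro k a c d h x y l₀ had hl hs R hR
  have : Fact (Irreducible R) := ⟨hR⟩
  have : Module.Finite F (AdjoinRoot R) := (AdjoinRoot.powerBasis hR.ne_zero).finite
  have : Finite (AdjoinRoot R) := Module.finite_of_finite F
  let : Fintype (AdjoinRoot R) := Fintype.ofFinite _
  have : CharP (AdjoinRoot R) 2 := charP_of_injective_algebraMap (algebraMap F _).injective 2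
  have hcard : Fintype.card (AdjoinRoot R) = Fintype.card F ^ R.natDegree := by
    rw [Module.card_eq_pow_finrank (K := F), (AdjoinRoot.powerBasis hR.ne_zero).finrank,
      AdjoinRoot.powerBasis_dim]
  set φ := AdjoinRoot.mk R with hφ
  obtain ⟨T, h1, h2⟩ := AdmX.core (A := φ a) (C := φ c) (D := φ d) (H := fun l => φ (h l))
    (X := fun l => φ (x l)) (Y := fun l => φ (y l)) l₀ (AdmX.ne_of_cop φ had)
    (fun l => by simpa using congrArg φ (hl l).1)
    (fun e l => by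
      rw [← map_mul] at e ⊢
      exact AdmX.ne_of_cop φ (hl l).2.1 e)
    (fun e => by
      have e1 : Fintype.card F = 2 := ((Nat.prime_two.pow_eq_iff).1 (hcard ▸ e)).1
      rw [← map_mul]
      refine AdmX.ne_of_cop φ ((hl l₀).2.2 e1) ?_
      have e2 := FiniteField.pow_card (φ X)
      have t2 : (2 : AdjoinRoot R) = 0 := by exact_mod_cast CharP.cast_eq_zero (AdjoinRoot R) 2
      rw [e] at e2
      rw [map_mul, map_add, map_one]
      linear_combination e2 + φ X * t2)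
    (fun e l => AdjoinRoot.mk_eq_mk.2 (hs R hR (hcard ▸ e) l))
  obtain ⟨t, rfl⟩ := AdjoinRoot.mk_surjective T
  refine ⟨t, fun e => h1 ?_, fun l e => h2 l ?_⟩
  · simpa using AdjoinRoot.mk_eq_zero.2 e
  · simpa using AdjoinRoot.mk_eq_zero.2 e

end Pool.Agent.PPf

end

section

/- Prime pairs over `F[X]`: the weighted count with one prime linear form. -/

set_option autoImplicit false
set_option linter.unusedSectionVars false

namespace Pool.Agent.PPf

open Polynomial Finset Pool.Agent.MP_4fffd4_nt Pool.Agent.MP_c853c5_nt Pool.Agent.MP_43e117_nt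
open scoped BigOperators

variable (F : Type) [Field F] [Fintype F] [CharP F 2]

theorem sOne (h1 : SEq F) (h2 : SPnt F) : SOne F := by
  intro κ _ _ ρ j Ps h W x Y D R n hC hR hh hPs hρ hx
  have hsub : ∀ f : F[X], f - h = f + h := fun f => by
    have := add_add_self (f - h) h
    rw [← this, sub_add_cancel]
  have hdeg : h.degree < n := degree_le_natDegree.trans_lt (by exact_mod_cast hh)
  have key := (h1 κ ρ Ps W x Y D R n hC hR.le).2 j (fun f => n * ind (Irreducible (f + h)))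
    (4 * n * (qq F n / qq F (n / 2))) (by
      intro S hS hd y hy hy'
      have hm : (W * ∏ P ∈ S, P).Monic :=
        hC.mon.mul (monic_prod_of_monic _ _ fun P hP => (hC.good P (hS hP)).1)
      have hc : IsCoprime (y + h) (W * ∏ P ∈ S, P) := by
        refine IsCoprime.mul_right ?_ (IsCoprime.prod_right fun P hP => ?_)
        · obtain ⟨t, ht⟩ := hy
          have e : y + h = x + h + W * t := by linear_combination ht
          rw [e]
          exact hx.add_mul_left_left t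
        · have := hy' P hP
          rw [hρ, hsub] at this
          exact ((hC.good P (hS hP)).2.1.coprime_iff_not_dvd.2 this).symm
      have h3 := h2 _ (y + h) n hm (hd.trans_lt hR) hc
      rw [← sum_monF_shift hdeg] at h3
      simpa only [add_sub_add_right_eq_sub] using h3)
  have e : ∑ f ∈ monF F n, n * ind (Irreducible (f + h)) * wt ρ {j} Ps W x Y f =
      n * ∑ f ∈ monF F n, wt ρ ∅ Ps W x Y f * ind (Irreducible (f + h)) := by
    rw [Finset.mul_sum]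
    refine Finset.sum_congr rfl fun f hf => ?_
    by_cases hi : Irreducible (f + h)
    · rw [wt_good W x Y (J := {j})]
      · ring
      · intro P hP l hl hd
        rw [Finset.mem_singleton.1 hl, hρ, hsub] at hd
        have h4 := (mem_monF.1 (add_mem_mon hdeg hf)).2
        have h5 := natDegree_le_of_dvd ((hC.good P hP).2.1.associated_of_dvd hi hd).symm.dvd
          (hC.good P hP).1.ne_zero
        have h6 := hPs P hP
        omega
    · rw [ind_neg hi]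
      ring
  rw [e] at key
  linarith [(abs_le.1 key).1]

end Pool.Agent.PPf

end

section

/- Prime pairs over `F[X]`: the quadratic form is prime. -/

set_option autoImplicit false
set_option linter.unusedSectionVars false

namespace Pool.Agent.PPf

open Polynomial Finset Pool.Agent.MP_4fffd4_nt Pool.Agent.MP_c853c5_nt Pool.Agent.MP_43e117_nt
open scoped BigOperators

variable (F : Type) [Field F] [Fintype F] [CharP F 2]

theorem sQuad (h1 : SEq F) (h2 : SQap F) : SQuad F := by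
  intro κ _ _ ρ j Ps a c d W W' x v Y D R n C n₀ core ctx hR hP hs hW had hv cop hρ hn ha hc
  have two : (2 : F[X]) = 0 := by exact_mod_cast CharP.cast_eq_zero F[X] 2
  have h := (h1 κ ρ Ps W x Y D R n ctx hR.le).2 j (fun f => (2 * n + a.natDegree - d.natDegree : ℝ) *
    ind (∃ Q, Irreducible Q ∧ a * f ^ 2 + c = d * Q)) (qq F n / qq F ((n - R) / C))
    fun S hS hd y hy hy' => by
      obtain ⟨t, ht⟩ := hy
      have e : a * y ^ 2 + c = d * (v + W' * (a * d * W' * t ^ 2)) := by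
        rw [eq_add_of_sub_eq ht, hW]
        linear_combination hv + a * d * W' * t * x * two
      have hn' : (n - R) / C ≤ (n - (W * ∏ P ∈ S, P).natDegree) / C :=
        Nat.div_le_div_right (by omega)
      refine (h2 C n₀ n (n - (W * ∏ P ∈ S, P).natDegree) a c d _ (W' * ∏ P ∈ S, P) y _ core hs
        (ctx.mon.mul (monic_prod_of_monic _ _ fun P hP => (ctx.good P (hS hP)).1))
        (by rw [hW, mul_assoc]) (fun P p1 p2 => (had P p1 p2).mul_right _) e
        ((cop.add_mul_left_left _).mul_right (IsCoprime.prod_right fun P hP => ?_)) (by omega)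
        (by omega) (by omega) (hc.trans hn')).trans
        (div_le_div_of_nonneg_left (qq_pos _).le (qq_pos _) (qq_mono hn'))
      obtain ⟨-, p1, p2⟩ := ctx.good P (hS hP)
      exact (p1.coprime_iff_not_dvd.2 fun p3 =>
        hy' P hP ((hρ P p1 p2 y).2 (e ▸ p3.mul_left d))).symm
  have e : ∑ f ∈ monF F n, (2 * n + a.natDegree - d.natDegree : ℝ) *
      ind (∃ Q, Irreducible Q ∧ a * f ^ 2 + c = d * Q) * wt ρ {j} Ps W x Y f =
      (2 * n + a.natDegree - d.natDegree : ℝ) * ∑ f ∈ monF F n,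
        wt ρ ∅ Ps W x Y f * ind (∃ Q, Irreducible Q ∧ a * f ^ 2 + c = d * Q) := by
    rw [mul_sum]
    refine sum_congr rfl fun f hf => ?_
    by_cases hQ : ∃ Q, Irreducible Q ∧ a * f ^ 2 + c = d * Q
    · rw [wt_good, mul_assoc, mul_comm (ind _)]
      intro P p0 l hl p3
      obtain ⟨Q, q1, q2⟩ := hQ
      obtain ⟨-, p1, p2⟩ := ctx.good P p0
      obtain ⟨f1, f2⟩ := mem_monF.1 hf
      rw [mem_singleton.1 hl, hρ P p1 p2, q2] at p3
      have p4 := (p1.prime.dvd_or_dvd p3).resolve_left fun p5 => p2 (hW ▸ p5.mul_right W')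
      have d1 := natDegree_eq_of_degree_eq
        (degree_eq_degree_of_associated (p1.associated_of_dvd q1 p4))
      have a0 : a ≠ 0 := fun e => hs (by simp [e])
      have d2 : (a * f ^ 2).natDegree = a.natDegree + 2 * n := by
        rw [natDegree_mul a0 (pow_ne_zero 2 f1.ne_zero), natDegree_pow, f2]
      have d3 := hc.trans (Nat.div_le_self _ _)
      have d4 : (a * f ^ 2 + c).natDegree = a.natDegree + 2 * n := by
        rw [natDegree_add_eq_left_of_natDegree_lt (by omega), d2]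
      have d5 := natDegree_le_of_dvd ⟨W', hW⟩ ctx.mon.ne_zero
      have d6 := natDegree_mul_le (p := d) (q := Q)
      have d7 := ctx.hW
      have d8 := hP P p0
      rw [← q2] at d6
      omega
    · rw [ind_neg hQ, mul_zero, zero_mul, mul_zero, mul_zero]
  rw [e] at h
  linarith [(abs_le.1 h).1]

end Pool.Agent.PPf

end

section

/- Prime pairs over `F[X]`: two linear forms are prime. -/

set_option autoImplicit false
set_option linter.unusedSectionVars false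

namespace Pool.Agent.PPf

open Polynomial Finset Pool.Agent.MP_4fffd4_nt Pool.Agent.MP_c853c5_nt Pool.Agent.MP_43e117_nt
open scoped BigOperators

namespace PairX

variable {F : Type} [Field F] [Fintype F]

theorem not_dvd {P g : F[X]} {n : ℕ} (hP : Irreducible P) (hn : P.natDegree < n)
    (hg : g ∈ monF F n) (hi : Irreducible g) : ¬ P ∣ g := fun e => by
  have h1 := natDegree_eq_of_degree_eq
    (degree_eq_degree_of_associated (hP.associated_of_dvd hi e))
  have h2 := (mem_monF.1 hg).2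
  omega

theorem size {n H K : ℕ} (h : ((3 : ℕ) * (n : ℝ)) ^ 2 ≤ qq F (n / (2 * H * (4 * K + 1)))) :
    (qq F (n / (2 * H * (4 * K + 1))) * (3 * n) ^ 2) ^ (2 * K) * (qq F n / qq F (n / H)) ≤
      qq F n / qq F (n / (2 * H)) := by
  have h0 : (3 * (n : ℝ)) ^ 2 ≤ qq F (n / (2 * H * (4 * K + 1))) := by exact_mod_cast h
  have h1 : (qq F (n / (2 * H * (4 * K + 1))) * (3 * n) ^ 2) ^ (2 * K) ≤ qq F (n / (2 * H)) := by
    refine (pow_le_pow_left₀ (mul_nonneg (qq_pos _).le (sq_nonneg _))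
      (mul_le_mul_of_nonneg_left h0 (qq_pos _).le) _).trans ?_
    rw [← qq_add, qq_pow]
    refine qq_mono ?_
    rw [← Nat.div_div_eq_div_mul]
    have := Nat.div_mul_le_self (n / (2 * H)) (4 * K + 1)
    nlinarith [Nat.zero_le (n / (2 * H) / (4 * K + 1))]
  have h2 : qq F (n / (2 * H)) * qq F (n / (2 * H)) ≤ qq F (n / H) := by
    rw [← qq_add]
    refine qq_mono ?_
    rw [mul_comm 2 H, ← Nat.div_div_eq_div_mul]
    omega
  have h3 := qq_pos (F := F) (n / (2 * H))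
  have h4 := qq_pos (F := F) (n / H)
  have h5 := qq_pos (F := F) n
  refine (mul_le_mul_of_nonneg_right h1 (div_pos h5 h4).le).trans ?_
  rw [← mul_div_assoc, div_le_div_iff₀ h4 h3, mul_comm _ (qq F n), mul_assoc]
  exact mul_le_mul_of_nonneg_left h2 h5.le

theorem deg_lt {s : F[X]} {n : ℕ} (h : s.natDegree < n) : s.degree < n :=
  degree_le_natDegree.trans_lt (by exact_mod_cast h)

end PairX

variable (F : Type) [Field F] [Fintype F] [CharP F 2]

theorem sPair (C : ℝ) (h1 : STwin F C) (h2 : SBd F) (h3 : SInstF F) (h4 : SInstL F)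
    (h5 : SCard F) : SPair F C := by
  intro κ _ _ N s s' W hN hs hW hP
  have hh : s + s' ≠ 0 := fun e => hs (by rw [← add_add_self s s', e, zero_add])
  obtain ⟨H, hH, n₀, hT⟩ := h1 N (s + s') W hN hh hW hP
  have hM : 0 < 2 * H * (4 * Fintype.card κ + 1) := by positivity
  obtain ⟨n₁, hD⟩ := exists_DivB (F := F) 5 _ hM
  obtain ⟨n₂, hp⟩ := exists_poly (F := F) 3 2 _ hM
  refine ⟨2 * H, by omega, n₀ + n₁ + n₂ + s.natDegree + s'.natDegree + 1 +
    (W.natDegree + 1) * (8 * (128 * (2 * N ^ 4) + 136)), ?_⟩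
  intro n hn ρ i j Ps x Y D I hc hi hj hx hx' hPs hg hI hf
  have hlo : W.natDegree < wlo (2 * N ^ 4) n :=
    (Nat.le_div_iff_mul_le (x := W.natDegree + 1) (by positivity)).2 (by omega)
  have ds : s.degree < n := PairX.deg_lt (by omega)
  have ds' : s'.degree < n := PairX.deg_lt (by omega)
  have dh : (s + s').degree < n := (degree_add_le _ _).trans_lt (max_lt ds ds')
  have hc' := hc.shift s
  have hR : n / N ^ 2 ≤ n := Nat.div_le_self _ _
  have e0 : ∀ P, (fun P l => ρ P l + s) P i = 0 := fun P => by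
    have := add_add_self 0 s
    rw [zero_add] at this
    simp only [hi, this]
  have e1 : ∀ P, (fun P l => ρ P l + s) P j = s + s' := fun P => by simp only [hj, add_comm]
  have e2 : ∀ f : F[X], f + s + (s + s') = f + s' := fun f => by
    rw [← add_assoc, add_add_self]
  have hn0 : (0 : ℝ) < n := by exact_mod_cast (by omega : 0 < n)
  have hsz := PairX.size (F := F) (hp n (by omega))
  have hbd : ∀ f ∈ monF F n, ∑ z ∈ ZZ Ps Y, |ph (fun P l => ρ P l + s) {i, j} Ps W (x + s) Y z f| ≤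
      (qq F (n / (2 * H * (4 * Fintype.card κ + 1))) * (3 * n) ^ 2) ^ (2 * Fintype.card κ) := by
    intro f hf
    refine h2 κ _ _ Ps W _ f Y n _ hc.good hc.y01 (fun P a => (hPs P a).1.le) (by omega)
      (hD n (by omega)) fun l => ?_
    obtain ⟨g, a, b, c⟩ := hg (f + -s) (add_mem_mon (by rwa [degree_neg]) hf) l
    refine ⟨g, a, b, fun P hP e => c P hP ?_⟩
    rwa [show f + -s - ρ P l = f - (ρ P l + s) by ring]
  have hB : 0 < (qq F (n / (2 * H * (4 * Fintype.card κ + 1))) * (3 * n) ^ 2) ^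
      (2 * Fintype.card κ) := pow_pos (mul_pos (qq_pos _) (by positivity)) _
  generalize (qq F (n / (2 * H * (4 * Fintype.card κ + 1))) * (3 * n) ^ 2) ^
    (2 * Fintype.card κ) = B at hsz hbd hB
  have hF := h3 κ _ i j Ps (s + s') W (x + s) Y D _ n _ _ B hc' hR e0 e1
    (by rw [e2]; exact hx.mul_left hx') (fun P a b => hP P a (Or.inr b)) hlo
    (fun P a => (hPs P a).2) hB hbd
  obtain ⟨hL, hMn⟩ := h4 κ _ i j Ps (s + s') W (x + s) Y D _ n B I hc' hR e0 e1
    (fun P a b => hP P a (Or.inl b)) hB hf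
  have ew : ∀ f, tot (ZZ Ps Y)
      (fun z f => ph (fun P l => ρ P l + s) {i, j} Ps W (x + s) Y z f / B) f =
      wt (fun P l => ρ P l + s) {i, j} Ps W (x + s) Y f / B := fun f => by
    rw [(h5 κ _ {i, j} Ps W (x + s) Y D _ hc').2.1 f, tot, tot, Finset.sum_div]
  have key := hT n (by omega) _ _ _ _ _ hF (fun z _ => dvd_mul_right _ _)
    (fun f => by rw [ew]; exact div_nonneg (wt_nonneg _ _ _ _ _ _ _) hB.le)
    (div_nonneg (div_nonneg hI (qq_pos _).le) hB.le) hL hMn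
  have es : ∑ f ∈ monF F n, wt ρ ∅ Ps W x Y f * ind (Irreducible (f + s) ∧ Irreducible (f + s')) =
      B * ∑ f ∈ monF F n, tot (ZZ Ps Y)
        (fun z f => ph (fun P l => ρ P l + s) {i, j} Ps W (x + s) Y z f / B) f *
          ind (Irreducible f ∧ Irreducible (f + (s + s'))) := by
    rw [← sum_monF_shift ds fun f => tot (ZZ Ps Y)
      (fun z f => ph (fun P l => ρ P l + s) {i, j} Ps W (x + s) Y z f / B) f *
        ind (Irreducible f ∧ Irreducible (f + (s + s'))), Finset.mul_sum]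
    refine Finset.sum_congr rfl fun f hm => ?_
    rw [ew, e2]
    by_cases hq : Irreducible (f + s) ∧ Irreducible (f + s')
    · have hg' : ∀ P ∈ Ps, ∀ l ∈ ({i, j} : Finset κ), ¬ P ∣ f + s - (ρ P l + s) := by
        intro P a l hl
        have b := (hc.good P a).2.1
        rcases Finset.mem_insert.1 hl with rfl | hl
        · rw [add_sub_add_right_eq_sub, hi, CharTwo.sub_eq_add]
          exact PairX.not_dvd b (hPs P a).1 (add_mem_mon ds hm) hq.1
        · rw [Finset.mem_singleton.1 hl, add_sub_add_right_eq_sub, hj, CharTwo.sub_eq_add]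
          exact PairX.not_dvd b (hPs P a).1 (add_mem_mon ds' hm) hq.2
      rw [wt_good (ρ := fun P l => ρ P l + s) W (x + s) Y hg', wt_shift, ← mul_assoc,
        mul_div_cancel₀ _ hB.ne']
    · rw [ind_neg hq, mul_zero, mul_zero, mul_zero]
  rw [es, mul_left_comm]
  refine (mul_le_mul_of_nonneg_left key hB.le).trans ?_
  rw [mul_add]
  refine add_le_add (le_of_eq ?_) hsz
  field_simp

end Pool.Agent.PPf

end

section

/- Prime pairs over `F[X]`: the numerical end of the second moment argument. -/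

set_option autoImplicit false
set_option linter.unusedSectionVars false

namespace Pool.Agent.PPf

open Polynomial Finset Pool.Agent.MP_4fffd4_nt Pool.Agent.MP_c853c5_nt Pool.Agent.MP_43e117_nt
open scoped BigOperators

namespace TupleX

theorem sum_with {Ω : Type} (s : Finset Ω) (ρ : Ω → ℝ) (E : Ω → Prop) {_ : DecidablePred E} :
    ∑ f ∈ s with E f, ρ f = ∑ f ∈ s, ρ f * ind (E f) := by
  rw [Finset.sum_filter]
  refine Finset.sum_congr rfl fun f _ => ?_
  by_cases h : E f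
  · rw [if_pos h, ind_pos h, mul_one]
  · rw [if_neg h, ind_neg h, mul_zero]

theorem finish (hFin : SFin) {Ω : Type} (s : Finset Ω) (k : ℕ) (ρ : Ω → ℝ) (E : Fin k → Ω → Prop)
    (Q : Ω → Prop) {Z P₀ r σ V n β ε : ℝ} (h0 : ∀ f ∈ s, 0 ≤ ρ f) (hZ : 0 < Z) (hP : 1 ≤ P₀)
    (hr : 1 ≤ r) (hV : 0 < V) (hV1 : V ≤ 1) (hβ : 0 < β) (hβ1 : β ≤ 1) (hn : 1 ≤ n)
    (hε : ε = β / 100000) (hk : 3000 * n * V ≤ β * (k * r)) (hσ : β * n * V ≤ 32 * σ)
    (T0 : ∑ f ∈ s, ρ f ≤ Z * ((1 + ε) * P₀))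
    (T1 : ∀ l, Z * V⁻¹ * ((1 - ε) * (P₀ * r)) - Z * ε ≤ n * ∑ f ∈ s, ρ f * ind (E l f))
    (T2 : ∀ l l', l ≠ l' → n ^ 2 * ∑ f ∈ s, ρ f * ind (E l f ∧ E l' f) ≤
      (1 + ε) * (Z * V⁻¹ ^ 2 * ((1 + ε) * (P₀ * r ^ 2))) + Z * ε)
    (TQ : Z * V⁻¹ * ((1 - ε) * (P₀ * σ)) - Z * ε ≤ 3 * n * ∑ f ∈ s, ρ f * ind (Q f)) :
    ∃ f ∈ s, Q f ∧ ∃ l, E l f := by
  have hn0 : 0 < n := by linarith
  have hε0 : 0 < ε := by rw [hε]; positivity
  have hε1 : ε ≤ 1 / 100000 := by rw [hε]; linarith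
  obtain ⟨y, hy⟩ : ∃ y, y = V⁻¹ := ⟨_, rfl⟩
  have hy1 : 1 ≤ y := hy ▸ (one_le_inv₀ hV).2 hV1
  have hyV : V * y = 1 := hy ▸ mul_inv_cancel₀ hV.ne'
  rw [← hy] at T1 T2 TQ
  have hk' : 3000 / β ≤ k * (r * y / n) := by
    rw [← mul_div_assoc, div_le_div_iff₀ hβ hn0]
    calc 3000 * n = 3000 * n * V * y := by rw [mul_assoc _ V, hyV, mul_one]
      _ ≤ β * (k * r) * y := by gcongr
      _ = _ := by ring
  have hk0 : (3000 : ℝ) ≤ 3000 / β := by
    rw [le_div_iff₀ hβ]; linarith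
  have a1 : 1 ≤ P₀ * r * y := one_le_mul_of_one_le_of_one_le (one_le_mul_of_one_le_of_one_le hP hr) hy1
  have a2 : 1 ≤ P₀ * r ^ 2 * y ^ 2 := one_le_mul_of_one_le_of_one_le
    (one_le_mul_of_one_le_of_one_le hP (one_le_pow₀ hr)) (one_le_pow₀ hy1)
  refine hFin Ω s k ρ E Q (Z * P₀) (r * y / n) (4 * ε) (β / 400) h0 (by positivity) (by positivity)
    (by linarith) (by linarith) (T0.trans ?_) (fun l => ?_) (fun l l' hl => ?_) ?_ ?_
  · have : 0 ≤ Z * P₀ * ε := by positivity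
    nlinarith
  · rw [sum_with]
    refine le_of_mul_le_mul_left (le_trans ?_ (T1 l)) hn0
    have e : n * (Z * P₀ * (r * y / n) * (1 - 4 * ε)) = Z * (P₀ * r * y) * (1 - 4 * ε) := by
      field_simp
    have b : Z * ε * 1 ≤ Z * ε * (P₀ * r * y) := by gcongr
    have b' : 0 ≤ Z * ε * (P₀ * r * y) := by positivity
    rw [e]
    nlinarith
  · rw [sum_with]
    refine le_of_mul_le_mul_left ((T2 l l' hl).trans ?_) (pow_pos hn0 2)
    have e : n ^ 2 * (Z * P₀ * (r * y / n) ^ 2 * (1 + 4 * ε)) =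
        Z * (P₀ * r ^ 2 * y ^ 2) * (1 + 4 * ε) := by field_simp
    have b : Z * ε * 1 ≤ Z * ε * (P₀ * r ^ 2 * y ^ 2) := by gcongr
    have b' : Z * ε * (P₀ * r ^ 2 * y ^ 2) * ε ≤ Z * ε * (P₀ * r ^ 2 * y ^ 2) * 1 := by
      gcongr; linarith
    rw [e]
    nlinarith
  · rw [sum_with]
    refine le_of_mul_le_mul_left (le_trans ?_ TQ) (by positivity : 0 < 3 * n)
    have b1 : β * n ≤ 32 * (σ * y) := by
      calc β * n = β * n * V * y := by rw [mul_assoc _ V, hyV, mul_one]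
        _ ≤ 32 * σ * y := by gcongr
        _ = _ := by ring
    have b2 : Z * P₀ * (1 / 2) * (β * n / 32) ≤ Z * P₀ * (1 - ε) * (σ * y) := by
      have : 0 ≤ 1 - ε := by linarith
      gcongr <;> linarith
    have b3 : Z * β * 1 ≤ Z * β * (P₀ * n) := by
      gcongr; exact one_le_mul_of_one_le_of_one_le hP hn
    have b4 : 0 ≤ Z * β := by positivity
    rw [hε] at b2 ⊢
    nlinarith
  · have : 1 / (k * (r * y / n)) ≤ β / 3000 := by
      rw [← one_div_div 3000 β]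
      exact one_div_le_one_div_of_le (by positivity) hk'
    rw [hε]
    linarith

variable {F : Type} [Field F] [Fintype F]

theorem ev_le (B : ℝ) {H : ℕ} (hH : 0 < H) : ∀ᶠ n : ℕ in Filter.atTop, B * n ≤ qq F (n / H) := by
  obtain ⟨c, hc⟩ := exists_nat_ge B
  obtain ⟨n₀, h⟩ := exists_poly (F := F) c 1 H hH
  refine Filter.eventually_atTop.2 ⟨n₀, fun n hn => le_trans ?_ (h n hn)⟩
  rw [pow_one]
  gcongr

theorem ev_div (b : ℕ) {H : ℕ} (hH : 0 < H) : ∀ᶠ n : ℕ in Filter.atTop, b ≤ n / H :=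
  Filter.eventually_atTop.2 ⟨b * H, fun _ hn => (Nat.le_div_iff_mul_le hH).2 hn⟩

theorem VS_pos {W : F[X]} (hW : W ≠ 0) : 0 < VS (pf W) ∧ VS (pf W) ≤ 1 := by
  have h : ∀ P ∈ pf W, 0 < 1 - 1 / qq F P.natDegree ∧ 1 - 1 / qq F P.natDegree ≤ 1 := fun P hP => by
    have h1 := ((mem_pf hW).1 hP).2.1.natDegree_pos
    have h2 : (2 : ℝ) ≤ qq F P.natDegree :=
      (le_self_pow₀ one_le_two h1.ne').trans (two_pow_le_qq _)
    have h3 := one_div_le_one_div_of_le two_pos h2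
    have h4 := one_div_pos.2 (qq_pos (F := F) P.natDegree)
    constructor <;> linarith
  exact ⟨prod_pos fun P hP => (h P hP).1, prod_le_one (fun P hP => (h P hP).1.le) fun P hP => (h P hP).2⟩

theorem err_le {n a b u m : ℕ} {ε x : ℝ} (hε : 0 < ε) (hx : 0 ≤ x) (h : a + u ≤ b)
    (hu : qq F m / ε * x ≤ qq F u) : qq F a * (x * (qq F n / qq F b)) ≤ qq F n / qq F m * ε := by
  have h1 := qq_pos (F := F) a
  have h2 := qq_pos (F := F) u
  have h3 := qq_pos (F := F) n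
  have h4 := qq_pos (F := F) m
  have h5 : qq F a * qq F u ≤ qq F b := by rw [← qq_add]; exact qq_mono h
  rw [div_mul_eq_mul_div, div_le_iff₀ hε] at hu
  calc _ ≤ qq F a * (x * (qq F n / (qq F a * qq F u))) := by gcongr
    _ = qq F n / qq F m * (qq F m * x / qq F u) := by field_simp
    _ ≤ _ := by
        gcongr
        rw [div_le_iff₀ h2]
        linarith

theorem adm_inv {ι : Type} {p : ι → ℝ} (h : ∀ P, 2 ≤ p P) : Adm p fun P => (1 - 1 / p P)⁻¹ := by
  intro P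
  have h1 := h P
  have h2 : 0 < p P := by linarith
  have h3 : 0 < p P - 1 := by linarith
  have e : (1 - 1 / p P)⁻¹ - 1 = 1 / (p P - 1) := by field_simp; ring
  show |(1 - 1 / p P)⁻¹ - 1| ≤ 20 / p P
  rw [e, abs_of_pos (by positivity), div_le_div_iff₀ h3 h2]
  linarith

end TupleX

end Pool.Agent.PPf

end

section

/- Prime pairs over `F[X]`: from tuples of shifts to all but boundedly many shifts. -/

set_option autoImplicit false
set_option linter.unusedSectionVars false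

namespace Pool.Agent.PPf

open Polynomial Finset Pool.Agent.MP_4fffd4_nt Pool.Agent.MP_c853c5_nt Pool.Agent.MP_43e117_nt
open scoped BigOperators

namespace PigeonX

variable (F : Type) [Field F] [Fintype F]

/-- A bounded modulus that all small primes divide. -/
theorem modulus (k : ℕ) : ∃ N : F[X], N ≠ 0 ∧
    Fintype.card F ^ N.natDegree ≤ (k + 1) ^ ((k + 1) ^ (k + 1) * (k + 1)) ∧
    ∀ R : F[X], Irreducible R → Fintype.card F ^ R.natDegree ≤ k + 1 → R ∣ N := by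
  classical
  by_cases hq : Fintype.card F ≤ k + 1
  · refine ⟨∏ g ∈ (ltF F (k + 1)).erase 0, g,
      Finset.prod_ne_zero_iff.2 fun g hg => Finset.ne_of_mem_erase hg, ?_, fun R hR h => ?_⟩
    · have h1 : (∏ g ∈ (ltF F (k + 1)).erase 0, g).natDegree ≤ (k + 1) ^ (k + 1) * (k + 1) := by
        refine (natDegree_prod_le _ _).trans ?_
        refine (Finset.sum_le_card_nsmul _ _ (k + 1) fun g hg => ?_).trans ?_
        · exact natDegree_le_of_degree_le (mem_ltF.1 (Finset.mem_of_mem_erase hg)).le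
        · rw [smul_eq_mul]
          refine Nat.mul_le_mul_right _ (Finset.card_erase_le.trans ?_)
          rw [card_ltF]
          exact Nat.pow_le_pow_left hq _
      exact (Nat.pow_le_pow_left hq _).trans (Nat.pow_le_pow_right (Nat.succ_pos k) h1)
    · refine Finset.dvd_prod_of_mem (fun g => g) (Finset.mem_erase.2 ⟨hR.ne_zero, mem_ltF.2 ?_⟩)
      exact (natDegree_lt_iff_degree_lt hR.ne_zero).1
        ((Nat.lt_pow_self Fintype.one_lt_card).trans_le h)
  · refine ⟨1, one_ne_zero, ?_, fun R hR h => absurd (le_trans ?_ h) hq⟩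
    · rw [natDegree_one, pow_zero]
      exact Nat.one_le_pow _ _ (Nat.succ_pos k)
    · exact Nat.le_self_pow hR.natDegree_pos.ne' _

variable {F}

theorem pigeon {N : F[X]} (hN : N ≠ 0) {B k : ℕ} (hB : Fintype.card F ^ N.natDegree ≤ B)
    {S : Set F[X]} (hS : ¬ S.encard ≤ (B * k : ℕ)) :
    ∃ h : Fin k → F[X], Function.Injective h ∧ (∀ l, h l ∈ S) ∧ ∀ l l', N ∣ h l - h l' := by
  classical
  obtain ⟨T, hT, hc⟩ := Set.exists_subset_encard_eq (s := S) (k := ((B * k + 1 : ℕ) : ℕ∞))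
    (by rw [Nat.cast_succ]; exact Order.add_one_le_of_lt (not_le.1 hS))
  obtain ⟨T, rfl⟩ := (Set.finite_of_encard_eq_coe hc).exists_finset_coe
  rw [Set.encard_coe_eq_coe_finsetCard, Nat.cast_inj] at hc
  obtain ⟨y, -, hy⟩ := Finset.exists_lt_card_fiber_of_mul_lt_card_of_maps_to
    (s := T) (t := ltF F N.natDegree) (f := fun g => g % N) (n := k)
    (fun g _ => mem_ltF.2 (by
      rw [← degree_eq_natDegree hN]
      exact degree_mod_lt g hN))
    (by
      rw [card_ltF, hc]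
      exact Nat.lt_succ_of_le (Nat.mul_le_mul_right _ hB))
  obtain ⟨f, hf⟩ := Function.Embedding.exists_of_card_le_finset (α := Fin k)
    (s := T.filter fun g => g % N = y) (by rw [Fintype.card_fin]; exact hy.le)
  have h1 : ∀ l, f l ∈ T ∧ f l % N = y := fun l =>
    Finset.mem_filter.1 (Finset.mem_coe.1 (hf ⟨l, rfl⟩))
  refine ⟨f, f.injective, fun l => hT (h1 l).1, fun l l' => ⟨f l / N - f l' / N, ?_⟩⟩
  have e1 := EuclideanDomain.div_add_mod (f l) N
  have e2 := EuclideanDomain.div_add_mod (f l') N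
  rw [(h1 l).2] at e1
  rw [(h1 l').2] at e2
  linear_combination e2 - e1

variable [CharP F 2]

theorem contra {k : ℕ} (hA : SAdm F) (hT : STuple F k) {a c d : F[X]} (hd : d ≠ 0)
    (hs : ¬ IsSquare (a * c)) (had : IsCoprime a d) {h x y : Fin k → F[X]} (l₀ : Fin k)
    (hi : Function.Injective h)
    (hx : ∀ l, a * x l ^ 2 + (c + a * h l ^ 2) = d * y l ∧ IsCoprime (x l * y l) (a * d) ∧
      (Fintype.card F = 2 → IsCoprime (x l * y l) (X * (X + 1))))
    (hc : ∀ R : F[X], Irreducible R → Fintype.card F ^ R.natDegree ≤ k + 1 →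
      ∀ l, R ∣ h l - h l₀)
    (hf : ∀ l, {p : F[X] × F[X] | p.1.Monic ∧ Irreducible p.1 ∧ Irreducible p.2 ∧
      a * p.1 ^ 2 + (c + a * h l ^ 2) = d * p.2}.Finite) : False := by
  have h2 : (2 : F[X]) = 0 := by exact_mod_cast CharP.cast_eq_zero F[X] 2
  obtain ⟨n₀, hn⟩ := hT a c d (x l₀ + h l₀) (y l₀) h hi hd hs
    (by linear_combination (hx l₀).1 + a * x l₀ * h l₀ * h2) (hA k a c d h x y l₀ had hx hc)
  obtain ⟨m, hm⟩ := ((Set.finite_iUnion hf).image fun p => p.1.natDegree).bddAbove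
  obtain ⟨m', hm'⟩ := (Set.finite_range fun l => (h l).natDegree).bddAbove
  obtain ⟨f, f1, ⟨Q, q1, q2⟩, l, f2⟩ := hn (n₀ + m + m' + 1) (by omega)
  have h3 : (h l).degree < (n₀ + m + m' + 1 : ℕ) := by
    have : (h l).natDegree ≤ m' := hm' ⟨l, rfl⟩
    exact degree_le_natDegree.trans_lt (Nat.cast_lt.2 (by omega))
  obtain ⟨g1, g2⟩ := mem_monF.1 (add_mem_mon h3 f1)
  have h4 := hm ⟨(f + h l, Q), Set.mem_iUnion.2 ⟨l, g1, f2, q1, by
    linear_combination q2 + (a * f * h l + a * h l ^ 2) * h2⟩, rfl⟩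
  simp only [g2] at h4
  omega

end PigeonX

theorem sPigeon (k : ℕ) (hk : 1 ≤ k) : ∃ K : ℕ, ∀ (F : Type) [Field F] [Fintype F] [CharP F 2],
    SAdm F → STuple F k → SFinal F K := by
  refine ⟨(k + 1) ^ ((k + 1) ^ (k + 1) * (k + 1)) * k, fun F _ _ _ hA hT a c d hd hs => ?_⟩
  by_contra hS
  obtain ⟨N, hN, hB, hR⟩ := PigeonX.modulus F k
  obtain ⟨h, hi, hm, hc⟩ := PigeonX.pigeon hN hB hS
  choose x y hx using fun l => (hm l).1
  obtain ⟨a', d', g, hg, rfl, rfl⟩ := UniqueFactorizationMonoid.exists_reduced_factors' a d hd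
  obtain ⟨c', rfl⟩ : g ∣ c := ⟨d' * y ⟨0, hk⟩ - a' * x ⟨0, hk⟩ ^ 2 - a' * h ⟨0, hk⟩ ^ 2, by
    linear_combination (hx ⟨0, hk⟩).1⟩
  have hg0 : g ≠ 0 := left_ne_zero_of_mul hd
  refine PigeonX.contra hA hT (a := a') (c := c') (right_ne_zero_of_mul hd) ?_ hg.isCoprime
    (x := x) (y := y) ⟨0, hk⟩ hi (fun l => ⟨mul_left_cancel₀ hg0 ?_, ?_, (hx l).2.2⟩)
    (fun R r1 r2 l => (hR R r1 r2).trans (hc l _)) fun l => (hm l).2.subset ?_
  · rintro ⟨s, e⟩
    exact hs ⟨g * s, by linear_combination g ^ 2 * e⟩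
  · linear_combination (hx l).1
  · exact (hx l).2.1.of_isCoprime_of_dvd_right ⟨g ^ 2, by ring⟩
  · rintro p ⟨p1, p2, p3, p4⟩
    exact ⟨p1, p2, p3, by linear_combination g * p4⟩

end Pool.Agent.PPf

end

section

/- Prime pairs over `F[X]`: all but boundedly many shifts, in every large degree. -/

set_option autoImplicit false
set_option linter.unusedSectionVars false

namespace Pool.Agent.PPf

open Polynomial Finset Pool.Agent.MP_4fffd4_nt Pool.Agent.MP_c853c5_nt Pool.Agent.MP_43e117_nt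
open scoped BigOperators

theorem PigeonX.ev {F : Type} [Field F] [Fintype F] [CharP F 2] {k : ℕ} (hA : SAdm F)
    (hT : STuple F k) {a c d : F[X]} (hd : d ≠ 0) (hs : ¬ IsSquare (a * c))
    {h : Fin k → F[X]} (l₀ : Fin k) (hi : Function.Injective h)
    (hx : ∀ l, ∃ x y : F[X], a * x ^ 2 + (c + a * h l ^ 2) = d * y ∧ IsCoprime (x * y) (a * d) ∧
      (Fintype.card F = 2 → IsCoprime (x * y) (X * (X + 1))))
    (hc : ∀ R : F[X], Irreducible R → Fintype.card F ^ R.natDegree ≤ k + 1 →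
      ∀ l, R ∣ h l - h l₀) :
    ∀ᶠ n in Filter.atTop, ∃ l, ∃ P Q : F[X], P.Monic ∧ P.natDegree = n ∧ Irreducible P ∧
      Irreducible Q ∧ a * P ^ 2 + (c + a * h l ^ 2) = d * Q := by
  have h2 : (2 : F[X]) = 0 := by exact_mod_cast CharP.cast_eq_zero F[X] 2
  choose x y hx using hx
  obtain ⟨a', d', g, hg, rfl, rfl⟩ := UniqueFactorizationMonoid.exists_reduced_factors' a d hd
  obtain ⟨c', rfl⟩ : g ∣ c := ⟨d' * y l₀ - a' * x l₀ ^ 2 - a' * h l₀ ^ 2, by
    linear_combination (hx l₀).1⟩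
  have hg0 : g ≠ 0 := left_ne_zero_of_mul hd
  have hx' : ∀ l, a' * x l ^ 2 + (c' + a' * h l ^ 2) = d' * y l :=
    fun l => mul_left_cancel₀ hg0 (by linear_combination (hx l).1)
  obtain ⟨n₀, hn⟩ := hT a' c' d' (x l₀ + h l₀) (y l₀) h hi (right_ne_zero_of_mul hd)
    (fun ⟨s, e⟩ => hs ⟨g * s, by linear_combination g ^ 2 * e⟩)
    (by linear_combination hx' l₀ + a' * x l₀ * h l₀ * h2)
    (hA k a' c' d' h x y l₀ hg.isCoprime (fun l => ⟨hx' l,
      (hx l).2.1.of_isCoprime_of_dvd_right ⟨g ^ 2, by ring⟩, (hx l).2.2⟩) hc)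
  filter_upwards [Filter.eventually_ge_atTop n₀,
    Filter.eventually_all.2 fun l => Filter.eventually_gt_atTop (h l).natDegree] with n h3 h4
  obtain ⟨f, f1, ⟨Q, q1, q2⟩, l, f2⟩ := hn n h3
  obtain ⟨g1, g2⟩ := mem_monF.1 (add_mem_mon (h := h l)
    (degree_le_natDegree.trans_lt (Nat.cast_lt.2 (h4 l))) f1)
  exact ⟨l, f + h l, Q, g1, g2, f2, q1, by
    linear_combination g * q2 + g * (a' * f * h l + a' * h l ^ 2) * h2⟩

theorem sPigeon2 (k : ℕ) (hk : 1 ≤ k) : ∃ K : ℕ, ∀ (F : Type) [Field F] [Fintype F] [CharP F 2],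
    SAdm F → STuple F k → ∀ (a c d : F[X]) (H : Set F[X]), d ≠ 0 → ¬ IsSquare (a * c) →
    H.Finite → (∀ h ∈ H, ∃ x y : F[X], a * x ^ 2 + (c + a * h ^ 2) = d * y ∧
      IsCoprime (x * y) (a * d) ∧ (Fintype.card F = 2 → IsCoprime (x * y) (X * (X + 1)))) →
    ∃ n₀ : ℕ, ∀ n, n₀ ≤ n → {h ∈ H | ¬ ∃ P Q : F[X], P.Monic ∧ P.natDegree = n ∧ Irreducible P ∧
      Irreducible Q ∧ a * P ^ 2 + (c + a * h ^ 2) = d * Q}.encard ≤ K := by
  refine ⟨(k + 1) ^ ((k + 1) ^ (k + 1) * (k + 1)) * k,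
    fun F _ _ _ hA hT a c d H hd hs hH hx => Filter.eventually_atTop.1 ?_⟩
  obtain ⟨N, hN, hB, hR⟩ := PigeonX.modulus F k
  have hfin : {h : Fin k → F[X] | (∀ l, h l ∈ H) ∧ Function.Injective h ∧
      ∀ l l', N ∣ h l - h l'}.Finite := (Set.Finite.pi' fun _ => hH).subset fun h hh => hh.1
  filter_upwards [hfin.eventually_all.2 fun h hh => PigeonX.ev hA hT hd hs ⟨0, hk⟩ hh.2.1
    (fun l => hx _ (hh.1 l)) fun R r1 r2 l => (hR R r1 r2).trans (hh.2.2 l _)] with n hn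
  by_contra hS
  obtain ⟨h, hi, hm, hc⟩ := PigeonX.pigeon hN hB hS
  obtain ⟨l, hl⟩ := hn h ⟨fun l => (hm l).1, hi, hc⟩
  exact (hm l).2 hl

end Pool.Agent.PPf

end
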