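import Mathlib
import Pool.Agent.Mg.Ff37147.Ga41c89
import Pool.Agent.Mg.F43e117.Gfc7226

/- Prime pairs over `F[X]`: the sieve weight along a line, against a weight. -/

set_option autoImplicit false
set_option linter.unusedSectionVars false

namespace Pool.Agent.PPf

open Polynomial Finset Pool.Agent.MP_4fffd4_nt Pool.Agent.MP_c853c5_nt Pool.Agent.MP_43e117_nt
open scoped BigOperators

namespace LineWX

theorem expand {T : Type} [Fintype T] (I : Finset ℕ) (Ψ H : T → ℝ) (x y a b : ℕ → ℝ)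
    (A B : ℕ → T → ℝ) (K : ℝ) (hΨ : ∀ t, 0 ≤ Ψ t) (hx : ∀ s, 0 ≤ x s) (hy : ∀ s, 0 ≤ y s)
    (hH : ∀ t, H t ≤ ∏ s ∈ I, (x s * A s t + y s * B s t))
    (hσ : ∀ σ ⊆ I, 𝔼 t, Ψ t * ((∏ s ∈ σ, A s t) * ∏ s ∈ I \ σ, B s t) ≤
      K * ((∏ s ∈ σ, a s) * ∏ s ∈ I \ σ, b s)) :
    𝔼 t, Ψ t * H t ≤ K * ∏ s ∈ I, (x s * a s + y s * b s) := by
  refine (expect_le_expect fun t _ => mul_le_mul_of_nonneg_left (hH t) (hΨ t)).trans ?_
  have e : ∀ t, Ψ t * ∏ s ∈ I, (x s * A s t + y s * B s t) = ∑ σ ∈ I.powerset,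
      ((∏ s ∈ σ, x s) * ∏ s ∈ I \ σ, y s) *
        (Ψ t * ((∏ s ∈ σ, A s t) * ∏ s ∈ I \ σ, B s t)) := by
    intro t
    rw [prod_add, mul_sum]
    refine sum_congr rfl fun σ _ => ?_
    rw [prod_mul_distrib, prod_mul_distrib]
    ring
  simp only [e]
  rw [expect_sum_comm, prod_add, mul_sum]
  refine sum_le_sum fun σ hs => ?_
  rw [← mul_expect]
  refine (mul_le_mul_of_nonneg_left (hσ σ (mem_powerset.1 hs))
    (mul_nonneg (prod_nonneg fun s _ => hx s) (prod_nonneg fun s _ => hy s))).trans_eq ?_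
  rw [prod_mul_distrib, prod_mul_distrib]
  ring

variable {F : Type} [Field F] [Fintype F]

/-- The local factor. -/
noncomputable def th (c a c' a' : F[X]) (α : ℝ) (P t : F[X]) : ℝ :=
  1 + α * (ind (P ∣ c + a * t) + ind (P ∣ c' + a' * t))

theorem th_per (c a c' a' : F[X]) (α : ℝ) (P : F[X]) : Per P (th c a c' a' α P) := fun f t => by
  have e : ∀ x y : F[X], (P ∣ x + y * (f + P * t)) = (P ∣ x + y * f) := fun x y => by
    rw [mul_add, ← add_assoc, dvd_add_left ⟨y * t, by ring⟩]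
  simp only [th, e]

theorem th_mean (c a c' a' : F[X]) (α : ℝ) (P : F[X]) (l : ℕ) :
    𝔼 t : degreeLT F l, th c a c' a' α P t.1 =
      1 + α * ((𝔼 t : degreeLT F l, ind (P ∣ c + a * t.1)) +
        𝔼 t : degreeLT F l, ind (P ∣ c' + a' * t.1)) := by
  simp only [th]
  rw [expect_add_distrib, ← mul_expect, expect_add_distrib, expect_const univ_nonempty]

theorem th_prod {c a c' a' : F[X]} {S : Finset F[X]} (α : ℝ) (t : F[X])
    (hd : ∀ P ∈ S, ¬ (P ∣ c + a * t ∧ P ∣ c' + a' * t)) :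
    (1 + α) ^ om S (c + a * t) * (1 + α) ^ om S (c' + a' * t) =
      ∏ P ∈ S, th c a c' a' α P t := by
  rw [← TModA.prod_om, ← TModA.prod_om, ← prod_mul_distrib]
  refine prod_congr rfl fun P hP => ?_
  unfold th
  by_cases h1 : P ∣ c + a * t
  · rw [ind_neg fun h2 => hd P hP ⟨h1, h2⟩]; ring
  · rw [ind_neg h1]; ring

/-- The two coefficients of a block. -/
noncomputable def xx (s w w' : ℕ) : ℝ := ind (w = 0) * ind (w' = 0)

noncomputable def yy (s w w' : ℕ) : ℝ :=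
  ind (w = 0) * (3 ^ w' / 2 ^ (2 * s + 3)) + 3 ^ w / 2 ^ (2 * s + 3) * ind (w' = 0) +
    3 ^ w / 2 ^ (2 * s + 3) * (3 ^ w' / 2 ^ (2 * s + 3))

theorem xx_nonneg (s w w' : ℕ) : 0 ≤ xx s w w' := mul_nonneg (ind_nonneg _) (ind_nonneg _)

theorem yy_nonneg (s w w' : ℕ) : 0 ≤ yy s w w' := by
  have h1 := ind_nonneg (w = 0)
  have h2 := ind_nonneg (w' = 0)
  unfold yy
  positivity

theorem pt (s x x' w w' : ℕ) : bonf (2 * s + 2) (x + w) * bonf (2 * s + 2) (x' + w') ≤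
    xx s w w' * ((1 + -1) ^ x * (1 + -1) ^ x') + yy s w w' * ((1 + 2) ^ x * (1 + 2) ^ x') := by
  have b1 := TModA.bonf_add_le s x w
  have b2 := TModA.bonf_add_le s x' w'
  refine (mul_le_mul b1 b2 (bonf_nonneg _ _) ((bonf_nonneg _ _).trans b1)).trans ?_
  rw [show (1 : ℝ) + -1 = 0 by norm_num, show (1 : ℝ) + 2 = 3 by norm_num]
  exact TModA.arith (by positivity) (pow_le_pow_left₀ le_rfl (by norm_num) _) (by positivity)
    (pow_le_pow_left₀ le_rfl (by norm_num) _) (ind_nonneg _) (ind_nonneg _) (by positivity)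
    (by positivity)

theorem no_both {h e e' c c' P : F[X]} (hP : ¬ P ∣ h) (hc : c' * e' = c * e + h) (t : F[X])
    (h1 : P ∣ (c' + e * t) * e') (h2 : P ∣ (c + e' * t) * e) : False := by
  have hh : h = (c' + e * t) * e' - (c + e' * t) * e := by linear_combination -hc
  exact hP (hh ▸ dvd_sub h1 h2)

open TModA in
theorem block {h e e' c c' : F[X]} {S : Finset F[X]}
    (hS : ∀ P ∈ S, P.Monic ∧ Irreducible P ∧ ¬ P ∣ h)
    (hS' : ∑ P ∈ S, 1 / qq F P.natDegree ≤ 1) (he : e ≠ 0) (he' : e' ≠ 0)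
    (hc : c' * e' = c * e + h) (s : ℕ) {l : ℕ} (hdeg : ∀ P ∈ S, P.natDegree ≤ l) :
    0 ≤ ∏ P ∈ S, 𝔼 t : degreeLT F l, th c e' c' e (-1) P t.1 ∧
    0 ≤ ∏ P ∈ S, 𝔼 t : degreeLT F l, th c e' c' e 2 P t.1 ∧
    xx s (Om S e) (Om S e') * ∏ P ∈ S, 𝔼 t : degreeLT F l, th c e' c' e (-1) P t.1 +
      yy s (Om S e) (Om S e') * ∏ P ∈ S, 𝔼 t : degreeLT F l, th c e' c' e 2 P t.1 ≤
      VS S ^ 2 * (gb (2 * s + 2) (Om S e) * gb (2 * s + 2) (Om S e')) := by
  have hS2 : ∀ P ∈ S, P.Monic ∧ Irreducible P := fun P hP => ⟨(hS P hP).1, (hS P hP).2.1⟩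
  simp only [th_mean]
  unfold xx yy
  set i := ind (Om S e = 0) with hi
  set i' := ind (Om S e' = 0) with hi'
  set u : ℝ := 3 ^ Om S e / 2 ^ (2 * s + 3) with hu
  set u' : ℝ := 3 ^ Om S e' / 2 ^ (2 * s + 3) with hu'
  have i0 : 0 ≤ i := ind_nonneg _
  have i0' : 0 ≤ i' := ind_nonneg _
  have u0 : 0 ≤ u := by positivity
  have u0' : 0 ≤ u' := by positivity
  have m1 : ∀ P ∈ S, 𝔼 t : degreeLT F l, ind (P ∣ c + e' * t.1) ≤ 1 / qq F P.natDegree :=
    fun P hP => mean_le (hS P hP).1 (hS P hP).2.1 (fun h1 t h2 =>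
      no_both (hS P hP).2.2 hc t (h1.mul_left _) (h2.mul_right _)) (hdeg P hP)
  have m2 : ∀ P ∈ S, 𝔼 t : degreeLT F l, ind (P ∣ c' + e * t.1) ≤ 1 / qq F P.natDegree :=
    fun P hP => mean_le (hS P hP).1 (hS P hP).2.1 (fun h1 t h2 =>
      no_both (hS P hP).2.2 hc t (h2.mul_right _) (h1.mul_left _)) (hdeg P hP)
  have n1 : ∀ x y P : F[X], 0 ≤ 𝔼 t : degreeLT F l, ind (P ∣ x + y * t.1) := fun x y P =>
    expect_nonneg fun _ _ => ind_nonneg _
  have n2 : ∀ P ∈ S, 0 ≤ 1 + -1 * ((𝔼 t : degreeLT F l, ind (P ∣ c + e' * t.1)) +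
      𝔼 t : degreeLT F l, ind (P ∣ c' + e * t.1)) := fun P hP => by
    have := one_div_le_one_div_of_le two_pos (two_le_qq (hS P hP).2.1)
    linarith [m1 P hP, m2 P hP]
  refine ⟨prod_nonneg n2, prod_nonneg fun P _ => by linarith [n1 c e' P, n1 c' e P], ?_⟩
  have B : ∏ P ∈ S, (1 + 2 * ((𝔼 t : degreeLT F l, ind (P ∣ c + e' * t.1)) +
      𝔼 t : degreeLT F l, ind (P ∣ c' + e * t.1))) ≤ VS S ^ 2 * Real.exp 8 := by
    refine le_trans ?_ (exp_le_VS (fun P hP => (hS P hP).2.1) hS')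
    refine (prod_le_prod (g := fun P => Real.exp (4 * (1 / qq F P.natDegree)))
      (fun P _ => by linarith [n1 c e' P, n1 c' e P]) fun P hP => ?_).trans ?_
    · linarith [m1 P hP, m2 P hP, Real.add_one_le_exp (4 * (1 / qq F P.natDegree))]
    · rw [← Real.exp_sum, ← mul_sum]
      exact Real.exp_le_exp.2 (by linarith)
  have A : i * i' * ∏ P ∈ S, (1 + -1 * ((𝔼 t : degreeLT F l, ind (P ∣ c + e' * t.1)) +
      𝔼 t : degreeLT F l, ind (P ∣ c' + e * t.1))) ≤ i * i' * VS S ^ 2 := by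
    by_cases w : Om S e = 0
    swap
    · rw [hi, ind_neg w, zero_mul, zero_mul, zero_mul]
    by_cases w' : Om S e' = 0
    swap
    · rw [hi', ind_neg w', mul_zero, zero_mul, zero_mul]
    refine mul_le_mul_of_nonneg_left ?_ (mul_nonneg i0 i0')
    rw [VS, ← prod_pow]
    refine prod_le_prod n2 fun P hP => ?_
    rw [mean_eq (hS P hP).1 (hS P hP).2.1
        (fun h1 => (Om_eq_zero hS2 he').1 w' P hP h1) c (hdeg P hP),
      mean_eq (hS P hP).1 (hS P hP).2.1
        (fun h1 => (Om_eq_zero hS2 he).1 w P hP h1) c' (hdeg P hP)]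
    nlinarith [sq_nonneg (1 / qq F P.natDegree)]
  have g1 : gb (2 * s + 2) (Om S e) = i + Real.exp 8 * u := by rw [gb, mul_div_assoc]
  have g2 : gb (2 * s + 2) (Om S e') = i' + Real.exp 8 * u' := by rw [gb, mul_div_assoc]
  have E : 1 ≤ Real.exp 8 := Real.one_le_exp (by norm_num)
  have C := mul_le_mul_of_nonneg_left B (by positivity : 0 ≤ i * u' + u * i' + u * u')
  refine (add_le_add A C).trans ?_
  rw [g1, g2]
  have D : VS S ^ 2 * Real.exp 8 * (u * u') * 1 ≤ VS S ^ 2 * Real.exp 8 * (u * u') * Real.exp 8 :=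
    mul_le_mul_of_nonneg_left E (by positivity)
  nlinarith

theorem bl_eq {W P : F[X]} {y s s' : ℕ} (h1 : P ∈ bl W y s) (h2 : P ∈ bl W y s') : s = s' := by
  have key : ∀ {s s' : ℕ}, P ∈ bl W y s → P ∈ bl W y s' → ¬ s < s' := fun {s s'} h1 h2 hs => by
    obtain ⟨-, -, k1, -⟩ := mem_blk.1 h1
    obtain ⟨-, -, -, k2, -⟩ := mem_blk.1 h2
    have k4 : y / 2 ^ s' ≤ y / 2 ^ (s + 1) :=
      Nat.div_le_div_left (Nat.pow_le_pow_right two_pos hs) (by positivity)
    omega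
  exact le_antisymm (not_lt.1 (key h2 h1)) (not_lt.1 (key h1 h2))

theorem prod_split {W : F[X]} {y : ℕ} {I σ : Finset ℕ} (hσ : σ ⊆ I) (α : F[X] → ℝ)
    (h1 : ∀ s ∈ σ, ∀ P ∈ bl W y s, α P = -1) (h2 : ∀ s ∈ I \ σ, ∀ P ∈ bl W y s, α P = 2)
    [DecidableEq F[X]] (φ : ℝ → F[X] → ℝ) :
    ∏ P ∈ I.biUnion (bl W y), φ (α P) P =
      (∏ s ∈ σ, ∏ P ∈ bl W y s, φ (-1) P) * ∏ s ∈ I \ σ, ∏ P ∈ bl W y s, φ 2 P := by
  rw [prod_biUnion fun s _ s' _ hs => disjoint_left.2 fun P a b => hs (bl_eq a b),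
    ← prod_sdiff hσ, mul_comm]
  congr 1
  · exact prod_congr rfl fun s hs => prod_congr rfl fun P hP => by rw [h1 s hs P hP]
  · exact prod_congr rfl fun s hs => prod_congr rfl fun P hP => by rw [h2 s hs P hP]

/-- The product of the truncated sums along the line. -/
noncomputable def HH (W c c' e e' : F[X]) (y S : ℕ) (t : F[X]) : ℝ :=
  ∏ s ∈ range S, (bonf (2 * s + 2) (om (bl W y s) (c + e' * t) + Om (bl W y s) e) *
    bonf (2 * s + 2) (om (bl W y s) (c' + e * t) + Om (bl W y s) e'))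

theorem HH_nonneg (W c c' e e' : F[X]) (y S : ℕ) (t : F[X]) : 0 ≤ HH W c c' e e' y S t :=
  prod_nonneg fun _ _ => mul_nonneg (bonf_nonneg _ _) (bonf_nonneg _ _)

theorem HH_sp (W c c' e e' : F[X]) (y S : ℕ) : TModB.Sp (16 * y) (HH W c c' e e' y S) := by
  refine (TModB.Sp.prod (range S) (fun s => (2 * s + 2) * (y / 2 ^ s) + (2 * s + 2) * (y / 2 ^ s))
    _ fun s _ => (TModB.sp_bonf (TModB.sp_om W c e' y s _) _).mul
      (TModB.sp_bonf (TModB.sp_om W c' e y s _) _)).mono ?_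
  have := sum_level y S
  rw [sum_add_distrib]
  omega

theorem mean {h W e e' c c' : F[X]} {Ψ : F[X] → ℝ} {R : ℕ} {K : ℝ} (y S : ℕ)
    (hW : ∀ P : F[X], Irreducible P → P ∣ h → P ∣ W) (hΨ : ∀ f, 0 ≤ Ψ f) (hK : 0 ≤ K)
    (hL : Line h W Ψ R K) (he : e ≠ 0) (he' : e' ≠ 0) (hc : c' * e' = c * e + h)
    (k1 : IsCoprime e W) (k2 : IsCoprime e' W) :
    ∃ L, R + 16 * y ≤ L ∧
      𝔼 t : degreeLT F L, Ψ (c * e + e * e' * t.1) * HH W c c' e e' y S t.1 ≤
        K * ((∏ s ∈ range S, VS (bl W y s)) ^ 2 * (GG W y S e * GG W y S e')) := by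
  classical
  set U := (range S).biUnion (bl W y) with hU
  refine ⟨R + 16 * y + ∑ P ∈ U, P.natDegree, Nat.le_add_right _ _, ?_⟩
  set L := R + 16 * y + ∑ P ∈ U, P.natDegree with hLd
  have mb : ∀ s, ∀ P ∈ bl W y s, P.Monic ∧ Irreducible P ∧ ¬ P ∣ h := fun s P hP =>
    ⟨(mem_blk.1 hP).1, (mem_blk.1 hP).2.1,
      fun h1 => (mem_blk.1 hP).2.2.2.2 (hW P (mem_blk.1 hP).2.1 h1)⟩
  have hd : ∀ s t, ∀ P ∈ bl W y s, ¬ (P ∣ c + e' * t ∧ P ∣ c' + e * t) := fun s t P hP h1 =>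
    no_both (mb s P hP).2.2 hc t (h1.2.mul_right _) (h1.1.mul_right _)
  have hb := fun s (hs : s ∈ range S) => block (c := c) (c' := c') (l := L) (mb s)
    (by
      have := sum_inv_blk W (y / 2 ^ s)
      rwa [Nat.div_div_eq_div_mul, ← pow_succ] at this) he he' hc s
    (fun P hP => (single_le_sum (f := fun P : F[X] => P.natDegree) (fun _ _ => Nat.zero_le _)
      (mem_biUnion.2 ⟨s, hs, hP⟩ : P ∈ U)).trans (Nat.le_add_left _ _))
  refine (expand (range S) (fun t : degreeLT F L => Ψ (c * e + e * e' * t.1))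
    (fun t => HH W c c' e e' y S t.1)
    (fun s => xx s (Om (bl W y s) e) (Om (bl W y s) e'))
    (fun s => yy s (Om (bl W y s) e) (Om (bl W y s) e'))
    (fun s => ∏ P ∈ bl W y s, 𝔼 t : degreeLT F L, th c e' c' e (-1) P t.1)
    (fun s => ∏ P ∈ bl W y s, 𝔼 t : degreeLT F L, th c e' c' e 2 P t.1)
    (fun s t => ∏ P ∈ bl W y s, th c e' c' e (-1) P t.1)
    (fun s t => ∏ P ∈ bl W y s, th c e' c' e 2 P t.1) K (fun t => hΨ _)
    (fun s => xx_nonneg _ _ _) (fun s => yy_nonneg _ _ _) (fun t => ?_) fun σ hσ => ?_).trans ?_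
  · refine prod_le_prod (fun s _ => mul_nonneg (bonf_nonneg _ _) (bonf_nonneg _ _)) fun s _ => ?_
    rw [← th_prod (-1) t.1 (hd s t.1), ← th_prod 2 t.1 (hd s t.1)]
    exact pt s _ _ _ _
  · set α : F[X] → ℝ := fun P => if ∃ s ∈ σ, P ∈ bl W y s then -1 else 2 with hα
    have h1 : ∀ s ∈ σ, ∀ P ∈ bl W y s, α P = -1 := fun s hs P hP => if_pos ⟨s, hs, hP⟩
    have h2 : ∀ s ∈ range S \ σ, ∀ P ∈ bl W y s, α P = 2 := fun s hs P hP =>
      if_neg fun ⟨s', a, b⟩ => (mem_sdiff.1 hs).2 (bl_eq b hP ▸ a)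
    have h3 : ∀ P, α P = -1 ∨ α P = 2 := fun P => by
      simp only [hα]
      split_ifs
      · exact Or.inl rfl
      · exact Or.inr rfl
    have key := hL (c * e) (e * e') U (fun P => th c e' c' e (α P) P) L (k1.mul_left k2)
      (fun P _ hP => hP.trans ⟨c * c', by rw [← hc]; ring⟩)
      (fun P hP => by
        obtain ⟨s, -, hs⟩ := mem_biUnion.1 hP
        exact ⟨(mem_blk.1 hs).1, (mem_blk.1 hs).2.1, (mem_blk.1 hs).2.2.2.2⟩)
      (fun P _ => th_per _ _ _ _ _ _)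
      (fun P hP t => by
        obtain ⟨s, -, hs⟩ := mem_biUnion.1 hP
        have a1 := ind_nonneg (P ∣ c + e' * t)
        have a2 := ind_nonneg (P ∣ c' + e * t)
        have a3 : ind (P ∣ c + e' * t) + ind (P ∣ c' + e * t) ≤ 1 := by
          by_cases b : P ∣ c + e' * t
          · rw [ind_pos b, ind_neg fun b' => hd s t P hs ⟨b, b'⟩, add_zero]
          · rw [ind_neg b, zero_add]
            exact ind_le_one _
        unfold th
        rcases h3 P with b | b <;> rw [b] <;> constructor <;> linarith)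
      (fun P _ _ t ht => by
        have e1 : (c * e + e * e' * t) * (c * e + e * e' * t + h) =
            (c + e' * t) * e * ((c' + e * t) * e') := by
          linear_combination (-(c * e + e * e' * t)) * hc
        rw [e1] at ht
        unfold th
        rw [ind_neg fun b => ht ((b.mul_right _).mul_right _),
          ind_neg fun b => ht ((b.mul_right _).mul_left _), add_zero, mul_zero, add_zero])
      (by omega)
    rw [prod_split hσ α h1 h2 fun a P => 𝔼 t : degreeLT F L, th c e' c' e a P t.1] at key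
    refine le_trans (le_of_eq (expect_congr rfl fun t _ => ?_)) key
    rw [prod_split hσ α h1 h2 fun a P => th c e' c' e a P t.1]
  · refine mul_le_mul_of_nonneg_left ?_ hK
    rw [GG, GG, ← prod_pow, ← prod_mul_distrib, ← prod_mul_distrib]
    exact prod_le_prod (fun s hs => add_nonneg (mul_nonneg (xx_nonneg _ _ _) (hb s hs).1)
      (mul_nonneg (yy_nonneg _ _ _) (hb s hs).2.1)) fun s hs => (hb s hs).2.2

end LineWX

variable (F : Type) [Field F] [Fintype F] [CharP F 2]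

theorem sLineW : SLineW F := by
  intro h W e e' n i i' m m' y S R lo hi K ι Z M Φ hF hWM hW hΨ hK hL hm hm' he he' hy
  classical
  obtain ⟨e1, e2⟩ := mem_monF.1 he
  obtain ⟨e3, e4⟩ := mem_monF.1 he'
  have gn : ∀ x : F[X], 0 ≤ GG W y S x := fun x => prod_nonneg fun _ _ => TModB.gb_nonneg _ _
  have g1 : 0 ≤ qq F (i + i') * K * (∏ s ∈ range S, VS (bl W y s)) ^ 2 *
      (ind (IsCoprime e W) * GG W y S e * (ind (IsCoprime e' W) * GG W y S e')) :=
    mul_nonneg (mul_nonneg (mul_nonneg (qq_pos _).le hK) (sq_nonneg _))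
      (mul_nonneg (mul_nonneg (ind_nonneg _) (gn _)) (mul_nonneg (ind_nonneg _) (gn _)))
  by_cases hs : ∃ c ∈ monF F i, ∃ c' ∈ monF F i', c' * e' = c * e + h ∧ tot Z Φ (c * e) ≠ 0
  swap
  · rw [sum_eq_zero fun d hd => sum_eq_zero fun d' hd' => ?_, zero_mul]
    · exact g1
    · by_cases h1 : d' * e' = d * e + h
      · have h2 : tot Z Φ (d * e) = 0 := by
          by_contra h2
          exact hs ⟨d, hd, d', hd', h1, h2⟩
        rw [h2, zero_mul, mul_zero]
      · rw [ind_neg h1, zero_mul]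
  obtain ⟨c, hc, c', hc', h0, hz⟩ := hs
  obtain ⟨z, hz1, hz2⟩ := exists_ne_zero_of_sum_ne_zero hz
  have k0 : IsCoprime (c * e * (c' * e')) W := by
    rw [h0]
    exact (hF.supp z hz1 _ hz2).of_isCoprime_of_dvd_right (hWM z hz1)
  have k1 : IsCoprime e W := k0.of_mul_left_left.of_mul_left_right
  have k2 : IsCoprime e' W := k0.of_mul_left_right.of_mul_left_right
  have k4 : IsCoprime e e' := isCoprime_of_irreducible_dvd (fun h1 => e1.ne_zero h1.1)
    fun P hP h1 h2 => hP.not_isUnit (k1.isUnit_of_dvd' h1 (hW P hP (by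
      have : h = c' * e' - c * e := by linear_combination -h0
      rw [this]
      exact dvd_sub (h2.mul_left _) (h1.mul_left _))))
  have ha : e' ≠ 0 := e3.ne_zero
  obtain ⟨l, hl⟩ : ∃ l, l + m' = i := ⟨i - m', by omega⟩
  set G : F[X] → ℝ := fun t => tot Z Φ (c * e + e * e' * t) * LineWX.HH W c c' e e' y S t with hG
  have G0 : ∀ t, 0 ≤ G t := fun t => mul_nonneg (hΨ _) (LineWX.HH_nonneg _ _ _ _ _ _ _ _)
  have s1 : ∀ d ∈ monF F i, ∀ d' ∈ monF F i', ind (d' * e' = d * e + h) * (tot Z Φ (d * e) *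
      (nu W y S (d * e) * |mu d| * (nu W y S (d' * e') * |mu d'|))) ≤
      ∑ t ∈ ltF F l, ind (d = c + e' * t) * (ind (d' = c' + e * t) * G t) := by
    intro d hd d' hd'
    have n0 : ∀ t ∈ ltF F l, 0 ≤ ind (d = c + e' * t) * (ind (d' = c' + e * t) * G t) :=
      fun t _ => mul_nonneg (ind_nonneg _) (mul_nonneg (ind_nonneg _) (G0 t))
    by_cases h1 : d' * e' = d * e + h
    swap
    · rw [ind_neg h1, zero_mul]; exact sum_nonneg n0
    have h2 : (d' - c') * e' = e * (d - c) := by linear_combination h1 - h0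
    obtain ⟨t, ht⟩ := k4.symm.dvd_of_dvd_mul_left ⟨d' - c', by rw [← h2, mul_comm]⟩
    have h3 : d = c + e' * t := by linear_combination ht
    have h4 : d' = c' + e * t := by
      have : (d' - c') * e' = e * t * e' := by rw [h2, ht]; ring
      linear_combination mul_right_cancel₀ ha this
    obtain ⟨m1, m2⟩ := mem_monF.1 hd
    obtain ⟨m3, m4⟩ := mem_monF.1 hc
    have h5 : t ∈ ltF F l := by
      rw [mem_ltF]
      by_cases t0 : t = 0
      · rw [t0, degree_zero]; exact WithBot.bot_lt_coe _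
      have h6 : (d - c).degree < d.degree := degree_sub_lt_left
        (by rw [degree_eq_natDegree m1.ne_zero, degree_eq_natDegree m3.ne_zero, m2, m4])
        m1.ne_zero (by rw [m1.leadingCoeff, m3.leadingCoeff])
      rw [ht, degree_eq_natDegree m1.ne_zero, m2, degree_eq_natDegree (mul_ne_zero ha t0),
        natDegree_mul ha t0, Nat.cast_lt] at h6
      rw [degree_eq_natDegree t0, Nat.cast_lt]
      omega
    refine le_trans ?_ (single_le_sum n0 h5)
    have h7 : c * e + e * e' * t = d * e := by rw [h3]; ring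
    rw [ind_pos h1, ind_pos h3, ind_pos h4, one_mul, one_mul, one_mul, hG]
    simp only [h7]
    refine mul_le_mul_of_nonneg_left ?_ (hΨ _)
    unfold LineWX.HH
    simp only [prod_mul_distrib, ← h3, ← h4]
    exact mul_le_mul (TModB.nu_le W y S m1.ne_zero e1.ne_zero)
      (TModB.nu_le W y S (mem_monF.1 hd').1.ne_zero e3.ne_zero)
      (mul_nonneg (prod_nonneg fun _ _ => bonf_nonneg _ _) (abs_nonneg _))
      (prod_nonneg fun _ _ => bonf_nonneg _ _)
  have s2 : ∑ d ∈ monF F i, ∑ d' ∈ monF F i', ∑ t ∈ ltF F l,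
      ind (d = c + e' * t) * (ind (d' = c' + e * t) * G t) ≤ ∑ t ∈ ltF F l, G t := by
    rw [sum_congr rfl fun d _ => sum_comm, sum_comm]
    refine sum_le_sum fun t _ => ?_
    simp only [← mul_sum, ← sum_mul]
    have := mul_le_of_le_one_left (G0 t) (TModB.sum_ind_le_one (monF F i') (c' + e * t))
    exact (mul_le_of_le_one_left (mul_nonneg (sum_nonneg fun _ _ => ind_nonneg _) (G0 t))
      (TModB.sum_ind_le_one _ _)).trans this
  have s3 : ∑ t ∈ ltF F l, G t = qq F l * 𝔼 t : degreeLT F l, G t.1 := by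
    rw [← SPsi.sum_LT, ← Fintype.card_mul_expect, card_degreeLT, qq, Nat.cast_pow]
  have sp : TModB.Sp (R + 16 * y) G := by
    refine TModB.Sp.mul (Φ := fun t => tot Z Φ (c * e + e * e' * t)) ?_
      (LineWX.HH_sp W c c' e e' y S)
    refine TModB.Sp.sum Z (fun z t => Φ z (c * e + e * e' * t)) fun z hz => ?_
    refine .per (M z) _ (hF.mon z hz).ne_zero (hF.deg z hz) fun f t => ?_
    have := hF.per z hz (c * e + e * e' * f) (e * e' * t)
    rw [← this]
    exact congrArg _ (by ring)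
  obtain ⟨L, hL1, hL2⟩ := LineWX.mean y S hW hΨ hK hL e1.ne_zero ha h0 k1 k2
  have s4 : 𝔼 t : degreeLT F l, G t.1 ≤
      K * ((∏ s ∈ range S, VS (bl W y s)) ^ 2 * (GG W y S e * GG W y S e')) :=
    (sp.expect (by omega) hL1).trans_le hL2
  calc _ ≤ qq F l * _ * qq F n := mul_le_mul_of_nonneg_right
        (((sum_le_sum fun d hd => sum_le_sum (s1 d hd)).trans s2).trans
          (s3.trans_le (mul_le_mul_of_nonneg_left s4 (qq_pos _).le))) (qq_pos _).le
    _ = _ := by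
      rw [mul_right_comm, ← qq_add, ind_pos k1, ind_pos k2, show l + n = i + i' by omega]
      ring

end Pool.Agent.PPf
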