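import Pool.Agent.MP_f37147_nt.PP.Ker
import Mathlib
import Pool.Agent.Mg.Ff37147.Ga41c89
import Pool.Agent.Mg.F43e117.Gb31b19
import Pool.Agent.Mg.F43e117.G64a636
import Pool.Agent.Mg.F43e117.G10cabe
import Pool.Agent.Mg.F43e117.Gec30ea
import Pool.Agent.Mg.F43e117.G5dfe51
import Pool.Agent.Mg.F43e117.Gf5eab4
import Pool.Agent.Mg.F43e117.Gc4b8e5
import Pool.Agent.Mg.F43e117.G16e741
import Pool.Agent.Mg.F43e117.Ga0649d

section

/- Prime pairs: perturbation of a product kernel. -/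

set_option autoImplicit false

namespace Pool.Agent.PPf

open Finset
open scoped BigOperators

namespace PertX

theorem abs_prod_sub {ι : Type} [DecidableEq ι] (s : Finset ι) (f g e : ι → ℝ)
    (hg : ∀ i, 0 ≤ g i) (he : ∀ i, |f i - g i| ≤ e i) :
    |∏ i ∈ s, f i - ∏ i ∈ s, g i| ≤ ∏ i ∈ s, (g i + e i) - ∏ i ∈ s, g i := by
  induction s using Finset.induction_on with
  | empty => simp
  | insert a s ha ih =>
    rw [Finset.prod_insert ha, Finset.prod_insert ha, Finset.prod_insert ha]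
    have hG : 0 ≤ ∏ i ∈ s, g i := Finset.prod_nonneg fun i _ => hg i
    have hfa : |f a| ≤ g a + e a := by
      have h1 : |f a| ≤ |f a - g a| + |g a| := by
        have := abs_add_le (f a - g a) (g a)
        simpa using this
      rw [abs_of_nonneg (hg a)] at h1
      linarith [he a]
    have hsplit : f a * ∏ i ∈ s, f i - g a * ∏ i ∈ s, g i =
        f a * (∏ i ∈ s, f i - ∏ i ∈ s, g i) + (f a - g a) * ∏ i ∈ s, g i := by ring
    rw [hsplit]
    have h2 : |f a * (∏ i ∈ s, f i - ∏ i ∈ s, g i)| ≤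
        (g a + e a) * (∏ i ∈ s, (g i + e i) - ∏ i ∈ s, g i) := by
      rw [abs_mul]
      exact mul_le_mul hfa ih (abs_nonneg _) ((abs_nonneg _).trans hfa)
    have h3 : |(f a - g a) * ∏ i ∈ s, g i| ≤ e a * ∏ i ∈ s, g i := by
      rw [abs_mul, abs_of_nonneg hG]
      exact mul_le_mul_of_nonneg_right (he a) hG
    have h4 := abs_add_le (f a * (∏ i ∈ s, f i - ∏ i ∈ s, g i)) ((f a - g a) * ∏ i ∈ s, g i)
    nlinarith [h2, h3, h4]

theorem sum_sum_prod {ι β : Type} [Fintype ι] [DecidableEq ι] [Fintype β]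
    (h : ι → β → β → ℝ) :
    ∑ A : ι → β, ∑ A' : ι → β, ∏ P, h P (A P) (A' P) = ∏ P, ∑ a, ∑ a', h P a a' := by
  rw [Finset.prod_univ_sum, Fintype.piFinset_univ]
  refine Finset.sum_congr rfl fun A _ => ?_
  rw [Finset.prod_univ_sum, Fintype.piFinset_univ]

end PertX

open PertX

theorem sPert : SPert := by
  intro ι κ _ _ _ _ c c' b ε Y hY hε hc h1
  have hε0 : ∀ P, 0 ≤ ε P := fun P => (abs_nonneg _).trans (hε P ∅ ∅)
  have hYY : ∀ A A', 0 ≤ Y A * Y A' ∧ Y A * Y A' ≤ 1 := fun A A' =>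
    ⟨mul_nonneg (hY A).1 (hY A').1, mul_le_one₀ (hY A).2 (hY A').1 (hY A').2⟩
  refine ⟨?_, ?_⟩
  · have hstep : |form c Y - form c' Y| ≤
        ∑ A : ι → Finset κ, ∑ A' : ι → Finset κ,
          (∏ P, (c' P (A P) (A' P) + ε P) - ∏ P, c' P (A P) (A' P)) := by
      unfold form
      rw [← Finset.sum_sub_distrib]
      refine (Finset.abs_sum_le_sum_abs _ _).trans (Finset.sum_le_sum fun A _ => ?_)
      rw [← Finset.sum_sub_distrib]
      refine (Finset.abs_sum_le_sum_abs _ _).trans (Finset.sum_le_sum fun A' _ => ?_)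
      rw [← mul_sub, abs_mul, abs_of_nonneg (hYY A A').1]
      have h := abs_prod_sub Finset.univ (fun P => c P (A P) (A' P)) (fun P => c' P (A P) (A' P)) ε
        (fun P => (hc P _ _).1) (fun P => hε P _ _)
      calc Y A * Y A' * |∏ P, c P (A P) (A' P) - ∏ P, c' P (A P) (A' P)|
          ≤ 1 * |∏ P, c P (A P) (A' P) - ∏ P, c' P (A P) (A' P)| :=
            mul_le_mul_of_nonneg_right (hYY A A').2 (abs_nonneg _)
        _ ≤ _ := by rw [one_mul]; exact h
    have hsum : ∑ A : ι → Finset κ, ∑ A' : ι → Finset κ,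
          (∏ P, (c' P (A P) (A' P) + ε P) - ∏ P, c' P (A P) (A' P)) =
        ∏ P, (∑ a, ∑ a', c' P a a' + 4 ^ Fintype.card κ * ε P) - ∏ P, ∑ a, ∑ a', c' P a a' := by
      simp only [Finset.sum_sub_distrib]
      rw [sum_sum_prod (fun P a a' => c' P a a' + ε P), sum_sum_prod c']
      congr 1
      refine Finset.prod_congr rfl fun P _ => ?_
      simp only [Finset.sum_add_distrib, Finset.sum_const, Finset.card_univ, Fintype.card_finset,
        nsmul_eq_mul]
      have h4 : (4 : ℝ) ^ Fintype.card κ = 2 ^ Fintype.card κ * 2 ^ Fintype.card κ := by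
        rw [← mul_pow]; norm_num
      rw [h4]
      push_cast
      ring
    have hS1 : ∀ P, 1 ≤ ∑ a, ∑ a', c' P a a' := by
      intro P
      calc (1 : ℝ) = c' P ∅ ∅ := (h1 P).symm
        _ ≤ ∑ a', c' P ∅ a' :=
          Finset.single_le_sum (f := fun a' => c' P ∅ a') (fun a' _ => (hc P ∅ a').1)
            (Finset.mem_univ ∅)
        _ ≤ ∑ a, ∑ a', c' P a a' :=
          Finset.single_le_sum (f := fun a => ∑ a', c' P a a')
            (fun a _ => Finset.sum_nonneg fun a' _ => (hc P a a').1) (Finset.mem_univ ∅)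
    have h4 : ∀ P, 0 ≤ (4 : ℝ) ^ Fintype.card κ * ε P := fun P =>
      mul_nonneg (by positivity) (hε0 P)
    have hprod : ∏ P, (∑ a, ∑ a', c' P a a' + 4 ^ Fintype.card κ * ε P) ≤
        (∏ P, ∑ a, ∑ a', c' P a a') * Real.exp (4 ^ Fintype.card κ * ∑ P, ε P) := by
      rw [Finset.mul_sum, Real.exp_sum, ← Finset.prod_mul_distrib]
      refine Finset.prod_le_prod (fun P _ => add_nonneg (zero_le_one.trans (hS1 P)) (h4 P))
        fun P _ => ?_
      have hx := Real.add_one_le_exp ((4 : ℝ) ^ Fintype.card κ * ε P)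
      nlinarith [hS1 P, h4 P, mul_le_mul_of_nonneg_left hx (zero_le_one.trans (hS1 P)),
        mul_nonneg (sub_nonneg.2 (hS1 P)) (h4 P)]
    have hB : ∏ P, ∑ a, ∑ a', c' P a a' ≤ ∏ P, ∑ a, ∑ a', b P a a' :=
      Finset.prod_le_prod (fun P _ => zero_le_one.trans (hS1 P)) fun P _ =>
        Finset.sum_le_sum fun a _ => Finset.sum_le_sum fun a' _ => (hc P a a').2
    have hE : 0 ≤ Real.exp (4 ^ Fintype.card κ * ∑ P, ε P) - 1 := by
      have h0 : (0 : ℝ) ≤ 4 ^ Fintype.card κ * ∑ P, ε P :=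
        mul_nonneg (by positivity) (Finset.sum_nonneg fun P _ => hε0 P)
      linarith [Real.add_one_le_exp ((4 : ℝ) ^ Fintype.card κ * ∑ P, ε P)]
    calc |form c Y - form c' Y| ≤ _ := hstep
      _ = _ := hsum
      _ ≤ (∏ P, ∑ a, ∑ a', c' P a a') * (Real.exp (4 ^ Fintype.card κ * ∑ P, ε P) - 1) := by
          rw [mul_sub, mul_one]; linarith [hprod]
      _ ≤ _ := mul_le_mul_of_nonneg_right hB hE
  · unfold form
    refine Finset.sum_le_sum fun A _ => Finset.sum_le_sum fun A' _ => ?_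
    exact mul_le_mul_of_nonneg_left
      (Finset.prod_le_prod (fun P _ => (hc P _ _).1) fun P _ => (hc P _ _).2) (hYY A A').1

end Pool.Agent.PPf

end

section

/- Prime pairs: the second moment argument. -/

set_option autoImplicit false

namespace Pool.Agent.PPf

open Finset
open scoped BigOperators

namespace FinX

theorem arith (X m ε δ S0 S1 S2 SQ : ℝ) (hX : 0 < X) (hε : 0 ≤ ε) (hm : 1 ≤ m)
    (h0 : S0 ≤ X * (1 + ε)) (h1 : X * m * (1 - ε) ≤ S1) (h2 : S2 ≤ S1 + X * m ^ 2 * (1 + ε))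
    (hQ : X * δ ≤ SQ) (h : m ^ 2 * SQ ≤ S2 - 2 * m * S1 + m ^ 2 * S0) :
    δ ≤ 4 * ε + 1 / m := by
  have hm0 : 0 < m := by linarith
  have a1 := mul_le_mul_of_nonneg_left h0 (sq_nonneg m)
  have a2 := mul_le_mul_of_nonneg_left h1 (show 0 ≤ 2 * m - 1 by linarith)
  have a3 := mul_le_mul_of_nonneg_left hQ (sq_nonneg m)
  have a4 : 0 ≤ X * m * ε := by positivity
  have a5 : X * m ^ 2 * δ ≤ X * m ^ 2 * (4 * ε) + X * m := by nlinarith
  have a6 : X * m ^ 2 * (4 * ε) + X * m = X * m ^ 2 * (4 * ε + 1 / m) := by field_simp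
  rw [a6] at a5
  exact le_of_mul_le_mul_left a5 (by positivity)

end FinX

open Classical in
theorem sFin : SFin := by
  intro Ω s k ρ E Q X μ ε δ hρ hX hε _ hm h0 h1 h2 hQ hδ
  by_contra hno
  let I : Fin k → Ω → ℝ := fun l f => if E l f then 1 else 0
  have e1 : ∀ l, ∑ f ∈ s with E l f, ρ f = ∑ f ∈ s, ρ f * I l f := by
    intro l
    rw [sum_filter]
    exact sum_congr rfl fun f _ => by simp [I]
  have e2 : ∀ l l', ∑ f ∈ s, ρ f * (I l f * I l' f) ≤
      (if l = l' then ∑ f ∈ s, ρ f * I l f else 0) + X * μ ^ 2 * (1 + ε) := by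
    intro l l'
    split_ifs with h
    · subst h
      have a1 : ∑ f ∈ s, ρ f * (I l f * I l f) = ∑ f ∈ s, ρ f * I l f :=
        sum_congr rfl fun f _ => by by_cases h : E l f <;> simp [I, h]
      have a2 : 0 ≤ X * μ ^ 2 * (1 + ε) := by positivity
      linarith
    · rw [zero_add]
      refine le_trans (le_of_eq ?_) (h2 l l' h)
      rw [sum_filter]
      exact sum_congr rfl fun f _ => by
        by_cases a : E l f <;> by_cases b : E l' f <;> simp [I, a, b]
  have b1 : X * (k * μ) * (1 - ε) ≤ ∑ f ∈ s, ρ f * ∑ l, I l f := by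
    simp only [mul_sum]
    rw [sum_comm]
    have := card_nsmul_le_sum univ (fun l => ∑ f ∈ s, ρ f * I l f) _
      fun l _ => (h1 l).trans (e1 l).le
    rw [card_univ, Fintype.card_fin, nsmul_eq_mul] at this
    linarith
  have b2 : ∑ f ∈ s, ρ f * (∑ l, I l f) ^ 2 ≤
      ∑ f ∈ s, ρ f * ∑ l, I l f + X * (k * μ) ^ 2 * (1 + ε) := by
    have a1 : ∑ f ∈ s, ρ f * (∑ l, I l f) ^ 2 = ∑ l, ∑ l', ∑ f ∈ s, ρ f * (I l f * I l' f) := by
      simp only [sq, sum_mul_sum]
      simp only [mul_sum]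
      rw [sum_comm]
      exact sum_congr rfl fun l _ => sum_comm
    have a2 : ∑ f ∈ s, ρ f * ∑ l, I l f = ∑ l, ∑ f ∈ s, ρ f * I l f := by
      simp only [mul_sum]
      exact sum_comm
    rw [a1, a2]
    refine (sum_le_sum fun l _ => sum_le_sum fun l' _ => e2 l l').trans (le_of_eq ?_)
    simp only [sum_add_distrib, sum_ite_eq, mem_univ, if_true, sum_const, card_univ,
      Fintype.card_fin, nsmul_eq_mul]
    ring
  have b3 : (k * μ) ^ 2 * ∑ f ∈ s with Q f, ρ f ≤ ∑ f ∈ s, ρ f * (∑ l, I l f) ^ 2 -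
      2 * (k * μ) * ∑ f ∈ s, ρ f * ∑ l, I l f + (k * μ) ^ 2 * ∑ f ∈ s, ρ f := by
    rw [sum_filter, mul_sum, mul_sum, mul_sum, ← sum_sub_distrib, ← sum_add_distrib]
    refine sum_le_sum fun f hf => ?_
    split_ifs with h
    · have a1 : ∑ l, I l f = 0 :=
        sum_eq_zero fun l _ => if_neg fun a => hno ⟨f, hf, h, l, a⟩
      rw [a1]
      linarith
    · have a1 := mul_nonneg (hρ f hf) (sq_nonneg (∑ l, I l f - k * μ))
      linarith
  exact absurd (FinX.arith X (k * μ) ε δ _ _ _ _ hX hε hm h0 b1 b2 hQ b3) (not_le.2 hδ)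

end Pool.Agent.PPf

end

section

/- Prime pairs: the modified weights on the thin set. -/

set_option autoImplicit false

namespace Pool.Agent.PPf

open Finset
open scoped BigOperators

namespace OmegaX

variable {n G R E' E'' Θ : ℕ}

theorem omg_comm (i i' : ℕ) : omg n G R Θ i i' = omg n G R Θ i' i := by
  unfold omg
  ring

theorem thin_comm {i i' : ℕ} (h : Thin n G R E' E'' i i') : Thin n G R E' E'' i' i := by
  unfold Thin at h ⊢
  rwa [max_comm, min_comm]

theorem sum_ite_le (s t : Finset ℕ) (p : ℕ → Prop) [DecidablePred p] {c : ℝ} (hc : 0 ≤ c) {k : ℕ}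
    (h : ∀ i ∈ s, p i → i ∈ t) (hk : t.card ≤ k) : ∑ i ∈ s, (if p i then c else 0) ≤ k * c := by
  rw [← sum_filter, sum_const, nsmul_eq_mul]
  refine mul_le_mul_of_nonneg_right (Nat.cast_le.2 (le_trans (card_le_card fun i hi => ?_) hk)) hc
  exact h i (mem_filter.1 hi).1 (mem_filter.1 hi).2

/-- The first majorant. -/
noncomputable def fa (n E' Θ i i' : ℕ) : ℝ :=
  (if n < 2 * i + E' ∧ 2 * i < n + E' then (1 : ℝ) else 0) *
    (2 * E' / n + if n < i' + Θ then (1 : ℝ) else 0)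

/-- The second majorant. -/
noncomputable def fb (n E'' Θ i i' : ℕ) : ℝ :=
  if i' < i + E'' ∧ i < i' + E'' then 2 * n / Θ else 0

theorem fa_nn (i i' : ℕ) : 0 ≤ fa n E' Θ i i' := by
  unfold fa
  split_ifs <;> positivity

theorem fb_nn (i i' : ℕ) : 0 ≤ fb n E'' Θ i i' := by
  unfold fb
  split_ifs <;> positivity

theorem fb_comm (i i' : ℕ) : fb n E'' Θ i i' = fb n E'' Θ i' i := if_congr and_comm rfl rfl

open Classical in
theorem pt (h1 : 20 * R + 20 * E' ≤ G) (h2 : G ≤ n) (h3 : 1 ≤ E'') (h4 : 2 * E'' ≤ Θ)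
    (h5 : Θ ≤ n) {i i' : ℕ} (hi : i ≤ i') (hi' : i' < n) (h : Thin n G R E' E'' i i') :
    |omg n G R Θ i i'| / (((n : ℝ) - i) * ((n : ℝ) - i')) ≤
      fa n E' Θ i i' + fb n E'' Θ i i' := by
  obtain ⟨t1, t2⟩ := h
  rw [max_eq_right hi] at t1 t2
  rw [min_eq_left hi] at t2
  have r1 : (i : ℝ) ≤ i' := Nat.cast_le.2 hi
  have r2 : (i' : ℝ) < n := Nat.cast_lt.2 hi'
  have hb : (0 : ℝ) < n - i' := by linarith
  have ha : (0 : ℝ) < n - i := by linarith
  have hn : (0 : ℝ) < n := Nat.cast_pos.2 (by omega)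
  have hT : (0 : ℝ) < Θ := Nat.cast_pos.2 (by omega)
  rcases t2 with t2 | t2
  · refine le_trans ?_ (le_add_of_nonneg_right (fb_nn _ _))
    have j1 : ¬ Jn n G R Θ i := fun j => by
      have := j.1
      omega
    rw [fa, if_pos t2, one_mul, omg, if_neg j1, sub_zero]
    by_cases j2 : Jn n G R Θ i'
    · have k0 : (0 : ℝ) ≤ if n < i' + Θ then (1 : ℝ) else 0 := by split_ifs <;> norm_num
      refine le_trans ?_ (le_add_of_nonneg_right k0)
      have k1 : (n : ℝ) < 2 * i + E' := by exact_mod_cast t2.1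
      have k2 : 2 * (i : ℝ) < n + E' := by exact_mod_cast t2.2
      have k3 : 4 * (i : ℝ) ≤ 3 * n := by exact_mod_cast (by omega : 4 * i ≤ 3 * n)
      have k4 : |(n : ℝ) / 2 - i| ≤ E' / 2 := abs_le.2 ⟨by linarith, by linarith⟩
      rw [if_pos j2, show ((n : ℝ) - i) * ((n : ℝ) - i') - ((n : ℝ) - i') * n / 2 =
        ((n : ℝ) / 2 - i) * ((n : ℝ) - i') by ring, abs_mul, abs_of_pos hb,
        mul_div_mul_right _ _ hb.ne', div_le_div_iff₀ ha hn]
      have k5 := mul_le_mul_of_nonneg_right k4 hn.le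
      have k6 : (0 : ℝ) ≤ E' := Nat.cast_nonneg _
      nlinarith [mul_le_mul_of_nonneg_left k3 k6]
    · have k1 : n < i' + Θ := by
        by_contra k
        exact j2 ⟨t1, by omega⟩
      rw [if_neg j2, sub_zero, if_pos k1, abs_of_pos (mul_pos ha hb), div_self (mul_pos ha hb).ne']
      exact le_add_of_nonneg_left (by positivity)
  · refine le_trans ?_ (le_add_of_nonneg_left (fa_nn _ _))
    rw [fb, if_pos ⟨t2, by omega⟩, div_le_div_iff₀ (mul_pos ha hb) hT, ← abs_of_pos hT, ← abs_mul,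
      omg]
    have r3 : (Θ : ℝ) ≤ n := Nat.cast_le.2 h5
    have hab := mul_pos ha hb
    have k0 := mul_le_mul_of_nonneg_left r3 hab.le
    have k1 : 0 ≤ (if Jn n G R Θ i then ((n : ℝ) - i) * n / 2 else 0) * Θ ∧
        (if Jn n G R Θ i then ((n : ℝ) - i) * n / 2 else 0) * Θ ≤
          n * (((n : ℝ) - i) * ((n : ℝ) - i')) := by
      split_ifs with j
      · have j2 := j.2
        have k : 2 * (i' : ℝ) + Θ ≤ 2 * n := by exact_mod_cast (by omega : 2 * i' + Θ ≤ 2 * n)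
        exact ⟨by positivity, by nlinarith [mul_le_mul_of_nonneg_left k (mul_pos ha hn).le]⟩
      · exact ⟨by simp, by rw [zero_mul]; positivity⟩
    have k2 : 0 ≤ (if Jn n G R Θ i' then ((n : ℝ) - i') * n / 2 else 0) * Θ ∧
        (if Jn n G R Θ i' then ((n : ℝ) - i') * n / 2 else 0) * Θ ≤
          n * (((n : ℝ) - i) * ((n : ℝ) - i')) := by
      split_ifs with j
      · have j2 := j.2
        have k : 2 * (i : ℝ) + Θ ≤ 2 * n := by exact_mod_cast (by omega : 2 * i + Θ ≤ 2 * n)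
        exact ⟨by positivity, by nlinarith [mul_le_mul_of_nonneg_left k (mul_pos hb hn).le]⟩
      · exact ⟨by simp, by rw [zero_mul]; positivity⟩
    have k3 := mul_pos hab hT
    have k4 := mul_pos hn hab
    rw [sub_mul, sub_mul, abs_le]
    constructor <;> linarith [k1.1, k1.2, k2.1, k2.2]

theorem sum_fa (h1 : E' ≤ n) (h2 : 0 < n) :
    ∑ i ∈ range n, ∑ i' ∈ range n, fa n E' Θ i i' ≤ E' * (2 * E' + Θ) := by
  unfold fa
  rw [← sum_mul_sum]
  have hn : (n : ℝ) ≠ 0 := Nat.cast_ne_zero.2 h2.ne'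
  have k1 := sum_ite_le (range n) (Ico ((n - E') / 2 + 1) ((n - E') / 2 + 1 + E'))
    (fun i => n < 2 * i + E' ∧ 2 * i < n + E') zero_le_one (k := E')
    (fun i _ h => mem_Ico.2 (by omega)) (by simp)
  have k2 := sum_ite_le (range n) (Ico (n - Θ) n) (fun i => n < i + Θ) zero_le_one (k := Θ)
    (fun i hi h => mem_Ico.2 ⟨by omega, mem_range.1 hi⟩) (by rw [Nat.card_Ico]; omega)
  rw [mul_one] at k1 k2
  refine mul_le_mul k1 ?_ (sum_nonneg fun i _ => by split_ifs <;> positivity) (Nat.cast_nonneg _)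
  rw [sum_add_distrib, sum_const, card_range, nsmul_eq_mul, mul_div_cancel₀ _ hn]
  linarith

theorem sum_fb : ∑ i ∈ range n, ∑ i' ∈ range n, fb n E'' Θ i i' ≤
    n * (((2 * E'' : ℕ) : ℝ) * (2 * n / Θ)) := by
  refine (sum_le_card_nsmul _ _ _ fun i _ => sum_ite_le (range n) (Ico (i - E'') (i + E''))
    (fun i' => i' < i + E'' ∧ i < i' + E'') (by positivity) (k := 2 * E'')
    (fun i' _ h => mem_Ico.2 (by omega)) (by rw [Nat.card_Ico]; omega)).trans ?_
  rw [card_range, nsmul_eq_mul]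

end OmegaX

open OmegaX in
theorem sOmega : SOmega := by
  intro n G R E' E'' Θ h1 h2 h3 h4 h5
  refine ⟨fun i i' hi hi' => ?_, fun i i' hi hi' => ?_, fun i i' hi hi' h t => ?_,
    fun x y hx hy => ?_, ?_⟩
  · have k : ∀ j : ℕ, j ≤ n → 0 ≤ (n : ℝ) - j ∧ (n : ℝ) - j ≤ n := fun j hj =>
      ⟨sub_nonneg.2 (Nat.cast_le.2 hj), sub_le_self _ (Nat.cast_nonneg _)⟩
    have hn : (0 : ℝ) ≤ n := Nat.cast_nonneg _
    obtain ⟨a1, a2⟩ := k i hi
    obtain ⟨b1, b2⟩ := k i' hi'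
    have c1 := mul_nonneg a1 b1
    have c2 := mul_le_mul a2 b2 b1 hn
    have c3 := mul_nonneg a1 hn
    have c4 := mul_nonneg b1 hn
    have c5 := mul_le_mul_of_nonneg_right a2 hn
    have c6 := mul_le_mul_of_nonneg_right b2 hn
    have c7 := mul_nonneg hn hn
    rw [omg, abs_le, sq]
    split_ifs <;> constructor <;> linarith
  · have k : ∀ j, j < 2 * R → ¬ Jn n G R Θ j := fun j hj h => by
      have := h.1
      omega
    rw [omg, if_neg (k i hi), if_neg (k i' hi'), sub_zero, sub_zero]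
  · have k : ∀ j, j ≤ n → Thin n G R E' E'' n j → omg n G R Θ n j = 0 := fun j hj t => by
      obtain ⟨-, t2⟩ := t
      rw [max_eq_left hj, min_eq_right hj] at t2
      have j2 : ¬ Jn n G R Θ j := fun h => by
        have := h.1
        have := h.2
        omega
      rw [omg, if_neg j2]
      simp
    rcases h with h | h
    · rw [h] at t ⊢
      exact k i' hi' t
    · rw [h] at t ⊢
      rw [omg_comm]
      exact k i hi (thin_comm t)
  · have e : ∀ z : ℕ → ℝ, ∑ i ∈ range n, ((n : ℝ) - i) * z i =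
        ∑ i ∈ range (n + 1), ((n : ℝ) - i) * z i := fun z => by
      rw [sum_range_succ, sub_self, zero_mul, add_zero]
    classical
    have e2 : ∀ i i', omg n G R Θ i i' * (x i * y i') =
        (((n : ℝ) - i) * x i) * (((n : ℝ) - i') * y i') -
        ((if Jn n G R Θ i then ((n : ℝ) - i) * n / 2 else 0) * x i) * y i' -
        x i * ((if Jn n G R Θ i' then ((n : ℝ) - i') * n / 2 else 0) * y i') := fun i i' => by
      rw [omg]
      ring
    simp only [e2, sum_sub_distrib, ← sum_mul_sum]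
    rw [hx, hy, e, e, mul_zero, zero_mul, sub_zero, sub_zero]
  · have a1 := sum_fa (Θ := Θ) (n := n) (E' := E') (by omega) (by omega)
    have a2 := a1
    rw [sum_comm] at a2
    have a3 := sum_fb (n := n) (E'' := E'') (Θ := Θ)
    refine le_trans (sum_le_sum fun i hi => sum_le_sum fun i' hi' =>
      (?_ : _ ≤ fa n E' Θ i i' + fa n E' Θ i' i + fb n E'' Θ i i')) ?_
    · have b1 := fa_nn (n := n) (E' := E') (Θ := Θ) i i'
      have b2 := fa_nn (n := n) (E' := E') (Θ := Θ) i' i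
      have b3 := fb_nn (n := n) (E'' := E'') (Θ := Θ) i i'
      split_ifs with t
      · rcases le_total i i' with h | h
        · linarith [pt h1 h2 h3 h4 h5 h (mem_range.1 hi') t]
        · have := pt h1 h2 h3 h4 h5 h (mem_range.1 hi) (thin_comm t)
          rw [omg_comm, mul_comm, fb_comm] at this
          linarith
      · linarith
    · simp only [sum_add_distrib]
      have e : (n : ℝ) * (((2 * E'' : ℕ) : ℝ) * (2 * n / Θ)) = 4 * ((n : ℝ) ^ 2 * E'' / Θ) := by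
        push_cast
        ring
      have c1 : (0 : ℝ) ≤ (n : ℝ) ^ 2 * E'' / Θ := by positivity
      have c2 : (0 : ℝ) ≤ (E' : ℝ) ^ 2 := by positivity
      have c3 : (0 : ℝ) ≤ (Θ : ℝ) * E' := by positivity
      rw [e] at a3
      nlinarith

end Pool.Agent.PPf

end

section

/- Prime pairs over `F[X]`: choice of the parameters, with the size of the degree `d`. -/

set_option autoImplicit false
set_option linter.unusedSectionVars false

namespace Pool.Agent.PPf

open Polynomial Finset Pool.Agent.MP_4fffd4_nt Pool.Agent.MP_c853c5_nt Pool.Agent.MP_43e117_nt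
open scoped BigOperators

variable (F : Type) [Field F] [Fintype F] [CharP F 2]

theorem sPar : SPar F := by
  intro M C₀
  obtain ⟨u, hu⟩ : ∃ u, u + 1 = 8 * (M + 1) := ⟨8 * (M + 1) - 1, by omega⟩
  obtain ⟨k, hk⟩ : ∃ k, 16 * (u + 1) ≤ 2 ^ k := ⟨_, Nat.lt_two_pow_self.le⟩
  obtain ⟨c₀, hc₀⟩ : ∃ c₀ : ℕ, ∀ d : ℕ, ∑ j : Fin (u + 1), (d + j) = (u + 1) * d + c₀ :=
    ⟨∑ j : Fin (u + 1), (j : ℕ), fun d => by rw [Finset.sum_add_distrib]; simp⟩
  set C' := 1600 * 2 ^ (2 * k + 3) + 40 * Fintype.card F * 8 ^ (2 * u + 2) + (1000 + C₀) with hC'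
  have hC : 0 < 8 * (u + 1) * C' := by positivity
  obtain ⟨N₁, hN₁⟩ := poly_le 2 (u + 1) _ hC
  refine ⟨8 * (u + 1) * C', by
    have : C₀ ≤ C' := by omega
    nlinarith, hC, N₁ + 8 * (u + 1) * C' + 4 * (c₀ +
    (2 * (u + 1) + 1) * (2 * c₀ + 24 * u + 40)), fun n hn N L hN hN' hL hL' => ?_⟩
  obtain ⟨N', rfl⟩ : ∃ N', N = N' + c₀ := ⟨N - c₀, by omega⟩
  have a1 := Nat.div_mul_le_self (2 * N') (2 * (u + 1) + 1)
  have a2 := Nat.lt_mul_div_succ (2 * N') (b := 2 * (u + 1) + 1) (by omega)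
  have a3 : 2 * c₀ + 24 * u + 40 ≤ 2 * N' / (2 * (u + 1) + 1) :=
    (Nat.le_div_iff_mul_le (by omega)).2 (by rw [mul_comm]; omega)
  generalize 2 * N' / (2 * (u + 1) + 1) = d at a1 a2 a3
  obtain ⟨r, hr⟩ : ∃ r, (u + 1) * d + r = N' := ⟨N' - (u + 1) * d, by
    have : (u + 1) * d ≤ N' := by nlinarith
    omega⟩
  have b1 : d ≤ 2 * r := by nlinarith
  have b2 : r < d := by nlinarith
  have b3 : N' + c₀ ≤ 2 * (u + 1) * d := by nlinarith
  have b4 := Nat.div_mul_le_self n (8 * (u + 1) * C')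
  have b5 : 1 ≤ n / (8 * (u + 1) * C') := (Nat.le_div_iff_mul_le hC).2 (by omega)
  have b6 := hN₁ n (by omega)
  generalize n / (8 * (u + 1) * C') = κ at b4 b5 b6 ⊢
  have b7 : κ * C' ≤ d := Nat.le_of_mul_le_mul_left (c := 8 * (u + 1)) (by nlinarith) (by omega)
  have b8 : 8 * d ≤ L := Nat.le_of_mul_le_mul_left (c := M + 1) (by nlinarith) (by omega)
  rw [hC', mul_add, mul_add, mul_add] at b7
  have c1 : n ≤ 64 * (M + 1) * d := by
    have : 64 * (M + 1) * d = 4 * (2 * (u + 1) * d) := by rw [hu]; ring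
    omega
  have c2 : 8 * (M + 1) * d ≤ n := by rw [← hu]; omega
  refine ⟨d, u, r, TPar.par_of (k := k) (by omega) b2 (by rw [hc₀]; omega) (by omega)
    hL' (by
      have : κ * (40 * Fintype.card F * 8 ^ (2 * u + 2)) =
        2 * (2 * (Fintype.card F * (10 * κ)) * 8 ^ (2 * u + 2)) := by ring
      omega) (by omega) ?_ (by
      have : κ * (1600 * 2 ^ (2 * k + 3)) = 4 * (2 ^ (2 * k + 3) * (400 * κ)) := by ring
      omega) (le_trans (Nat.pow_le_pow_left (by omega) _) b6) b5, c1, c2⟩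
  have b9 : d ≤ 4 * (r - 210 * κ) := by omega
  calc _ ≤ 16 * (u + 1) * (r - 210 * κ) := by nlinarith
    _ ≤ _ := Nat.mul_le_mul_right _ hk

end Pool.Agent.PPf

end

section

/- Prime pairs over `F[X]`: the weighted sum with one smooth variable. -/

set_option autoImplicit false
set_option linter.unusedSectionVars false

namespace Pool.Agent.PPf

open Polynomial Finset Pool.Agent.MP_4fffd4_nt Pool.Agent.MP_c853c5_nt Pool.Agent.MP_43e117_nt
open scoped BigOperators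

namespace TypeUX

open TOne

variable {F : Type} [Field F] [Fintype F]

theorem deg_mul {M x : F[X]} {R l : ℕ} (hM : M.natDegree ≤ R) (hx : x.degree < l) :
    (M * x).degree < (R + l : ℕ) := by
  by_cases h0 : M * x = 0
  · rw [h0, degree_zero]
    exact WithBot.bot_lt_coe _
  have hx0 : x ≠ 0 := right_ne_zero_of_mul h0
  have h1 := (natDegree_lt_iff_degree_lt hx0).2 hx
  have h2 := natDegree_mul_le (p := M) (q := x)
  exact degree_le_natDegree.trans_lt (Nat.cast_lt.2 (by omega))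

theorem pointwise [CharP F 2] {d u r β N a i R : ℕ} (hr : r < d)
    (hd : 2 * (Fintype.card F * β) * 8 ^ (2 * u + 2) + 12 * u + 20 ≤ d) {A D v s M : F[X]}
    (hv : v ∈ goodV F d u) (hs : s ∈ monF F r) (hA : A ∈ monF F a) (hD : D ∈ monF F i)
    (hM : M.Monic) (hR : M.natDegree ≤ R) (hP : ∀ P ∈ irrF F d, ¬ P ∣ M)
    (hN : i + a = 2 * N + 1) (hi : a + 4 * r + 4 * (d + u) + 2 * R ≤ i) {c : ℝ} (hc : |c| ≤ 1) :
    |𝔼 x : degreeLT F (2 * (d + u)), c * lam (D + A * (s ^ 2 * (M * x.1)) ^ 2) *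
      ind (v * s = od ((D + A * (s ^ 2 * (M * x.1)) ^ 2) * A))| ≤
      𝔼 x : degreeLT F (2 * (d + u)), ind (v * s = od ((D + A * (s ^ 2 * (M * x.1)) ^ 2) * A)) *
        (2 * ind (SLine.Bad d u ((D + A * (s ^ 2 * (M * x.1)) ^ 2) * A))) +
      ind (v * s = od (D * A)) * (ind (SLine.Bad d u (D * A)) + 1 / qq F β) := by
  obtain ⟨hs1, hs2⟩ := mem_monF.1 hs
  obtain ⟨hA1, hA2⟩ := mem_monF.1 hA
  obtain ⟨hD1, hD2⟩ := mem_monF.1 hD
  have e1 : ∀ x : F[X], (D + A * (s ^ 2 * (M * x)) ^ 2) * A = D * A + (A * s ^ 2 * M * x) ^ 2 :=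
    fun x => by ring
  have hod : ∀ x : F[X], od ((D + A * (s ^ 2 * (M * x)) ^ 2) * A) = od (D * A) := fun x => by
    rw [e1, od_add, od_of_sq, add_zero]
  simp only [hod]
  by_cases hW : v * s = od (D * A)
  · simp only [ind_pos hW, mul_one, one_mul]
    have hl := line_one (β := β) (N := N) (α := A * s ^ 2 * M) hr hd hv hs (hN ▸ mon_mul hD hA) hW
      ((dvd_mul_left _ _).mul_right _) (by
        rw [(hA1.mul (hs1.pow 2)).natDegree_mul hM, hA1.natDegree_mul (hs1.pow 2), natDegree_pow,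
          hA2, hs2]
        omega)
    have hlam : ∀ x : degreeLT F (2 * (d + u)), c * lam (D + A * (s ^ 2 * (M * x.1)) ^ 2) =
        c * lam A * lam (D * A + (A * s ^ 2 * M * x.1) ^ 2) := fun x => by
      have hne : D + A * (s ^ 2 * (M * x.1)) ^ 2 ≠ 0 := by
        refine (hD1.add_of_left ?_).ne_zero
        rw [degree_eq_natDegree hD1.ne_zero, hD2]
        exact deg_shift hA hs (deg_mul hR (mem_degreeLT.1 x.2)) (by omega)
      have h2 : lam A * lam A = 1 := by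
        rw [← abs_mul_abs_self, abs_lam, mul_one]
      rw [← e1, lam_mul hne hA1.ne_zero]
      linear_combination (-(c * lam (D + A * (s ^ 2 * (M * x.1)) ^ 2))) * h2
    have hb : ind (∃ P ∈ irrF F d, P ∣ od (D * A) ∧ P ∣ A * s ^ 2 * M) ≤
        ind (SLine.Bad d u (D * A)) := by
      refine ind_mono fun ⟨P, hP', h1, h2⟩ => bad_of_dvd u hP' ?_ h1
      obtain ⟨-, hP2, hP3⟩ := mem_irrF.1 hP'
      rcases hP3.prime.dvd_or_dvd h2 with h4 | h4
      · rcases hP3.prime.dvd_or_dvd h4 with h3 | h3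
        · exact h3.mul_left _
        · have := natDegree_le_of_dvd (hP3.prime.dvd_of_dvd_pow h3) hs1.ne_zero
          omega
      · exact absurd h4 (hP P hP')
    simp only [hlam, e1]
    rw [← Finset.mul_expect, ← Finset.mul_expect, abs_mul, abs_mul, abs_lam, mul_one]
    refine (mul_le_of_le_one_left (abs_nonneg _) hc).trans (hl.trans ?_)
    linarith
  · simp [ind_neg hW]

theorem key [CharP F 2] {h : F[X]} {N β d u r μ κ ε i b R : ℕ} (hr : r < d)
    (hd : 2 * (Fintype.card F * β) * 8 ^ (2 * u + 2) + 12 * u + 20 ≤ d) (hn : i + ε + 0 = μ + κ)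
    (hN : i + (κ + b) = 2 * N + 1) (h2 : κ + b + 4 * r + 4 * (d + u) + 2 * R ≤ i)
    (c : F[X] → F[X] → ℝ) (hc : ∀ k ∈ monF F κ, ∀ e ∈ monF F ε, |c k e| ≤ 1) {B : F[X]}
    (hB : B ∈ monF F b) {v s M : F[X]} (hv : v ∈ goodV F d u) (hs : s ∈ monF F r)
    (hM : M.Monic) (hR : M.natDegree ≤ R) (hP : ∀ P ∈ irrF F d, ¬ P ∣ M) {φ : F[X] → ℝ}
    (hφ : Per M φ) :
    |cfg h μ κ ε 0 i fun m k e₁ e₂ d' =>
      φ (m * k) * (c k e₁ * lam d' * ind (v * s = od (d' * (k * e₂ * B))))| ≤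
      cfg h μ κ ε 0 i fun m k _ e₂ d' => |φ (m * k)| * (ind (v * s = od (d' * (k * e₂ * B))) *
        (3 * ind (SLine.Bad d u (d' * (k * e₂ * B))) + 1 / qq F β)) := by
  have hA : ∀ k ∈ monF F κ, ∀ e₂ ∈ monF F 0, k * e₂ * B ∈ monF F (κ + b) := fun k hk e₂ he => by
    have h1 := mon_mul hk he
    rw [add_zero] at h1
    exact mon_mul h1 hB
  have e1 : ∀ k e₂ x : F[X], k * (e₂ * B * (s ^ 2 * (M * x)) ^ 2) =
      k * e₂ * B * (s ^ 2 * (M * x)) ^ 2 := fun k e₂ x => by ring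
  have e2 : ∀ m k e₁ e₂ x : F[X],
      φ ((m + e₁ * e₂ * (e₂ * B * (s ^ 2 * (M * x)) ^ 2)) * k) = φ (m * k) :=
    fun m k e₁ e₂ x => by
      rw [← hφ (m * k) (e₁ * e₂ * (e₂ * B * (s ^ 4 * M * x ^ 2)) * k)]
      exact congrArg φ (by ring)
  have hsh : ∀ x : degreeLT F (2 * (d + u)), ∀ k ∈ monF F κ, ∀ e₁ ∈ monF F ε, ∀ e₂ ∈ monF F 0,
      (k * (e₂ * B * (s ^ 2 * (M * x.1)) ^ 2)).degree < i := fun x k hk e₁ _ e₂ he => by
    rw [e1]
    exact deg_shift (hA k hk e₂ he) hs (deg_mul hR (mem_degreeLT.1 x.2)) (by omega)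
  have hav := cfg_avg (h := h) hn
    (fun (x : degreeLT F (2 * (d + u))) _ _ e₂ => e₂ * B * (s ^ 2 * (M * x.1)) ^ 2) hsh
  have h3 := hav fun m k _ e₂ d' => |φ (m * k)| * (ind (v * s = od (d' * (k * e₂ * B))) *
    (2 * ind (SLine.Bad d u (d' * (k * e₂ * B)))))
  have h4 : (cfg h μ κ ε 0 i fun m k _ e₂ d' => |φ (m * k)| *
      (ind (v * s = od (d' * (k * e₂ * B))) *
        (3 * ind (SLine.Bad d u (d' * (k * e₂ * B))) + 1 / qq F β))) =
      (cfg h μ κ ε 0 i fun m k _ e₂ d' => |φ (m * k)| * (ind (v * s = od (d' * (k * e₂ * B))) *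
        (2 * ind (SLine.Bad d u (d' * (k * e₂ * B)))))) +
      cfg h μ κ ε 0 i fun m k _ e₂ d' => |φ (m * k)| * (ind (v * s = od (d' * (k * e₂ * B))) *
        (ind (SLine.Bad d u (d' * (k * e₂ * B))) + 1 / qq F β)) := by
    rw [← cfg_add]
    exact cfg_congr fun _ _ _ _ _ _ _ _ _ _ _ => by ring
  have h5 := hav fun m k e₁ e₂ d' =>
    φ (m * k) * (c k e₁ * lam d' * ind (v * s = od (d' * (k * e₂ * B))))
  rw [h5, h4, h3, ← cfg_add]
  refine (abs_cfg_le _).trans (cfg_mono fun m _ k hk e₁ he₁ e₂ he₂ D hD _ => ?_)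
  simp only [e2]
  simp only [e1]
  rw [← Finset.mul_expect, ← Finset.mul_expect, abs_mul, ← mul_add]
  exact mul_le_mul_of_nonneg_left
    (pointwise hr hd hv hs (hA k hk e₂ he₂) hD hM hR hP hN h2 (hc k hk e₁ he₁)) (abs_nonneg _)

end TypeUX

variable (F : Type) [Field F] [Fintype F] [CharP F 2]

open TypeUX in
theorem sTypeU : STypeU F := by
  intro h N L η d u r n μ κ ε i b R lo hi τ c B ι Z M Φ hh hp hn hn' hN h2 hτ hη hc hB hBs H hlo hhi
  have hr := hp.hr
  have hL := hp.hL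
  have hu := hp.hu
  have hτ1 := hτ.one_le
  have hn1 : 1 ≤ n := by omega
  have hhη := natDegree_lt_of_small hn1 hτ1 hη
  have hηd : 10 * η ≤ d := by
    have h1 : 1 ≤ Fintype.card F := Fintype.card_pos
    have h3 : 1 ≤ 8 ^ (2 * u + 2) := Nat.one_le_pow _ _ (by norm_num)
    have h4 : 10 * η ≤ Fintype.card F * (10 * η) := Nat.le_mul_of_pos_left _ h1
    have h5 : 2 * (Fintype.card F * (10 * η)) ≤
        2 * (Fintype.card F * (10 * η)) * 8 ^ (2 * u + 2) := Nat.le_mul_of_pos_right _ h3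
    have := hp.hd
    omega
  have hbad := cfg_bad (μ := μ) (κ := κ) (ε₁ := ε) (ε₂ := 0) (i := i) (d := d) (u := u) hh hn
    (by omega) hτ (by omega) (by omega) hB hBs
  have hone := cfg_one_le (h := h) (μ := μ) (κ := κ) (ε₁ := ε) (ε₂ := 0) (i := i) hτ hn (by omega)
  have hq := qq_pos (F := F)
  calc _ = |∑ z ∈ Z, ∑ v ∈ goodV F d u, ∑ s ∈ monF F r, cfg h μ κ ε 0 i fun m k e₁ e₂ d' =>
          Φ z (m * k) * (c k e₁ * lam d' * ind (v * s = od (d' * (k * e₂ * B))))| := by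
        simp only [← cfg_sum, ← Finset.mul_sum, ← Finset.sum_mul, gw, tot, mul_assoc]
    _ ≤ ∑ z ∈ Z, ∑ v ∈ goodV F d u, ∑ s ∈ monF F r, cfg h μ κ ε 0 i fun m k _ e₂ d' =>
          |Φ z (m * k)| * (ind (v * s = od (d' * (k * e₂ * B))) *
            (3 * ind (SLine.Bad d u (d' * (k * e₂ * B))) + 1 / qq F (10 * η))) :=
        (Finset.abs_sum_le_sum_abs _ _).trans (Finset.sum_le_sum fun z hz =>
          (Finset.abs_sum_le_sum_abs _ _).trans (Finset.sum_le_sum fun v hv =>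
            (Finset.abs_sum_le_sum_abs _ _).trans (Finset.sum_le_sum fun s hs =>
              key (N := N) (R := R) hr hp.hd (by omega) (by omega) (by omega) c hc hB hv hs
                (H.mon z hz) (H.deg z hz) (fun P hP => H.not_dvd hlo hhi hz hP) (H.per z hz))))
    _ ≤ cfg h μ κ ε 0 i fun _ k _ e₂ d' =>
          3 * ind (SLine.Bad d u (d' * (k * e₂ * B))) + 1 / qq F (10 * η) * 1 := by
        simp only [← cfg_sum, ← Finset.mul_sum, ← Finset.sum_mul]
        refine cfg_mono fun m hm k hk e₁ _ e₂ _ D _ _ => ?_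
        have h0 : 0 ≤ 3 * ind (SLine.Bad d u (D * (k * e₂ * B))) + 1 / qq F (10 * η) := by
          have := ind_nonneg (SLine.Bad d u (D * (k * e₂ * B)))
          have := hq (10 * η)
          positivity
        rw [mul_one]
        refine (mul_le_of_le_one_left (mul_nonneg (Finset.sum_nonneg fun _ _ =>
          Finset.sum_nonneg fun _ _ => ind_nonneg _) h0) (H.bd _ (hn ▸ TOne.mon_mul hm hk))).trans ?_
        exact mul_le_of_le_one_left h0 (gw_le_one hr _)
    _ ≤ 3 * (τ ^ 3 * (4 + 2 * b) * qq F n / qq F (10 * η)) +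
          1 / qq F (10 * η) * (τ ^ 3 * qq F n) := by
        rw [cfg_add, cfg_mul, cfg_mul]
        have h1 := hq (10 * η)
        have h3 := hq n
        refine add_le_add (mul_le_mul_of_nonneg_left (hbad.trans ?_) (by norm_num))
          (mul_le_mul_of_nonneg_left hone (by positivity))
        exact div_le_div_of_nonneg_left (by positivity) h1 (qq_mono hηd)
    _ = τ ^ 3 * (13 + 6 * b) * qq F n / qq F (10 * η) := by ring
    _ ≤ qq F (6 * η) * qq F n / qq F (10 * η) := by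
        have h1 := hq (10 * η)
        have h3 := hq n
        have hb : (13 : ℝ) + 6 * b ≤ 100 * n := by
          have : 13 + 6 * b ≤ 100 * n := by omega
          exact_mod_cast this
        have h4 : τ ^ 3 * (13 + 6 * b) ≤ qq F (6 * η) :=
          calc τ ^ 3 * (13 + 6 * b) ≤ τ ^ 4 * (100 * n) :=
                mul_le_mul (pow_le_pow_right₀ hτ1 (by norm_num)) hb (by positivity) (by positivity)
            _ = 100 * n * τ ^ 4 * 1 := by ring
            _ ≤ 100 * n * τ ^ 4 * qq F (2 * h.natDegree) :=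
                mul_le_mul_of_nonneg_left (one_le_qq _) (by positivity)
            _ ≤ qq F η := hη
            _ ≤ _ := qq_mono (by omega)
        gcongr
    _ = _ := by
        rw [show 10 * η = 6 * η + 4 * η by ring, qq_add, mul_div_mul_left _ _ (hq _).ne']

end Pool.Agent.PPf

end

section

/- Prime pairs over `F[X]`: the off diagonal terms with a weight. -/

set_option autoImplicit false
set_option linter.unusedSectionVars false

namespace Pool.Agent.PPf

open Polynomial Finset Pool.Agent.MP_4fffd4_nt Pool.Agent.MP_c853c5_nt Pool.Agent.MP_43e117_nt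
open scoped BigOperators

namespace TwoX

open TTwoA

variable {F : Type} [Field F] [Fintype F] [CharP F 2]

/-- The majorant. -/
noncomputable def WW (d u η : ℕ) (S : Finset F[X]) (A A' a a' : F[X]) : ℝ :=
  3 * ind (SLine.Bad d u (a * A)) + 2 * ind (SLine.Bad d u (a' * A')) +
    (∑ P ∈ S, ind (P ∣ od (a * A)) + 1 / qq F (10 * η))

theorem WW_nonneg (d u η : ℕ) (S : Finset F[X]) (A A' a a' : F[X]) : 0 ≤ WW d u η S A A' a a' := by
  have := ind_nonneg (SLine.Bad d u (a * A))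
  have := ind_nonneg (SLine.Bad d u (a' * A'))
  have : 0 ≤ ∑ P ∈ S, ind (P ∣ od (a * A)) := sum_nonneg fun _ _ => ind_nonneg _
  have := qq_pos (F := F) (10 * η)
  unfold WW
  positivity

theorem strip {d : ℕ} {C Y Y' α α' : F[X]} (hC : ∀ P ∈ irrF F d, ¬ P ∣ C) :
    ind (∃ P ∈ irrF F d, P ∣ od Y ∧
      (P ∣ α * C * (α' * C) ∨ P ∣ (α' * C) ^ 2 * Y + (α * C) ^ 2 * Y')) ≤
    ind (∃ P ∈ irrF F d, P ∣ od Y ∧ (P ∣ α * α' ∨ P ∣ α' ^ 2 * Y + α ^ 2 * Y')) := by
  refine ind_mono ?_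
  rintro ⟨P, hP, h1, h2⟩
  have hc : IsCoprime P (C ^ 2) :=
    ((mem_irrF.1 hP).2.2.coprime_iff_not_dvd.2 (hC P hP)).pow_right
  exact ⟨P, hP, h1, h2.imp (fun e => hc.dvd_of_dvd_mul_left (e.trans (dvd_of_eq (by ring))))
    fun e => hc.dvd_of_dvd_mul_left (e.trans (dvd_of_eq (by ring)))⟩

theorem core {h : F[X]} {N L η d u r : ℕ} (hp : Par F N L η d u r)
    {n μ κ ε₁ ε₂ i b R : ℕ} (hn : μ + κ = n) (hn' : i + ε₁ + ε₂ = n)
    (hN : i + κ + ε₂ + b = 2 * N + 1) (h2 : ε₁ + b + 4 * ε₂ + 2 * L + 4 * R ≤ μ)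
    {B k k' e₁ e₂ e₂' : F[X]} (hB : B ∈ monF F b) (hk : k ∈ monF F κ)
    (hk' : k' ∈ monF F κ) (he₁ : e₁ ∈ monF F ε₁) (he₂ : e₂ ∈ monF F ε₂)
    (he₂' : e₂' ∈ monF F ε₂) (S : Finset F[X])
    (hS : ∀ P ∈ irrF F d, P ∣ k' * e₂' * h * (k + k') → ¬ P ∣ k * e₂ * B → P ∈ S)
    {C : F[X]} (C1 : C.Monic) (C2 : C.natDegree ≤ 2 * R) (C3 : ∀ P ∈ irrF F d, ¬ P ∣ C)
    (φ : F[X] → F[X] → ℝ)
    (hφ : ∀ a a' t, C ∣ t → φ (a + k * e₂' * t) (a' + k' * e₂ * t) = φ a a') :
    |SS h k k' e₁ e₂ e₂' μ i fun a a' => φ a a' *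
      (lam a * gw (goodV F d u) r (od (a * (k * e₂ * B))) *
        (lam a' * gw (goodV F d u) r (od (a' * (k' * e₂' * B)))))| ≤
    SS h k k' e₁ e₂ e₂' μ i fun a a' =>
      |φ a a'| * WW d u η S (k * e₂ * B) (k' * e₂' * B) a a' := by
  classical
  obtain ⟨k1, k2⟩ := mem_monF.1 hk
  obtain ⟨k1', k2'⟩ := mem_monF.1 hk'
  obtain ⟨b1, b2⟩ := mem_monF.1 he₂
  obtain ⟨b1', b2'⟩ := mem_monF.1 he₂'
  obtain ⟨B1, B2⟩ := mem_monF.1 hB
  have hL := hp.hL
  have hr := hp.hr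
  have hnn : i + ε₁ + ε₂ = μ + κ := by omega
  have A1 : (k * e₂ * B).Monic := (k1.mul b1).mul B1
  have A2 : (k * e₂ * B).natDegree = κ + ε₂ + b := by
    rw [(k1.mul b1).natDegree_mul B1, k1.natDegree_mul b1, k2, b2, B2]
  have A1' : (k' * e₂' * B).Monic := (k1'.mul b1').mul B1
  have A2' : (k' * e₂' * B).natDegree = κ + ε₂ + b := by
    rw [(k1'.mul b1').natDegree_mul B1, k1'.natDegree_mul b1', k2', b2', B2]
  have key : ∀ v ∈ goodV F d u, ∀ s ∈ monF F r, ∀ v' ∈ goodV F d u, ∀ s' ∈ monF F r,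
      |SS h k k' e₁ e₂ e₂' μ i fun a a' => φ a a' * (lam a * ind (v * s = od (a * (k * e₂ * B))) *
        (lam a' * ind (v' * s' = od (a' * (k' * e₂' * B)))))| ≤
      SS h k k' e₁ e₂ e₂' μ i fun a a' => |φ a a'| * (ind (v * s = od (a * (k * e₂ * B))) *
        ind (v' * s' = od (a' * (k' * e₂' * B))) *
          WW d u η S (k * e₂ * B) (k' * e₂' * B) a a') := by
    intro v hv s hs₀ v' hv' s' hs₀'
    obtain ⟨s1, s2⟩ := mem_monF.1 hs₀
    obtain ⟨s1', s2'⟩ := mem_monF.1 hs₀'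
    have ht : ∀ x : degreeLT F (2 * (d + u)),
        (B * e₂ * e₂' * (s ^ 2 * s' ^ 2 * C * x.1) ^ 2).degree <
          (b + 2 * ε₂ + 8 * r + 4 * R + 4 * (d + u) : ℕ) := fun x => by
      have h1 : (s ^ 2 * s' ^ 2 * C * x.1).degree < (4 * r + 2 * R + 2 * (d + u) : ℕ) :=
        degree_mul_lt (((s1.pow 2).mul (s1'.pow 2)).mul C1) (mem_degreeLT.1 x.2) (by
          rw [((s1.pow 2).mul (s1'.pow 2)).natDegree_mul C1,
            (s1.pow 2).natDegree_mul (s1'.pow 2), natDegree_pow, natDegree_pow]; omega)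
      have h3 : ((s ^ 2 * s' ^ 2 * C * x.1) ^ 2).degree < (8 * r + 4 * R + 4 * (d + u) : ℕ) := by
        by_cases h0 : s ^ 2 * s' ^ 2 * C * x.1 = 0
        · rw [h0, zero_pow two_ne_zero, degree_zero]
          exact WithBot.bot_lt_coe _
        have h4 := (natDegree_lt_iff_degree_lt h0).2 h1
        refine degree_le_natDegree.trans_lt (Nat.cast_lt.2 ?_)
        rw [natDegree_pow]
        omega
      exact degree_mul_lt ((B1.mul b1).mul b1') h3 (by
        rw [(B1.mul b1).natDegree_mul b1', B1.natDegree_mul b1]; omega)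
    have hj : ε₁ + 2 * ε₂ + (b + 2 * ε₂ + 8 * r + 4 * R + 4 * (d + u)) ≤ μ := by omega
    have eY : ∀ a x : F[X], (a + k * e₂' * (B * e₂ * e₂' * (s ^ 2 * s' ^ 2 * C * x) ^ 2)) *
        (k * e₂ * B) = a * (k * e₂ * B) + (k * e₂ * B * e₂' * s ^ 2 * s' ^ 2 * C * x) ^ 2 :=
      fun a x => by ring
    have eY' : ∀ a x : F[X], (a + k' * e₂ * (B * e₂ * e₂' * (s ^ 2 * s' ^ 2 * C * x) ^ 2)) *
        (k' * e₂' * B) = a * (k' * e₂' * B) + (k' * e₂' * B * e₂ * s ^ 2 * s' ^ 2 * C * x) ^ 2 :=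
      fun a x => by ring
    have eφ : ∀ a a' x : F[X], φ (a + k * e₂' * (B * e₂ * e₂' * (s ^ 2 * s' ^ 2 * C * x) ^ 2))
        (a' + k' * e₂ * (B * e₂ * e₂' * (s ^ 2 * s' ^ 2 * C * x) ^ 2)) = φ a a' :=
      fun a a' x => hφ a a' _ ⟨B * e₂ * e₂' * (s ^ 2 * s' ^ 2 * x) ^ 2 * C, by ring⟩
    rw [SS_avg hnn hk hk' he₁ he₂ he₂' _ ht hj,
      SS_avg hnn hk hk' he₁ he₂ he₂' _ ht hj fun a a' => |φ a a'| *
        (ind (v * s = od (a * (k * e₂ * B))) * ind (v' * s' = od (a' * (k' * e₂' * B))) *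
          WW d u η S (k * e₂ * B) (k' * e₂' * B) a a')]
    refine (abs_SS_le _).trans (SS_mono fun m a ha a' ha' h1 h1' => ?_)
    obtain ⟨a1, a2⟩ := mem_monF.1 ha
    obtain ⟨a1', a2'⟩ := mem_monF.1 ha'
    simp only [eφ]
    rw [← Finset.mul_expect, ← Finset.mul_expect, abs_mul]
    refine mul_le_mul_of_nonneg_left ?_ (abs_nonneg _)
    simp only [WW, eY, eY', od_add, od_of_sq, add_zero]
    by_cases hod : v * s = od (a * (k * e₂ * B))
    swap
    · simp [ind_neg hod]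
    by_cases hod' : v' * s' = od (a' * (k' * e₂' * B))
    swap
    · simp [ind_neg hod']
    have hl := line_two (β := 10 * η) (N := N) hr hp.hd (Y := a * (k * e₂ * B))
      (α := k * e₂ * B * e₂' * s ^ 2 * s' ^ 2 * C) (Y' := a' * (k' * e₂' * B))
      (α' := k' * e₂' * B * e₂ * s ^ 2 * s' ^ 2 * C) hv hs₀
      (mem_monF.2 ⟨a1.mul A1, by rw [a1.natDegree_mul A1]; omega⟩) hod
      (((dvd_mul_left _ _).mul_right _).mul_right _)
      (by
        rw [(((A1.mul b1').mul (s1.pow 2)).mul (s1'.pow 2)).natDegree_mul C1,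
          ((A1.mul b1').mul (s1.pow 2)).natDegree_mul (s1'.pow 2),
          (A1.mul b1').natDegree_mul (s1.pow 2), A1.natDegree_mul b1', natDegree_pow,
          natDegree_pow]
        omega)
      hv' hs₀' (mem_monF.2 ⟨a1'.mul A1', by rw [a1'.natDegree_mul A1']; omega⟩) hod'
      ((dvd_mul_left _ _).mul_right _)
      (by
        rw [(((A1'.mul b1).mul (s1.pow 2)).mul (s1'.pow 2)).natDegree_mul C1,
          ((A1'.mul b1).mul (s1.pow 2)).natDegree_mul (s1'.pow 2),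
          (A1'.mul b1).natDegree_mul (s1.pow 2), A1'.natDegree_mul b1, natDegree_pow,
          natDegree_pow]
        omega)
    have hev := Finset.expect_le_expect (s := (univ : Finset (degreeLT F (2 * (d + u)))))
      fun x _ => (strip C3).trans (event_le u hr hs₀ hs₀' h1 h1' S hS (B := B) (C * x.1))
    simp only [← mul_assoc _ C] at hev
    have hne : ∀ (c : F[X]) (_ : c ∈ monF F i) (w : F[X]), w.degree < i → c + w ≠ 0 :=
      fun c hc w hw => by
        obtain ⟨c1, c2⟩ := mem_monF.1 hc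
        exact (c1.add_of_left (by rwa [degree_eq_natDegree c1.ne_zero, c2])).ne_zero
    have hlam : ∀ x : degreeLT F (2 * (d + u)),
        lam (a + k * e₂' * (B * e₂ * e₂' * (s ^ 2 * s' ^ 2 * C * x.1) ^ 2)) *
          lam (a' + k' * e₂ * (B * e₂ * e₂' * (s ^ 2 * s' ^ 2 * C * x.1) ^ 2)) =
        lam (k * e₂ * B) * lam (k' * e₂' * B) *
          (lam (a * (k * e₂ * B) + (k * e₂ * B * e₂' * s ^ 2 * s' ^ 2 * C * x.1) ^ 2) *
            lam (a' * (k' * e₂' * B) + (k' * e₂' * B * e₂ * s ^ 2 * s' ^ 2 * C * x.1) ^ 2)) := by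
      intro x
      rw [← eY, ← eY', lam_mul (hne a ha _ (degree_mul_lt (k1.mul b1') (ht x) (by
          rw [k1.natDegree_mul b1']; omega))) A1.ne_zero,
        lam_mul (hne a' ha' _ (degree_mul_lt (k1'.mul b1) (ht x) (by
          rw [k1'.natDegree_mul b1]; omega))) A1'.ne_zero]
      have q1 : lam (k * e₂ * B) ^ 2 = 1 := by rw [← sq_abs, abs_lam, one_pow]
      have q2 : lam (k' * e₂' * B) ^ 2 = 1 := by rw [← sq_abs, abs_lam, one_pow]
      generalize lam (a + k * e₂' * (B * e₂ * e₂' * (s ^ 2 * s' ^ 2 * C * x.1) ^ 2)) = y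
      generalize lam (a' + k' * e₂ * (B * e₂ * e₂' * (s ^ 2 * s' ^ 2 * C * x.1) ^ 2)) = y'
      linear_combination (-(y * y')) * q1 - y * y' * lam (k * e₂ * B) ^ 2 * q2
    simp only [ind_pos hod, ind_pos hod', mul_one, one_mul, hlam]
    rw [← Finset.mul_expect, abs_mul, abs_mul, abs_lam, abs_lam, one_mul, one_mul]
    simp only [Finset.expect_add_distrib, Fintype.expect_const, ← Finset.mul_expect] at hl hev ⊢
    linarith
  have e1 : (fun a a' => φ a a' * (lam a * gw (goodV F d u) r (od (a * (k * e₂ * B))) *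
      (lam a' * gw (goodV F d u) r (od (a' * (k' * e₂' * B)))))) = fun a a' =>
      ∑ v ∈ goodV F d u, ∑ s ∈ monF F r, ∑ v' ∈ goodV F d u, ∑ s' ∈ monF F r,
        φ a a' * (lam a * ind (v * s = od (a * (k * e₂ * B))) *
          (lam a' * ind (v' * s' = od (a' * (k' * e₂' * B))))) := by
    funext a a'
    unfold gw
    rw [mul_sum _ _ (lam a), sum_mul, mul_sum]
    refine sum_congr rfl fun v _ => ?_
    rw [mul_sum _ _ (lam a), sum_mul, mul_sum]
    refine sum_congr rfl fun s _ => ?_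
    simp only [mul_sum]
  rw [e1]
  simp only [SS_sum]
  refine (abs_sum_le_sum_abs _ _).trans ((sum_le_sum fun v hv =>
    (abs_sum_le_sum_abs _ _).trans (sum_le_sum fun s hs₀ =>
      (abs_sum_le_sum_abs _ _).trans (sum_le_sum fun v' hv' =>
        (abs_sum_le_sum_abs _ _).trans (sum_le_sum fun s' hs₀' =>
          key v hv s hs₀ v' hv' s' hs₀')))).trans ?_)
  simp only [← SS_sum]
  refine SS_mono fun m a _ a' _ _ _ => ?_
  simp only [← sum_mul, ← mul_sum]
  exact mul_le_mul_of_nonneg_left (mul_le_of_le_one_left (WW_nonneg _ _ _ _ _ _ _ _)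
    (mul_le_one₀ (gw_le_one hr _) (gw_nonneg _ _ _) (gw_le_one hr _))) (abs_nonneg _)

end TwoX

variable (F : Type) [Field F] [Fintype F] [CharP F 2]

open TTwoA TwoX in
theorem sTwo : STwo F := by
  classical
  intro h N L η d u r n μ κ ε₁ ε₂ i b R lo hi B k k' e₁ e₂ e₂' ι Z M Φ hh hp hn hn' hN h2 hhd hB hk
    hk' hkk he₁ he₂ he₂' hs H hlo hhi
  obtain ⟨k1, k2⟩ := mem_monF.1 hk
  obtain ⟨k1', k2'⟩ := mem_monF.1 hk'
  obtain ⟨c1, c2⟩ := mem_monF.1 he₁
  obtain ⟨b1', b2'⟩ := mem_monF.1 he₂'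
  have hL := hp.hL
  have hnn : i + ε₁ + ε₂ = μ + κ := by omega
  have hkk' : k + k' ≠ 0 := fun e => hkk (by rwa [CharTwo.add_eq_zero] at e)
  have hZ : k' * e₂' * h * (k + k') ≠ 0 :=
    mul_ne_zero (mul_ne_zero (mul_ne_zero k1'.ne_zero b1'.ne_zero) hh) hkk'
  set S := (irrF F d).filter fun P => P ∣ k' * e₂' * h * (k + k') ∧ ¬ P ∣ k * e₂ * B with hS
  have hSc : (S.card : ℝ) ≤ 4 * n := by
    have h1 := SLine.card_le_natDegree hZ S fun P hP => by
      rw [hS, mem_filter, mem_irrF] at hP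
      exact ⟨hP.1.1, hP.1.2.2, hP.2.1⟩
    rw [natDegree_mul (mul_ne_zero (mul_ne_zero k1'.ne_zero b1'.ne_zero) hh) hkk',
      natDegree_mul (mul_ne_zero k1'.ne_zero b1'.ne_zero) hh, k1'.natDegree_mul b1'] at h1
    have h3 := natDegree_add_le k k'
    have : S.card ≤ 4 * n := by omega
    exact_mod_cast this
  have hq := qq_pos (F := F) d
  have e0 : ∑ m ∈ monF F μ, ∑ a ∈ monF F i, ∑ a' ∈ monF F i,
      ind (a * (e₁ * e₂) = m * k + h) * ind (a' * (e₁ * e₂') = m * k' + h) *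
        (tot Z Φ (m * k) * (lam a * gw (goodV F d u) r (od (a * (k * e₂ * B)))) *
          (tot Z Φ (m * k') * (lam a' * gw (goodV F d u) r (od (a' * (k' * e₂' * B)))))) =
      SS h k k' e₁ e₂ e₂' μ i fun a a' => ∑ z ∈ Z, ∑ z' ∈ Z,
        Φ z (a * (e₁ * e₂) + h) * Φ z' (a' * (e₁ * e₂') + h) *
          (lam a * gw (goodV F d u) r (od (a * (k * e₂ * B))) *
            (lam a' * gw (goodV F d u) r (od (a' * (k' * e₂' * B))))) := by
    refine sum_congr rfl fun m _ => sum_congr rfl fun a _ => sum_congr rfl fun a' _ => ?_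
    by_cases h1 : a * (e₁ * e₂) = m * k + h
    swap
    · simp [ind_neg h1]
    by_cases h1' : a' * (e₁ * e₂') = m * k' + h
    swap
    · simp [ind_neg h1']
    simp only [← sum_mul, ← mul_sum]
    rw [h1, h1', add_add_self, add_add_self, tot, tot]
    ring
  have hmem : ∀ a ∈ monF F i, ∀ e ∈ monF F ε₂, a * (e₁ * e) + h ∈ monF F n := by
    intro a ha e he
    obtain ⟨a1, a2⟩ := mem_monF.1 ha
    obtain ⟨a3, a4⟩ := mem_monF.1 he
    refine add_mem_mon (degree_le_natDegree.trans_lt (Nat.cast_lt.2 (by omega)))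
      (mem_monF.2 ⟨a1.mul (c1.mul a3), ?_⟩)
    rw [a1.natDegree_mul (c1.mul a3), c1.natDegree_mul a3]
    omega
  have e2 : |SS h k k' e₁ e₂ e₂' μ i fun a a' => ∑ z ∈ Z, ∑ z' ∈ Z,
        Φ z (a * (e₁ * e₂) + h) * Φ z' (a' * (e₁ * e₂') + h) *
          (lam a * gw (goodV F d u) r (od (a * (k * e₂ * B))) *
            (lam a' * gw (goodV F d u) r (od (a' * (k' * e₂' * B)))))| ≤
      SS h k k' e₁ e₂ e₂' μ i (WW d u η S (k * e₂ * B) (k' * e₂' * B)) := by
    simp only [SS_sum]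
    refine (abs_sum_le_sum_abs _ _).trans ((sum_le_sum fun z hz =>
      (abs_sum_le_sum_abs _ _).trans (sum_le_sum fun z' hz' =>
        core hp hn hn' hN h2 hB hk hk' he₁ he₂ he₂' S
          (fun P hP e e' => by rw [hS, mem_filter]; exact ⟨hP, e, e'⟩)
          ((H.mon z hz).mul (H.mon z' hz')) ?_ ?_
          (fun a a' => Φ z (a * (e₁ * e₂) + h) * Φ z' (a' * (e₁ * e₂') + h)) ?_)).trans ?_)
    · rw [(H.mon z hz).natDegree_mul (H.mon z' hz')]
      have := H.deg z hz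
      have := H.deg z' hz'
      omega
    · intro P hP e
      exact ((mem_irrF.1 hP).2.2.prime.dvd_or_dvd e).elim (H.not_dvd hlo hhi hz hP)
        (H.not_dvd hlo hhi hz' hP)
    · rintro a a' t ⟨t, rfl⟩
      rw [show (a + k * e₂' * (M z * M z' * t)) * (e₁ * e₂) + h =
          a * (e₁ * e₂) + h + M z * (k * e₂' * M z' * t * (e₁ * e₂)) by ring,
        show (a' + k' * e₂ * (M z * M z' * t)) * (e₁ * e₂') + h =
          a' * (e₁ * e₂') + h + M z' * (k' * e₂ * M z * t * (e₁ * e₂')) by ring,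
        H.per z hz, H.per z' hz']
    · simp only [← SS_sum]
      refine SS_mono fun m a ha a' ha' _ _ => ?_
      simp only [abs_mul, ← sum_mul, ← mul_sum]
      exact mul_le_of_le_one_left (WW_nonneg _ _ _ _ _ _ _ _) (mul_le_one₀
        (H.bd _ (hmem a ha _ he₂)) (sum_nonneg fun _ _ => abs_nonneg _) (H.bd _ (hmem a' ha' _ he₂')))
  rw [e0]
  refine e2.trans ?_
  change _ ≤ SS h k k' e₁ e₂ e₂' μ i fun a a' => 3 * ind (SLine.Bad d u (a * (k * e₂ * B))) +
      2 * ind (SLine.Bad d u (a' * (k' * e₂' * B))) + (4 * n / qq F d + 1 / qq F (10 * η))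
  unfold WW
  simp only [SS_add, SS_sum]
  have h5 : ∑ P ∈ S, (SS h k k' e₁ e₂ e₂' μ i fun a _ => ind (P ∣ od (a * (k * e₂ * B)))) ≤
      SS h k k' e₁ e₂ e₂' μ i fun _ _ => 4 * n / qq F d := by
    refine (sum_le_card_nsmul _ _ _ fun P hP => SS_dvd hnn hk hk' he₁ he₂ he₂'
      (mem_filter.1 hP).1 (mem_filter.1 hP).2.2 hs (by omega)).trans ?_
    rw [nsmul_eq_mul, SS_const (4 * n / qq F d), ← mul_assoc, mul_one_div]
    exact mul_le_mul_of_nonneg_right (div_le_div_of_nonneg_right hSc hq.le) SS_one_nonneg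
  linarith

end Pool.Agent.PPf

end

section

/- Prime pairs over `F[X]`: the bilinear sum with a family of weights. -/

set_option autoImplicit false
set_option linter.unusedSectionVars false

namespace Pool.Agent.PPf

open Polynomial Finset Pool.Agent.MP_4fffd4_nt Pool.Agent.MP_c853c5_nt Pool.Agent.MP_43e117_nt
open scoped BigOperators

namespace TypeLX

theorem abstr {X K Z : Type*} (sX : Finset X) (sK : Finset K) (sZ : Finset Z)
    (I : X → K → Z → ℝ) (hI : ∀ x k z, 0 ≤ I x k z) (α : X → ℝ) (hα : ∀ x ∈ sX, |α x| ≤ 1)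
    (g : X → K → Z → ℝ) (hg : ∀ x ∈ sX, ∀ k ∈ sK, ∀ z ∈ sZ, |g x k z| ≤ 1) {τ Λ c : ℝ}
    (hτ : ∀ x ∈ sX, ∀ k ∈ sK, ∑ z ∈ sZ, I x k z ≤ τ)
    (hΛ : ∀ x ∈ sX, ∑ k ∈ sK, ∑ z ∈ sZ, I x k z ≤ Λ) (b : K → Z → ℝ) (hb : ∀ k z, 0 ≤ b k z)
    (hc : 0 ≤ c)
    (hoff : ∀ k ∈ sK, ∀ k' ∈ sK, k ≠ k' →
      ∑ x ∈ sX, ∑ z ∈ sZ, ∑ z' ∈ sZ, I x k z * g x k z * (I x k' z' * g x k' z') ≤
        ∑ x ∈ sX, ∑ z ∈ sZ, ∑ z' ∈ sZ, I x k z * I x k' z' * (3 * b k z + 2 * b k' z' + c)) :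
    (∑ x ∈ sX, α x * ∑ k ∈ sK, ∑ z ∈ sZ, I x k z * g x k z) ^ 2 ≤
      sX.card * (τ * ∑ x ∈ sX, ∑ k ∈ sK, ∑ z ∈ sZ, I x k z +
        Λ * (5 * ∑ x ∈ sX, ∑ k ∈ sK, ∑ z ∈ sZ, I x k z * b k z +
          c * ∑ x ∈ sX, ∑ k ∈ sK, ∑ z ∈ sZ, I x k z)) := by
  classical
  have hJ : ∀ x k, 0 ≤ ∑ z ∈ sZ, I x k z := fun x k => sum_nonneg fun z _ => hI x k z
  have h1 : ∑ x ∈ sX, α x ^ 2 ≤ sX.card := by
    rw [card_eq_sum_ones, Nat.cast_sum]
    exact sum_le_sum fun x hx => by simpa using (sq_le_one_iff_abs_le_one _).2 (hα x hx)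
  have hd : ∀ x ∈ sX, ∀ k ∈ sK, (∑ z ∈ sZ, I x k z * g x k z) * (∑ z ∈ sZ, I x k z * g x k z) ≤
      τ * ∑ z ∈ sZ, I x k z := fun x hx k hk => by
    have h2 : |∑ z ∈ sZ, I x k z * g x k z| ≤ ∑ z ∈ sZ, I x k z :=
      (abs_sum_le_sum_abs _ _).trans (sum_le_sum fun z hz => by
        rw [abs_mul, abs_of_nonneg (hI x k z)]
        exact mul_le_of_le_one_right (hI x k z) (hg x hx k hk z hz))
    rw [← abs_mul_abs_self]
    exact mul_le_mul (h2.trans (hτ x hx k hk)) h2 (abs_nonneg _) ((hJ x k).trans (hτ x hx k hk))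
  have hR : ∀ k k', 0 ≤ ∑ x ∈ sX, ∑ z ∈ sZ, ∑ z' ∈ sZ,
      I x k z * I x k' z' * (3 * b k z + 2 * b k' z' + c) := fun k k' =>
    sum_nonneg fun x _ => sum_nonneg fun z _ => sum_nonneg fun z' _ =>
      mul_nonneg (mul_nonneg (hI _ _ _) (hI _ _ _)) (by have := hb k z; have := hb k' z'; positivity)
  have h3 : ∀ k ∈ sK, ∀ k' ∈ sK,
      ∑ x ∈ sX, (∑ z ∈ sZ, I x k z * g x k z) * (∑ z ∈ sZ, I x k' z * g x k' z) ≤
        (if k = k' then ∑ x ∈ sX, τ * ∑ z ∈ sZ, I x k z else 0) + ∑ x ∈ sX, ∑ z ∈ sZ, ∑ z' ∈ sZ,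
          I x k z * I x k' z' * (3 * b k z + 2 * b k' z' + c) := fun k hk k' hk' => by
    split_ifs with h
    · subst h
      exact (sum_le_sum fun x hx => hd x hx k hk).trans (le_add_of_nonneg_right (hR k k))
    · simp only [sum_mul_sum, zero_add]
      exact hoff k hk k' hk' h
  have h4 : ∀ x ∈ sX, ∑ k ∈ sK, ∑ k' ∈ sK, ∑ z ∈ sZ, ∑ z' ∈ sZ,
      I x k z * I x k' z' * (3 * b k z + 2 * b k' z' + c) ≤
      Λ * (5 * ∑ k ∈ sK, ∑ z ∈ sZ, I x k z * b k z + c * ∑ k ∈ sK, ∑ z ∈ sZ, I x k z) := by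
    intro x hx
    have e : ∑ k ∈ sK, ∑ k' ∈ sK, ∑ z ∈ sZ, ∑ z' ∈ sZ,
        I x k z * I x k' z' * (3 * b k z + 2 * b k' z' + c) =
        3 * ((∑ k ∈ sK, ∑ z ∈ sZ, I x k z * b k z) * ∑ k ∈ sK, ∑ z ∈ sZ, I x k z) +
        2 * ((∑ k ∈ sK, ∑ z ∈ sZ, I x k z) * ∑ k ∈ sK, ∑ z ∈ sZ, I x k z * b k z) +
        c * ((∑ k ∈ sK, ∑ z ∈ sZ, I x k z) * ∑ k ∈ sK, ∑ z ∈ sZ, I x k z) := by
      simp only [sum_mul_sum]
      simp only [mul_sum, ← sum_add_distrib]
      exact sum_congr rfl fun _ _ => sum_congr rfl fun _ _ => sum_congr rfl fun _ _ =>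
        sum_congr rfl fun _ _ => by ring
    have p1 : 0 ≤ ∑ k ∈ sK, ∑ z ∈ sZ, I x k z := sum_nonneg fun k _ => hJ x k
    have p2 : 0 ≤ ∑ k ∈ sK, ∑ z ∈ sZ, I x k z * b k z :=
      sum_nonneg fun k _ => sum_nonneg fun z _ => mul_nonneg (hI _ _ _) (hb _ _)
    rw [e]
    nlinarith [mul_le_mul_of_nonneg_left (hΛ x hx) p2,
      mul_le_mul_of_nonneg_left (hΛ x hx) (mul_nonneg hc p1)]
  refine (sum_mul_sq_le_sq_mul_sq _ _ _).trans
    (mul_le_mul h1 ?_ (sum_nonneg fun _ _ => sq_nonneg _) (Nat.cast_nonneg _))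
  calc ∑ x ∈ sX, (∑ k ∈ sK, ∑ z ∈ sZ, I x k z * g x k z) ^ 2
      = ∑ k ∈ sK, ∑ k' ∈ sK,
        ∑ x ∈ sX, (∑ z ∈ sZ, I x k z * g x k z) * (∑ z ∈ sZ, I x k' z * g x k' z) := by
        simp only [sq, sum_mul_sum (s := sK)]
        rw [sum_comm]
        exact sum_congr rfl fun _ _ => sum_comm
    _ ≤ ∑ k ∈ sK, ∑ k' ∈ sK, ((if k = k' then ∑ x ∈ sX, τ * ∑ z ∈ sZ, I x k z else 0) +
        ∑ x ∈ sX, ∑ z ∈ sZ, ∑ z' ∈ sZ, I x k z * I x k' z' * (3 * b k z + 2 * b k' z' + c)) :=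
        sum_le_sum fun k hk => sum_le_sum fun k' hk' => h3 k hk k' hk'
    _ = τ * ∑ x ∈ sX, ∑ k ∈ sK, ∑ z ∈ sZ, I x k z + ∑ x ∈ sX, ∑ k ∈ sK, ∑ k' ∈ sK,
        ∑ z ∈ sZ, ∑ z' ∈ sZ, I x k z * I x k' z' * (3 * b k z + 2 * b k' z' + c) := by
        simp only [sum_add_distrib]
        congr 1
        · rw [sum_congr rfl fun k hk => by rw [sum_ite_eq, if_pos hk], sum_comm]
          simp only [mul_sum]
        · rw [sum_comm (s := sX)]
          exact sum_congr rfl fun _ _ => sum_comm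
    _ ≤ _ := by
        refine add_le_add le_rfl ((sum_le_sum h4).trans_eq ?_)
        rw [← mul_sum, sum_add_distrib, ← mul_sum, ← mul_sum]

end TypeLX

variable (F : Type) [Field F] [Fintype F] [CharP F 2]

theorem sTypeL (h : STwo F) : STypeL F := by
  have hT := h
  clear h
  intro h N L η d u r n μ κ ε₁ ε₂ i b R lo hi τ α β B ι Z M Φ hh hp hn hn' hN h2 h3 hτ hη hα hβ hB
    hBs hF hlo hhi
  have hη1 := hp.hκ
  have hτ1 := hτ.one_le
  have hd : 10 * η ≤ d := by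
    have h4 : 10 * η ≤ Fintype.card F * (10 * η) := Nat.le_mul_of_pos_left _ Fintype.card_pos
    have h5 : 2 * (Fintype.card F * (10 * η)) ≤ 2 * (Fintype.card F * (10 * η)) * 8 ^ (2 * u + 2) :=
      Nat.le_mul_of_pos_right _ (by positivity)
    have := hp.hd
    omega
  have hhη : h.natDegree < η := natDegree_lt_of_small (by omega) hτ1 hη
  have hw : ∀ W, |gw (goodV F d u) r W| ≤ 1 := fun W => by
    rw [abs_of_nonneg (gw_nonneg _ _ _)]
    exact gw_le_one hp.hr W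
  have hβ1 : ∀ k ∈ monF F κ, ∀ e ∈ monF F ε₂, |β k e| ≤ 1 := fun k hk e he =>
    (hβ k hk e he).trans (ind_le_one _)
  have ht : ∀ m ∈ monF F μ, ∀ k ∈ monF F κ, |tot Z Φ (m * k)| ≤ 1 := fun m hm k hk => by
    obtain ⟨m1, m2⟩ := mem_monF.1 hm
    obtain ⟨k1, k2⟩ := mem_monF.1 hk
    exact hF.abs_tot (mem_monF.2 ⟨m1.mul k1, by rw [m1.natDegree_mul k1, m2, k2, hn]⟩)
  have hc : (0 : ℝ) ≤ 4 * n / qq F d + 1 / qq F (10 * η) := by
    have := qq_pos (F := F) d
    have := qq_pos (F := F) (10 * η)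
    positivity
  have hm : ∀ x ∈ monF F μ ×ˢ monF F ε₁, ∀ k : F[X], ∑ z ∈ monF F ε₂ ×ˢ monF F i,
      ind (z.2 * (x.2 * z.1) = x.1 * k + h) ≤ τ * ind (x.2 ∣ x.1 * k + h) := fun x hx k =>
    TTwoB.mass_le hτ (by omega) (mem_monF.1 (mem_product.1 hx).2).1.ne_zero _
  have key := TypeLX.abstr (monF F μ ×ˢ monF F ε₁) (monF F κ) (monF F ε₂ ×ˢ monF F i)
    (fun x k z => ind (z.2 * (x.2 * z.1) = x.1 * k + h)) (fun _ _ _ => ind_nonneg _)
    (fun x => α x.1 x.2) (fun x hx => hα _ (mem_product.1 hx).1 _ (mem_product.1 hx).2)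
    (fun x k z => β k z.1 * (tot Z Φ (x.1 * k) *
      (lam z.2 * gw (goodV F d u) r (od (z.2 * (k * z.1 * B))))))
    (fun x hx k hk z hz => by
      rw [abs_mul, abs_mul, abs_mul, abs_lam, one_mul]
      exact mul_le_one₀ (hβ1 k hk _ (mem_product.1 hz).1) (by positivity)
        (mul_le_one₀ (ht _ (mem_product.1 hx).1 k hk) (abs_nonneg _) (hw _)))
    (τ := τ) (Λ := τ * (qq F (h.natDegree + κ) / qq F ε₁))
    (fun x hx k _ => (hm x hx k).trans (mul_le_of_le_one_right (by linarith) (ind_le_one _)))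
    (fun x hx => by
      obtain ⟨h4, h5⟩ := mem_monF.1 (mem_product.1 hx).2
      refine (sum_le_sum fun k _ => hm x hx k).trans ?_
      rw [← mul_sum, ← h5]
      exact mul_le_mul_of_nonneg_left (sum_class h4 hh _ (by omega)) (by linarith))
    (fun k z => ind (SLine.Bad d u (z.2 * (k * z.1 * B)))) (fun _ _ => ind_nonneg _) hc
    (fun k hk k' hk' hkk => by
      refine (TTwoB.reorder _ _ _ _ fun m e p a p' a' => ind (a * (e * p) = m * k + h) *
        (β k p * (tot Z Φ (m * k) * (lam a * gw (goodV F d u) r (od (a * (k * p * B)))))) *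
        (ind (a' * (e * p') = m * k' + h) * (β k' p' * (tot Z Φ (m * k') *
          (lam a' * gw (goodV F d u) r (od (a' * (k' * p' * B)))))))).trans_le
        (le_of_le_of_eq ?_ (TTwoB.reorder _ _ _ _ fun m e p a p' a' =>
          ind (a * (e * p) = m * k + h) * ind (a' * (e * p') = m * k' + h) *
            (3 * ind (SLine.Bad d u (a * (k * p * B))) +
              2 * ind (SLine.Bad d u (a' * (k' * p' * B))) +
              (4 * n / qq F d + 1 / qq F (10 * η)))).symm)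
      refine sum_le_sum fun e he => sum_le_sum fun p hp' => sum_le_sum fun p' hp'' => ?_
      by_cases hs : Squarefree p'
      · refine le_trans ?_ (hT h N L η d u r n μ κ ε₁ ε₂ i b R lo hi B k k' e p p' ι Z M Φ hh hp
          hn hn' hN h2 (by omega) hB hk hk' hkk he hp' hp'' hs hF hlo hhi)
        refine le_trans (le_of_eq ?_) ((le_abs_self _).trans ((abs_mul (β k p * β k' p') _).trans_le
          (mul_le_of_le_one_left (abs_nonneg _) ?_)))
        · simp only [mul_sum]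
          exact sum_congr rfl fun _ _ => sum_congr rfl fun _ _ => sum_congr rfl fun _ _ => by ring
        · rw [abs_mul]
          exact mul_le_one₀ (hβ1 k hk p hp') (abs_nonneg _) (hβ1 k' hk' p' hp'')
      · have h0 : β k' p' = 0 := abs_nonpos_iff.1 ((hβ k' hk' p' hp'').trans_eq (ind_neg hs))
        refine sum_le_sum fun m _ => sum_le_sum fun a _ => sum_le_sum fun a' _ => ?_
        rw [h0, zero_mul, mul_zero, mul_zero]
        exact mul_nonneg (mul_nonneg (ind_nonneg _) (ind_nonneg _)) (add_nonneg (add_nonneg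
          (mul_nonneg (by norm_num) (ind_nonneg _)) (mul_nonneg (by norm_num) (ind_nonneg _))) hc))
  have e1 := cfg_one_le (h := h) hτ hn hn'
  have e2 := cfg_bad (u := u) (d := d) hh hn hn' hτ (by omega) (by omega) hB hBs
  rw [TTwoB.cfg_eq] at e1 e2
  simp only [mul_one] at e1
  have e3 : ((monF F μ ×ˢ monF F ε₁).card : ℝ) = qq F μ * qq F ε₁ := by
    rw [card_product, card_monF, card_monF, qq, qq]
    push_cast
    rfl
  have e4 : ∀ j, qq F (j * η) = qq F η ^ j := fun j => by rw [qq_pow, mul_comm]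
  rw [e4]
  refine TTwoB.final (H := qq F h.natDegree) (n := n) (b := b) (A := qq F μ) (E := qq F ε₁)
    (K := qq F κ) (D := qq F d) hτ1 (by exact_mod_cast (by omega : 1 ≤ n))
    (by exact_mod_cast (by omega : b ≤ n)) (one_le_qq _) (qq_pos _) (qq_pos _) (one_le_qq _)
    (by rw [← qq_add, hn]) (by rw [← e4, ← qq_add]; exact qq_mono h3)
    (by rw [← e4]; exact qq_mono hd) (by rwa [qq_pow, mul_comm h.natDegree]) ?_
  rw [e3, qq_add] at key
  rw [← e4]
  refine le_of_eq_of_le ?_ (key.trans ?_)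
  · rw [TTwoB.cfg_eq]
    congr 1
    simp only [mul_sum]
    exact sum_congr rfl fun _ _ => sum_congr rfl fun _ _ => sum_congr rfl fun _ _ => by ring
  · have := qq_pos (F := F) μ
    have := qq_pos (F := F) ε₁
    have := qq_pos (F := F) κ
    have := qq_pos (F := F) h.natDegree
    gcongr

end Pool.Agent.PPf

end

section

/- Prime pairs over `F[X]`: the two estimates for the Liouville function with a weight. -/

set_option autoImplicit false
set_option linter.unusedSectionVars false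

namespace Pool.Agent.PPf

open Polynomial Finset Pool.Agent.MP_4fffd4_nt Pool.Agent.MP_c853c5_nt Pool.Agent.MP_43e117_nt
open scoped BigOperators

namespace LUX

variable {F : Type} [Field F] [Fintype F] [CharP F 2]

theorem setup (h1 : SPar F) (h : F[X]) (M : ℕ) : ∃ C : ℕ, 0 < C ∧ ∃ n₀ : ℕ, ∀ n, n₀ ≤ n →
    ∃ (L : ℕ) (τ : ℝ), DivB F τ n ∧ 1 ≤ n / C ∧ h.natDegree < n ∧
      100 * n * τ ^ 4 * qq F (2 * h.natDegree) ≤ qq F (n / C) ∧
      (∀ E, n ≤ M * E → 2 * L + 20 * (n / C) + 5 ≤ E) ∧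
      ∀ N, n ≤ 4 * N → N ≤ n →
        ∃ d u r, Par F N L (n / C) d u r ∧ wlo M n ≤ d ∧ d ≤ whi M n := by
  obtain ⟨C, hC, hC0, n₁, H⟩ := h1 (16 * (M + 1)) (100 * (M + 1))
  obtain ⟨n₂, H₂⟩ := exists_DivB (F := F) 1 (10 * C) (by omega)
  obtain ⟨n₃, H₃⟩ := exists_poly (F := F) 100 1 (10 * C) (by omega)
  refine ⟨C, hC0, n₁ + n₂ + n₃ + 10 * C * (h.natDegree + 1) + 100 * (M + 1), fun n hn =>
    ⟨n / (8 * (M + 1)), qq F (n / (10 * C)), by simpa using H₂ n (by omega), ?_, by nlinarith,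
      ?_, fun E hE => ?_, fun N h1 h2 => ?_⟩⟩
  · exact (Nat.le_div_iff_mul_le hC0).2 (by nlinarith)
  · have a1 := H₃ n (by omega)
    have a2 : h.natDegree ≤ n / (10 * C) := (Nat.le_div_iff_mul_le (by omega)).2 (by nlinarith)
    have a3 : 10 * (n / (10 * C)) ≤ n / C := by
      rw [mul_comm 10 C, ← Nat.div_div_eq_div_mul]; omega
    rw [pow_one] at a1
    generalize n / (10 * C) = z at a1 a2 a3
    calc _ ≤ qq F z * qq F z ^ 4 * qq F (2 * z) := by
          have := qq_pos (F := F) z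
          have := qq_pos (F := F) (2 * h.natDegree)
          gcongr
          · exact_mod_cast a1
          · exact qq_mono (by omega)
      _ ≤ _ := by rw [qq_pow, ← qq_add, ← qq_add]; exact qq_mono (by omega)
  · have a1 := Nat.div_mul_le_self n (8 * (M + 1))
    have a2 := Nat.div_mul_le_self n C
    generalize n / (8 * (M + 1)) = L at a1
    generalize n / C = η at a2
    have a3 : 8 * L ≤ E := Nat.le_of_mul_le_mul_left (c := M + 1) (by nlinarith) (by omega)
    have a4 : 100 * η ≤ E := Nat.le_of_mul_le_mul_left (c := M + 1) (by nlinarith) (by omega)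
    have a5 : 100 ≤ E := Nat.le_of_mul_le_mul_left (c := M + 1) (by nlinarith) (by omega)
    omega
  · have b1 : n ≤ 16 * (M + 1) * (n / (8 * (M + 1))) := by
      have a1 := Nat.lt_mul_div_succ n (b := 8 * (M + 1)) (by omega)
      have a2 : 1 ≤ n / (8 * (M + 1)) := (Nat.le_div_iff_mul_le (by omega)).2 (by omega)
      nlinarith
    have b2 : 2 * (n / (8 * (M + 1))) ≤ N := by
      have a1 := Nat.div_mul_le_self n (8 * (M + 1))
      nlinarith
    obtain ⟨d, u, r, hp, c1, c2⟩ := H n (by omega) N _ h1 h2 b1 b2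
    refine ⟨d, u, r, hp, Nat.div_le_of_le_mul (c1.trans_eq (by ring)),
      (Nat.le_div_iff_mul_le (by omega)).2 (le_of_eq_of_le (by ring) c2)⟩

theorem corr_cfg {h : F[X]} {n μ κ i ε₁ ε₂ : ℕ} (hn : μ + κ = n) (Ψ α₁ β₁ c α₂ β₂ : F[X] → ℝ) :
    corr h n (tw Ψ (cv α₁ β₁ μ κ)) (cv3 c α₂ β₂ i ε₁ ε₂) =
      cfg h μ κ ε₁ ε₂ i fun m k e₁ e₂ d =>
        Ψ (m * k) * (α₁ m * β₁ k * (c d * (α₂ e₁ * β₂ e₂))) := by
  have e : corr h n (tw Ψ (cv α₁ β₁ μ κ)) (cv3 c α₂ β₂ i ε₁ ε₂) =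
      ∑ f ∈ monF F n, cv α₁ β₁ μ κ f * (Ψ f * cv3 c α₂ β₂ i ε₁ ε₂ (f + h)) :=
    Finset.sum_congr rfl fun f _ => by simp only [tw]; ring
  rw [e, TBasB.sum_cv_mul hn α₁ β₁ fun f => Ψ f * cv3 c α₂ β₂ i ε₁ ε₂ (f + h)]
  unfold cfg
  refine Finset.sum_congr rfl fun m _ => Finset.sum_congr rfl fun k _ => ?_
  rw [← TBasB.sum_rot]
  simp only [cv3, Finset.mul_sum]
  exact Finset.sum_congr rfl fun d _ => Finset.sum_congr rfl fun e₁ _ =>
    Finset.sum_congr rfl fun e₂ _ => by ring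

variable {h : F[X]} {n L η E R lo hi : ℕ} {τ : ℝ} {ι : Type} {Z : Finset ι} {M : ι → F[X]}
  {Φ : ι → F[X] → ℝ}

theorem coreL (H3 : STypeL F) (hh : h ≠ 0) (hτ : DivB F τ n)
    (hhn : h.natDegree < n) (hη : 100 * n * τ ^ 4 * qq F (2 * h.natDegree) ≤ qq F η)
    (hE : 2 * L + 20 * η + 5 ≤ E)
    (hP : ∀ N, n ≤ 4 * N → N ≤ n → ∃ d u r, Par F N L η d u r ∧ lo ≤ d ∧ d ≤ hi)
    (hF : Fam h n R lo hi Z M Φ)
    {i ε₁ ε₂ μ κ : ℕ} (h1 : i + ε₁ + ε₂ = n) (h2 : μ + κ = n) (h3 : ε₁ + E ≤ κ)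
    (h4 : 2 * κ + 4 * ε₂ + (E + 4 * R) ≤ n) {α₁ β₁ α₂ β₂ : F[X] → ℝ} (a1 : Bd μ α₁)
    (b1 : Bd κ β₁) (a2 : Bd ε₁ α₂) (b2 : ∀ e ∈ monF F ε₂, |β₂ e| ≤ ind (Squarefree e)) :
    |corr h n (tw (tot Z Φ) (cv α₁ β₁ μ κ)) (cv3 lam α₂ β₂ i ε₁ ε₂)| ≤
      qq F η * (qq F n / qq F (4 * η) + qq F n / qq F (4 * η)) := by
  obtain ⟨b, N, hN, c1, c2⟩ : ∃ b N, i + κ + ε₂ + b = 2 * N + 1 ∧ κ ≤ b + ε₁ ∧ b + ε₁ ≤ κ + 1 :=
    ⟨κ - ε₁ + (i + ε₂ + ε₁ + 1) % 2, (i + κ + ε₂ + (κ - ε₁ + (i + ε₂ + ε₁ + 1) % 2)) / 2,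
      by omega, by omega, by omega⟩
  obtain ⟨d, u, r, hp, d1, d2⟩ := hP N (by omega) (by omega)
  have hβ : ∀ k ∈ monF F κ, ∀ e ∈ monF F ε₂, |β₁ k * β₂ e| ≤ ind (Squarefree e) :=
    fun k hk e he => by
      rw [abs_mul]
      exact (mul_le_of_le_one_left (abs_nonneg _) (b1 k hk)).trans (b2 e he)
  have hα : ∀ m ∈ monF F μ, ∀ e ∈ monF F ε₁, |α₁ m * α₂ e| ≤ 1 := fun m hm e he => by
    rw [abs_mul]
    exact mul_le_one₀ (a1 m hm) (abs_nonneg _) (a2 e he)
  rw [corr_cfg h2, cfg_congr (G' := fun m k e₁ e₂ d' =>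
    tot Z Φ (m * k) * (α₁ m * α₂ e₁ * (β₁ k * β₂ e₂ * lam d')))
      fun _ _ _ _ _ _ _ _ _ _ _ => by ring]
  refine weight hh hp h2 h1 hN c1 (by omega) (by omega) hτ hhn hη _
    (fun m hm k hk e₁ he₁ e₂ he₂ d' _ => ?_) fun B hB hBs =>
      H3 h N L η d u r n μ κ ε₁ ε₂ i b R lo hi τ (fun m e => α₁ m * α₂ e)
        (fun k e => β₁ k * β₂ e) B ι Z M Φ hh hp h2 h1 hN (by omega) (by omega) hτ hη hα hβ hB
        hBs hF d1 d2
  have ht : |tot Z Φ (m * k)| ≤ 1 := hF.abs_tot (h2 ▸ TOne.mon_mul hm hk)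
  rw [abs_mul, abs_mul _ (β₁ k * β₂ e₂ * lam d'), abs_mul _ (lam d'), abs_lam, mul_one]
  exact (mul_le_of_le_one_left (by positivity) ht).trans
    ((mul_le_of_le_one_left (abs_nonneg _) (hα m hm e₁ he₁)).trans (hβ k hk e₂ he₂))

theorem coreU (H2 : STypeU F) (hh : h ≠ 0) (hτ : DivB F τ n)
    (hhn : h.natDegree < n) (hη : 100 * n * τ ^ 4 * qq F (2 * h.natDegree) ≤ qq F η)
    (hE : 2 * L + 20 * η + 5 ≤ E)
    (hP : ∀ N, n ≤ 4 * N → N ≤ n → ∃ d u r, Par F N L η d u r ∧ lo ≤ d ∧ d ≤ hi)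
    (hF : Fam h n R lo hi Z M Φ)
    {i ε κ : ℕ} (h1 : i + ε = n) (h2 : n ≤ 2 * i) (h3 : κ + (E + 4 * R) ≤ i)
    (h4 : 2 * κ + (E + 4 * R) ≤ n) {β α : F[X] → ℝ} (b1 : Bd κ β) (a2 : Bd ε α) :
    |corr h n (tw (tot Z Φ) (up β κ)) (cv3 lam α (fun _ => 1) i ε 0)| ≤
      qq F η * (qq F n / qq F (4 * η) + qq F n / qq F (4 * η)) := by
  obtain ⟨μ, hμ⟩ : ∃ μ, μ + κ = n := ⟨n - κ, by omega⟩
  obtain ⟨b₀, c1, c2, c3⟩ :
      ∃ b₀, κ ≤ b₀ + ε ∧ 20 * η + 4 ≤ b₀ ∧ κ + b₀ + 1 + 2 * L + 2 * R ≤ i :=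
    ⟨max (κ - ε) (20 * η + 4), by omega, by omega, by omega⟩
  obtain ⟨b, N, hN, c4, c5⟩ : ∃ b N, i + κ + b = 2 * N + 1 ∧ b₀ ≤ b ∧ b ≤ b₀ + 1 :=
    ⟨b₀ + (i + κ + b₀ + 1) % 2, (i + κ + (b₀ + (i + κ + b₀ + 1) % 2)) / 2,
      by omega, by omega, by omega⟩
  obtain ⟨d, u, r, hp, d1, d2⟩ := hP N (by omega) (by omega)
  have hc : ∀ k ∈ monF F κ, ∀ e ∈ monF F ε, |β k * α e| ≤ 1 := fun k hk e he => by
    rw [abs_mul]
    exact mul_le_one₀ (b1 k hk) (abs_nonneg _) (a2 e he)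
  have e1 : corr h n (tw (tot Z Φ) (up β κ)) (cv3 lam α (fun _ => 1) i ε 0) =
      corr h n (tw (tot Z Φ) (cv (fun _ => 1) β μ κ)) (cv3 lam α (fun _ => 1) i ε 0) :=
    Finset.sum_congr rfl fun f hf => by simp only [tw]; rw [up_eq_cv hμ β hf]
  rw [e1, corr_cfg hμ, cfg_congr (G' := fun m k e₁ _ d' =>
    tot Z Φ (m * k) * (β k * α e₁ * lam d')) fun _ _ _ _ _ _ _ _ _ _ _ => by ring]
  refine weight hh hp hμ h1 hN (by omega) (by omega) (by omega) hτ hhn hη _
    (fun m hm k hk e₁ he₁ e₂ he₂ d' _ => ?_) fun B hB hBs =>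
      H2 h N L η d u r n μ κ ε i b R lo hi τ (fun k e => β k * α e) B ι Z M Φ hh hp hμ h1 hN
        (by omega) hτ hη hc hB hBs hF d1 d2
  have ht : |tot Z Φ (m * k)| ≤ 1 := hF.abs_tot (hμ ▸ TOne.mon_mul hm hk)
  rw [abs_mul, abs_mul _ (lam d'), abs_lam, mul_one, TLU.sq_zero he₂]
  exact mul_le_one₀ ht (abs_nonneg _) (hc k hk e₁ he₁)

end LUX

variable (F : Type) [Field F] [Fintype F] [CharP F 2]

theorem sLU (h1 : SPar F) (h2 : STypeU F) (h3 : STypeL F) : SLU F := by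
  intro h M₀ hh
  obtain ⟨C, hC, n₀, H⟩ := LUX.setup h1 h M₀
  refine ⟨C, hC, n₀, fun n hn E R ι Z M Φ hE hF => ?_⟩
  obtain ⟨L, τ, hτ, hη1, hhn, hη, hL, hP⟩ := H n hn
  refine ⟨fun i ε₁ ε₂ μ κ e1 e2 e3 α₁ β₁ α₂ β₂ a1 b1 a2 b2 => ?_,
    fun i ε₁ ε₂ κ e1 e2 e3 e4 β₁ α₂ β₂ b1 a2 b2 => ?_⟩
  · rcases e3 with ⟨e3, e4⟩ | ⟨e3, e4⟩
    · simpa using TLU.fin hη1 le_rfl (one_le_qq _)
        (LUX.coreL h3 hh hτ hhn hη (hL E hE) hP hF e1 e2 e3 e4 a1 b1 a2 b2)
    · rw [TLU.corr_merge (τ := τ) (one_pos.trans_le hτ.one_le).ne']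
      exact TLU.fin hη1 hτ.one_le (TLU.tau_le (by omega) hτ.one_le hη)
        (LUX.coreL h3 hh hτ hhn hη (hL E hE) hP hF (by omega) e2 e3 e4 a1 b1
          (TLU.bd_merge hτ (by omega) a2 fun e he => (b2 e he).trans (ind_le_one _))
          fun e he => by rw [TLU.sq_zero he, abs_one])
  · rw [TLU.corr_merge (τ := τ) (one_pos.trans_le hτ.one_le).ne']
    exact TLU.fin hη1 hτ.one_le (TLU.tau_le (by omega) hτ.one_le hη)
      (LUX.coreU h2 hh hτ hhn hη (hL E hE) hP hF (by omega) e2 e3 e4 b1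
        (TLU.bd_merge hτ (by omega) a2 b2))

end Pool.Agent.PPf

end

section

/- Prime pairs over `F[X]`: the bilinear bound for one frequency. -/

set_option autoImplicit false
set_option linter.unusedSectionVars false

namespace Pool.Agent.PPf

open Polynomial Finset Pool.Agent.MP_4fffd4_nt Pool.Agent.MP_c853c5_nt Pool.Agent.MP_43e117_nt
open scoped BigOperators

namespace FreqX

variable {F : Type} [Field F] [Fintype F] [CharP F 2]

theorem kk_one {ν : ℕ} {d : F[X]} (hd : d ∈ monF F (ν + 1)) (x a : F[X]) {c : F} (hc : c ≠ 0) :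
    kk (C c⁻¹ * a) ν 1 d x =
      ind (IsCoprime d x) * (ind (SFour.res (a * iv d x) d = c) - 1 / Fintype.card F) := by
  obtain ⟨hm, hn⟩ := mem_monF.1 hd
  rw [kk]
  refine TOffA.ind_mul_congr fun hco => ?_
  rw [TOffA.count hd (iv_mul hco.symm), qq, pow_one]
  refine congrArg (· - 1 / (Fintype.card F : ℝ)) (SPsi.ind_congr ?_)
  have hdeg : d.degree = (ν + 1 : ℕ) := by rw [degree_eq_natDegree hm.ne_zero, hn]
  have h1 := degree_modByMonic_lt (iv d x * (C c⁻¹ * a) + X ^ ν) hm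
  have h2 : ((iv d x * (C c⁻¹ * a) + X ^ ν) %ₘ d).coeff ν =
      c⁻¹ * SFour.res (a * iv d x) d + 1 := by
    have h3 : SFour.res (X ^ ν) d = 1 := by
      rw [SFour.res_of_lt hm (by rw [hdeg, degree_X_pow]; exact_mod_cast Nat.lt_succ_self ν), hn]
      simp
    have h4 : SFour.res (iv d x * (C c⁻¹ * a)) d = c⁻¹ * SFour.res (a * iv d x) d := by
      rw [show iv d x * (C c⁻¹ * a) = c⁻¹ • (a * iv d x) by rw [smul_eq_C_mul]; ring, SFour.res,
        smul_modByMonic, coeff_smul, smul_eq_mul, SFour.res]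
    rw [← h3, ← h4, ← SFour.res_add, SFour.res, hn, Nat.add_sub_cancel]
  have h5 : c⁻¹ * SFour.res (a * iv d x) d + 1 = 0 ↔ SFour.res (a * iv d x) d = c := by
    have h6 : (2 : F) = 0 := by exact_mod_cast CharP.cast_eq_zero F 2
    constructor
    · intro h
      have h7 : c * (c⁻¹ * SFour.res (a * iv d x) d + 1) = 0 := by rw [h, mul_zero]
      rw [mul_add, mul_inv_cancel_left₀ hc] at h7
      linear_combination h7 - c * h6
    · intro h
      rw [h, inv_mul_cancel₀ hc]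
      linear_combination h6
  rw [← h5, ← h2]
  rw [hdeg] at h1
  generalize (iv d x * (C c⁻¹ * a) + X ^ ν) %ₘ d = u at h1 ⊢
  refine ⟨coeff_eq_zero_of_degree_lt, fun h => (degree_lt_iff_coeff_zero _ _).2 fun m hm' => ?_⟩
  rcases hm'.eq_or_lt with rfl | hlt
  · exact h
  · exact coeff_eq_zero_of_degree_lt (h1.trans_le (by exact_mod_cast hlt))

theorem chr_eq {e : F → ℝ} (he : Chr e) (r : F) :
    e r = ∑ c, (e c - 1) * (ind (r = c) - 1 / Fintype.card F) := by
  have h0 : ∑ c, e c = 0 := by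
    obtain ⟨c, hc⟩ := he.neg
    have h1 := he.toSgn.expect_eq_zero (a := c) (by rw [hc]; norm_num)
    rw [Fintype.expect_eq_sum_div_card] at h1
    exact (div_eq_zero_iff.1 h1).resolve_right (Nat.cast_ne_zero.2 Fintype.card_ne_zero)
  have hq : (Fintype.card F : ℝ) ≠ 0 := Nat.cast_ne_zero.2 Fintype.card_ne_zero
  have h2 : ∑ c, (e c - 1) * ind (r = c) = e r - 1 := by
    rw [Finset.sum_eq_single r (fun c _ hc => by rw [ind_neg (Ne.symm hc), mul_zero])
      (fun h => absurd (mem_univ r) h), ind_pos rfl, mul_one]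
  simp only [mul_sub, Finset.sum_sub_distrib, h2]
  rw [← Finset.sum_mul, Finset.sum_sub_distrib, h0, Finset.sum_const, card_univ, nsmul_eq_mul]
  field_simp
  ring

end FreqX

variable (F : Type) [Field F] [Fintype F] [CharP F 2]

theorem sFreq : SFreq F := by
  intro e a n I I' l η α β he ha hn hη hal h1 h2 h3 h4 hτ hn3 hα hβ
  obtain ⟨ν, rfl⟩ : ∃ ν, I = ν + 1 := ⟨I - 1, by omega⟩
  have key : ∑ d ∈ monF F (ν + 1), ∑ x ∈ monF F I', α d * β x *
      (ind (IsCoprime d x) * e (SFour.res (a * iv d x) d)) =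
      ∑ c, (e c - 1) * ∑ d ∈ monF F (ν + 1), ∑ x ∈ monF F I',
        α d * β x * kk (C c⁻¹ * a) ν 1 d x := by
    simp only [Finset.mul_sum]
    refine Eq.trans (Finset.sum_congr rfl fun d hd => ?_) Finset.sum_comm
    refine Eq.trans (Finset.sum_congr rfl fun x _ => ?_) Finset.sum_comm
    rw [FreqX.chr_eq he, Finset.mul_sum, Finset.mul_sum]
    refine Finset.sum_congr rfl fun c _ => ?_
    by_cases hc : c = 0
    · rw [hc, he.toSgn.zero]; ring
    · rw [FreqX.kk_one hd x a hc]; ring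
  have hB : 0 ≤ qq F n / qq F η := (div_pos (qq_pos n) (qq_pos η)).le
  rw [key]
  refine (Finset.abs_sum_le_sum_abs _ _).trans
    ((Finset.sum_le_card_nsmul _ _ (2 * (qq F n / qq F η)) fun c _ => ?_).trans_eq ?_)
  · by_cases hc : c = 0
    · rw [hc, he.toSgn.zero, sub_self, zero_mul, abs_zero]
      positivity
    · rw [abs_mul]
      refine mul_le_mul ?_ ?_ (abs_nonneg _) zero_le_two
      · rcases he.toSgn.sign c with h | h <;> rw [h] <;> norm_num
      · exact bilin (mul_ne_zero (C_ne_zero.2 (inv_ne_zero hc)) ha) hη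
          ((natDegree_C_mul_le _ _).trans hal) (by omega) (by omega) h2 h3 h4 hτ hn3 hα hβ
  · rw [card_univ, nsmul_eq_mul, qq, qq, qq, pow_succ]
    ring

end Pool.Agent.PPf

end

section

/- Prime pairs over `F[X]`: the central range in one residue class. -/

set_option autoImplicit false
set_option linter.unusedSectionVars false

namespace Pool.Agent.PPf

open Polynomial Finset Pool.Agent.MP_4fffd4_nt Pool.Agent.MP_c853c5_nt Pool.Agent.MP_43e117_nt
open scoped BigOperators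

namespace ClassX

variable {F : Type} [Field F] [Fintype F] [CharP F 2]

/-- The discrepancy of three divisibility conditions. -/
noncomputable def dw (M φ h : F[X]) (n : ℕ) (A B : F[X]) : ℝ :=
  ∑ f ∈ monF F n, ind (M ∣ f - φ) * (ind (A ∣ f) * ind (B ∣ f + h)) -
    qq F n * 𝔼 f : degreeLT F (5 * n), ind (M ∣ f.1 - φ) * (ind (A ∣ f.1) * ind (B ∣ f.1 + h))

theorem up_mul (Ψ : F[X] → ℝ) (h : F[X]) (I I' : ℕ) (α β : F[X] → ℝ) (f : F[X]) :
    tw Ψ (up α I) f * up β I' (f + h) = ∑ A ∈ monF F I, ∑ B ∈ monF F I',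
      α A * β B * (Ψ f * (ind (A ∣ f) * ind (B ∣ f + h))) := by
  rw [tw, mul_assoc, TK.up_mul, Finset.mul_sum]
  refine Finset.sum_congr rfl fun A _ => ?_
  rw [Finset.mul_sum]
  exact Finset.sum_congr rfl fun B _ => by ring

theorem expand (M φ h : F[X]) (n I I' : ℕ) (α β : F[X] → ℝ) :
    corr h n (tw (fun f => ind (M ∣ f - φ)) (up α I)) (up β I') -
      qq F n * mcorr h (5 * n) (tw (fun f => ind (M ∣ f - φ)) (up α I)) (up β I') =
      ∑ A ∈ monF F I, ∑ B ∈ monF F I', α A * β B * dw M φ h n A B := by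
  have h1 : corr h n (tw (fun f => ind (M ∣ f - φ)) (up α I)) (up β I') =
      ∑ A ∈ monF F I, ∑ B ∈ monF F I', α A * β B *
        ∑ f ∈ monF F n, ind (M ∣ f - φ) * (ind (A ∣ f) * ind (B ∣ f + h)) := by
    unfold corr
    simp only [up_mul]
    rw [Finset.sum_comm]
    refine Finset.sum_congr rfl fun A _ => ?_
    rw [Finset.sum_comm]
    exact Finset.sum_congr rfl fun B _ => by rw [Finset.mul_sum]
  have h2 : mcorr h (5 * n) (tw (fun f => ind (M ∣ f - φ)) (up α I)) (up β I') =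
      ∑ A ∈ monF F I, ∑ B ∈ monF F I', α A * β B * 𝔼 f : degreeLT F (5 * n),
        ind (M ∣ f.1 - φ) * (ind (A ∣ f.1) * ind (B ∣ f.1 + h)) := by
    unfold mcorr
    simp only [up_mul]
    rw [Finset.expect_sum_comm]
    refine Finset.sum_congr rfl fun A _ => ?_
    rw [Finset.expect_sum_comm]
    exact Finset.sum_congr rfl fun B _ => by rw [Finset.mul_expect]
  rw [h1, h2, Finset.mul_sum, ← Finset.sum_sub_distrib]
  refine Finset.sum_congr rfl fun A _ => ?_
  rw [Finset.mul_sum, ← Finset.sum_sub_distrib]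
  refine Finset.sum_congr rfl fun B _ => ?_
  unfold dw
  ring

theorem dw_per (φ h : F[X]) {n : ℕ} {M A B : F[X]} (hm : M * A * B ≠ 0)
    (hn : (M * A * B).natDegree ≤ n) : dw M φ h n A B = 0 := by
  have hp : Per (M * A * B) fun f => ind (M ∣ f - φ) * (ind (A ∣ f) * ind (B ∣ f + h)) := by
    intro f t
    have e : f + M * A * B * t + h = f + h + B * (M * A * t) := by ring
    have e' : f + M * A * B * t - φ = f - φ + M * (A * B * t) := by ring
    have e'' : f + M * A * B * t = f + A * (M * B * t) := by ring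
    show ind (M ∣ f + M * A * B * t - φ) * (ind (A ∣ f + M * A * B * t) *
      ind (B ∣ f + M * A * B * t + h)) = ind (M ∣ f - φ) * (ind (A ∣ f) * ind (B ∣ f + h))
    rw [e, e', e'', TK.ind_iff (dvd_add_left (dvd_mul_right M _)),
      TK.ind_iff (dvd_add_left (dvd_mul_right A _)), TK.ind_iff (dvd_add_left (dvd_mul_right B _))]
  unfold dw
  rw [sum_monF_per hm hp hn (show (M * A * B).natDegree ≤ 5 * n by omega), sub_self]

theorem dw_cop {M φ h A B : F[X]} (n : ℕ) (hA : A ≠ 0) (hc : IsCoprime (φ * (φ + h)) M)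
    (hh : ∀ P : F[X], Irreducible P → P ∣ h → P ∣ M)
    (H : ¬ (IsCoprime A M ∧ IsCoprime (M * A) B)) : dw M φ h n A B = 0 := by
  have h0 : ∀ f : F[X], ind (M ∣ f - φ) * (ind (A ∣ f) * ind (B ∣ f + h)) = 0 := fun f => by
    rw [TK.ind_mul, TK.ind_mul]
    refine ind_neg fun ⟨⟨k, hk⟩, h2, h3⟩ => H ?_
    have a1 : IsCoprime f M := by
      rw [show f = φ + M * k by linear_combination hk]
      exact hc.of_mul_left_left.add_mul_left_left k
    have a2 : IsCoprime (f + h) M := by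
      rw [show f + h = φ + h + M * k by linear_combination hk]
      exact hc.of_mul_left_right.add_mul_left_left k
    have a3 := a1.of_isCoprime_of_dvd_left h2
    refine ⟨a3, IsCoprime.mul_left (a2.of_isCoprime_of_dvd_left h3).symm ?_⟩
    refine isCoprime_of_irreducible_dvd (fun e => hA e.1) fun P hP b1 b2 => ?_
    exact hP.not_isUnit (a3.isUnit_of_dvd' b1
      (hh P hP ((dvd_add_right (b1.trans h2)).1 (b2.trans h3))))
  unfold dw
  simp only [h0]
  simp

theorem dw_dis {M φ h A w : F[X]} (B : F[X]) {n : ℕ} (hc : IsCoprime A M) (hw : M ∣ A * w - φ)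
    (hn : (A * w).degree < n) : dw M φ h n A B = TK.dis (h + A * w) n (M * A) B := by
  have h2 := TOffA.two_eq (F := F)
  have h0 : ∀ f : F[X], ind (M ∣ f - φ) * (ind (A ∣ f) * ind (B ∣ f + h)) =
      ind (M * A ∣ f + A * w) * ind (B ∣ f + A * w + (h + A * w)) := fun f => by
    rw [← mul_assoc, TK.ind_mul (M ∣ _),
      show f + A * w + (h + A * w) = f + h by linear_combination A * w * h2]
    congr 1
    obtain ⟨k, hk⟩ := hw
    refine TK.ind_iff ⟨fun ⟨⟨u, hu⟩, a2⟩ => hc.symm.mul_dvd ⟨u + k, ?_⟩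
      (dvd_add a2 (dvd_mul_right _ _)), fun a => ⟨?_, ?_⟩⟩
    · linear_combination hu + hk + φ * h2
    · obtain ⟨u, hu⟩ := a
      exact ⟨A * u - k, by linear_combination hu - hk - φ * h2⟩
    · exact (dvd_add_left (dvd_mul_right A w)).1 ((dvd_mul_left A M).trans a)
  have hn' : (A * w).degree < (5 * n : ℕ) := hn.trans_le (by exact_mod_cast (by omega))
  unfold dw TK.dis
  simp only [h0]
  rw [sum_monF_shift hn fun f => ind (M * A ∣ f) * ind (B ∣ f + (h + A * w)),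
    ← expect_shift (fun f : degreeLT F (5 * n) => ind (M * A ∣ f.1) * ind (B ∣ f.1 + (h + A * w)))
      ⟨A * w, mem_degreeLT.2 hn'⟩]
  rfl

/-- The shift that belongs to the class `r`. -/
noncomputable def ww (M φ r : F[X]) : F[X] := (φ * iv M r) %ₘ M

theorem ww_dvd {M A : F[X]} (φ : F[X]) (hc : IsCoprime A M) : M ∣ A * ww M φ (A %ₘ M) - φ := by
  have e1 := modByMonic_add_div A M
  have e2 := modByMonic_add_div (φ * iv M (A %ₘ M)) M
  have h1 : IsCoprime (A %ₘ M) M := by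
    rw [← e1] at hc
    exact hc.of_add_mul_left_left
  obtain ⟨k, hk⟩ := iv_mul h1
  refine ⟨φ * k + φ * iv M (A %ₘ M) * (A /ₘ M) - A * (φ * iv M (A %ₘ M) /ₘ M), ?_⟩
  unfold ww
  linear_combination A * e2 - φ * iv M (A %ₘ M) * e1 + φ * hk

theorem point {e : F → ℝ} (he : Chr e) {M φ h A B : F[X]} {n ν t : ℕ} (hM : M.Monic)
    (hA : A.Monic) (hB : B.Monic) (hc : IsCoprime (φ * (φ + h)) M)
    (hh : ∀ P : F[X], Irreducible P → P ∣ h → P ∣ M) (h1 : B.natDegree + ν = n)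
    (h2 : M.natDegree + A.natDegree = ν + t) (h3 : t ≤ n) (h4 : h.natDegree < n)
    (h5 : M.natDegree + A.natDegree < n) (r : F[X]) :
    ind (r = A %ₘ M) * dw M φ h n A B * qq F t = ∑ a ∈ ltF F t, ind (a ≠ 0) * TOffA.sg e ν t a *
      (ind (r = A %ₘ M ∧ IsCoprime A M) * e (SFour.res (a * iv M B * ww M φ r) M) *
        (ind (IsCoprime (M * A) B) * e (SFour.res (a * h * iv (M * A) B) (M * A)))) := by
  by_cases hr : r = A %ₘ M
  swap
  · rw [ind_neg hr, ind_neg fun x : r = A %ₘ M ∧ IsCoprime A M => hr x.1]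
    simp
  by_cases H : IsCoprime A M ∧ IsCoprime (M * A) B
  swap
  · rw [dw_cop n hA.ne_zero hc hh H, mul_zero, zero_mul]
    refine (Finset.sum_eq_zero fun a _ => ?_).symm
    by_cases H1 : IsCoprime A M
    · rw [ind_neg fun x : IsCoprime (M * A) B => H ⟨H1, x⟩]; ring
    · rw [ind_neg fun x : r = A %ₘ M ∧ IsCoprime A M => H1 x.2]; ring
  have hd : (M * A).natDegree = ν + t := by rw [hM.natDegree_mul hA, h2]
  have hw : (A * ww M φ r).degree < n := by
    refine degree_le_natDegree.trans_lt (Nat.cast_lt.2 (natDegree_mul_le.trans_lt ?_))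
    have := natDegree_le_natDegree (degree_modByMonic_lt (φ * iv M r) hM).le
    unfold ww
    omega
  have hw' : (1 * (h + A * ww M φ r)).degree < n := by
    rw [one_mul]
    exact (degree_add_le _ _).trans_lt
      (max_lt (degree_le_natDegree.trans_lt (Nat.cast_lt.2 h4)) hw)
  have h6 := TK.dis_kk monic_one (hM.mul hA) hB H.2 (ν := ν) (by rw [natDegree_one]; omega) hd h3 hw'
  have hy := iv_mul H.2.symm
  have h7 := TOffA.kk_eq he (mem_monF.2 ⟨hM.mul hA, hd⟩) hy (h + A * ww M φ r)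
  rw [one_mul, one_mul, one_mul] at h6
  rw [kk, ind_pos H.2, one_mul] at h7
  rw [ind_pos hr, one_mul, dw_dis B H.1 (hr ▸ ww_dvd φ H.1) hw, h6, h7, ind_pos ⟨hr, H.1⟩,
    ind_pos H.2]
  refine Finset.sum_congr rfl fun a _ => ?_
  have h8 : M ∣ a * iv (M * A) B * ww M φ r - a * iv M B * ww M φ r := by
    obtain ⟨k, hk⟩ := hy
    obtain ⟨k', hk'⟩ := iv_mul H.2.of_mul_left_left.symm
    exact ⟨a * ww M φ r * (iv M B * (A * k) - iv (M * A) B * k'), by
      linear_combination a * ww M φ r * (iv M B * hk - iv (M * A) B * hk')⟩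
  rw [show a * (iv (M * A) B * (h + A * ww M φ r)) =
      a * h * iv (M * A) B + a * iv (M * A) B * ww M φ r * A by ring, SFour.res_add, he.add,
    SFour.res_mul _ hM hA, SFour.res_congr hM h8]
  ring

theorem cls (H : SFreq F) {M φ h : F[X]} {n t I I' l η : ℕ} {α β : F[X] → ℝ} (hM : M.Monic)
    (h0 : h ≠ 0) (hc : IsCoprime (φ * (φ + h)) M)
    (hh : ∀ P : F[X], Irreducible P → P ∣ h → P ∣ M) (hα : Bd I α) (hβ : Bd I' β)
    (h1 : M.natDegree + I + I' = n + t) (h2 : 1 ≤ t) (h3 : t ≤ n) (h4 : h.natDegree < n)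
    (h5 : M.natDegree + I < n) (h6 : I' ≤ I) (h7 : 1 ≤ η) (h8 : t + h.natDegree ≤ l)
    (h9 : M.natDegree + I + 10 * η + 1 ≤ I' + l) (h10 : 1 + 10 * η ≤ l) (h11 : 100 * l ≤ I')
    (h12 : DivB F (qq F η) (4 * n)) (h13 : (200 * n : ℝ) ^ 3 ≤ qq F η) (r : F[X]) :
    |∑ A ∈ monF F I, ∑ B ∈ monF F I', ind (r = A %ₘ M) * (α A * β B * dw M φ h n A B)| ≤
      2 * qq F (n + t) / qq F η := by
  obtain ⟨e, he⟩ := exists_chr (F := F)
  have hq := qq_pos (F := F) t
  have hb : 0 ≤ 2 * qq F (n + t) / qq F η :=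
    div_nonneg (mul_nonneg zero_le_two (qq_pos _).le) (qq_pos _).le
  have e1 : (∑ A ∈ monF F I, ∑ B ∈ monF F I',
      ind (r = A %ₘ M) * (α A * β B * dw M φ h n A B)) * qq F t =
      ∑ a ∈ ltF F t, ind (a ≠ 0) * TOffA.sg e (n - I') t a *
        ∑ d ∈ monF F (M.natDegree + I), ∑ B ∈ monF F I',
          (ind (M ∣ d) * (ind (r = (d /ₘ M) %ₘ M ∧ IsCoprime (d /ₘ M) M) * α (d /ₘ M))) *
            (β B * e (SFour.res (a * iv M B * ww M φ r) M)) *
            (ind (IsCoprime d B) * e (SFour.res (a * h * iv d B) d)) := by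
    have e2 : ∀ a : F[X], ∑ d ∈ monF F (M.natDegree + I), ∑ B ∈ monF F I',
        (ind (M ∣ d) * (ind (r = (d /ₘ M) %ₘ M ∧ IsCoprime (d /ₘ M) M) * α (d /ₘ M))) *
          (β B * e (SFour.res (a * iv M B * ww M φ r) M)) *
          (ind (IsCoprime d B) * e (SFour.res (a * h * iv d B) d)) =
        ∑ A ∈ monF F I, ∑ B ∈ monF F I', α A * β B *
          (ind (r = A %ₘ M ∧ IsCoprime A M) * e (SFour.res (a * iv M B * ww M φ r) M) *
          (ind (IsCoprime (M * A) B) * e (SFour.res (a * h * iv (M * A) B) (M * A)))) := fun a => by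
      have e3 := TK.sum_dvd_eq hM I fun d => ∑ B ∈ monF F I',
        (ind (r = (d /ₘ M) %ₘ M ∧ IsCoprime (d /ₘ M) M) * α (d /ₘ M)) *
          (β B * e (SFour.res (a * iv M B * ww M φ r) M)) *
          (ind (IsCoprime d B) * e (SFour.res (a * h * iv d B) d))
      simp only [mul_divByMonic_cancel_left _ hM] at e3
      refine Eq.trans (Finset.sum_congr rfl fun d _ => ?_) (e3.trans ?_)
      · rw [Finset.mul_sum]
        exact Finset.sum_congr rfl fun B _ => by ring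
      · exact Finset.sum_congr rfl fun A _ => Finset.sum_congr rfl fun B _ => by ring
    simp only [e2, Finset.mul_sum, Finset.sum_mul]
    rw [Finset.sum_comm (s := ltF F t)]
    refine Finset.sum_congr rfl fun A hA => ?_
    rw [Finset.sum_comm (s := ltF F t)]
    refine Finset.sum_congr rfl fun B hB => ?_
    obtain ⟨a1, a2⟩ := mem_monF.1 hA
    obtain ⟨a3, a4⟩ := mem_monF.1 hB
    have e3 := point he hM a1 a3 hc hh (n := n) (ν := n - I') (t := t) (by omega) (by omega) h3 h4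
      (by omega) r
    rw [show ind (r = A %ₘ M) * (α A * β B * dw M φ h n A B) * qq F t =
      α A * β B * (ind (r = A %ₘ M) * dw M φ h n A B * qq F t) by ring, e3, Finset.mul_sum]
    exact Finset.sum_congr rfl fun a _ => by ring
  refine le_of_mul_le_mul_right ?_ hq
  rw [← abs_of_pos hq, ← abs_mul, e1, abs_of_pos hq, ← sum_one_ltF t, Finset.mul_sum]
  refine (Finset.abs_sum_le_sum_abs _ _).trans (Finset.sum_le_sum fun a ha => ?_)
  rw [mul_one]
  by_cases ha0 : a = 0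
  · rw [ind_neg (not_not.2 ha0), zero_mul, zero_mul, abs_zero]
    exact hb
  have ha1 := (natDegree_lt_iff_degree_lt ha0).2 (mem_ltF.1 ha)
  have ha2 := natDegree_mul_le (p := a) (q := h)
  have h14 : ((n + t - 1 : ℕ) : ℝ) ≤ 2 * n := by exact_mod_cast (by omega : n + t - 1 ≤ 2 * n)
  rw [ind_pos ha0, one_mul, abs_mul, TOffA.sg, he.toSgn.abs_eq, one_mul,
    show n + t = n + t - 1 + 1 by omega]
  refine H e (a * h) (n + t - 1) _ I' l η _ _ he (mul_ne_zero ha0 h0) (by omega) h7 (by omega) h9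
    (by omega) h10 h11 (h12.mono (by omega))
    ((pow_le_pow_left₀ (by positivity) (by linarith) 3).trans h13) (fun d hd => ?_) fun B hB => ?_
  · by_cases hd1 : M ∣ d
    · obtain ⟨A, rfl⟩ := hd1
      obtain ⟨a1, a2⟩ := mem_monF.1 hd
      have a3 := hM.of_mul_monic_left a1
      rw [hM.natDegree_mul a3] at a2
      rw [ind_pos (dvd_mul_right _ _), one_mul, mul_divByMonic_cancel_left _ hM]
      exact (TBasA.abs_ind_mul _ (hα A (mem_monF.2 ⟨a3, by omega⟩))).trans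
        ((mul_one _).trans_le (ind_le_one _))
    · rw [ind_neg hd1, zero_mul, abs_zero]
      exact zero_le_one
  · rw [abs_mul, he.toSgn.abs_eq, mul_one]
    exact hβ B hB

end ClassX

variable (F : Type) [Field F] [Fintype F] [CharP F 2]

theorem sClass (h : SFreq F) : SClass F := by
  intro s hs
  obtain ⟨n₁, H₁⟩ := exists_DivB (F := F) 4 20000 (by norm_num)
  obtain ⟨n₂, H₂⟩ := exists_poly (F := F) 200 3 20000 (by norm_num)
  refine ⟨n₁ + n₂ + 10000000 + 2000 * s.natDegree,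
    fun n hn M φ I I' α β hM hm hc hh hα hβ hI hD => ?_⟩
  rw [ClassX.expand]
  by_cases h0 : M.natDegree + I + I' ≤ n
  · rw [Finset.sum_eq_zero fun A hA => Finset.sum_eq_zero fun B hB => ?_, abs_zero]
    · exact (div_pos (qq_pos _) (qq_pos _)).le
    · obtain ⟨a1, a2⟩ := mem_monF.1 hA
      obtain ⟨a3, a4⟩ := mem_monF.1 hB
      rw [ClassX.dw_per _ _ ((hM.mul a1).mul a3).ne_zero
        (by rw [(hM.mul a1).natDegree_mul a3, hM.natDegree_mul a1]; omega), mul_zero]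
  obtain ⟨t, ht⟩ : ∃ t, M.natDegree + I + I' = n + t := ⟨M.natDegree + I + I' - n, by omega⟩
  have e1 : ∑ A ∈ monF F I, ∑ B ∈ monF F I', α A * β B * ClassX.dw M φ s n A B =
      ∑ r ∈ ltF F M.natDegree, ∑ A ∈ monF F I, ∑ B ∈ monF F I',
        ind (r = A %ₘ M) * (α A * β B * ClassX.dw M φ s n A B) := by
    rw [Finset.sum_comm (s := ltF F M.natDegree)]
    refine Finset.sum_congr rfl fun A _ => ?_
    rw [Finset.sum_comm (s := ltF F M.natDegree)]
    refine Finset.sum_congr rfl fun B _ => ?_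
    rw [← Finset.sum_mul, TOffA.sum_ind_mem, ind_pos (mem_ltF.2 ?_), one_mul]
    rw [← degree_eq_natDegree hM.ne_zero]
    exact degree_modByMonic_lt A hM
  have hb := ClassX.cls h hM hs hc hh hα hβ (l := n / 1000) (η := n / 20000) ht (by omega)
    (by omega) (by omega) (by omega) hI (by omega) (by omega) (by omega) (by omega) (by omega)
    (H₁ n (by omega)) (by exact_mod_cast H₂ n (by omega))
  rw [e1]
  refine (Finset.abs_sum_le_sum_abs _ _).trans
    ((Finset.sum_le_card_nsmul _ _ _ fun r _ => hb r).trans ?_)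
  have h1 : qq F M.natDegree * (2 * qq F t) * qq F (3 * (n / 100000)) ≤ qq F (n / 20000) := by
    have h2 : (2 : ℝ) ≤ qq F 1 := (pow_one (2 : ℝ)).ge.trans (two_pow_le_qq 1)
    have h3 := qq_pos (F := F) M.natDegree
    have h4 := qq_pos (F := F) t
    have h5 := qq_pos (F := F) (3 * (n / 100000))
    refine le_trans ?_ (qq_mono (a := M.natDegree + (1 + t) + 3 * (n / 100000)) (by omega))
    rw [qq_add, qq_add, qq_add]
    gcongr
  have h3 := qq_pos (F := F) n
  rw [nsmul_eq_mul, card_ltF, Nat.cast_pow, ← mul_div_assoc,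
    div_le_div_iff₀ (qq_pos _) (qq_pos _), qq_add]
  calc _ = qq F n * (qq F M.natDegree * (2 * qq F t) * qq F (3 * (n / 100000))) := by
        rw [qq, qq, qq, qq]; ring
    _ ≤ _ := by gcongr

end Pool.Agent.PPf

end

section

/- Prime pairs over `F[X]`: the central range with a weight. -/

set_option autoImplicit false
set_option linter.unusedSectionVars false

namespace Pool.Agent.PPf

open Polynomial Finset Pool.Agent.MP_4fffd4_nt Pool.Agent.MP_c853c5_nt Pool.Agent.MP_43e117_nt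
open scoped BigOperators

namespace CentX

variable {F : Type} [Field F] [Fintype F]

/-- The difference of the sum and the model. -/
noncomputable def LL (n : ℕ) (g : F[X] → ℝ) : ℝ :=
  ∑ f ∈ monF F n, g f - qq F n * 𝔼 f : degreeLT F (5 * n), g f.1

theorem LL_eq (h : F[X]) (n : ℕ) (Ψ A B : F[X] → ℝ) :
    corr h n (tw Ψ A) B - qq F n * mcorr h (5 * n) (tw Ψ A) B =
      LL n fun f => Ψ f * (A f * B (f + h)) := by
  simp only [LL, corr, mcorr, tw, mul_assoc]

theorem LL_sum {ι : Type} (n : ℕ) (Z : Finset ι) (g : ι → F[X] → ℝ) :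
    LL n (fun f => ∑ z ∈ Z, g z f) = ∑ z ∈ Z, LL n (g z) := by
  unfold LL
  rw [Finset.sum_comm, Finset.expect_sum_comm, Finset.mul_sum, ← Finset.sum_sub_distrib]

theorem LL_mul (n : ℕ) (c : ℝ) (g : F[X] → ℝ) : LL n (fun f => c * g f) = c * LL n g := by
  unfold LL
  rw [← Finset.mul_sum, ← Finset.mul_expect]
  ring

theorem LL_per {n : ℕ} {m : F[X]} (hm : m ≠ 0) {g : F[X] → ℝ} (hg : Per m g)
    (hn : m.natDegree ≤ n) : LL n g = 0 := by
  unfold LL
  rw [sum_monF_per hm hg hn (show m.natDegree ≤ 5 * n by omega), sub_self]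

theorem short (h : F[X]) {n I I' : ℕ} {M : F[X]} (hM : M.Monic) {Φ : F[X] → ℝ} (hΦ : Per M Φ)
    (hn : I + I' + M.natDegree ≤ n) (α β : F[X] → ℝ) :
    LL n (fun f => Φ f * (up α I f * up β I' (f + h))) = 0 := by
  simp only [TK.up_mul, Finset.mul_sum]
  rw [LL_sum]
  refine Finset.sum_eq_zero fun A hA => ?_
  rw [LL_sum]
  refine Finset.sum_eq_zero fun B hB => ?_
  obtain ⟨h1, h2⟩ := mem_monF.1 hA
  obtain ⟨h3, h4⟩ := mem_monF.1 hB
  refine LL_per ((hM.mul h1).mul h3).ne_zero (fun f t => ?_)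
    (by rw [(hM.mul h1).natDegree_mul h3, hM.natDegree_mul h1]; omega)
  have e : f + M * A * B * t + h = f + h + M * A * B * t := by ring
  have e1 : Φ (f + M * A * B * t) = Φ f := by
    rw [show M * A * B * t = M * (A * B * t) by ring]
    exact hΦ f _
  have d1 : A ∣ M * A * B * t := ⟨M * B * t, by ring⟩
  have d2 : B ∣ M * A * B * t := ⟨M * A * t, by ring⟩
  show Φ (f + M * A * B * t) * (α A * β B * (ind (A ∣ f + M * A * B * t) *
    ind (B ∣ f + M * A * B * t + h))) = Φ f * (α A * β B * (ind (A ∣ f) * ind (B ∣ f + h)))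
  rw [e, e1, TK.ind_iff (dvd_add_left d1), TK.ind_iff (dvd_add_left d2)]

theorem classes {M : F[X]} (hM : M.Monic) {Φ : F[X] → ℝ} (hΦ : Per M Φ) (f : F[X]) :
    Φ f = ∑ φ ∈ ltF F M.natDegree, Φ φ * ind (M ∣ f - φ) := by
  have hd : (f %ₘ M).degree < M.natDegree :=
    (degree_modByMonic_lt f hM).trans_eq (degree_eq_natDegree hM.ne_zero)
  have e : f = f %ₘ M + M * (f /ₘ M) := (modByMonic_add_div f M).symm
  rw [Finset.sum_eq_single_of_mem (f %ₘ M) (mem_ltF.2 hd) fun φ hφ hne => ?_]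
  · rw [ind_pos ⟨f /ₘ M, by linear_combination e⟩, mul_one, ← hΦ (f %ₘ M) (f /ₘ M), ← e]
  · rw [ind_neg, mul_zero]
    intro hdv
    apply hne
    rw [modByMonic_eq_of_dvd_sub hM hdv]
    exact ((modByMonic_eq_self_iff hM).2
      ((mem_ltF.1 hφ).trans_eq (degree_eq_natDegree hM.ne_zero).symm)).symm

theorem bound {h : F[X]} {n R lo hi : ℕ} {ι : Type} {Z : Finset ι} {M : ι → F[X]}
    {Φ : ι → F[X] → ℝ} (H : Fam h n R lo hi Z M Φ) (G : F[X] → ℝ) {δ : ℝ} (hδ : 0 ≤ δ)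
    (hG : ∀ z ∈ Z, ∀ φ : F[X], IsCoprime (φ * (φ + h)) (M z) →
      |LL n fun f => ind (M z ∣ f - φ) * G f| ≤ δ) :
    |LL n fun f => tot Z Φ f * G f| ≤ qq F R * (qq F R * δ) := by
  have e : (fun f => tot Z Φ f * G f) = fun f => ∑ z ∈ Z, ∑ φ ∈ ltF F (M z).natDegree,
      Φ z φ * (ind (M z ∣ f - φ) * G f) := by
    funext f
    rw [tot, Finset.sum_mul]
    refine Finset.sum_congr rfl fun z hz => ?_
    rw [classes (H.mon z hz) (H.per z hz) f, Finset.sum_mul]
    exact Finset.sum_congr rfl fun φ _ => mul_assoc _ _ _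
  rw [e, LL_sum]
  have hb : ∀ z ∈ Z, |LL n fun f => ∑ φ ∈ ltF F (M z).natDegree,
      Φ z φ * (ind (M z ∣ f - φ) * G f)| ≤ qq F R * δ := by
    intro z hz
    rw [LL_sum]
    have h1 : ∀ φ ∈ ltF F (M z).natDegree,
        |LL n fun f => Φ z φ * (ind (M z ∣ f - φ) * G f)| ≤ 1 * δ := by
      intro φ _
      rw [LL_mul, abs_mul]
      by_cases h0 : Φ z φ = 0
      · rw [h0, abs_zero, zero_mul, one_mul]; exact hδ
      · exact mul_le_mul (H.abs_le hz φ) (hG z hz φ (H.supp z hz φ h0)) (abs_nonneg _) zero_le_one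
    refine (Finset.abs_sum_le_sum_abs _ _).trans ((Finset.sum_le_sum h1).trans ?_)
    rw [← Finset.sum_mul, sum_one_ltF]
    exact mul_le_mul_of_nonneg_right (qq_mono (H.deg z hz)) hδ
  refine (Finset.abs_sum_le_sum_abs _ _).trans ((Finset.sum_le_card_nsmul _ _ _ hb).trans ?_)
  rw [nsmul_eq_mul]
  exact mul_le_mul_of_nonneg_right H.card (mul_nonneg (qq_pos R).le hδ)

theorem numer {n R : ℕ} (hR : R ≤ n / 1000000) :
    qq F R * (qq F R * (qq F n / qq F (3 * (n / 100000)))) ≤ qq F n / qq F (n / 100000) := by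
  have h2 : qq F R * qq F R * qq F (n / 100000) ≤ qq F (3 * (n / 100000)) := by
    rw [← qq_add, ← qq_add]; exact qq_mono (by omega)
  have h3 := qq_pos (F := F) n
  have h4 := qq_pos (F := F) (n / 100000)
  have h5 := qq_pos (F := F) (3 * (n / 100000))
  rw [← mul_div_assoc, ← mul_div_assoc, div_le_div_iff₀ h5 h4]
  calc qq F R * (qq F R * qq F n) * qq F (n / 100000)
      = qq F n * (qq F R * qq F R * qq F (n / 100000)) := by ring
    _ ≤ _ := mul_le_mul_of_nonneg_left h2 h3.le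

end CentX

variable (F : Type) [Field F] [Fintype F] [CharP F 2]

theorem sCent (h : SClass F) : SCent F := by
  intro s hs
  obtain ⟨n₀, H⟩ := h s hs
  refine ⟨n₀ + s.natDegree + 1, fun n hn R lo hi ι Z M Φ hR hF I I' α β hα hβ hI => ?_⟩
  have key : ∀ (Φ : ι → F[X] → ℝ) (I I' : ℕ) (α β : F[X] → ℝ), Fam s n R lo hi Z M Φ →
      Bd I α → Bd I' β → I' ≤ I → 2 * I ≤ n + n / 100000 →
      |corr s n (tw (tot Z Φ) (up α I)) (up β I') -
        qq F n * mcorr s (5 * n) (tw (tot Z Φ) (up α I)) (up β I')| ≤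
        qq F n / qq F (n / 100000) := by
    intro Φ I I' α β hF hα hβ h1 h2
    rw [CentX.LL_eq]
    refine (CentX.bound hF _ (div_pos (qq_pos _) (qq_pos _)).le fun z hz φ hφ => ?_).trans
      (CentX.numer hR)
    rw [← CentX.LL_eq s n (fun f => ind (M z ∣ f - φ))]
    exact H n (by omega) (M z) φ I I' α β (hF.mon z hz) ((hF.deg z hz).trans hR) hφ
      (hF.hdv z hz) hα hβ h1 h2
  rcases hI with h0 | ⟨h1, h2⟩
  · rw [CentX.LL_eq]
    simp only [tot, Finset.sum_mul]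
    rw [CentX.LL_sum, Finset.sum_eq_zero fun z hz => CentX.short s (hF.mon z hz) (hF.per z hz)
      (by have := hF.deg z hz; omega) α β, abs_zero]
    exact (div_pos (qq_pos _) (qq_pos _)).le
  rcases le_total I' I with hle | hle
  · exact key Φ I I' α β hF hα hβ hle h1
  · have d1 : s.degree < n := degree_le_natDegree.trans_lt (by exact_mod_cast (by omega))
    have d2 : s.degree < (5 * n : ℕ) := degree_le_natDegree.trans_lt (by exact_mod_cast (by omega))
    rw [corr_swap d1, mcorr_swap d2, ← tot_shift]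
    exact key _ I' I β α (hF.shift d1) hβ hα hle h2

end Pool.Agent.PPf

end

section

/- Prime pairs over `F[X]`: the model restricted to divisors coprime to a modulus. -/

set_option autoImplicit false
set_option linter.unusedSectionVars false

namespace Pool.Agent.PPf

open Polynomial Finset Pool.Agent.MP_4fffd4_nt Pool.Agent.MP_c853c5_nt Pool.Agent.MP_43e117_nt
open scoped BigOperators

namespace RestrX

open TMain

variable {F : Type} [Field F] [Fintype F]

/-- The truncated function with free coefficients. -/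
noncomputable def trG (M : F[X]) (k : F[X] → ℝ) (R i : ℕ) (f : F[X]) : ℝ :=
  up (fun d => mu d * ind (IsCoprime d M)) i f * upLE k R f

/-- The Euler product. -/
noncomputable def euM (M K D₁ D₂ : F[X]) : ℝ := ind (IsCoprime D₁ M) * eu 1 K D₁ (D₂ * M)

theorem common {d M : F[X]} (hd : d.Monic) (h : ¬ IsCoprime d M) :
    ∃ P : F[X], P.Monic ∧ Irreducible P ∧ P ∣ d ∧ P ∣ M := by
  classical
  by_contra hc
  refine h (EuclideanDomain.isCoprime_of_dvd (fun e => hd.ne_zero e.1) fun z hz hz0 h1 h2 => hc ?_)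
  obtain ⟨P, a, b, c⟩ := exists_monic_irreducible_factor z hz
  exact ⟨P, a, b, c.trans h1, c.trans h2⟩

theorem not_dvd {d M P : F[X]} (h : IsCoprime d M) (hP : Irreducible P) (h1 : P ∣ d) : ¬ P ∣ M :=
  fun h2 => hP.not_isUnit (h.isUnit_of_dvd' h1 h2)

theorem abs_ind_mul (P : Prop) {x C : ℝ} (h : |x| ≤ C) : |ind P * x| ≤ C := by
  rw [abs_mul, abs_of_nonneg (ind_nonneg P)]
  exact (mul_le_of_le_one_left (abs_nonneg _) (ind_le_one P)).trans h

theorem cond {h M K D₁ D₂ : F[X]} (hM : M.Monic)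
    (hh : ∀ P : F[X], Irreducible P → P ∣ h → P ∣ M) (hK : K.Monic) (h₁ : D₁.Monic)
    (h₂ : D₂.Monic) (hKM : IsCoprime K M) {i N : ℕ}
    (hN : K.natDegree + D₁.natDegree + D₂.natDegree + i ≤ N) :
    𝔼 f : degreeLT F N, ind (K ∣ f.1) * ind (D₁ ∣ f.1 + h) * ind (D₂ ∣ f.1 + h) *
      up (fun d => mu d * ind (IsCoprime d M)) i f.1 =
      ev h N K D₁ D₂ * cc (pf (K * D₁ * (D₂ * M))) (ww 1 K) i := by
  classical
  unfold up cc
  simp only [Finset.mul_sum]
  rw [Finset.expect_sum_comm]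
  refine Finset.sum_congr rfl fun d hd => ?_
  obtain ⟨hd, hdi⟩ := mem_monF.1 hd
  have m1 : (K * D₁ * D₂).Monic := (hK.mul h₁).mul h₂
  have m2 : (K * D₁ * (D₂ * M)).Monic := (hK.mul h₁).mul (h₂.mul hM)
  by_cases hs : Squarefree d
  swap
  · have : mu d = 0 := by unfold mu; rw [if_neg hs]
    simp [this]
  by_cases hc : IsCoprime d M
  · simp only [← mul_assoc]
    rw [← Finset.expect_mul, ← Finset.expect_mul, TCond.mean_sqfree hK h₁ h₂ hd hs (by omega),
      ind_pos hc, mul_one, mul_right_comm, ev]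
    refine congrArg (HMul.hMul _) (Finset.prod_congr rfl fun P hP => ?_)
    obtain ⟨a, b, c⟩ := (mem_pf hd.ne_zero).1 hP
    have n1 := not_dvd hc b c
    have n2 : ¬ P ∣ h := fun e => n1 (hh P b e)
    have n3 : ¬ P ∣ 1 := b.not_dvd_one
    have e : P ∈ pf (K * D₁ * D₂) ↔ P ∈ pf (K * D₁ * D₂ * M) := by
      rw [mem_pf m1.ne_zero, mem_pf (m1.mul hM).ne_zero]
      exact ⟨fun x => ⟨a, b, x.2.2.mul_right _⟩,
        fun x => ⟨a, b, (b.prime.dvd_or_dvd x.2.2).resolve_right n1⟩⟩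
    simp only [ww, e, n2, n3]
  · obtain ⟨P, a, b, c, c'⟩ := common hd hc
    have n1 : ¬ P ∣ K := not_dvd hKM.symm b c'
    have n3 : ¬ P ∣ 1 := b.not_dvd_one
    have e : P ∈ pf (K * D₁ * (D₂ * M)) :=
      (mem_pf m2.ne_zero).2 ⟨a, b, (c'.mul_left _).mul_left _⟩
    rw [Finset.prod_eq_zero ((mem_pf hd.ne_zero).2 ⟨a, b, c⟩) (by simp [ww, e, n1, n3])]
    simp [ind_neg hc]

theorem expand {h M : F[X]} (hM : M.Monic) (hh : ∀ P : F[X], Irreducible P → P ∣ h → P ∣ M)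
    {N R i i' : ℕ} (hN : R + i' + R + i ≤ N) {k₁ : F[X] → ℝ}
    (hk : ∀ K, k₁ K ≠ 0 → IsCoprime K M) (k₂ : F[X] → ℝ) :
    mcorr h N (trG M k₁ R i) (trG M k₂ R i') = SS h N R i' k₁ k₂ fun K D₁ D₂ =>
      ind (IsCoprime D₁ M) * cc (pf (K * D₁ * (D₂ * M))) (ww 1 K) i := by
  have e : ∀ f : F[X], trG M k₁ R i f * trG M k₂ R i' (f + h) = ∑ x ∈ ix F R i',
      k₁ x.1.2 * mu x.2.1 * k₂ x.2.2.2 * ind (IsCoprime x.2.1 M) *
        (ind (x.1.2 ∣ f) * ind (x.2.1 ∣ f + h) * ind (x.2.2.2 ∣ f + h) *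
          up (fun d => mu d * ind (IsCoprime d M)) i f) := fun f => by
    have u : ∀ (k : F[X] → ℝ) (g : F[X]), upLE k R g = ∑ a ∈ sg F R, ind (a.2 ∣ g) * k a.2 :=
      fun k g => by rw [sg, sum_sigma]; rfl
    rw [trG, trG, u, u, up.eq_1 _ i', sum_mul_sum, ← sum_product', mul_assoc, sum_mul_sum,
      ← sum_product', mul_sum]
    exact sum_congr rfl fun x _ => by ring
  simp only [mcorr, e]
  rw [expect_sum_comm]
  refine sum_congr rfl fun x hx => ?_
  obtain ⟨⟨a, a'⟩, ⟨b, b'⟩, c, c'⟩ := mem_ix hx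
  rw [← mul_expect]
  by_cases h0 : k₁ x.1.2 = 0
  · simp [h0]
  · rw [cond hM hh a b c (hk _ h0) (by omega)]
    ring

theorem NN_bd {M : F[X]} (hM : M.Monic) {n R i j : ℕ} (hMn : M.natDegree ≤ n) (hR : 2 * R ≤ j)
    (hRn : R ≤ n) (hi : i ≤ n) {τ : ℝ} (hτ : DivB F τ (5 * n))
    {x : (Σ _ : ℕ, F[X]) × F[X] × (Σ _ : ℕ, F[X])} (hx : x ∈ ix F R i) :
    (3 / 4) ^ j * NN (pf (x.1.2 * x.2.1 * (x.2.2.2 * M))) (ww 1 x.1.2) ≤ τ ^ 2 * (3 / 4) ^ R := by
  obtain ⟨⟨a, a'⟩, ⟨b, b'⟩, c, c'⟩ := mem_ix hx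
  have e : (3 / 4 : ℝ) ^ R * (4 / 3) ^ R = 1 := by rw [← mul_pow]; norm_num
  have h1 := NN_le (h := 1) one_ne_zero a b (c.mul hM) hτ (by rw [c.natDegree_mul hM]; omega)
  rw [natDegree_one, add_zero] at h1
  calc _ ≤ (3 / 4 : ℝ) ^ j * (τ ^ 2 * (4 / 3) ^ x.1.2.natDegree) :=
        mul_le_mul_of_nonneg_left h1 (by positivity)
    _ ≤ (3 / 4 : ℝ) ^ (R + R) * (τ ^ 2 * (4 / 3) ^ R) := by
        gcongr ?_ * (_ * ?_)
        · exact pow_le_pow_of_le_one (by norm_num) (by norm_num) (by omega)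
        · exact pow_le_pow_right₀ (by norm_num) (by omega)
    _ = _ := by
        rw [pow_add]
        linear_combination τ ^ 2 * (3 / 4) ^ R * e

theorem SS_euM (h : F[X]) {M : F[X]} (hM : M.Monic) (N R i : ℕ) {k₁ k₁' : F[X] → ℝ}
    (e : k₁ 1 = k₁' 1) (k₂ : F[X] → ℝ) :
    SS h N R i k₁ k₂ (euM M) = SS h N R i k₁' k₂ (euM M) := sum_congr rfl fun x hx => by
  obtain ⟨⟨a, -⟩, ⟨b, -⟩, c, -⟩ := mem_ix hx
  by_cases h1 : x.1.2 = 1
  · rw [h1, e]
  · rw [euM, eu_zero 1 a b (c.mul hM) h1]; simp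

theorem approx {h M : F[X]} (hM : M.Monic) (hh : ∀ P : F[X], Irreducible P → P ∣ h → P ∣ M)
    {n R : ℕ} (hMn : M.natDegree ≤ n) (hn : 2 ≤ n) (hhn : h.natDegree ≤ n)
    (hR1 : 1 ≤ R) (hR : 2 * R ≤ n) {τ B : ℝ} (hτ : DivB F τ (5 * n)) {k₁ k₂ : F[X] → ℝ}
    (hk : ∀ K, k₁ K ≠ 0 → IsCoprime K M)
    (h₁ : ∀ K : F[X], K.Monic → K.natDegree ≤ n → |k₁ K| ≤ B)
    (h₂ : ∀ K : F[X], K.Monic → K.natDegree ≤ n → |k₂ K| ≤ B) :
    |∑ i ∈ range (2 * R), ∑ i' ∈ range (2 * R), ((n : ℝ) - i) * ((n : ℝ) - i') *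
      mcorr h (5 * n) (trG M k₁ R i) (trG M k₂ R i') -
      ∑ i' ∈ range (2 * R), ((n : ℝ) - i') * SS h (5 * n) R i' k₁ k₂ (euM M)| ≤
      6 * n ^ 3 * B ^ 2 * τ ^ 5 * (3 / 4) ^ R := by
  have t0 : 0 ≤ τ := zero_le_one.trans hτ.one_le
  rw [sum_comm, ← sum_sub_distrib]
  refine (abs_sum_le_sum_abs _ _).trans ((sum_le_card_nsmul _ _ (n * (B ^ 2 *
    (3 * n * (τ ^ 2 * (3 / 4) ^ R)) * (2 * τ ^ 3))) fun j hj => ?_).trans ?_)
  · have hj := mem_range.1 hj
    have e : ∑ i ∈ range (2 * R), ((n : ℝ) - i) * ((n : ℝ) - j) *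
        mcorr h (5 * n) (trG M k₁ R i) (trG M k₂ R j) -
          ((n : ℝ) - j) * SS h (5 * n) R j k₁ k₂ (euM M) =
        ((n : ℝ) - j) * SS h (5 * n) R j k₁ k₂ fun K D₁ D₂ => ind (IsCoprime D₁ M) *
          (∑ i ∈ range (2 * R), ((n : ℝ) - i) * cc (pf (K * D₁ * (D₂ * M))) (ww 1 K) i -
            eu 1 K D₁ (D₂ * M)) := by
      rw [sum_congr rfl fun i hi => by
        rw [expand hM hh (i := i) (by have := mem_range.1 hi; omega) hk]]
      simp only [SS, euM, mul_sum]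
      rw [sum_comm, ← sum_sub_distrib]
      refine sum_congr rfl fun x _ => ?_
      simp only [mul_sub _ (∑ i ∈ range (2 * R), _), mul_sum]
      congr 1
      exact sum_congr rfl fun i _ => by ring
    have j1 : (j : ℝ) ≤ n := by exact_mod_cast (by omega : j ≤ n)
    rw [e, abs_mul, abs_of_nonneg (sub_nonneg.2 j1)]
    refine mul_le_mul (sub_le_self _ j.cast_nonneg) (abs_SS hn hhn (by omega) (by omega) hτ h₁ h₂
      (by positivity) fun x hx => abs_ind_mul _ ?_) (abs_nonneg _) n.cast_nonneg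
    obtain ⟨⟨a, -⟩, ⟨b, -⟩, c, -⟩ := mem_ix hx
    refine (cc_abel (pf_irr a b (c.mul hM)) _ (by omega) hR).trans ?_
    rw [mul_assoc]
    exact mul_le_mul_of_nonneg_left (NN_bd hM hMn le_rfl (by omega) (by omega) hτ hx)
      (by positivity)
  · have : ((2 * R : ℕ) : ℝ) ≤ n := by exact_mod_cast hR
    rw [card_range, nsmul_eq_mul]
    refine (mul_le_mul_of_nonneg_right this (by positivity)).trans (le_of_eq ?_)
    ring

theorem main_eq (h : F[X]) {M : F[X]} (hM : M.Monic) {n R I N : ℕ} (hN : I ≤ N) :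
    ∑ j ∈ range I, ((n : ℝ) - j) * SS h N R j dl dl (euM M) = (VS (pf M))⁻¹ * mainT M n I := by
  classical
  rw [mainT, mul_sum]
  refine sum_congr rfl fun j hj => ?_
  rw [mul_left_comm]
  refine congrArg _ ?_
  have hj := mem_range.1 hj
  have e : SS h N R j dl dl (euM M) = ∑ a ∈ sg F R, dl a.2 * ∑ d ∈ monF F j, ∑ b ∈ sg F R,
      dl b.2 * (mu d * (ev h N a.2 d b.2 * euM M a.2 d b.2)) := by
    simp only [SS, ix, sum_product, mul_sum]
    exact sum_congr rfl fun a _ => sum_congr rfl fun d _ => sum_congr rfl fun b _ => by ring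
  rw [e, sum_dl R fun K => ∑ d ∈ monF F j, ∑ b ∈ sg F R,
    dl b.2 * (mu d * (ev h N K d b.2 * euM M K d b.2)), mul_sum]
  refine sum_congr rfl fun d hd => ?_
  obtain ⟨m, hd⟩ := mem_monF.1 hd
  rw [sum_dl R fun D => mu d * (ev h N 1 d D * euM M 1 d D), mul_left_comm (VS (pf M))⁻¹]
  by_cases hs : Squarefree d
  swap
  · simp [mu, hs]
  refine congrArg _ ?_
  by_cases hc : IsCoprime d M
  · have a := expect_lin m isCoprime_one_left h (n := N) (by omega)
    simp only [one_mul] at a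
    have hu : pf (d * M) = pf d ∪ pf M := by
      ext P
      rw [mem_union, mem_pf (m.mul hM).ne_zero, mem_pf m.ne_zero, mem_pf hM.ne_zero]
      exact ⟨fun x => (x.2.1.prime.dvd_or_dvd x.2.2).imp (fun y => ⟨x.1, x.2.1, y⟩)
        fun y => ⟨x.1, x.2.1, y⟩, fun x => x.elim (fun y => ⟨y.1, y.2.1, y.2.2.mul_right _⟩)
          fun y => ⟨y.1, y.2.1, y.2.2.mul_left _⟩⟩
    have hd' : Disjoint (pf d) (pf M) := disjoint_left.2 fun P h1 h2 =>
      not_dvd hc ((mem_pf m.ne_zero).1 h1).2.1 ((mem_pf m.ne_zero).1 h1).2.2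
        ((mem_pf hM.ne_zero).1 h2).2.2
    simp only [ev, euM, eu, ind_pos (one_dvd _), ind_pos hc, one_mul, mul_one]
    rw [a, qq_sqfree m hs, one_div, ← prod_inv_distrib, hu, prod_union hd', ← mul_assoc,
      ← prod_mul_distrib, mul_comm, VS, ← prod_inv_distrib]
    congr 1
    · refine prod_congr rfl fun P hP => ?_
      have : ¬ P ∣ 1 := ((mem_pf hM.ne_zero).1 hP).2.1.not_dvd_one
      simp [ww, this]
    · refine prod_congr rfl fun P hP => ?_
      obtain ⟨-, b, c⟩ := (mem_pf m.ne_zero).1 hP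
      have : ¬ P ∣ 1 := b.not_dvd_one
      have q := qq_pos (F := F) P.natDegree
      simp only [ww, not_dvd hc b c, this, or_self, if_false, sub_zero]
      rw [← one_div, one_div_mul_one_div, mul_sub, mul_one, mul_one_div_cancel q.ne']
  · obtain ⟨P, a, b, c, c'⟩ := common m hc
    rw [Finset.prod_eq_zero ((mem_pf m.ne_zero).2 ⟨a, b, c⟩) (by simp [c'])]
    simp [euM, ind_neg hc]

theorem small {h M : F[X]} (hM : M.Monic) (hh : ∀ P : F[X], Irreducible P → P ∣ h → P ∣ M)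
    {n R i i' : ℕ} (hMn : M.natDegree ≤ n) (hn : 2 ≤ n) (hhn : h.natDegree ≤ n)
    (hi : i ≤ n) (hi' : i' ≤ n) (hR : 2 * R ≤ i) {τ B : ℝ} (hτ : DivB F τ (5 * n))
    {κ : F[X] → ℝ} (hk : ∀ K, κ K ≠ 0 → IsCoprime K M)
    (hκ : ∀ K : F[X], K.Monic → K.natDegree ≤ n → |κ K| ≤ B) :
    |mcorr h (5 * n) (trG M κ R i) (trG M κ R i')| ≤ 6 * B ^ 2 * τ ^ 5 * (3 / 4) ^ R := by
  rw [expand hM hh (by omega) hk]
  refine (abs_SS (C := 3 * (τ ^ 2 * (3 / 4) ^ R)) hn hhn (by omega) hi' hτ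
    hκ hκ (by positivity) fun x hx => abs_ind_mul _ ?_).trans (le_of_eq (by ring))
  obtain ⟨⟨a, -⟩, ⟨b, -⟩, c, -⟩ := mem_ix hx
  refine (abs_cc_le (pf_irr a b (c.mul hM)) _ _).trans ?_
  rw [mul_assoc]
  exact mul_le_mul_of_nonneg_left (NN_bd hM hMn hR (by omega) hi' hτ hx) (by norm_num)

end RestrX

variable (F : Type) [Field F] [Fintype F] [CharP F 2]

open RestrX in
theorem sRestr : SRestr F := by
  intro h M κ n R τ B hM hMn hh hn hhn hR1 hR hτ hκ hκ1
  have e0 : ∀ i, trM M κ R i = trG M (fun K => κ K * ind (IsCoprime K M)) R i := fun _ => rfl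
  simp only [e0]
  have hk : ∀ K, κ K * ind (IsCoprime K M) ≠ 0 → IsCoprime K M := fun K hK => by
    by_contra hc
    exact hK (by rw [ind_neg hc, mul_zero])
  have hκ' : ∀ K : F[X], K.Monic → K.natDegree ≤ n → |κ K * ind (IsCoprime K M)| ≤ B :=
    fun K h1 h2 => by
      rw [mul_comm]
      exact abs_ind_mul _ (hκ K h1 h2)
  have hN : h.degree < (5 * n : ℕ) := degree_le_natDegree.trans_lt (by exact_mod_cast (by omega))
  constructor
  · intro i i' hi hi' hor
    rcases hor with h1 | h1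
    · exact small hM hh hMn hn hhn hi hi' h1 hτ hk hκ'
    · rw [mcorr_comm hN]
      exact small hM hh hMn hn hhn hi' hi h1 hτ hk hκ'
  · have hB : 1 ≤ B := by simpa [hκ1] using hκ 1 monic_one (by simp)
    have hd : ∀ K : F[X], K.Monic → K.natDegree ≤ n → |TMain.dl K| ≤ B := fun K _ _ => by
      unfold TMain.dl; split_ifs
      · simpa using hB
      · simpa using zero_le_one.trans hB
    have hd' : ∀ K : F[X], TMain.dl K ≠ 0 → IsCoprime K M := fun K hK => by
      unfold TMain.dl at hK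
      split_ifs at hK with h1
      · rw [h1]
        exact isCoprime_one_left
      · exact absurd rfl hK
    have e : (fun K => κ K * ind (IsCoprime K M)) 1 = TMain.dl (1 : F[X]) := by
      simp [TMain.dl, hκ1, ind_pos (isCoprime_one_left (x := M))]
    have a := approx hM hh hMn hn hhn hR1 hR hτ hk hκ' hκ'
    have b := approx hM hh hMn hn hhn hR1 hR hτ hd' hd hκ'
    have c := approx hM hh hMn hn hhn hR1 hR hτ hk hκ' hd
    simp only [SS_euM h hM _ _ _ (k₁ := fun K => κ K * ind (IsCoprime K M)) e] at a c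
    rw [main_eq h hM (by omega)] at c
    rw [sum_comm, sum_congr rfl fun i _ => sum_congr rfl fun j _ => by
      rw [mcorr_comm hN, mul_comm ((n : ℝ) - j)]] at b
    rw [abs_le] at a b c ⊢
    constructor <;> linarith [a.1, a.2, b.1, b.2, c.1, c.2]

end Pool.Agent.PPf

end

section

/- Prime pairs over `F[X]`: mean values of the majorant of the sieve weight. -/

set_option autoImplicit false
set_option linter.unusedSectionVars false

namespace Pool.Agent.PPf

open Polynomial Finset Pool.Agent.MP_4fffd4_nt Pool.Agent.MP_c853c5_nt Pool.Agent.MP_43e117_nt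
open scoped BigOperators

namespace GGX

open TMass

variable {F : Type} [Field F] [Fintype F]

open Classical in
/-- The weight that vanishes at the primes of `W`. -/
noncomputable def wz (W : F[X]) (w : F[X] → ℝ) (P : F[X]) : ℝ := if P ∣ W then 0 else w P

theorem ind_cm {W e : F[X]} (he : e ≠ 0) {w : F[X] → ℝ} (hw : ∀ P, 0 ≤ w P) :
    ind (IsCoprime e W) * cm w e ≤ cm (wz W w) e := by
  classical
  have h0 : ∀ P, 0 ≤ wz W w P := fun P => by
    unfold wz
    split_ifs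
    exacts [le_rfl, hw P]
  by_cases hc : IsCoprime e W
  · rw [ind_pos hc, one_mul]
    refine le_of_eq ?_
    unfold cm
    congr 1
    refine Multiset.map_congr rfl fun P hP => ?_
    have h1 := (mem_pf he).1 (show P ∈ pf e from by
      unfold pf
      exact Multiset.mem_toFinset.2 hP)
    unfold wz
    rw [if_neg fun h2 => h1.2.1.not_isUnit (hc.isUnit_of_dvd' h1.2.2 h2)]
  · have : ind (IsCoprime e W) = 0 := by
      unfold ind
      rw [if_neg hc]
    rw [this, zero_mul]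
    unfold cm
    exact Multiset.prod_nonneg fun x hx => by
      obtain ⟨P, -, rfl⟩ := Multiset.mem_map.1 hx
      exact h0 P

theorem out_deg {W P : F[X]} {y S : ℕ}
    (hW : ∀ P : F[X], Irreducible P → P.natDegree ≤ 15 → P ∣ W) (h2 : y / 2 ^ S ≤ 15)
    (hm : P.Monic) (hP : Irreducible P) (hd : ¬ P ∣ W) (hb : ¬ ∃ s ∈ range S, P ∈ bl W y s) :
    y < P.natDegree := by
  by_contra hne
  have h3 : ¬ P.natDegree ≤ 15 := fun h => hd (hW P hP h)
  obtain ⟨s, hs, h8⟩ := cover (show P.natDegree ≤ y by omega) S (by omega)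
  exact hb ⟨s, mem_range.2 hs, mem_blk.2 ⟨hm, hP, h8.1, h8.2, hd⟩⟩

theorem sum_cmz {W : F[X]} (hW : ∀ P : F[X], Irreducible P → P.natDegree ≤ 15 → P ∣ W)
    {y S D m n : ℕ} (h1 : 8 ≤ y / 2 ^ S) (h2 : y / 2 ^ S ≤ 15) (hm : m ≤ n) (hn : n ≤ D * y)
    (σ : Finset ℕ) :
    (m : ℝ) * ∑ e ∈ monF F m,
        ind (IsCoprime e W) * cm (ww W y S fun s => if s ∈ σ then 3 else 0) e ≤
      5 * qq F m * Real.exp (2 * (3 * σ.card + D)) := by
  classical
  set c : ℕ → ℝ := fun s => if s ∈ σ then 3 else 0 with hc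
  have c0 : ∀ s, 0 ≤ c s := fun s => by simp only [hc]; split_ifs <;> norm_num
  have c3 : ∀ s, c s ≤ 3 := fun s => by simp only [hc]; split_ifs <;> norm_num
  have hb : ∀ P s, s ∈ range S → P ∈ bl W y s → 8 < P.natDegree := fun P s hs hP => by
    have := div_anti y (show s + 1 ≤ S from mem_range.1 hs)
    have := (mem_blk.1 hP).2.2.1
    omega
  have w0 : ∀ P, 0 ≤ ww W y S c P := fun P => by
    rcases ww_cases W y S c P with ⟨-, H⟩ | ⟨s, -, -, H⟩ <;> rw [H]
    exacts [zero_le_one, c0 s]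
  have z0 : ∀ P, 0 ≤ wz W (ww W y S c) P := fun P => by
    unfold wz
    split_ifs
    exacts [le_rfl, w0 P]
  have zl : ∀ P, wz W (ww W y S c) P ≤ ww W y S c P := fun P => by
    unfold wz
    split_ifs
    exacts [w0 P, le_rfl]
  refine le_trans (mul_le_mul_of_nonneg_left (sum_le_sum fun e he =>
    ind_cm (mem_monF.1 he).1.ne_zero w0) (Nat.cast_nonneg m)) ?_
  refine (hall_ten z0 (fun P => (zl P).trans ?_) (fun P hP => (zl P).trans ?_) hm).trans
    (mul_le_mul_of_nonneg_left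
    ((prod_inv_le_exp _ _ fun P hP => ⟨div_nonneg (z0 P) (qq_pos _).le,
      (div_le_div_of_nonneg_right (zl P) (qq_pos _).le).trans ?_⟩).trans
      (Real.exp_le_exp.2 (mul_le_mul_of_nonneg_left ?_ zero_le_two)))
    (mul_nonneg (by norm_num) (qq_pos _).le))
  · rcases ww_cases W y S c P with ⟨-, H⟩ | ⟨s, -, -, H⟩ <;> rw [H]
    exacts [by norm_num, c3 s]
  · rcases ww_cases W y S c P with ⟨-, H⟩ | ⟨s, hs, h3, -⟩
    · exact H.le
    · have := hb P s hs h3
      omega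
  · rcases ww_cases W y S c P with ⟨-, H⟩ | ⟨s, hs, h3, H⟩ <;> rw [H]
    · exact inv_le_half (mem_irrLE.1 hP).2.1
    · rw [div_le_div_iff₀ (qq_pos _) two_pos]
      have h4 : (2 : ℝ) ^ 8 ≤ qq F P.natDegree :=
        (pow_le_pow_right₀ one_le_two (hb P s hs h3).le).trans (two_pow_le_qq _)
      have := c3 s
      linarith
  · have e1 : ∑ s ∈ σ, ∑ P ∈ irrLE F n, (if P ∈ bl W y s then 3 * (1 / qq F P.natDegree) else 0) ≤
        3 * σ.card := by
      calc _ ≤ ∑ _s ∈ σ, (3 : ℝ) := sum_le_sum fun s _ => by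
            rw [← sum_filter, ← mul_sum]
            have := (sum_le_sum_of_subset_of_nonneg
              (show (irrLE F n).filter (· ∈ bl W y s) ⊆ bl W y s from
                fun P hP => (mem_filter.1 hP).2) fun P _ _ => inv_nonneg' P.natDegree).trans
              (sum_bl W y s)
            linarith
        _ = _ := by rw [sum_const, nsmul_eq_mul, mul_comm]
    have e3 : ∑ P ∈ irrLE F n with y < P.natDegree, 1 / qq F P.natDegree ≤ D := by
      refine (sum_deg (a := y) (b := n) fun P hP => ?_).trans ?_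
      · obtain ⟨h3, h4⟩ := mem_filter.1 hP
        obtain ⟨h5, h6, h7⟩ := mem_irrLE.1 h3
        exact ⟨h5, h6, h4, h7⟩
      · rw [div_le_iff₀ (by positivity)]
        exact_mod_cast ((Nat.sub_le n y).trans hn).trans (Nat.mul_le_mul_left _ (Nat.le_succ y))
    refine le_trans ?_ (add_le_add e1 e3)
    rw [sum_comm, sum_filter, ← sum_add_distrib]
    refine sum_le_sum fun P hP => ?_
    obtain ⟨h5, h6, -⟩ := mem_irrLE.1 hP
    have h0 := inv_nonneg' (F := F) P.natDegree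
    have h3 : ∀ s ∈ σ, 0 ≤ if P ∈ bl W y s then 3 * (1 / qq F P.natDegree) else 0 :=
      fun s _ => by split_ifs <;> linarith
    have h7 : 0 ≤ if y < P.natDegree then 1 / qq F P.natDegree else 0 := by
      split_ifs <;> linarith
    unfold wz
    by_cases hd : P ∣ W
    · rw [if_pos hd, zero_div]
      linarith [sum_nonneg h3]
    rw [if_neg hd]
    rcases ww_cases W y S c P with ⟨H', H⟩ | ⟨s, hs, h4, H⟩ <;> rw [H]
    · rw [if_pos (out_deg hW h2 h5 h6 hd H')]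
      linarith [sum_nonneg h3]
    · refine le_trans ?_ (le_add_of_nonneg_right h7)
      by_cases h5 : s ∈ σ
      · refine le_trans (le_of_eq ?_) (single_le_sum h3 h5)
        rw [if_pos h4, hc]
        simp only [if_pos h5]
        ring
      · simp only [hc, if_neg h5, zero_div]
        exact sum_nonneg h3

theorem sum_GGz {W : F[X]} (hW : ∀ P : F[X], Irreducible P → P.natDegree ≤ 15 → P ∣ W)
    {y S D m n : ℕ} (h1 : 8 ≤ y / 2 ^ S) (h2 : y / 2 ^ S ≤ 15) (hm : m ≤ n) (hn : n ≤ D * y) :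
    (m : ℝ) * ∑ e ∈ monF F m, ind (IsCoprime e W) * GG W y S e ≤
      5 * Real.exp (Real.exp 14 + 2 * D) * qq F m := by
  have hq := qq_pos (F := F) m
  simp only [GG_eq, mul_sum, mul_left_comm (ind _)]
  rw [sum_comm]
  calc _ ≤ ∑ σ ∈ (range S).powerset, (5 * qq F m * Real.exp (2 * D)) *
          ∏ s ∈ σ, Real.exp 14 * (1 / 2 ^ (2 * s + 3)) := by
        refine sum_le_sum fun σ _ => ?_
        rw [← mul_sum, ← mul_sum, mul_left_comm]
        refine (mul_le_mul_of_nonneg_left (sum_cmz hW h1 h2 hm hn σ)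
          (prod_nonneg fun s _ => by positivity)).trans (le_of_eq ?_)
        have e : ∏ s ∈ σ, Real.exp 14 * (1 / 2 ^ (2 * s + 3)) =
            (∏ s ∈ σ, Real.exp 8 / 2 ^ (2 * s + 3)) * Real.exp (σ.card * 6) := by
          rw [Real.exp_nat_mul, ← prod_const, ← prod_mul_distrib]
          refine prod_congr rfl fun s _ => ?_
          rw [show (14 : ℝ) = 8 + 6 by norm_num, Real.exp_add]
          ring
        rw [e, show 2 * (3 * (σ.card : ℝ) + D) = 2 * D + σ.card * 6 by ring, Real.exp_add]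
        ring
    _ = (5 * qq F m * Real.exp (2 * D)) *
          ∏ s ∈ range S, (1 + Real.exp 14 * (1 / 2 ^ (2 * s + 3))) := by
        rw [← mul_sum, prod_one_add]
    _ ≤ (5 * qq F m * Real.exp (2 * D)) * Real.exp (Real.exp 14) := by
        refine mul_le_mul_of_nonneg_left ?_ (by positivity)
        calc _ ≤ ∏ s ∈ range S, Real.exp (Real.exp 14 * (1 / 2 ^ (2 * s + 3))) :=
              prod_le_prod (fun s _ => by positivity) fun s _ => by
                rw [add_comm]; exact Real.add_one_le_exp _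
          _ ≤ _ := by
              rw [← Real.exp_sum, ← mul_sum]
              exact Real.exp_le_exp.2 (mul_le_of_le_one_right (Real.exp_pos _).le (sum_pow S))
    _ = _ := by rw [Real.exp_add]; ring

theorem prod_VSz {W : F[X]} (h0 : W ≠ 0)
    (hW : ∀ P : F[X], Irreducible P → P.natDegree ≤ 15 → P ∣ W) {y S : ℕ} (hy : W.natDegree ≤ y)
    (h2 : y / 2 ^ S ≤ 15) :
    (y : ℝ) * ∏ s ∈ range S, VS (bl W y s) ≤ (VS (pf W))⁻¹ := by
  classical
  have hr : rest W y S y = pf W := by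
    ext P
    unfold rest
    rw [mem_filter, mem_irrLE, mem_pf h0]
    constructor
    · rintro ⟨⟨a, b, c⟩, d⟩
      refine ⟨a, b, ?_⟩
      by_contra hd
      have := out_deg hW h2 a b hd d
      omega
    · rintro ⟨a, b, c⟩
      refine ⟨⟨a, b, (natDegree_le_of_dvd c h0).trans hy⟩, ?_⟩
      rintro ⟨s, -, hs⟩
      exact (mem_blk.1 hs).2.2.2.2 c
  have e1 : VS (irrLE F y) = (∏ s ∈ range S, VS (bl W y s)) * VS (rest W y S y) := by
    unfold VS rest
    rw [← prod_biUnion fun s _ t _ hst => disjoint_left.2 fun P h3 h4 => hst (bl_unique h3 h4),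
      ← prod_filter_mul_prod_filter_not (irrLE F y) fun P => ∃ s ∈ range S, P ∈ bl W y s]
    congr 2
    ext P
    rw [mem_filter, mem_biUnion]
    refine ⟨fun H => H.2, fun H => ⟨?_, H⟩⟩
    obtain ⟨s, -, hs⟩ := H
    obtain ⟨h3, h4, -, h5, -⟩ := mem_blk.1 hs
    exact mem_irrLE.2 ⟨h3, h4, h5.trans (Nat.div_le_self _ _)⟩
  rw [hr] at e1
  have e2 : 0 < VS (pf W) := prod_pos fun P hP => by
    linarith [inv_le_half ((mem_pf h0).1 hP).2.1]
  have e4 : 0 ≤ ∏ s ∈ range S, VS (bl W y s) := prod_nonneg fun s _ => prod_nonneg fun P hP => by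
    linarith [inv_le_half (mem_blk.1 hP).2.1]
  have e5 := mertens (F := F) y
  rw [e1, ← mul_assoc, ← le_div_iff₀ e2, one_div] at e5
  nlinarith

end GGX

variable (F : Type) [Field F] [Fintype F] [CharP F 2]

theorem sGG : SGG F := fun _ _ _ _ _ _ h0 hW hy h1 h2 hm hn =>
  ⟨GGX.sum_GGz hW h1 h2 hm hn, GGX.prod_VSz h0 hW hy h2⟩

end Pool.Agent.PPf

end

section

/- Prime pairs over `F[X]`: the regions of the decomposition, with a weight. -/

set_option autoImplicit false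
set_option linter.unusedSectionVars false

namespace Pool.Agent.PPf

open Polynomial Finset Pool.Agent.MP_4fffd4_nt Pool.Agent.MP_c853c5_nt Pool.Agent.MP_43e117_nt
open scoped BigOperators

namespace CaseX

open TReg

variable {F : Type} [Field F] [Fintype F] {h : F[X]} {n : ℕ} {Ψ : F[X] → ℝ}

theorem tw_sum {ι : Type*} (s : Finset ι) (Ψ : F[X] → ℝ) (Φ : ι → F[X] → ℝ) :
    (tw Ψ fun f => ∑ x ∈ s, Φ x f) = fun f => ∑ x ∈ s, tw Ψ (Φ x) f :=
  funext fun f => by simp only [tw, Finset.mul_sum]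

theorem tw_mul (c : ℝ) (Ψ Φ : F[X] → ℝ) : (tw Ψ fun f => c * Φ f) = fun f => c * tw Ψ Φ f :=
  funext fun f => by simp only [tw]; ring

theorem abs_tw (hΨ : ∀ f ∈ monF F n, |Ψ f| ≤ 1) {A : F[X] → ℝ} {c : ℝ} {f : F[X]}
    (hf : f ∈ monF F n) (H : |A f| ≤ c) : |tw Ψ A f| ≤ c := by
  rw [tw, abs_mul]
  exact (mul_le_of_le_one_left (abs_nonneg _) (hΨ f hf)).trans H

theorem abs_tw_sub (hΨ : ∀ f ∈ monF F n, |Ψ f| ≤ 1) {A B : F[X] → ℝ} {c : ℝ} {f : F[X]}
    (hf : f ∈ monF F n) (H : |A f - B f| ≤ c) : |tw Ψ A f - tw Ψ B f| ≤ c := by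
  rw [tw, tw, ← mul_sub, abs_mul]
  exact (mul_le_of_le_one_left (abs_nonneg _) (hΨ f hf)).trans H

variable {R T G E' E : ℕ} {Q δ : ℝ} {ν κ : F[X] → ℝ}

theorem regA [CharP F 2] (hn : h.degree < n) (hδ : 0 ≤ δ) (hE : EstW Ψ h n G E' E δ)
    (hΨ : ∀ f ∈ monF F n, |Ψ f| ≤ 1)
    (hν : Lev n R Q ν κ) (hτ : DivB F Q n) (hQ : (n : ℝ) + 2 ≤ Q) {i i' : ℕ}
    (hi : i + (R + 2 * T) ≤ n) (hi' : i' + (R + 2 * T) ≤ n)
    (hc : i + i' + 2 * (R + 2 * T) + E' ≤ n ∨
      (2 * (i + (R + 2 * T)) ≤ n + G ∧ 2 * (i' + (R + 2 * T)) ≤ n + G)) :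
    |corr h n (tw Ψ (nl ν i)) (nl ν i') -
      qq F n * mcorr h (5 * n) (tw Ψ (tr κ (R + 2 * T) i)) (tr κ (R + 2 * T) i')| ≤
      Q ^ 6 * δ + 4 * Q ^ 4 * (2 * qq F n / qq F T) := by
  have hQ0 : 0 < Q := one_pos.trans_le hτ.one_le
  have h1 := pert_left hn (by positivity) (by positivity) (fun f hf => abs_nl_le hν hτ i' hf)
    fun f hf => abs_tw_sub hΨ hf (nl_sub_tr (T := T) hν hτ i hf)
  have h2 := pert_right hn (by positivity) (by positivity)
    (fun f hf => abs_tw hΨ hf (abs_tr_le hν hτ (R + 2 * T) i hf))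
    fun f hf => nl_sub_tr (T := T) hν hτ i' hf
  have h3 : |corr h n (tw Ψ (tr κ (R + 2 * T) i)) (tr κ (R + 2 * T) i') -
      qq F n * mcorr h (5 * n) (tw Ψ (tr κ (R + 2 * T) i)) (tr κ (R + 2 * T) i')| ≤
      Q ^ 6 * δ := by
    obtain ⟨c, a1, a2⟩ := tr_eq hν hτ hi
    obtain ⟨c', a1', a2'⟩ := tr_eq hν hτ hi'
    have e : corr h n (tw Ψ (tr κ (R + 2 * T) i)) (tr κ (R + 2 * T) i') -
        qq F n * mcorr h (5 * n) (tw Ψ (tr κ (R + 2 * T) i)) (tr κ (R + 2 * T) i') =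
        ∑ t ∈ range (R + 2 * T + 1), ∑ t' ∈ range (R + 2 * T + 1), Q ^ 4 *
          (corr h n (tw Ψ (up c (i + t))) (up c' (i' + t')) -
            qq F n * mcorr h (5 * n) (tw Ψ (up c (i + t))) (up c' (i' + t'))) := by
      rw [a2, a2', tw_sum, corr_sum_left]
      simp only [tw_mul, corr_sum_right, corr_mul_left, corr_mul_right, mcorr, Finset.sum_mul_sum,
        Finset.expect_sum_comm]
      simp only [mul_sub, Finset.sum_sub_distrib, Finset.mul_sum, Finset.mul_expect]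
      congr 1
      · exact Finset.sum_congr rfl fun _ _ => Finset.sum_congr rfl fun _ _ => by ring
      · exact Finset.sum_congr rfl fun _ _ => Finset.sum_congr rfl fun _ _ =>
          Finset.expect_congr rfl fun _ _ => by ring
    have hR : ((R + 2 * T + 1 : ℕ) : ℝ) ≤ Q := le_trans (by exact_mod_cast (by omega)) hQ
    rw [e]
    refine (Finset.abs_sum_le_sum_abs _ _).trans ((Finset.sum_le_card_nsmul _ _
      (Q * (Q ^ 4 * δ)) fun t ht => (Finset.abs_sum_le_sum_abs _ _).trans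
        ((Finset.sum_le_card_nsmul _ _ (Q ^ 4 * δ) fun t' ht' => ?_).trans ?_)).trans ?_)
    · rw [abs_mul, abs_of_pos (by positivity)]
      have := mem_range.1 ht
      have := mem_range.1 ht'
      exact mul_le_mul_of_nonneg_left (hE.K _ _ _ _ (a1 t ht) (a1' t' ht') (by omega))
        (by positivity)
    · rw [card_range, nsmul_eq_mul]
      gcongr
    · rw [card_range, nsmul_eq_mul]
      calc _ ≤ Q * (Q * (Q ^ 4 * δ)) := by gcongr
        _ = _ := by ring
  have h4 := abs_sub_le (corr h n (tw Ψ (nl ν i)) (nl ν i'))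
    (corr h n (tw Ψ (tr κ (R + 2 * T) i)) (nl ν i'))
    (qq F n * mcorr h (5 * n) (tw Ψ (tr κ (R + 2 * T) i)) (tr κ (R + 2 * T) i'))
  have h5 := abs_sub_le (corr h n (tw Ψ (tr κ (R + 2 * T) i)) (nl ν i'))
    (corr h n (tw Ψ (tr κ (R + 2 * T) i)) (tr κ (R + 2 * T) i'))
    (qq F n * mcorr h (5 * n) (tw Ψ (tr κ (R + 2 * T) i)) (tr κ (R + 2 * T) i'))
  linarith [show Q * Q * (2 * (Q * Q)) * (2 * qq F n / qq F T) =
    2 * Q ^ 4 * (2 * qq F n / qq F T) by ring]

variable {ι : Type} {Z : Finset ι} {a b α : ι → F[X] → ℝ}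

theorem regU [CharP F 2] (hn : h.degree < n) (hδ : 0 ≤ δ) (hE : EstW Ψ h n G E' E δ)
    (hΨ : ∀ f ∈ monF F n, |Ψ f| ≤ 1)
    (hs : Sieve n R Q ν κ Z a b α) (hτ : DivB F Q n) (hQ : (n : ℝ) + 2 ≤ Q) {i i' : ℕ}
    (hi : i ≤ n) (h1 : n + E' + 2 * (R + 2 * T) ≤ 2 * i)
    (h2 : 2 * i' + 2 * (R + 2 * T) + E' ≤ n) :
    |corr h n (tw Ψ (nl ν i')) (nl ν i)| ≤
      qq F T * Q ^ 7 * δ + (Q ^ 11 + 2 * Q ^ 4) * (2 * qq F n / qq F T) := by
  have hQ0 : 0 < Q := one_pos.trans_le hτ.one_le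
  have hq := qq_pos (F := F) n
  have hq' := qq_pos (F := F) T
  have h3 := pert_left hn (by positivity) (by positivity) (fun f hf => abs_nl_le hs.lev hτ i hf)
    fun f hf => abs_tw_sub hΨ hf (nl_sub_tr (T := T) hs.lev hτ i' hf)
  obtain ⟨c, a1, a2⟩ := tr_eq (R' := R + 2 * T) (i := i') hs.lev hτ (by omega)
  have h4 : |corr h n (tw Ψ (tr κ (R + 2 * T) i')) (nl ν i)| ≤
      Q * (Q ^ 2 * (qq F T * Q ^ 4 * δ + Q ^ 8 * (2 * qq F n / qq F T))) := by
    rw [a2, tw_sum, corr_sum_left]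
    refine (Finset.abs_sum_le_sum_abs _ _).trans ((Finset.sum_le_card_nsmul _ _
      (Q ^ 2 * (qq F T * Q ^ 4 * δ + Q ^ 8 * (2 * qq F n / qq F T))) fun t ht => ?_).trans ?_)
    · have := mem_range.1 ht
      rw [tw_mul, corr_mul_left, abs_mul, abs_of_pos (by positivity)]
      refine mul_le_mul_of_nonneg_left (side (m := n - i) hn hs hτ hQ (by omega) (by omega)
        (fun f hf => abs_tw hΨ hf ?_) hδ fun σ j hσ hj α₂ β₂ b1 b2 =>
          hE.U _ _ _ _ (by omega) (by omega) (by omega) (by omega) _ _ _ (a1 t ht) b1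
            fun e he => (b2 e he).trans (ind_le_one _)) (by positivity)
      simpa using abs_up_le hτ (a1 t ht) (mem_monF.1 hf).1.ne_zero (mem_monF.1 hf).2.le
    · have hR : ((R + 2 * T + 1 : ℕ) : ℝ) ≤ Q := le_trans (by exact_mod_cast (by omega)) hQ
      rw [card_range, nsmul_eq_mul]
      gcongr
  have h5 := abs_sub_abs_le_abs_sub (corr h n (tw Ψ (nl ν i')) (nl ν i))
    (corr h n (tw Ψ (tr κ (R + 2 * T) i')) (nl ν i))
  linarith [show Q * Q * (2 * (Q * Q)) * (2 * qq F n / qq F T) + Q * (Q ^ 2 *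
    (qq F T * Q ^ 4 * δ + Q ^ 8 * (2 * qq F n / qq F T))) =
    qq F T * Q ^ 7 * δ + (Q ^ 11 + 2 * Q ^ 4) * (2 * qq F n / qq F T) by ring]

theorem regL (hn : h.degree < n) (hδ : 0 ≤ δ) (hE : EstW Ψ h n G E' E δ)
    (hΨ : ∀ f ∈ monF F n, |Ψ f| ≤ 1)
    (hs : Sieve n R Q ν κ Z a b α) (hτ : DivB F Q n) (hQ : (n : ℝ) + 2 ≤ Q) {i i' m m' k : ℕ}
    (hm : i + m = n) (hm' : i' + m' = n) (hi : R + 2 * T ≤ i) (hk : k = i' ∨ k = m')
    (hc : m + 2 * T + E ≤ k ∧ 2 * k + 4 * R + E' ≤ n ∨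
      m + (R + 2 * T) + E ≤ k ∧ 2 * k + E' ≤ n) :
    |corr h n (tw Ψ (nl ν i')) (nl ν i)| ≤
      qq F T * Q ^ 7 * δ + Q ^ 11 * (2 * qq F n / qq F T) := by
  have hQ0 : 0 < Q := one_pos.trans_le hτ.one_le
  have hq := qq_pos (F := F) n
  have hq' := qq_pos (F := F) T
  have e0 : ∀ f ∈ monF F n, tw Ψ (nl ν i') f =
      tw Ψ (fun f => ∑ z ∈ Z, cv (fun d => mu d * a z d) (b z) i' m' f) f := fun f hf => by
    rw [tw, tw, nl_eq_cv hs hm' hf]
  rw [corr_congr_left _ e0, tw_sum, corr_sum_left]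
  refine (Finset.abs_sum_le_sum_abs _ _).trans ((Finset.sum_le_card_nsmul _ _
    (Q ^ 2 * (qq F T * Q ^ 4 * δ + Q ^ 8 * (2 * qq F n / qq F T))) fun z hz => ?_).trans ?_)
  · have b1 : Bd i' fun d => mu d * a z d / Q := fun d hd => abs_div_le hQ0 (by
      rw [abs_mul, mul_comm Q]
      exact mul_le_mul (abs_mu_le d) ((hs.leva z hz).abs_le (mem_monF.1 hd).1
        (by rw [(mem_monF.1 hd).2]; omega)) (abs_nonneg _) zero_le_one)
    have b2 : Bd m' fun d => b z d / Q := fun d hd => abs_div_le hQ0 (by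
      rw [mul_one]
      exact hs.bdb z hz d (mem_monF.1 hd).1 (by rw [(mem_monF.1 hd).2]; omega))
    rw [funext (cv_scale hQ0.ne' (fun d => mu d * a z d) (b z) i' m'), tw_mul, corr_mul_left,
      abs_mul, abs_of_pos (by positivity)]
    refine mul_le_mul_of_nonneg_left (side hn hs hτ hQ hm hi (fun f hf => abs_tw hΨ hf ?_) hδ
      fun σ j hσ hj α₂ β₂ b3 b4 => ?_) (by positivity)
    · simpa using abs_cv_le hτ b1 b2 hm'.le f
    · rcases hk with rfl | rfl
      · rw [_root_.funext (cv_comm _ _ k m')]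
        exact hE.L _ _ _ _ _ (by omega) (by omega) (by omega) _ _ _ _ b2 b1 b3 b4
      · exact hE.L _ _ _ _ _ (by omega) (by omega) (by omega) _ _ _ _ b1 b2 b3 b4
  · rw [nsmul_eq_mul]
    calc _ ≤ Q * (Q ^ 2 * (qq F T * Q ^ 4 * δ + Q ^ 8 * (2 * qq F n / qq F T))) := by
          gcongr; exact hs.cardZ
      _ = _ := by ring

end CaseX

variable (F : Type) [Field F] [Fintype F] [CharP F 2]

theorem sCase : SCase F := by
  intro Ψ ν κ h n R T G E' E i i' Q δ ι Z a b α hn' hδ hE hΨ hs hτ hQ hG hG' hEE hE1 hi hi'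
  have hn : h.degree < n := degree_le_natDegree.trans_lt (by exact_mod_cast hn')
  have hQ1 := hτ.one_le
  have hq : 0 < 2 * qq F n / qq F T := by
    have := qq_pos (F := F) n
    have := qq_pos (F := F) T
    positivity
  have h4 : Q ^ 4 ≤ Q ^ 11 := pow_le_pow_right₀ hQ1 (by norm_num)
  have h11 : 0 ≤ Q ^ 11 * (2 * qq F n / qq F T) := by positivity
  have h4' := mul_le_mul_of_nonneg_right h4 hq.le
  by_cases hA : i + i' + 2 * (R + 2 * T) + E' ≤ n ∨ 2 * (i + (R + 2 * T)) ≤ n + G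
  · refine Or.inr (Or.inl ((CaseX.regA hn hδ hE hΨ hs.lev hτ hQ (by omega) (by omega)
      (by omega)).trans ?_))
    have : Q ^ 6 * δ ≤ qq F T * Q ^ 7 * δ := by
      calc _ = 1 * Q ^ 6 * δ := by ring
        _ ≤ _ := by
          gcongr
          · exact (qq_pos _).le
          · exact one_le_qq _
          · norm_num
    linarith
  by_cases hU : 2 * i' + 2 * (R + 2 * T) + E' ≤ n
  · exact Or.inr (Or.inr ⟨by omega, (CaseX.regU hn hδ hE hΨ hs hτ hQ hi (by omega) hU).trans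
      (by linarith)⟩)
  by_cases hS : Thin n G (R + 2 * T) E' (E + 2 * T) i i'
  · exact Or.inl hS
  unfold Thin at hS
  rw [max_eq_left hi', min_eq_right hi'] at hS
  refine Or.inr (Or.inr ⟨by omega, ?_⟩)
  by_cases hL : 2 * i' + E' ≤ n
  · exact (CaseX.regL (T := T) (m := n - i) (m' := n - i') (k := i') hn hδ hE hΨ hs hτ hQ
      (by omega) (by omega) (by omega) (Or.inl rfl) (by omega)).trans (by linarith)
  · exact (CaseX.regL (T := T) (m := n - i) (m' := n - i') (k := n - i') hn hδ hE hΨ hs hτ hQ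
      (by omega) (by omega) (by omega) (Or.inr rfl) (by omega)).trans (by linarith)

end Pool.Agent.PPf

end

section

/- Prime pairs over `F[X]`: summation over all pieces, with a weight. -/

set_option autoImplicit false
set_option linter.unusedSectionVars false

namespace Pool.Agent.PPf

open Polynomial Finset Pool.Agent.MP_4fffd4_nt Pool.Agent.MP_c853c5_nt Pool.Agent.MP_43e117_nt
open scoped BigOperators

namespace TotalX

variable {F : Type} [Field F] [Fintype F] [CharP F 2]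

theorem thin_comm {n G R E' E'' i i' : ℕ} (H : Thin n G R E' E'' i i') : Thin n G R E' E'' i' i := by
  unfold Thin at H ⊢
  rwa [max_comm, min_comm]

variable {Ψ ν κ : F[X] → ℝ} {h : F[X]} {n R T G E' E Θ : ℕ} {Q δ C ε ε' : ℝ} {ι : Type}
  {Z : Finset ι} {a b α : ι → F[X] → ℝ}

theorem abs_corr (hΨ : ∀ f ∈ monF F n, 0 ≤ Ψ f) (hν : ∀ f, 0 ≤ ν f) (i i' : ℕ) :
    |corr h n (tw Ψ (nl ν i)) (nl ν i')| ≤
      corr h n (tw Ψ fun f => ν f * up (fun d => |mu d|) i f)
        fun f => ν f * up (fun d => |mu d|) i' f := by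
  have key : ∀ i f, |nl ν i f| ≤ ν f * up (fun d => |mu d|) i f := fun i f => by
    rw [nl, abs_mul, abs_of_nonneg (hν f)]
    refine mul_le_mul_of_nonneg_left ((Finset.abs_sum_le_sum_abs _ _).trans_eq ?_) (hν f)
    exact Finset.sum_congr rfl fun D _ => by rw [abs_mul, abs_of_nonneg (ind_nonneg _)]
  refine (Finset.abs_sum_le_sum_abs _ _).trans (Finset.sum_le_sum fun f hf => ?_)
  simp only [tw]
  rw [abs_mul, abs_mul, abs_of_nonneg (hΨ f hf)]
  exact mul_le_mul (mul_le_mul_of_nonneg_left (key _ _) (hΨ f hf)) (key _ _) (abs_nonneg _)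
    (mul_nonneg (hΨ f hf) ((abs_nonneg _).trans (key _ _)))

theorem cases (h1 : SCase F) (hn : h.natDegree < n) (hδ : 0 ≤ δ) (hE : EstW Ψ h n G E' E δ)
    (hE' : EstW (fun f => Ψ (f + h)) h n G E' E δ) (hΨ : ∀ f ∈ monF F n, 0 ≤ Ψ f ∧ Ψ f ≤ 1)
    (hs : Sieve n R Q ν κ Z a b α) (hτ : DivB F Q n) (hQ : (n : ℝ) + 2 ≤ Q)
    (hG : 20 * (R + 2 * T) + 20 * E' ≤ G) (hG' : G ≤ n) (hEE : E ≤ E') (hE1 : 1 ≤ E)
    (hε : ε = qq F T * Q ^ 7 * δ + 5 * Q ^ 11 * (2 * qq F n / qq F T)) {i i' : ℕ} (hi : i ≤ n)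
    (hi' : i' ≤ n) :
    Thin n G (R + 2 * T) E' (E + 2 * T) i i' ∨
      |corr h n (tw Ψ (nl ν i)) (nl ν i') -
        qq F n * mcorr h (5 * n) (tw Ψ (tr κ (R + 2 * T) i)) (tr κ (R + 2 * T) i')| ≤ ε ∨
      ((2 * (R + 2 * T) ≤ i ∨ 2 * (R + 2 * T) ≤ i') ∧
        |corr h n (tw Ψ (nl ν i)) (nl ν i')| ≤ ε) := by
  have hd : h.degree < n := degree_le_natDegree.trans_lt (by exact_mod_cast hn)
  have hd5 : h.degree < (5 * n : ℕ) := hd.trans_le (by exact_mod_cast (by omega))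
  have hb : ∀ f ∈ monF F n, |Ψ f| ≤ 1 := fun f hf => by
    rw [abs_of_nonneg (hΨ f hf).1]; exact (hΨ f hf).2
  subst hε
  rcases le_total i i' with hle | hle
  · rcases h1 Ψ ν κ h n R T G E' E i' i Q δ ι Z a b α hn hδ hE hb hs hτ hQ hG hG' hEE hE1 hi' hle
      with H | H | H
    · exact Or.inl (thin_comm H)
    · exact Or.inr (Or.inl H)
    · exact Or.inr (Or.inr ⟨Or.inr H.1, H.2⟩)
  · rw [corr_swap hd, mcorr_swap hd5]
    rcases h1 (fun f => Ψ (f + h)) ν κ h n R T G E' E i i' Q δ ι Z a b α hn hδ hE'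
      (fun f hf => hb _ (add_mem_mon hd hf)) hs hτ hQ hG hG' hEE hE1 hi hle with H | H | H
    · exact Or.inl H
    · exact Or.inr (Or.inl H)
    · exact Or.inr (Or.inr ⟨Or.inl H.1, H.2⟩)

open Classical in
theorem term {w c m q : ℝ} {i i' : ℕ} (hG : 20 * (R + 2 * T) + 20 * E' ≤ G) (hEE : E ≤ E')
    (hi : i ≤ n) (hi' : i' ≤ n) (hq : 0 ≤ q) (hε : 0 ≤ ε) (hε' : 0 ≤ ε') (hC : 0 ≤ C)
    (hw : |w| ≤ 2 * (n : ℝ) ^ 2)
    (hw0 : i = n ∨ i' = n → Thin n G (R + 2 * T) E' (E + 2 * T) i i' → w = 0)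
    (hM : i < n → i' < n → n + (2 * R + E') ≤ i + i' → ((n : ℝ) - i) * ((n : ℝ) - i') * |c| ≤ C)
    (hm : 2 * (R + 2 * T) ≤ i ∨ 2 * (R + 2 * T) ≤ i' → |m| ≤ ε')
    (H : Thin n G (R + 2 * T) E' (E + 2 * T) i i' ∨ |c - q * m| ≤ ε ∨
      ((2 * (R + 2 * T) ≤ i ∨ 2 * (R + 2 * T) ≤ i') ∧ |c| ≤ ε)) :
    w * (c - ind (i < 2 * (R + 2 * T)) * (ind (i' < 2 * (R + 2 * T)) * (q * m))) ≤
      2 * (n : ℝ) ^ 2 * (ε + q * ε') + (if Thin n G (R + 2 * T) E' (E + 2 * T) i i' then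
        |w| / (((n : ℝ) - i) * ((n : ℝ) - i')) else 0) * C := by
  have a1 : (0 : ℝ) ≤ n - i := sub_nonneg.2 (by exact_mod_cast hi)
  have a2 : (0 : ℝ) ≤ n - i' := sub_nonneg.2 (by exact_mod_cast hi')
  have a4 : 0 ≤ (if Thin n G (R + 2 * T) E' (E + 2 * T) i i' then
      |w| / (((n : ℝ) - i) * ((n : ℝ) - i')) else 0) * C := by
    refine mul_nonneg ?_ hC
    split_ifs
    · exact div_nonneg (abs_nonneg _) (mul_nonneg a1 a2)
    · exact le_rfl
  have a6 : 0 ≤ 2 * (n : ℝ) ^ 2 * (ε + q * ε') := by positivity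
  have a5 : ∀ x : ℝ, |x| ≤ ε + q * ε' → w * x ≤ 2 * (n : ℝ) ^ 2 * (ε + q * ε') +
      (if Thin n G (R + 2 * T) E' (E + 2 * T) i i' then
        |w| / (((n : ℝ) - i) * ((n : ℝ) - i')) else 0) * C := fun x hx => by
    refine (le_abs_self _).trans (le_trans ?_ (le_add_of_nonneg_right a4))
    rw [abs_mul]
    exact mul_le_mul hw hx (abs_nonneg _) (by positivity)
  have a7 : 2 * (R + 2 * T) ≤ i ∨ 2 * (R + 2 * T) ≤ i' →
      c - ind (i < 2 * (R + 2 * T)) * (ind (i' < 2 * (R + 2 * T)) * (q * m)) = c := by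
    rintro (h1 | h1)
    · rw [ind_neg (P := i < 2 * (R + 2 * T)) (by omega), zero_mul, sub_zero]
    · rw [ind_neg (P := i' < 2 * (R + 2 * T)) (by omega), zero_mul, mul_zero, sub_zero]
  have a8 : 0 ≤ q * ε' := mul_nonneg hq hε'
  rcases H with h1 | h1 | ⟨h1, h2⟩
  · by_cases h2 : i = n ∨ i' = n
    · rw [hw0 h2 h1, zero_mul] at *
      exact add_nonneg a6 a4
    · have h3 : n + (2 * R + E') ≤ i + i' ∧ (2 * (R + 2 * T) ≤ i ∨ 2 * (R + 2 * T) ≤ i') := by
        unfold Thin at h1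
        omega
      have b1 : (0 : ℝ) < n - i := sub_pos.2 (by exact_mod_cast (by omega : i < n))
      have b2 : (0 : ℝ) < n - i' := sub_pos.2 (by exact_mod_cast (by omega : i' < n))
      have b3 := hM (by omega) (by omega) h3.1
      rw [a7 h3.2, if_pos h1]
      refine (le_abs_self _).trans (le_trans ?_ (le_add_of_nonneg_left a6))
      calc |w * c| = |w| / (((n : ℝ) - i) * ((n : ℝ) - i')) *
            (((n : ℝ) - i) * ((n : ℝ) - i') * |c|) := by rw [abs_mul]; field_simp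
        _ ≤ _ := mul_le_mul_of_nonneg_left b3 (div_nonneg (abs_nonneg _) (mul_nonneg a1 a2))
  · refine a5 _ ?_
    by_cases h2 : 2 * (R + 2 * T) ≤ i ∨ 2 * (R + 2 * T) ≤ i'
    · rw [a7 h2]
      have h4 := abs_sub_abs_le_abs_sub c (q * m)
      rw [abs_mul, abs_of_nonneg hq] at h4
      have h5 := mul_le_mul_of_nonneg_left (hm h2) hq
      linarith
    · rw [ind_pos (P := i < 2 * (R + 2 * T)) (by omega),
        ind_pos (P := i' < 2 * (R + 2 * T)) (by omega), one_mul, one_mul]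
      linarith
  · refine a5 _ ?_
    rw [a7 h1]
    linarith

theorem sum_nl (hn : 1 ≤ n) {f : F[X]} (hf : f ∈ monF F n) :
    ∑ i ∈ range (n + 1), nl ν i f = 0 := by
  obtain ⟨h1, h2⟩ := mem_monF.1 hf
  have e := SPsi.sum_divs h1.ne_zero mu
  rw [sum_mu_divs h1, h2, ind_neg (by rintro rfl; rw [natDegree_one] at h2; omega)] at e
  simp only [nl, up]
  rw [← Finset.mul_sum, ← e, mul_zero]

theorem vm_nl (hn : 1 ≤ n) {f : F[X]} (hf : f ∈ monF F n) :
    ∑ i ∈ range n, ((n : ℝ) - i) * nl ν i f = ν f * vm f := by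
  rw [vm_eq_sum hn hf, Finset.mul_sum]
  exact Finset.sum_congr rfl fun i _ => by rw [nl]; ring

theorem pointwise (hn : h.natDegree < n) (hs : Sieve n R Q ν κ Z a b α) {f : F[X]}
    (hf : f ∈ monF F n) : (n : ℝ) ^ 2 * ind (Irreducible f ∧ Irreducible (f + h)) ≤
      ν f * vm f * (ν (f + h) * vm (f + h)) := by
  have hd : h.degree < n := degree_le_natDegree.trans_lt (by exact_mod_cast hn)
  have key : ∀ g ∈ monF F n, Irreducible g → ν g * vm g = n := fun g hg hi => by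
    obtain ⟨h1, h2⟩ := mem_monF.1 hg
    have := vm_pow h1 hi one_pos
    rw [pow_one, h2] at this
    rw [hs.one g h1 hi h2, this, one_mul]
  by_cases H : Irreducible f ∧ Irreducible (f + h)
  · rw [ind_pos H, key f hf H.1, key _ (add_mem_mon hd hf) H.2, mul_one, sq]
  · rw [ind_neg H, mul_zero]
    exact mul_nonneg (mul_nonneg (hs.nonneg _) (vm_nonneg _))
      (mul_nonneg (hs.nonneg _) (vm_nonneg _))

theorem drop_last (w : ℕ → ℕ → ℝ) (P : ℕ → ℕ → Prop) [∀ i i', Decidable (P i i')] :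
    ∑ i ∈ range (n + 1), ∑ i' ∈ range (n + 1),
      (if P i i' then w i i' / (((n : ℝ) - i) * ((n : ℝ) - i')) else 0) =
    ∑ i ∈ range n, ∑ i' ∈ range n,
      (if P i i' then w i i' / (((n : ℝ) - i) * ((n : ℝ) - i')) else 0) := by
  rw [Finset.sum_range_succ, Finset.sum_eq_zero (s := range (n + 1)) fun i' _ => by
    rw [sub_self, zero_mul, div_zero, ite_self], add_zero]
  refine Finset.sum_congr rfl fun i _ => ?_
  rw [Finset.sum_range_succ, sub_self, mul_zero, div_zero, ite_self, add_zero]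

end TotalX

open TotalX in
theorem sTotal (F : Type) [Field F] [Fintype F] [CharP F 2] (h1 : SCase F) (h2 : SOmega) :
    STotal F := by
  classical
  intro Ψ ν κ h n R T G E' E Θ Q δ C ε' Mn ι Z a b α hn hδ hE hE' hΨ hs hτ hQ hG hG' hEE hE1 hΘ hΘ'
    hC hM hε' hm hMn
  obtain ⟨o1, o2, o3, o4, o5⟩ := h2 n G (R + 2 * T) E' (E + 2 * T) Θ hG hG' (by omega) hΘ hΘ'
  have hd : h.degree < n := degree_le_natDegree.trans_lt (by exact_mod_cast hn)
  have hq := qq_pos (F := F) n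
  have hq' := qq_pos (F := F) T
  have hQ0 : 0 < Q := one_pos.trans_le hτ.one_le
  obtain ⟨ε, hε⟩ : ∃ ε, ε = qq F T * Q ^ 7 * δ + 5 * Q ^ 11 * (2 * qq F n / qq F T) := ⟨_, rfl⟩
  have hε0 : 0 ≤ ε := by rw [hε]; positivity
  have hC' : 0 ≤ C * qq F n / (n : ℝ) ^ 2 := by positivity
  rw [← hε]
  have e1 : (n : ℝ) ^ 2 * ∑ f ∈ monF F n, Ψ f * ind (Irreducible f ∧ Irreducible (f + h)) ≤
      ∑ i ∈ range (n + 1), ∑ i' ∈ range (n + 1),
        omg n G (R + 2 * T) Θ i i' * corr h n (tw Ψ (nl ν i)) (nl ν i') := by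
    have e : ∑ i ∈ range (n + 1), ∑ i' ∈ range (n + 1),
        omg n G (R + 2 * T) Θ i i' * corr h n (tw Ψ (nl ν i)) (nl ν i') =
        ∑ f ∈ monF F n, Ψ f * ∑ i ∈ range (n + 1), ∑ i' ∈ range (n + 1),
          omg n G (R + 2 * T) Θ i i' * (nl ν i f * nl ν i' (f + h)) := by
      simp only [corr, tw, Finset.mul_sum]
      rw [Finset.sum_comm (s := monF F n)]
      refine Finset.sum_congr rfl fun i _ => ?_
      rw [Finset.sum_comm (s := monF F n)]
      exact Finset.sum_congr rfl fun i' _ => Finset.sum_congr rfl fun f _ => by ring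
    rw [e, Finset.mul_sum]
    refine Finset.sum_le_sum fun f hf => ?_
    have hf' := add_mem_mon hd hf
    rw [o4 (fun i => nl ν i f) (fun i => nl ν i (f + h)) (sum_nl (by omega) hf)
      (sum_nl (by omega) hf'), vm_nl (by omega) hf, vm_nl (by omega) hf', mul_left_comm]
    exact mul_le_mul_of_nonneg_left (pointwise hn hs hf) (hΨ f hf).1
  have e2 : ∑ i ∈ range (n + 1), ∑ i' ∈ range (n + 1), omg n G (R + 2 * T) Θ i i' *
      (ind (i < 2 * (R + 2 * T)) * (ind (i' < 2 * (R + 2 * T)) * (qq F n *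
        mcorr h (5 * n) (tw Ψ (tr κ (R + 2 * T) i)) (tr κ (R + 2 * T) i')))) =
      qq F n * ∑ i ∈ range (2 * (R + 2 * T)), ∑ i' ∈ range (2 * (R + 2 * T)),
        ((n : ℝ) - i) * ((n : ℝ) - i') *
          mcorr h (5 * n) (tw Ψ (tr κ (R + 2 * T) i)) (tr κ (R + 2 * T) i') := by
    rw [← TSum.sum_ind_lt (n := n + 1) (I := 2 * (R + 2 * T)) (by omega), Finset.mul_sum]
    refine Finset.sum_congr rfl fun i _ => ?_
    rw [← TSum.sum_ind_lt (n := n + 1) (I := 2 * (R + 2 * T)) (by omega), Finset.mul_sum,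
      Finset.mul_sum]
    refine Finset.sum_congr rfl fun i' _ => ?_
    by_cases c1 : i < 2 * (R + 2 * T)
    · by_cases c2 : i' < 2 * (R + 2 * T)
      · rw [o2 i i' c1 c2]; ring
      · rw [ind_neg c2]; ring
    · rw [ind_neg c1]; ring
  have e3 := Finset.sum_le_sum (s := range (n + 1)) fun i hi =>
    Finset.sum_le_sum (s := range (n + 1)) fun i' hi' =>
      term (C := C * qq F n / (n : ℝ) ^ 2) (w := omg n G (R + 2 * T) Θ i i')
        (c := corr h n (tw Ψ (nl ν i)) (nl ν i'))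
        (m := mcorr h (5 * n) (tw Ψ (tr κ (R + 2 * T) i)) (tr κ (R + 2 * T) i'))
        hG hEE (Nat.lt_succ_iff.1 (mem_range.1 hi)) (Nat.lt_succ_iff.1 (mem_range.1 hi')) hq.le
        hε0 hε' hC'
        (o1 i i' (Nat.lt_succ_iff.1 (mem_range.1 hi)) (Nat.lt_succ_iff.1 (mem_range.1 hi')))
        (o3 i i' (Nat.lt_succ_iff.1 (mem_range.1 hi)) (Nat.lt_succ_iff.1 (mem_range.1 hi')))
        (fun c1 c2 c3 => (mul_le_mul_of_nonneg_left
          (abs_corr (fun f hf => (hΨ f hf).1) hs.nonneg i i')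
          (mul_nonneg (sub_nonneg.2 (by exact_mod_cast c1.le))
            (sub_nonneg.2 (by exact_mod_cast c2.le)))).trans (hM i i' c1 c2 c3))
        (hm i i' (Nat.lt_succ_iff.1 (mem_range.1 hi)) (Nat.lt_succ_iff.1 (mem_range.1 hi')))
        (cases h1 hn hδ hE hE' hΨ hs hτ hQ hG hG' hEE hE1 hε
          (Nat.lt_succ_iff.1 (mem_range.1 hi)) (Nat.lt_succ_iff.1 (mem_range.1 hi')))
  simp only [mul_sub (omg n G (R + 2 * T) Θ _ _), Finset.sum_sub_distrib, Finset.sum_add_distrib,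
    Finset.sum_const, card_range, nsmul_eq_mul, ← Finset.sum_mul] at e3
  rw [e2, drop_last] at e3
  have e4 := mul_le_mul_of_nonneg_right o5 hC'
  have e5 := mul_le_mul_of_nonneg_left hMn hq.le
  have hn0 : (0 : ℝ) ≤ n := Nat.cast_nonneg n
  have e6 : ((n + 1 : ℕ) : ℝ) * (((n + 1 : ℕ) : ℝ) * (2 * (n : ℝ) ^ 2 * (ε + qq F n * ε'))) ≤
      2 * Q ^ 4 * (ε + qq F n * ε') := by
    have b1 : ((n + 1 : ℕ) : ℝ) ≤ Q := by push_cast; linarith
    have b2 : (n : ℝ) ≤ Q := by linarith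
    calc _ ≤ Q * (Q * (2 * Q ^ 2 * (ε + qq F n * ε'))) := by gcongr
      _ = _ := by ring
  linarith

end Pool.Agent.PPf

end

section

/- Prime pairs over `F[X]`: the terms of the weight. -/

set_option autoImplicit false
set_option linter.unusedSectionVars false

namespace Pool.Agent.PPf

open Polynomial Finset Pool.Agent.MP_4fffd4_nt Pool.Agent.MP_c853c5_nt Pool.Agent.MP_43e117_nt
open scoped BigOperators

namespace CardX

theorem sum_dg {ι κ : Type} [Fintype ι] [DecidableEq ι] [Fintype κ] [DecidableEq κ] (w : ι → ℕ)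
    (A : ι → Finset κ) : ∑ l, dg w A l = ∑ P, w P * (A P).card := by
  simp only [dg, Finset.sum_filter]
  rw [Finset.sum_comm]
  refine Finset.sum_congr rfl fun P _ => ?_
  rw [← Finset.sum_filter, Finset.sum_const, smul_eq_mul, mul_comm]
  simp

theorem rankin {ι κ : Type} [Fintype ι] [DecidableEq ι] [Fintype κ] [DecidableEq κ] (x : ι → ℝ)
    (hx : ∀ P, 0 ≤ x P) (h1 : ∑ P, x P ≤ 1) :
    ∑ A : ι → Finset κ, ∏ P, x P ^ (A P).card ≤ 4 ^ Fintype.card κ := by
  have e : ∀ P, ∑ a : Finset κ, x P ^ a.card = (1 + x P) ^ Fintype.card κ := fun P => by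
    rw [← Finset.card_univ, ← Finset.prod_const, Finset.prod_one_add, Finset.powerset_univ]
    exact Finset.sum_congr rfl fun a _ => (Finset.prod_const _).symm
  rw [← Fintype.piFinset_univ, ← Finset.prod_univ_sum (fun _ => univ)
    (fun (P : ι) (a : Finset κ) => x P ^ a.card)]
  simp only [e]
  rw [Finset.prod_pow]
  refine pow_le_pow_left₀ (Finset.prod_nonneg fun P _ => add_nonneg zero_le_one (hx P)) ?_ _
  calc ∏ P, (1 + x P) ≤ ∏ P, Real.exp (x P) :=
        Finset.prod_le_prod (fun P _ => add_nonneg zero_le_one (hx P)) fun P _ => by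
          linarith [Real.add_one_le_exp (x P)]
    _ = Real.exp (∑ P, x P) := (Real.exp_sum _ _).symm
    _ ≤ Real.exp 1 := Real.exp_le_exp.2 h1
    _ ≤ 4 := by linarith [Real.exp_one_lt_d9]

variable {F : Type} [Field F] [Fintype F]

theorem sum_sq {W : F[X]} {Ps : Finset F[X]} (h : Good W Ps) :
    ∑ P : Ps, 1 / qq F (2 * P.1.natDegree) ≤ 1 := by
  classical
  rw [Finset.sum_coe_sort Ps fun P => 1 / qq F (2 * P.natDegree),
    ← Finset.sum_fiberwise_of_maps_to (t := Ps.image natDegree) (g := natDegree)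
      fun P hP => Finset.mem_image_of_mem _ hP]
  have h0 : 0 ∉ Ps.image natDegree := fun h0 => by
    obtain ⟨P, hP, e⟩ := Finset.mem_image.1 h0
    exact (h P hP).2.1.natDegree_pos.ne' e
  have h1 := sum_le_hasSum (insert 0 (Ps.image natDegree)) (fun i _ => by positivity)
    hasSum_geometric_two
  rw [Finset.sum_insert h0, pow_zero] at h1
  refine le_trans (Finset.sum_le_sum fun j _ => ?_) (le_of_add_le_add_left (a := 1)
    (h1.trans_eq (by norm_num)))
  have hq := qq_pos (F := F) j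
  calc ∑ P ∈ Ps with P.natDegree = j, 1 / qq F (2 * P.natDegree)
      = ∑ P ∈ Ps with P.natDegree = j, 1 / qq F (2 * j) * 1 :=
        Finset.sum_congr rfl fun P hP => by rw [(Finset.mem_filter.1 hP).2, mul_one]
    _ ≤ ∑ P ∈ monF F j, 1 / qq F (2 * j) * 1 :=
        Finset.sum_le_sum_of_subset_of_nonneg (fun P hP => mem_monF.2
          ⟨(h P (Finset.mem_filter.1 hP).1).1, (Finset.mem_filter.1 hP).2⟩) fun _ _ _ => by
            have := qq_pos (F := F) (2 * j)
            positivity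
    _ = 1 / qq F j := by
        rw [← Finset.mul_sum, sum_one_monF, two_mul, qq_add]
        field_simp
    _ ≤ (1 / 2) ^ j := by
        rw [one_div_pow]
        exact one_div_le_one_div_of_le (by positivity) (two_pow_le_qq j)

variable {κ : Type} [Fintype κ] [DecidableEq κ] {ρ : F[X] → κ → F[X]} {J : Finset κ}
  {Ps : Finset F[X]} {W x : F[X]} {Y : (Ps → Finset κ) → ℝ} {D R : ℕ}

open Classical in
theorem card_S (H : Ctx ρ Ps W Y D R) :
    ((univ.filter fun A => Y A ≠ 0).card : ℝ) ≤ qq F (2 * D + 2 * Fintype.card κ) := by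
  have h0 : ∀ P : Ps, 0 ≤ 1 / qq F (2 * P.1.natDegree) := fun P =>
    (one_div_pos.2 (qq_pos _)).le
  have h1 := rankin (κ := κ) _ h0 (sum_sq H.good)
  have h2 : (4 : ℝ) ^ Fintype.card κ ≤ qq F (2 * Fintype.card κ) := by
    refine le_trans (le_of_eq ?_) (two_pow_le_qq _)
    rw [pow_mul]
    norm_num
  rw [qq_add]
  refine le_trans ?_ (mul_le_mul_of_nonneg_left (h1.trans h2) (qq_pos _).le)
  rw [Finset.mul_sum, Finset.card_eq_sum_ones, Nat.cast_sum, Finset.sum_filter]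
  refine Finset.sum_le_sum fun A _ => ?_
  split_ifs with hA
  · have h3 := H.lev A hA
    rw [sum_dg] at h3
    have e : ∏ P : Ps, (1 / qq F (2 * P.1.natDegree)) ^ (A P).card =
        1 / qq F (2 * ∑ P : Ps, dP Ps P * (A P).card) := by
      simp only [one_div_pow, qq_pow]
      rw [Finset.prod_div_distrib, Finset.prod_const_one, Finset.mul_sum]
      simp only [qq, dP, mul_assoc]
      rw [Finset.prod_pow_eq_pow_sum]
    rw [e, mul_one_div, Nat.cast_one, one_le_div (qq_pos _)]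
    exact qq_mono (by omega)
  · exact mul_nonneg (qq_pos _).le (Finset.prod_nonneg fun P _ => pow_nonneg (h0 P) _)

theorem psi_le {P : F[X]} (hP : Irreducible P) (l : κ) (f : F[X]) : |psi ρ J P l f| ≤ 1 := by
  have h : 2 ≤ qq F P.natDegree :=
    le_trans (by norm_num) ((two_pow_le_qq (F := F) 1).trans (qq_mono hP.natDegree_pos))
  rw [psi, abs_mul]
  refine mul_le_one₀ ((abs_of_nonneg (ind_nonneg _)).trans_le (ind_le_one _)) (abs_nonneg _) ?_
  split_ifs
  · simp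
  · rw [abs_of_nonneg (div_nonneg zero_le_one (by linarith)), div_le_one (by linarith)]
    linarith

theorem lam_le (h : Good W Ps) (A : Ps → Finset κ) (f : F[X]) : |lamA ρ J Ps A f| ≤ 1 := by
  rw [lamA, Finset.abs_prod]
  refine Finset.prod_le_one (fun _ _ => abs_nonneg _) fun P _ => ?_
  rw [Finset.abs_prod]
  exact Finset.prod_le_one (fun _ _ => abs_nonneg _) fun l _ => psi_le (h P.1 P.2).2.1 l f

theorem psi_per {P m : F[X]} (h : P ∣ m) (l : κ) (f : F[X]) :
    psi ρ J P l (f + m) = psi ρ J P l f := by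
  have e : ∀ j, P ∣ f + m - ρ P j ↔ P ∣ f - ρ P j := fun j => by
    rw [add_sub_right_comm]
    exact dvd_add_left h
  rw [psi, psi, e l]
  simp only [e]

theorem lam_per {A : Ps → Finset κ} {m : F[X]} (h : ∀ P : Ps, A P ≠ ∅ → P.1 ∣ m) (f : F[X]) :
    lamA ρ J Ps A (f + m) = lamA ρ J Ps A f :=
  Finset.prod_congr rfl fun P _ => Finset.prod_congr rfl fun l hl =>
    psi_per (h P (Finset.ne_empty_of_mem hl)) l f

theorem dvd_md {z : (Ps → Finset κ) × (Ps → Finset κ)} {P : Ps} (h : z.1 P ≠ ∅ ∨ z.2 P ≠ ∅) :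
    P.1 ∣ md Ps W z := by
  unfold md
  refine Dvd.dvd.mul_left (Finset.dvd_prod_of_mem (fun P : Ps => P.1) ?_) W
  rw [Finset.mem_filter]
  exact ⟨mem_univ _, h⟩

theorem of_dvd (h : Good W Ps) {z : (Ps → Finset κ) × (Ps → Finset κ)} {P : F[X]}
    (hP : Irreducible P) (hd : P ∣ md Ps W z) :
    P ∣ W ∨ ∃ P' : Ps, (z.1 P' ≠ ∅ ∨ z.2 P' ≠ ∅) ∧ Associated P P'.1 := by
  refine (hP.prime.dvd_or_dvd hd).imp_right fun h1 => ?_
  obtain ⟨P', h2, h3⟩ := (hP.prime.dvd_finsetProd_iff _).1 h1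
  exact ⟨P', (Finset.mem_filter.1 h2).2,
    (hP.dvd_irreducible_iff_associated (h P'.1 P'.2).2.1).1 h3⟩

theorem lam_ne {A : Ps → Finset κ} {f : F[X]} (h : lamA ρ J Ps A f ≠ 0) {P : Ps} (hP : A P ≠ ∅) :
    ∀ j ∈ J, ¬ P.1 ∣ f - ρ P.1 j := by
  obtain ⟨l, hl⟩ := Finset.nonempty_iff_ne_empty.2 hP
  have h1 := Finset.prod_ne_zero_iff.1 (Finset.prod_ne_zero_iff.1 h P (mem_univ _)) l hl
  by_contra h2
  exact h1 (by rw [psi, ind_neg h2, zero_mul])

theorem deg_md (H : Ctx ρ Ps W Y D R) {z : (Ps → Finset κ) × (Ps → Finset κ)} (h1 : Y z.1 ≠ 0)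
    (h2 : Y z.2 ≠ 0) : (md Ps W z).natDegree ≤ R := by
  have a1 := H.lev _ h1
  have a2 := H.lev _ h2
  rw [sum_dg] at a1 a2
  refine le_trans (natDegree_mul_le.trans (Nat.add_le_add_left ((natDegree_prod_le _ _).trans ?_) _))
    H.hW
  rw [two_mul]
  refine le_trans ?_ (Nat.add_le_add a1 a2)
  rw [← Finset.sum_add_distrib, Finset.sum_filter]
  refine Finset.sum_le_sum fun P _ => ?_
  split_ifs with h
  · rw [← mul_add]
    refine Nat.le_mul_of_pos_right _ ?_
    rcases h with h | h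
    · exact Nat.add_pos_left (Finset.card_pos.2 (Finset.nonempty_iff_ne_empty.2 h)) _
    · exact Nat.add_pos_right _ (Finset.card_pos.2 (Finset.nonempty_iff_ne_empty.2 h))
  · exact Nat.zero_le _

end CardX

variable (F : Type) [Field F] [Fintype F] [CharP F 2]

theorem sCard : SCard F := by
  classical
  intro κ _ _ ρ J Ps W x Y D R H
  have eZ : ZZ Ps Y = (univ.filter fun A => Y A ≠ 0) ×ˢ (univ.filter fun A => Y A ≠ 0) := by
    ext z
    simp [ZZ]
  refine ⟨?_, fun f => ?_, fun z hz => ?_⟩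
  · have h := CardX.card_S H
    rw [eZ, Finset.card_product, Nat.cast_mul]
    refine (mul_le_mul h h (Nat.cast_nonneg _) (qq_pos _).le).trans ?_
    rw [← qq_add]
    exact qq_mono (by have := H.hK; omega)
  · rw [wt, tot, ZZ, Finset.sum_filter_of_ne, sq, Finset.sum_mul_sum, Finset.mul_sum,
      Fintype.sum_prod_type]
    · refine Finset.sum_congr rfl fun A _ => ?_
      rw [Finset.mul_sum]
      refine Finset.sum_congr rfl fun B _ => ?_
      rw [ph]
      ring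
    · intro z _ h
      exact mul_ne_zero_iff.1 (right_ne_zero_of_mul (left_ne_zero_of_mul h))
  · obtain ⟨h1, h2⟩ := (Finset.mem_filter.1 hz).2
    refine ⟨H.mon.mul (monic_prod_of_monic _ _ fun P _ => (H.good P.1 P.2).1),
      CardX.deg_md H h1 h2, fun f t => ?_, fun f => ?_, fun P hP hd => ?_, fun f hf => ⟨?_, ?_⟩⟩
    · have e : W ∣ f + md Ps W z * t - x ↔ W ∣ f - x := by
        rw [add_sub_right_comm]
        exact dvd_add_left ((dvd_mul_right W _).mul_right t)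
      rw [ph, ph, e, CardX.lam_per fun P h => (CardX.dvd_md (Or.inl h)).mul_right t,
        CardX.lam_per fun P h => (CardX.dvd_md (Or.inr h)).mul_right t]
    · rw [ph, abs_mul, abs_mul, abs_mul, abs_mul, abs_of_nonneg (ind_nonneg _),
        abs_of_nonneg (H.y01 _).1, abs_of_nonneg (H.y01 _).1]
      exact mul_le_one₀ (mul_le_one₀ (ind_le_one _) (mul_nonneg (H.y01 _).1 (H.y01 _).1)
        (mul_le_one₀ (H.y01 _).2 (H.y01 _).1 (H.y01 _).2)) (by positivity)
        (mul_le_one₀ (CardX.lam_le H.good _ _) (abs_nonneg _) (CardX.lam_le H.good _ _))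
    · refine (CardX.of_dvd H.good hP hd).imp_right fun ⟨P', _, h⟩ => ⟨P'.1, P'.2, ?_⟩
      exact (natDegree_eq_of_degree_eq (degree_eq_degree_of_associated h)).symm
    · by_contra h
      exact hf (by rw [ph, ind_neg h, zero_mul, zero_mul])
    · intro P hP hd
      obtain ⟨a, b, c⟩ := H.good P hP
      obtain ⟨P', h3, h4⟩ := (CardX.of_dvd H.good b hd).resolve_left c
      obtain rfl := eq_of_monic_of_associated a (H.good P'.1 P'.2).1 h4
      have h5 := mul_ne_zero_iff.1 (right_ne_zero_of_mul hf)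
      exact h3.elim (CardX.lam_ne h5.1) (CardX.lam_ne h5.2)

end Pool.Agent.PPf

end

section

/- Prime pairs over `F[X]`: the pointwise bound for the terms of the weight. -/

set_option autoImplicit false
set_option linter.unusedSectionVars false

namespace Pool.Agent.PPf

open Polynomial Finset Pool.Agent.MP_4fffd4_nt Pool.Agent.MP_c853c5_nt Pool.Agent.MP_43e117_nt
open scoped BigOperators

namespace BdX

variable {F : Type} [Field F] [Fintype F]

theorem two_le {P : F[X]} (h : Irreducible P) : 2 ≤ qq F P.natDegree :=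
  (le_self_pow₀ one_le_two h.natDegree_pos.ne').trans (two_pow_le_qq _)

theorem sum_le {Ps : Finset F[X]} {n : ℕ} (h : Ps ⊆ irrLE F n) :
    ∑ P ∈ Ps, 1 / qq F P.natDegree ≤ 1 + Real.log n := by
  classical
  refine (sum_le_sum_of_subset_of_nonneg h fun P _ _ => (one_div_pos.2 (qq_pos _)).le).trans ?_
  rw [irrLE, sum_biUnion fun i _ j _ hij => disjoint_left.2 fun P hi hj =>
    hij ((mem_irrF.1 hi).2.1.symm.trans (mem_irrF.1 hj).2.1)]
  refine (sum_le_sum fun j _ => sum_inv_irrF j).trans (le_trans (le_of_eq ?_)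
    (harmonic_le_one_add_log n))
  rw [sum_range_succ', harmonic]
  simp

theorem prod_le {Ps : Finset F[X]} {n : ℕ} (h : Ps ⊆ irrLE F n) (hn : 1 ≤ n) :
    ∏ P ∈ Ps, (1 - 1 / qq F P.natDegree)⁻¹ ≤ (3 * n : ℝ) ^ 2 := by
  refine (prod_inv_le_exp Ps (fun P => 1 / qq F P.natDegree) fun P hP =>
    ⟨(one_div_pos.2 (qq_pos _)).le,
      one_div_le_one_div_of_le two_pos (two_le (mem_irrLE.1 (h hP)).2.1)⟩).trans ?_
  have h0 : (0 : ℝ) < n := by exact_mod_cast hn
  refine (Real.exp_le_exp.2 (mul_le_mul_of_nonneg_left (sum_le h) zero_le_two)).trans ?_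
  rw [two_mul, Real.exp_add, ← sq, Real.exp_add, Real.exp_log h0]
  gcongr
  linarith [Real.exp_one_lt_d9]

theorem one_form {κ : Type} (ρ : F[X] → κ → F[X]) (J : Finset κ) {Ps : Finset F[X]} {n : ℕ}
    (h : Ps ⊆ irrLE F n) (hn : 1 ≤ n) {τ : ℝ} {f g : F[X]} (hg : g ≠ 0)
    (hτ : ((divs g).card : ℝ) ≤ τ) {l : κ} (hl : ∀ P ∈ Ps, P ∣ f - ρ P l → P ∣ g) :
    ∏ P ∈ Ps, (1 + |psi ρ J P l f|) ≤ τ * (3 * n) ^ 2 := by
  classical
  have h1 : ∀ P ∈ Ps, 1 + |psi ρ J P l f| ≤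
      (if P ∣ g then 2 else 1) * (1 - 1 / qq F P.natDegree)⁻¹ := by
    intro P hP
    have h2 := two_le (mem_irrLE.1 (h hP)).2.1
    have h3 : (1 - 1 / qq F P.natDegree)⁻¹ = 1 + 1 / (qq F P.natDegree - 1) := by
      have : qq F P.natDegree - 1 ≠ 0 := by linarith
      field_simp
      ring
    have h4 : 0 < 1 / (qq F P.natDegree - 1) := one_div_pos.2 (by linarith)
    have h5 : |psi ρ J P l f| ≤ |if P ∣ f - ρ P l then -1 else 1 / (qq F P.natDegree - 1)| := by
      rw [psi, abs_mul, abs_of_nonneg (ind_nonneg _)]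
      exact mul_le_of_le_one_left (abs_nonneg _) (ind_le_one _)
    rw [h3]
    by_cases h6 : P ∣ f - ρ P l
    · rw [if_pos h6, abs_neg, abs_one] at h5
      rw [if_pos (hl P hP h6)]
      linarith
    · rw [if_neg h6, abs_of_pos h4] at h5
      split_ifs <;> linarith
  refine (prod_le_prod (fun P _ => by positivity) h1).trans ?_
  rw [prod_mul_distrib, prod_ite, prod_const, prod_const_one, mul_one]
  refine mul_le_mul (le_trans ?_ hτ) (prod_le h hn) (prod_nonneg fun P hP => inv_nonneg.2 ?_)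
    ((Nat.cast_nonneg _).trans hτ)
  · have h2 : Ps.filter (· ∣ g) ⊆ Pool.Agent.MP_43e117_nt.pf g := fun P hP => by
      obtain ⟨a, b⟩ := mem_filter.1 hP
      exact (mem_pf hg).2 ⟨(mem_irrLE.1 (h a)).1, (mem_irrLE.1 (h a)).2.1, b⟩
    exact_mod_cast (Nat.pow_le_pow_right two_pos (card_le_card h2)).trans (two_pow_pf_le hg)
  · linarith [one_div_le_one_div_of_le two_pos (two_le (mem_irrLE.1 (h hP)).2.1)]

end BdX

variable (F : Type) [Field F] [Fintype F] [CharP F 2]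

theorem sBd : SBd F := by
  intro κ _ _ ρ J Ps W x f Y n τ hG hY hd hn hτ hg
  have h : Ps ⊆ irrLE F n := fun P hP => mem_irrLE.2 ⟨(hG P hP).1, (hG P hP).2.1, hd P hP⟩
  have h1 : ∑ A : Ps → Finset κ, |lamA ρ J Ps A f| ≤ (τ * (3 * n) ^ 2) ^ Fintype.card κ := by
    simp only [lamA, abs_prod]
    rw [← Fintype.piFinset_univ, ← prod_univ_sum (fun _ => univ)
      fun (P : Ps) (a : Finset κ) => ∏ l ∈ a, |psi ρ J P.1 l f|]
    simp only [← powerset_univ, ← prod_one_add]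
    rw [prod_comm, ← card_univ, ← prod_const]
    refine prod_le_prod (fun l _ => prod_nonneg fun P _ => by positivity) fun l _ => ?_
    obtain ⟨g, g1, g2, g3⟩ := hg l
    rw [prod_coe_sort Ps fun P => 1 + |psi ρ J P l f|]
    exact BdX.one_form ρ J h hn g1 (hτ g g1 g2) g3
  refine (sum_le_sum_of_subset_of_nonneg (subset_univ _) fun _ _ _ => abs_nonneg _).trans ?_
  rw [mul_comm 2, pow_mul]
  refine le_trans ?_ (pow_le_pow_left₀ (sum_nonneg fun _ _ => abs_nonneg _) h1 2)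
  rw [sq, sum_mul_sum, ← Fintype.sum_prod_type']
  refine sum_le_sum fun z _ => ?_
  rw [ph, abs_mul, abs_mul (lamA _ _ _ _ _)]
  refine mul_le_of_le_one_left (by positivity) ?_
  rw [abs_of_nonneg (mul_nonneg (ind_nonneg _) (mul_nonneg (hY _).1 (hY _).1))]
  exact mul_le_one₀ (ind_le_one _) (mul_nonneg (hY _).1 (hY _).1)
    (mul_le_one₀ (hY _).2 (hY _).1 (hY _).2)

end Pool.Agent.PPf

end

section

/- Prime pairs over `F[X]`: the lower bound for the mass of the primes of the sieve. -/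

set_option autoImplicit false
set_option linter.unusedSectionVars false

namespace Pool.Agent.PPf

open Polynomial Finset Pool.Agent.MP_4fffd4_nt Pool.Agent.MP_c853c5_nt Pool.Agent.MP_43e117_nt
open scoped BigOperators

namespace GlowX

open TEuler

variable {F : Type} [Field F] [Fintype F]

/-- The mass of the smooth polynomials. -/
noncomputable def AA (n : ℕ) (S : Finset F[X]) : ℝ := ∑ g ∈ sm n S, 1 / qq F g.natDegree

theorem AA_nonneg (n : ℕ) (S : Finset F[X]) : 0 ≤ AA n S :=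
  sum_nonneg fun _ _ => TMass.inv_nonneg' _

theorem AA_mono {n n' : ℕ} {S S' : Finset F[X]} (h : n ≤ n') (h' : S ⊆ S') :
    AA n S ≤ AA n' S' :=
  sum_le_sum_of_subset_of_nonneg (fun g hg => by
    obtain ⟨a, b, c⟩ := mem_sm.1 hg
    exact mem_sm.2 ⟨a, b.trans h, fun Q q1 q2 q3 => h' (c Q q1 q2 q3)⟩)
    fun _ _ _ => TMass.inv_nonneg' _

theorem AA_empty (n : ℕ) : AA n (∅ : Finset F[X]) ≤ 1 := by
  have h := sum_sm (F := F) (t := fun g => 1 / qq F g.natDegree) (fun g => TMass.inv_nonneg' _)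
    (by rw [natDegree_one, qq_zero, div_one])
    (fun f g hf hg => by rw [hf.natDegree_mul hg, qq_add, one_div_mul_one_div]) n ∅
    (fun P hP => absurd hP (notMem_empty _))
  rwa [prod_empty] at h

open Classical in
theorem step (n : ℕ) (S : Finset F[X]) {P : F[X]} (hPm : P.Monic) :
    AA n (insert P S) ≤ AA n S + if P.natDegree ≤ n then
      1 / qq F P.natDegree * AA (n - P.natDegree) (insert P S) else 0 := by
  have e1 : ∑ g ∈ (sm n (insert P S)).filter (fun g => ¬ P ∣ g), 1 / qq F g.natDegree ≤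
      AA n S := by
    refine sum_le_sum_of_subset_of_nonneg (fun g hg => ?_) fun _ _ _ => TMass.inv_nonneg' _
    obtain ⟨hg1, hg2⟩ := mem_filter.1 hg
    obtain ⟨a, b, c⟩ := mem_sm.1 hg1
    refine mem_sm.2 ⟨a, b, fun Q q1 q2 q3 => ?_⟩
    rcases mem_insert.1 (c Q q1 q2 q3) with h | h
    · exact absurd (h ▸ q3) hg2
    · exact h
  have e2 : ∑ g ∈ (sm n (insert P S)).filter (fun g => P ∣ g), 1 / qq F g.natDegree ≤
      if P.natDegree ≤ n then
        1 / qq F P.natDegree * AA (n - P.natDegree) (insert P S) else 0 := by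
    split_ifs with hd
    · have hm : ∀ g ∈ sm (n - P.natDegree) (insert P S),
          1 / qq F (P * g).natDegree = 1 / qq F P.natDegree * (1 / qq F g.natDegree) :=
        fun g hg => by rw [hPm.natDegree_mul (mem_sm.1 hg).1, qq_add, one_div_mul_one_div]
      rw [AA, mul_sum, ← sum_congr rfl hm,
        ← sum_image (f := fun g : F[X] => 1 / qq F g.natDegree) (g := fun g => P * g)
          fun _ _ _ _ e => mul_left_cancel₀ hPm.ne_zero e]
      refine sum_le_sum_of_subset_of_nonneg (fun g hg => ?_) fun _ _ _ => TMass.inv_nonneg' _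
      obtain ⟨hg1, g', rfl⟩ := mem_filter.1 hg
      obtain ⟨a, b, c⟩ := mem_sm.1 hg1
      have a' := hPm.of_mul_monic_left a
      rw [hPm.natDegree_mul a'] at b
      exact mem_image.2 ⟨g', mem_sm.2 ⟨a', by omega, fun Q q1 q2 q3 =>
        c Q q1 q2 (q3.mul_left _)⟩, rfl⟩
    · refine le_of_eq (sum_eq_zero fun g hg => ?_)
      obtain ⟨hg1, hg2⟩ := mem_filter.1 hg
      obtain ⟨a, b, -⟩ := mem_sm.1 hg1
      exact absurd ((natDegree_le_of_dvd hg2 a.ne_zero).trans b) hd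
  have e3 := sum_filter_add_sum_filter_not (sm n (insert P S)) (fun g => P ∣ g)
    fun g => 1 / qq F g.natDegree
  unfold AA at *
  linarith

open Classical in
theorem rem1 (n : ℕ) (S : Finset F[X]) {P : F[X]} (hPm : P.Monic) (hP : Irreducible P) :
    AA n (insert P S) ≤ (1 - 1 / qq F P.natDegree)⁻¹ * AA n S := by
  have h1 := step n S hPm
  have h2 := TMass.inv_le_half hP
  have h3 := TMass.inv_nonneg' (F := F) P.natDegree
  have h4 : (if P.natDegree ≤ n then 1 / qq F P.natDegree * AA (n - P.natDegree) (insert P S)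
      else 0) ≤ 1 / qq F P.natDegree * AA n (insert P S) := by
    split_ifs
    · exact mul_le_mul_of_nonneg_left (AA_mono (Nat.sub_le _ _) Subset.rfl) h3
    · exact mul_nonneg h3 (AA_nonneg _ _)
  rw [← div_eq_inv_mul, le_div_iff₀ (by linarith)]
  linarith

open Classical in
theorem rem (n : ℕ) (S R : Finset F[X]) (hR : ∀ P ∈ R, P.Monic ∧ Irreducible P) :
    AA n (R ∪ S) ≤ (∏ P ∈ R, (1 - 1 / qq F P.natDegree)⁻¹) * AA n S := by
  induction R using Finset.induction_on with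
  | empty => simp
  | insert P R hP ih =>
    obtain ⟨a, b⟩ := hR P (mem_insert_self _ _)
    have h2 := TMass.inv_le_half b
    rw [insert_union, prod_insert hP, mul_assoc]
    exact (rem1 n _ a b).trans (mul_le_mul_of_nonneg_left
      (ih fun Q hQ => hR Q (mem_insert_of_mem hQ)) (inv_nonneg.2 (by linarith)))

open Classical in
theorem sub {ι : Type} [DecidableEq ι] (e : ι → F[X]) (he : ∀ i, (e i).Monic ∧ Irreducible (e i))
    (S : Finset ι) : ∀ n, AA n (S.image e) ≤ ∑ s ∈ S.powerset,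
      cut n (∑ i ∈ s, (e i).natDegree) * ∏ i ∈ s, 1 / (qq F (e i).natDegree - 1) := by
  induction S using Finset.induction_on with
  | empty =>
    intro n
    rw [image_empty, powerset_empty, sum_singleton, sum_empty, prod_empty, cut,
      if_pos (Nat.zero_le _), mul_one]
    exact AA_empty n
  | insert i S hi ih =>
    intro n
    obtain ⟨a, b⟩ := he i
    rw [image_insert, sum_powerset_insert hi]
    refine (step n _ a).trans (add_le_add (ih n) ?_)
    have h2 := TMass.inv_le_half b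
    have h3 := TMass.inv_nonneg' (F := F) (e i).natDegree
    have h4 : (2 : ℝ) ≤ qq F (e i).natDegree := by
      rw [div_le_div_iff₀ (qq_pos _) two_pos] at h2
      linarith
    have hp : ∀ s : Finset ι, 0 ≤ ∏ j ∈ s, 1 / (qq F (e j).natDegree - 1) := fun s =>
      prod_nonneg fun j _ => one_div_nonneg.2 (sub_nonneg.2 (one_le_qq _))
    split_ifs with hd
    · have h5 := (rem1 (n - (e i).natDegree) (S.image e) a b).trans
        (mul_le_mul_of_nonneg_left (ih _) (inv_nonneg.2 (by linarith)))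
      refine (mul_le_mul_of_nonneg_left h5 h3).trans (le_of_eq ?_)
      have h6 : 1 / qq F (e i).natDegree * (1 - 1 / qq F (e i).natDegree)⁻¹ =
          1 / (qq F (e i).natDegree - 1) := by
        have : qq F (e i).natDegree - 1 ≠ 0 := by linarith
        have : qq F (e i).natDegree ≠ 0 := by linarith
        field_simp
      rw [← mul_assoc, h6, mul_sum]
      refine sum_congr rfl fun s hs => ?_
      have hs' : i ∉ s := fun h => hi (mem_powerset.1 hs h)
      rw [sum_insert hs', prod_insert hs']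
      have h7 : cut (n - (e i).natDegree) (∑ j ∈ s, (e j).natDegree) =
          cut n ((e i).natDegree + ∑ j ∈ s, (e j).natDegree) := by
        unfold cut
        exact if_congr (by omega) rfl rfl
      rw [h7]
      ring
    · refine sum_nonneg fun s _ => mul_nonneg ?_ (hp _)
      unfold cut
      split_ifs <;> norm_num

theorem total (t : ℕ) : (t : ℝ) + 1 = AA t (irrLE F t) := by
  rw [AA, ← sum_biU, sum_congr rfl (g := fun _ => (1 : ℝ)) fun j _ => ?_]
  · simp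
  · rw [sum_congr rfl (g := fun _ => 1 / qq F j) fun g hg => by rw [(mem_monF.1 hg).2],
      ← sum_div, sum_one_monF, div_self (qq_pos j).ne']

end GlowX

variable (F : Type) [Field F] [Fintype F] [CharP F 2]

open Classical in
theorem sGlow : SGlow F := by
  intro W lo hi D t hW hlo hhi ht
  set Ps := prm F W lo hi D with hPs
  set Wn := (irrLE F D).filter fun P => lo ≤ P.natDegree ∧ P.natDegree ≤ hi with hWn
  have h1 : irrLE F t ⊆ Wn ∪ (pf W ∪ Ps) := by
    intro P hP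
    obtain ⟨a, b, c⟩ := mem_irrLE.1 hP
    have hD : P ∈ irrLE F D := mem_irrLE.2 ⟨a, b, c.trans ht⟩
    by_cases h2 : lo ≤ P.natDegree ∧ P.natDegree ≤ hi
    · exact mem_union_left _ (mem_filter.2 ⟨hD, h2⟩)
    refine mem_union_right _ ?_
    by_cases h3 : P ∣ W
    · exact mem_union_left _ ((mem_pf hW).2 ⟨a, b, h3⟩)
    · exact mem_union_right _ (mem_filter.2 ⟨hD, h3, by omega⟩)
  have hWn' : ∀ P ∈ Wn, P.Monic ∧ Irreducible P := fun P hP =>
    ⟨(mem_irrLE.1 (mem_filter.1 hP).1).1, (mem_irrLE.1 (mem_filter.1 hP).1).2.1⟩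
  have hpf : ∀ P ∈ pf W, P.Monic ∧ Irreducible P := fun P hP =>
    ⟨((mem_pf hW).1 hP).1, ((mem_pf hW).1 hP).2.1⟩
  have h2 := GlowX.rem t (pf W ∪ Ps) Wn hWn'
  have h3 := GlowX.rem t Ps (pf W) hpf
  have h4 : ∏ P ∈ Wn, (1 - 1 / qq F P.natDegree)⁻¹ ≤ Real.exp 32 := by
    refine (prod_inv_le_exp Wn (fun P => 1 / qq F P.natDegree) fun P hP =>
      ⟨TMass.inv_nonneg' _, TMass.inv_le_half (hWn' P hP).2⟩).trans (Real.exp_le_exp.2 ?_)
    have e1 := TMass.sum_deg (T := Wn) (a := lo - 1) (b := hi) fun P hP =>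
      ⟨(hWn' P hP).1, (hWn' P hP).2, by have := (mem_filter.1 hP).2.1; omega,
        (mem_filter.1 hP).2.2⟩
    have e2 : ((hi - (lo - 1) : ℕ) : ℝ) / (((lo - 1 : ℕ) : ℝ) + 1) ≤ 16 := by
      rw [div_le_iff₀ (by positivity)]
      have : hi - (lo - 1) ≤ 16 * (lo - 1 + 1) := by omega
      exact_mod_cast this
    linarith
  have h5 : GlowX.AA t Ps ≤ mom (nm Ps) (dP Ps) (cut t) := by
    have e1 := GlowX.sub (ι := Ps) (fun P => P.1) (fun P =>
      ⟨(mem_irrLE.1 (mem_filter.1 P.2).1).1, (mem_irrLE.1 (mem_filter.1 P.2).1).2.1⟩) univ t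
    rw [powerset_univ] at e1
    refine le_trans (GlowX.AA_mono le_rfl fun P hP => ?_) e1
    exact mem_image.2 ⟨⟨P, hP⟩, mem_univ _, rfl⟩
  have hV : 0 < VS (pf W) := prod_pos fun P hP => by
    have := TMass.inv_le_half (hpf P hP).2
    linarith
  rw [prod_inv_distrib] at h3
  have h6 : (t : ℝ) + 1 ≤ Real.exp 32 * ((VS (pf W))⁻¹ * mom (nm Ps) (dP Ps) (cut t)) := by
    rw [GlowX.total (F := F) t]
    refine (GlowX.AA_mono le_rfl h1).trans (h2.trans ?_)
    refine mul_le_mul h4 (h3.trans ?_) (GlowX.AA_nonneg _ _) (Real.exp_pos _).le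
    exact mul_le_mul_of_nonneg_left h5 (inv_nonneg.2 hV.le)
  have h7 : Real.exp (-32) * VS (pf W) * (Real.exp 32 *
      ((VS (pf W))⁻¹ * mom (nm Ps) (dP Ps) (cut t))) = mom (nm Ps) (dP Ps) (cut t) := by
    rw [Real.exp_neg]
    have := (Real.exp_pos 32).ne'
    field_simp
  rw [← h7]
  exact mul_le_mul_of_nonneg_left (by linarith) (mul_pos (Real.exp_pos _) hV).le

end Pool.Agent.PPf

end
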