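import Mathlib
import Pool.Agent.Mg.Ff37147.Ga41c89
import Pool.Agent.Mg.F43e117.Gdfb9a5
import Pool.Agent.Mg.F43e117.G5dfe51

/- Prime pairs over `F[X]`: the model with a weight. -/

set_option autoImplicit false
set_option linter.unusedSectionVars false

namespace Pool.Agent.PPf

open Polynomial Finset Pool.Agent.MP_4fffd4_nt Pool.Agent.MP_c853c5_nt Pool.Agent.MP_43e117_nt
open scoped BigOperators

namespace ModX

theorem ident {α : Type} [DecidableEq α] {A B I : Finset α} (hAB : A ⊆ B) (hBI : B ⊆ I)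
    (x y s : α → ℝ) (hx : ∀ P ∈ B, x P ≠ 0) (hy : ∀ P ∈ B \ A, y P ≠ 0)
    (h1 : ∀ P ∈ B, s P = (x P)⁻¹) (h2 : ∀ P ∈ I \ B, s P = y P / x P ^ 2) :
    (∏ P ∈ B, x P)⁻¹ * ∏ P ∈ I, s P =
      (∏ P ∈ A, x P)⁻¹ ^ 2 * (∏ P ∈ I \ A, y P / x P ^ 2) * ∏ P ∈ B \ A, (y P)⁻¹ := by
  have e : (I \ A) \ (B \ A) = I \ B := by
    ext P
    have := @hAB P
    simp only [mem_sdiff]
    tauto
  have a1 : ∏ P ∈ A, x P ≠ 0 := prod_ne_zero_iff.2 fun P h => hx P (hAB h)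
  have a2 : ∏ P ∈ B \ A, x P ≠ 0 := prod_ne_zero_iff.2 fun P h => hx P (mem_sdiff.1 h).1
  have a3 := prod_ne_zero_iff.2 hy
  rw [← prod_sdiff hBI, prod_congr rfl h1, prod_congr rfl h2,
    ← prod_sdiff (sdiff_subset_sdiff hBI (subset_refl A)), e, prod_inv_distrib, prod_inv_distrib,
    ← prod_sdiff hAB, prod_div_distrib (s := B \ A), prod_pow]
  field_simp

theorem avg {ι : Type} {Z : Finset ι} {m c : ι → ℝ} {b : ℝ} (hm : ∑ z ∈ Z, |m z| ≤ 1) (hb : 0 ≤ b)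
    (hc : ∀ z ∈ Z, |c z| ≤ b) : |∑ z ∈ Z, m z * c z| ≤ b := by
  refine (abs_sum_le_sum_abs _ _).trans ((sum_le_sum (g := fun z => |m z| * b)
    fun z hz => ?_).trans ?_)
  · rw [abs_mul]
    exact mul_le_mul_of_nonneg_left (hc z hz) (abs_nonneg _)
  · rw [← sum_mul]
    exact mul_le_of_le_one_left hb hm

variable {F : Type} [Field F] [Fintype F]

theorem half_le {P : F[X]} (hP : Irreducible P) : 1 / qq F P.natDegree ≤ 1 / 2 :=
  one_div_le_one_div_of_le two_pos (TSing.two_le_qq hP)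

theorem err {M : F[X]} (hM : M ≠ 0) {n I : ℕ} {τ : ℝ} (hd : M.natDegree ≤ n) (h1 : 1 ≤ I)
    (hI : I ≤ n) (hτ : DivB F τ (5 * n)) :
    |(VS (pf M))⁻¹ * mainT M n I - (VS (pf M))⁻¹ * sing M (5 * n)| ≤
      3 * Real.exp 18 * n * τ ^ 6 * (3 / 4) ^ I := by
  have t : (2 : ℝ) ^ (pf M).card ≤ τ :=
    le_trans (by exact_mod_cast two_pow_pf_le hM) (hτ M hM (by omega))
  have t0 := zero_le_one.trans hτ.one_le
  have v : (1 / 2 : ℝ) ^ (pf M).card ≤ VS (pf M) := by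
    rw [← prod_const]
    exact prod_le_prod (fun _ _ => by norm_num) fun P hP => by
      linarith [half_le ((mem_pf hM).1 hP).2.1]
  have v0 : (0 : ℝ) < (1 / 2) ^ (pf M).card := by positivity
  have v1 : (VS (pf M))⁻¹ ≤ τ := (inv_anti₀ v0 v).trans (by rwa [one_div, inv_pow, inv_inv])
  have e3 : Real.exp 3 ≤ 2 ^ 5 := by
    have := pow_le_pow_left₀ (Real.exp_pos 1).le Real.exp_one_lt_three.le 3
    rw [← Real.exp_nat_mul] at this
    norm_num at this ⊢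
    linarith
  have e4 : Real.exp (3 * (pf M).card) ≤ τ ^ 5 := by
    rw [mul_comm, Real.exp_nat_mul]
    refine (pow_le_pow_left₀ (Real.exp_pos _).le e3 _).trans ?_
    rw [← pow_mul, mul_comm, pow_mul]
    exact pow_le_pow_left₀ (by positivity) t 5
  have a := TSing.approx hM h1 hI (D := 5 * n) (by omega)
  rw [← mul_sub, abs_mul, abs_of_pos (inv_pos.2 (v0.trans_le v))]
  rw [Real.exp_add] at a
  calc _ ≤ τ * (3 * (τ ^ 5 * Real.exp 18) * n * (3 / 4) ^ I) :=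
        mul_le_mul v1 (a.trans (by gcongr)) (abs_nonneg _) t0
    _ = _ := by ring

open Classical in
theorem main {M W : F[X]} (hM : M ≠ 0) (hW : W ∣ M) {D : ℕ} (hd : M.natDegree ≤ D)
    (h15 : ∀ P : F[X], Irreducible P → P.natDegree ≤ 15 → P ∣ W) :
    (VS (pf M))⁻¹ * sing M D = (VS (pf W))⁻¹ ^ 2 * (∏ P ∈ irrLE F D \ pf W,
      (1 - 2 / qq F P.natDegree) / (1 - 1 / qq F P.natDegree) ^ 2) *
        ∏ P ∈ pf M \ pf W, (1 - 2 / qq F P.natDegree)⁻¹ := by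
  have W0 := ne_zero_of_dvd_ne_zero hM hW
  have hx : ∀ P ∈ pf M, 1 - 1 / qq F P.natDegree ≠ 0 := fun P hP =>
    ne_of_gt (by linarith [half_le ((mem_pf hM).1 hP).2.1])
  refine ident (fun P hP => ?_) (fun P hP => ?_) _ _ _ hx (fun P hP => ?_) (fun P hP => ?_)
    fun P hP => ?_
  · obtain ⟨a, b, c⟩ := (mem_pf W0).1 hP
    exact (mem_pf hM).2 ⟨a, b, c.trans hW⟩
  · obtain ⟨a, b, c⟩ := (mem_pf hM).1 hP
    exact mem_irrLE.2 ⟨a, b, (natDegree_le_of_dvd c hM).trans hd⟩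
  · obtain ⟨a, b, -⟩ := (mem_pf hM).1 (mem_sdiff.1 hP).1
    have h2 : 2 ≤ P.natDegree := by
      by_contra H
      exact (mem_sdiff.1 hP).2 ((mem_pf W0).2 ⟨a, b, h15 P b (by omega)⟩)
    have h3 : 2 / qq F P.natDegree < 1 := (div_lt_one (qq_pos _)).2
      (lt_of_lt_of_le (by norm_num) ((two_pow_le_qq 2).trans (qq_mono h2)))
    exact (sub_pos.2 h3).ne'
  · rw [if_pos ((mem_pf hM).1 hP).2.2, sq, div_mul_cancel_left₀ (hx P hP)]
  · obtain ⟨a, b, -⟩ := mem_irrLE.1 (mem_sdiff.1 hP).1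
    rw [if_neg fun c => (mem_sdiff.1 hP).2 ((mem_pf hM).2 ⟨a, b, c⟩)]

theorem fac {P : F[X]} (hP : Irreducible P) :
    0 ≤ (1 - 2 / qq F P.natDegree) / (1 - 1 / qq F P.natDegree) ^ 2 ∧
      (1 - 2 / qq F P.natDegree) / (1 - 1 / qq F P.natDegree) ^ 2 ≤ 1 := by
  have h := half_le hP
  rw [show 2 / qq F P.natDegree = 2 * (1 / qq F P.natDegree) by ring]
  generalize 1 / qq F P.natDegree = x at h
  exact ⟨div_nonneg (by linarith) (sq_nonneg _),
    div_le_one_of_le₀ (by nlinarith [sq_nonneg x]) (sq_nonneg _)⟩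

end ModX

variable (F : Type) [Field F] [Fintype F] [CharP F 2]

open Classical ModX in
theorem sMod (h1 : SFact F) (h2 : SRestr F) : SMod F := by
  intro h W κ n R R' lo hi τ B K ι Z M Φ H hW h15 hK hM hn hh hR hR' hτ hκ hκ1
  have hd : ∀ z ∈ Z, (M z).natDegree ≤ n := fun z hz => (H.deg z hz).trans H.hR
  have r := fun z hz => h2 h (M z) κ n R' τ B (H.mon z hz) (hd z hz) (H.hdv z hz) hn hh hR hR' hτ
    hκ hκ1
  have hm := H.sum_mean (l := 5 * n) (H.hR.trans (by omega))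
  have e : ∀ i i', i ≤ n → i' ≤ n → mcorr h (5 * n) (tw (tot Z Φ) (tr κ R' i)) (tr κ R' i') =
      ∑ z ∈ Z, (𝔼 f : degreeLT F (5 * n), Φ z f.1) *
        mcorr h (5 * n) (trM (M z) κ R' i) (trM (M z) κ R' i') := fun i i' a b => by
    rw [← sum_congr rfl fun z hz => h1 h (M z) (Φ z) κ (5 * n) R' i i' (H.mon z hz) (H.per z hz)
      (H.supp z hz) (by have := hd z hz; omega)]
    simp only [mcorr, tw, tot, sum_mul, expect_sum_comm]
  have t1 := hτ.one_le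
  have B1 : 1 ≤ B := by simpa [hκ1] using hκ 1 monic_one (by simp)
  have n1 : (1 : ℝ) ≤ n := by exact_mod_cast (by omega : 1 ≤ n)
  refine ⟨fun i i' a b c => ?_, ?_⟩
  · rw [e i i' a b]
    exact avg hm (by positivity) fun z hz => (r z hz).1 i i' a b c
  obtain ⟨S, hS⟩ : ∃ S : ι → ℝ, S = fun z => ∑ i ∈ range (2 * R'), ∑ i' ∈ range (2 * R'),
    ((n : ℝ) - i) * ((n : ℝ) - i') * mcorr h (5 * n) (trM (M z) κ R' i) (trM (M z) κ R' i') :=
    ⟨_, rfl⟩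
  have e2 : ∑ i ∈ range (2 * R'), ∑ i' ∈ range (2 * R'), ((n : ℝ) - i) * ((n : ℝ) - i') *
      mcorr h (5 * n) (tw (tot Z Φ) (tr κ R' i)) (tr κ R' i') =
      ∑ z ∈ Z, (𝔼 f : degreeLT F (5 * n), Φ z f.1) * S z := by
    simp only [hS, mul_sum]
    rw [sum_comm (s := Z)]
    refine sum_congr rfl fun i hi => ?_
    rw [sum_comm (s := Z)]
    refine sum_congr rfl fun i' hi' => ?_
    rw [e i i' ((mem_range.1 hi).le.trans hR') ((mem_range.1 hi').le.trans hR'), mul_sum]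
    exact sum_congr rfl fun z _ => by ring
  have a1 := avg hm (c := fun z => S z - (VS (pf (M z)))⁻¹ * sing (M z) (5 * n))
    (b := (18 + 3 * Real.exp 18) * n ^ 3 * B ^ 2 * τ ^ 6 * (3 / 4) ^ R') (by positivity)
    fun z hz => by
      have b1 := err (H.mon z hz).ne_zero (hd z hz) (by omega : 1 ≤ 2 * R') hR' hτ
      have b2 : 3 * Real.exp 18 * n * τ ^ 6 * (3 / 4 : ℝ) ^ (2 * R') ≤
          3 * Real.exp 18 * (n ^ 3 * B ^ 2) * τ ^ 6 * (3 / 4) ^ R' := by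
        have : (n : ℝ) ≤ n ^ 3 * B ^ 2 := (le_self_pow₀ n1 (by norm_num)).trans
          (le_mul_of_one_le_right (by positivity) (one_le_pow₀ B1))
        have : (3 / 4 : ℝ) ^ (2 * R') ≤ (3 / 4) ^ R' :=
          pow_le_pow_of_le_one (by norm_num) (by norm_num) (by omega)
        gcongr
      have b3 : 18 * (n : ℝ) ^ 3 * B ^ 2 * τ ^ 5 * (3 / 4 : ℝ) ^ R' ≤
          18 * n ^ 3 * B ^ 2 * τ ^ 6 * (3 / 4) ^ R' := by gcongr; omega
      refine (abs_sub_le _ ((VS (pf (M z)))⁻¹ * mainT (M z) n (2 * R')) _).trans ?_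
      rw [hS]
      linarith [(r z hz).2]
  obtain ⟨s, hs⟩ : ∃ s, s = ∏ P ∈ irrLE F (5 * n) \ pf W,
    (1 - 2 / qq F P.natDegree) / (1 - 1 / qq F P.natDegree) ^ 2 := ⟨_, rfl⟩
  have s0 : 0 ≤ s := hs ▸ prod_nonneg fun P hP => (fac (mem_irrLE.1 (mem_sdiff.1 hP).1).2.1).1
  have s1 : s ≤ 1 := hs ▸ prod_le_one (fun P hP => (fac (mem_irrLE.1 (mem_sdiff.1 hP).1).2.1).1)
    fun P hP => (fac (mem_irrLE.1 (mem_sdiff.1 hP).1).2.1).2
  have a2 : ∑ z ∈ Z, (𝔼 f : degreeLT F (5 * n), Φ z f.1) *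
      ((VS (pf (M z)))⁻¹ * sing (M z) (5 * n)) ≤ (VS (pf W))⁻¹ ^ 2 * K := by
    refine le_trans (le_of_eq ?_) (mul_le_mul_of_nonneg_left
      ((mul_le_mul_of_nonneg_left hM s0).trans (mul_le_of_le_one_left hK s1)) (sq_nonneg _))
    rw [mul_sum, mul_sum]
    refine sum_congr rfl fun z hz => ?_
    rw [main (H.mon z hz).ne_zero (hW z hz) ((hd z hz).trans (by omega)) h15, ← hs]
    ring
  simp only [mul_sub, sum_sub_distrib] at a1
  rw [e2]
  linarith [(abs_le.1 a1).2]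

end Pool.Agent.PPf
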