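import Mathlib
import Pool.Agent.Mg.Ff37147.Ga41c89
import Pool.Agent.Mg.F43e117.Gad05b4
import Pool.Agent.Mg.F43e117.Gb80aec
import Pool.Agent.MP_f37147_nt.PP.Loc
import Pool.Agent.Mg.Ff37147.G67db0d
import Pool.Agent.MP_f37147_nt.PP.Ideal
import Pool.Agent.MP_f37147_nt.PP.Model
import Pool.Agent.MP_f37147_nt.PP.May
import Pool.Agent.MP_f37147_nt.PP.Pack
import Pool.Agent.Mg.Ff37147.G799bc3
import Pool.Agent.Mg.Ff37147.G5d4cf9
import Pool.Agent.Mg.Ff37147.Gc9a7a7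
import Pool.Agent.Mg.Ff37147.Ga1ad9e

section

/- Prime pairs over `F[X]`: the weighted twin prime bound. -/

set_option autoImplicit false
set_option linter.unusedSectionVars false

namespace Pool.Agent.PPf

open Polynomial Finset Pool.Agent.MP_4fffd4_nt Pool.Agent.MP_c853c5_nt Pool.Agent.MP_43e117_nt
open scoped BigOperators

namespace TwinX

theorem thin {n N R E T Θ : ℕ} (hN : 25 ≤ N) (hR : R * N ^ 2 ≤ n) (hE : E * N ^ 4 ≤ n)
    (hER : E ≤ R) (hT : 2 * T ≤ E) (hΘ : Θ * N ≤ n) (hΘ' : n ≤ 2 * N * Θ) (hn : 0 < n) :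
    10 * (((E + 4 * R : ℕ) : ℝ) ^ 2 + Θ * (E + 4 * R : ℕ) + (n : ℝ) ^ 2 * (E + 2 * T : ℕ) / Θ) ≤
      100 * (n : ℝ) ^ 2 / (N : ℝ) ^ 3 := by
  have h0 : (25 : ℝ) ≤ N := by exact_mod_cast hN
  have h1 : (0 : ℝ) < N := by linarith
  have h2 : (0 : ℝ) < n := Nat.cast_pos.2 hn
  have a1 : ((E + 4 * R : ℕ) : ℝ) ≤ 5 * n / (N : ℝ) ^ 2 := by
    rw [le_div_iff₀ (by positivity)]
    exact_mod_cast (Nat.mul_le_mul_right _ (by omega : E + 4 * R ≤ 5 * R)).trans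
      (by rw [mul_assoc]; omega)
  have a2 : (Θ : ℝ) ≤ n / N := by
    rw [le_div_iff₀ h1]
    exact_mod_cast hΘ
  have a3 : ((E + 2 * T : ℕ) : ℝ) ≤ 2 * n / (N : ℝ) ^ 4 := by
    rw [le_div_iff₀ (by positivity)]
    exact_mod_cast (Nat.mul_le_mul_right _ (by omega : E + 2 * T ≤ 2 * E)).trans
      (by rw [mul_assoc]; omega)
  have a4 : n / (2 * N : ℝ) ≤ Θ := by
    rw [div_le_iff₀' (by positivity)]
    exact_mod_cast hΘ'
  have a5 : 25 / (N : ℝ) ≤ 1 := (div_le_one h1).2 h0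
  calc _ ≤ 10 * ((5 * n / (N : ℝ) ^ 2) ^ 2 + n / N * (5 * n / (N : ℝ) ^ 2) +
        (n : ℝ) ^ 2 * (2 * n / (N : ℝ) ^ 4) / (n / (2 * N))) := by gcongr
    _ = 10 * (25 / N + 9) * ((n : ℝ) ^ 2 / (N : ℝ) ^ 3) := by field_simp; ring
    _ ≤ 10 * (1 + 9) * ((n : ℝ) ^ 2 / (N : ℝ) ^ 3) := by gcongr
    _ = _ := by ring

theorem numer {Q P ζ c q n : ℝ} (hQ : n + 2 ≤ Q) (hn : 0 ≤ n) (hq : 0 < q) (hζ : 0 ≤ ζ)
    (hζ' : Q ^ 12 * ζ ≤ 1) (hc : 0 ≤ c) (hP : c + 34 ≤ P) (hPQ : P ^ 2 ≤ Q) :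
    q * (c * n ^ 3 * Q ^ 2 * Q ^ 6 * ζ) + 2 * Q ^ 4 * (Q ^ 30 * Q ^ 7 * (q / Q ^ 100) +
      5 * Q ^ 11 * (2 * q / Q ^ 30) + q * (6 * Q ^ 2 * Q ^ 5 * ζ)) ≤ q / P := by
  have hQ1 : 1 ≤ Q := by linarith
  have hQ0 : 0 < Q := by linarith
  have hP0 : 0 < P := by linarith
  have hnQ : n ≤ Q := by linarith
  have hz : Q ^ 11 * ζ ≤ 1 / Q := by
    rw [le_div_iff₀ hQ0]
    linarith [show Q ^ 11 * ζ * Q = Q ^ 12 * ζ by ring]
  have hw : ∀ k l, k + 1 ≤ l → Q ^ k / Q ^ l ≤ 1 / Q := fun k l hk => by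
    rw [div_le_div_iff₀ (by positivity) hQ0, one_mul, ← pow_succ]
    exact pow_le_pow_right₀ hQ1 hk
  calc _ ≤ q * (c * Q ^ 3 * Q ^ 2 * Q ^ 6 * ζ) + 2 * Q ^ 4 * (Q ^ 30 * Q ^ 7 * (q / Q ^ 100) +
        5 * Q ^ 11 * (2 * q / Q ^ 30) + q * (6 * Q ^ 2 * Q ^ 5 * ζ)) := by gcongr
    _ = q * ((c + 12) * (Q ^ 11 * ζ) + 2 * (Q ^ 41 / Q ^ 100) + 20 * (Q ^ 15 / Q ^ 30)) := by ring
    _ ≤ q * ((c + 12) * (1 / Q) + 2 * (1 / Q) + 20 * (1 / Q)) := by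
        have := hw 41 100 (by norm_num)
        have := hw 15 30 (by norm_num)
        gcongr
    _ = q * ((c + 34) / Q) := by ring
    _ ≤ q * (P / P ^ 2) := by gcongr
    _ = _ := by field_simp

end TwinX

open TFin TwinX in
theorem sTwin : ∃ C : ℝ, 0 < C ∧ ∀ (F : Type) [Field F] [Fintype F] [CharP F 2],
    SLU F → SCent F → SMass F → SMod F → STotal F → STwin F C := by
  refine ⟨100 * (5 * (160000000 : ℕ) * Real.exp (Real.exp 14 + 2 * (160000000 : ℕ))) ^ 2,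
    by positivity, fun F _ _ _ hLU hCent hMass hMod hTot N h W hN hh hW hP => ?_⟩
  obtain ⟨CL, hCL, n₁, HL⟩ := hLU h (2 * N ^ 4) hh
  obtain ⟨n₂, HK⟩ := hCent h hh
  have hq : 0 < Fintype.card F := Fintype.card_pos
  obtain ⟨H, hH⟩ : ∃ H, H = 100 * (CL + N ^ 4 + Fintype.card F * 10000000) := ⟨_, rfl⟩
  have hH0 : 0 < H := by omega
  obtain ⟨n₃, HS⟩ := TSieve.size H hH0
  obtain ⟨n₄, Hτ⟩ := exists_DivB (F := F) 5 H hH0
  obtain ⟨n₅, HQ⟩ := exists_poly (F := F) 3 1 H hH0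
  obtain ⟨n₆, HP⟩ := exists_poly (F := F) 1 1 (2 * H) (by omega)
  obtain ⟨n₇, hn₇⟩ := exists_nat_ge (18 + 3 * Real.exp 18 + 34)
  refine ⟨2 * H, by omega, n₁ + n₂ + n₃ + n₄ + n₅ + n₆ + n₇ + h.natDegree + N ^ 4 +
    80000000 * (W.natDegree + 8), fun n hn K ι Z M Φ hF hWM h0 hK hLine hMain => ?_⟩
  have N2 : 10000000000 ≤ N ^ 2 := le_trans (by norm_num) (Nat.pow_le_pow_left hN 2)
  have N4 : N ^ 2 ≤ N ^ 4 := Nat.pow_le_pow_right (by omega) (by norm_num)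
  have N5 : 4 * N ≤ N ^ 2 := by nlinarith
  have hτ := Hτ n (by omega)
  have hn0 : (2 : ℝ) ≤ n := by exact_mod_cast (by omega)
  have hQ : (n : ℝ) + 2 ≤ qq F (n / H) := le_trans (by push_cast; linarith) (HQ n (by omega))
  have hPP : 18 + 3 * Real.exp 18 + 34 ≤ qq F (n / (2 * H)) := by
    refine hn₇.trans (le_trans ?_ (HP n (by omega)))
    rw [pow_one, Nat.cast_one, one_mul]
    exact_mod_cast (by omega)
  have hPQ : qq F (n / (2 * H)) ^ 2 ≤ qq F (n / H) := by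
    rw [qq_pow, mul_comm]
    exact qq_mono (mul_div_le hH0 le_rfl n)
  have b1 := mul_div_le (c := 100) hCL (M := H) (by omega) n
  have b2 := mul_div_le (c := 100) (C := N ^ 4) (by omega) (M := H) (by omega) n
  have b3 := mul_div_le (c := 100 * Fintype.card F) (C := 10000000) (by omega) (M := H)
    (by rw [mul_assoc]; omega) n
  have b4 := mul_div_le (c := 1) (C := N ^ 2) (by omega) (M := N ^ 4) (by omega) n
  have b5 := mul_div_le (c := 1000) (C := 10000000) (by omega) (M := N ^ 2) (by omega) n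
  have b6 := mul_div_le (c := 4) (C := N) (by omega) (M := N ^ 4) (by omega) n
  have b7 := Nat.div_mul_le_self n (N ^ 2)
  have b8 := Nat.div_mul_le_self n (N ^ 4)
  have b9 := Nat.div_mul_le_self n N
  have b10 : 1 ≤ n / N ^ 4 := (Nat.le_div_iff_mul_le (by omega)).2 (by omega)
  have b11 : n ≤ 2 * N ^ 4 * (n / N ^ 4) := by
    have := Nat.lt_mul_div_succ n (b := N ^ 4) (by omega)
    nlinarith
  have b12 : n ≤ 2 * N * (n / N) := by
    have := Nat.lt_mul_div_succ n (b := N) (by omega)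
    nlinarith
  have b13 := Nat.div_le_self n N
  rw [mul_assoc] at b3
  have hsz := HS n (Nat.log 2 (n / 10000000 / 8 / 8)) (by omega)
  generalize n / H = t at *
  generalize n / N ^ 2 = R at *
  generalize n / N ^ 4 = E at *
  generalize n / N = Θ at *
  obtain ⟨y, hy⟩ : ∃ y, y = n / 10000000 / 8 := ⟨_, rfl⟩
  rw [← hy] at hsz
  generalize hS : Nat.log 2 (y / 8) = S at hsz
  have s1 : 2 ^ S ≤ y / 8 := hS ▸ Nat.pow_log_le_self 2 (by omega)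
  have s2 : y / 8 < 2 ^ (S + 1) := hS ▸ Nat.lt_pow_succ_log_self one_lt_two _
  have h1 : 8 ≤ y / 2 ^ S := (Nat.le_div_iff_mul_le (Nat.two_pow_pos S)).2 (by omega)
  have h2 : y / 2 ^ S ≤ 15 := by
    rw [pow_succ] at s2
    exact Nat.le_of_lt_succ ((Nat.div_lt_iff_lt_mul (Nat.two_pow_pos S)).2 (by omega))
  obtain ⟨κ, Z', a, b, α, hs⟩ := sieve_nu W (n := n) (y := y) (S := S) (by omega)
  replace hs := TSieve.sieve_mono hs (R' := n / 10000000) (B' := qq F t) (by omega)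
    (le_trans (by exact_mod_cast hsz (by omega)) (two_pow_le_qq _))
  have hdeg : h.degree < n := degree_le_natDegree.trans_lt (by exact_mod_cast (by omega))
  have hE : ∀ Φ : ι → F[X] → ℝ, Fam h n R (wlo (2 * N ^ 4) n) (whi (2 * N ^ 4) n) Z M Φ →
      EstW (tot Z Φ) h n (n / 100000) (E + 4 * R) E (qq F n / qq F (100 * t)) := fun Φ hF =>
    ⟨fun I I' α β h1 h2 h3 => (HK n (by omega) R _ _ ι Z M Φ (by omega) hF I I' α β h1 h2
        (h3.imp_left fun _ => by omega)).trans (div_qq_mono n (by omega)),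
      fun i ε₁ ε₂ μ κ h1 h2 h3 α₁ β₁ α₂ β₂ h4 h5 h6 h7 =>
        ((HL n (by omega) E R ι Z M Φ b11 hF).1 i ε₁ ε₂ μ κ h1 h2 h3 α₁ β₁ α₂ β₂ h4 h5 h6
          h7).trans (div_qq_mono n b1),
      fun i ε₁ ε₂ κ h1 h2 h3 h4 β₁ α₂ β₂ h5 h6 h7 =>
        ((HL n (by omega) E R ι Z M Φ b11 hF).2 i ε₁ ε₂ κ h1 h2 h3 h4 β₁ α₂ β₂ h5 h6 h7).trans
          (div_qq_mono n b1)⟩
  have hq0 := qq_pos (F := F) n
  have hq1 := qq_pos (F := F) t
  have hm := (hMass h W n y S 160000000 R _ _ K ι Z M Φ hF hWM hW hP h0 hK hLine (by omega) h1 h2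
    (by omega) (by omega)).mono (Q' := 2 * (n / 10000000) + (E + 4 * R)) (by omega)
  obtain ⟨m1, m2⟩ := hMod h W κ n R (n / 10000000 + 2 * (30 * t)) _ _ (qq F t) (qq F t) K ι Z M Φ
    hF hWM (fun P h1 h2 => hP P h1 (Or.inl h2)) hK hMain (by omega) (by omega) (by omega)
    (by omega) hτ (fun K => hs.lev.abs_coef) (hs.lev.coef_one.trans hs.unit)
  have h3 := hTot _ _ κ h n _ (30 * t) _ _ E Θ _ _ _ _ _ _ Z' a b α (by omega)
    (div_pos hq0 (qq_pos _)).le (hE Φ hF) (hE _ (hF.shift hdeg))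
    (fun f hf => ⟨h0 f, (le_abs_self _).trans (hF.abs_tot hf)⟩) hs (hτ.mono (by omega)) hQ
    (by omega) (by omega) (by omega) b10 (by omega) b13 (by positivity) hm (by positivity) m1 m2
  have h4 := thin (T := 30 * t) (by omega) b7 b8 (by omega) (by omega) b9 b12 (by omega)
  have h5 := numer (ζ := (3 / 4) ^ (n / 10000000 + 2 * (30 * t))) hQ (by positivity) hq0
    (by positivity) (small (by omega)) (by positivity) hPP hPQ
  rw [show qq F (30 * t) = qq F t ^ 30 by rw [qq_pow, mul_comm],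
    show qq F (100 * t) = qq F t ^ 100 by rw [qq_pow, mul_comm]] at h3
  have hV : 0 ≤ (VS (pf W))⁻¹ ^ 2 * K := by positivity
  have hC := sq_nonneg (5 * (160000000 : ℕ) * Real.exp (Real.exp 14 + 2 * (160000000 : ℕ)))
  generalize (5 * (160000000 : ℕ) * Real.exp (Real.exp 14 + 2 * (160000000 : ℕ))) ^ 2 = C₁,
    (VS (pf W))⁻¹ ^ 2 * K = V at h3 hV hC ⊢
  have h6 := mul_le_mul_of_nonneg_right h4
    (show 0 ≤ C₁ * V * qq F n / (n : ℝ) ^ 2 by positivity)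
  rw [show 100 * (n : ℝ) ^ 2 / (N : ℝ) ^ 3 * (C₁ * V * qq F n / (n : ℝ) ^ 2) =
    100 * C₁ / (N : ℝ) ^ 3 * (qq F n * V) by field_simp] at h6
  linarith

end Pool.Agent.PPf

end

section

/- Prime pairs over `F[X]`: all steps together. -/

set_option autoImplicit false

namespace Pool.Agent.PPf

theorem tuple : ∃ k : ℕ, 1 ≤ k ∧ ∀ (F : Type) [Field F] [Fintype F] [CharP F 2], STuple F k := by
  obtain ⟨C, hC, hT⟩ := sTwin
  obtain ⟨C₀, hC₀, hcore⟩ := Pool.Agent.MP_f37147_nt.core.{0}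
  obtain ⟨k, hk, H⟩ := sTuple (sPack sMay sIdeal (sModel sLoc sPert)) sFin hC hC₀
  refine ⟨k, hk, fun F _ _ _ => ?_⟩
  have t := sTerm F (sLocM F)
  have e := sEq F t (sCard F)
  exact H F (hcore F) (sRoot F) (sGlow F) (sGup F) e (sOne F e (sPnt F (sWeil F)))
    (sQuad F e (sQap F))
    (sPair F C (hT F (sLU F (sPar F) (sTypeU F) (sTypeL F (sTwo F)))
      (sCent F (sClass F (sFreq F))) (sMass F (sGG F) (sLineW F)) (sMod F (sFact F) (sRestr F))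
      (sTotal F (sCase F) sOmega)) (sBd F) (sInstF F (sCard F)) (sInstL F t (sCard F)) (sCard F))

end Pool.Agent.PPf

end
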