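import Mathlib
import Pool.Agent.Mg.Ff37147.Ga41c89
import Pool.Agent.Mg.F43e117.Ge1cfb9

/- Prime pairs over `F[X]`: the sieve bound with a weight. -/

set_option autoImplicit false
set_option linter.unusedSectionVars false

namespace Pool.Agent.PPf

open Polynomial Finset Pool.Agent.MP_4fffd4_nt Pool.Agent.MP_c853c5_nt Pool.Agent.MP_43e117_nt
open scoped BigOperators

namespace MassX

variable {F : Type} [Field F] [Fintype F]

theorem corr_eq {h : F[X]} {n i m i' m' : ℕ} (hm : i + m = n) (hm' : i' + m' = n)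
    (hh : h.natDegree < n) (Ψ ν β : F[X] → ℝ) :
    corr h n (tw Ψ fun f => ν f * up β i f) (fun f => ν f * up β i' f) =
      ∑ e ∈ monF F m, ∑ e' ∈ monF F m', ∑ d ∈ monF F i, ∑ d' ∈ monF F i',
        ind (d' * e' = d * e + h) * (Ψ (d * e) * (ν (d * e) * β d * (ν (d' * e') * β d'))) := by
  have h1 : corr h n (tw Ψ fun f => ν f * up β i f) (fun f => ν f * up β i' f) =
      ∑ e ∈ monF F m, ∑ d ∈ monF F i,
        Ψ (d * e) * (ν (d * e) * β d) * (ν (d * e + h) * up β i' (d * e + h)) := by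
    have h2 : corr h n (tw Ψ fun f => ν f * up β i f) (fun f => ν f * up β i' f) =
        ∑ f ∈ monF F n, ∑ e ∈ monF F m, ∑ d ∈ monF F i, ind (d * e = f) *
          (Ψ f * (ν (d * e) * β d) * (ν (f + h) * up β i' (f + h))) := by
      refine sum_congr rfl fun f hf => ?_
      show Ψ f * (ν f * up β i f) * (ν (f + h) * up β i' (f + h)) = _
      rw [TSieve.piece hm ν β hf, mul_sum, sum_mul]
      refine sum_congr rfl fun e _ => ?_
      rw [mul_sum, sum_mul]
      exact sum_congr rfl fun d _ => by ring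
    rw [h2, sum_comm]
    refine sum_congr rfl fun e he => ?_
    rw [sum_comm]
    refine sum_congr rfl fun d hd => ?_
    exact TSieve.sum_ind (hm ▸ TSieve.mul_mem hd he)
      fun f => Ψ f * (ν (d * e) * β d) * (ν (f + h) * up β i' (f + h))
  rw [h1]
  refine sum_congr rfl fun e he => ?_
  rw [sum_comm]
  refine sum_congr rfl fun d hd => ?_
  rw [TSieve.piece hm' ν β (TSieve.add_mem (hm ▸ TSieve.mul_mem hd he) hh), mul_sum]
  refine sum_congr rfl fun e' _ => ?_
  rw [mul_sum]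
  exact sum_congr rfl fun d' _ => by ring

end MassX

variable (F : Type) [Field F] [Fintype F] [CharP F 2]

theorem sMass (h1 : SGG F) (h2 : SLineW F) : SMass F := by
  intro h W n y S D R lo up' K ι Z M Φ hF hWM hW0 hP hpos hK hL hWy b1 b2 hn hhn i i' hi hi' hii
  obtain ⟨m, hm⟩ := Nat.exists_eq_add_of_le hi.le
  obtain ⟨m', hm'⟩ := Nat.exists_eq_add_of_le hi'.le
  have e1 : (n : ℝ) - i = m := by rw [hm]; push_cast; ring
  have e2 : (n : ℝ) - i' = m' := by rw [hm']; push_cast; ring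
  rw [e1, e2, MassX.corr_eq hm.symm hm'.symm hhn]
  have hP1 : ∀ P : F[X], Irreducible P → P.natDegree ≤ 15 → P ∣ W :=
    fun P a b => hP P a (Or.inl b)
  have hP2 : ∀ P : F[X], Irreducible P → P ∣ h → P ∣ W := fun P a b => hP P a (Or.inr b)
  obtain ⟨a2, a4'⟩ := h1 W y S D m n hW0 hP1 hWy b1 b2 (by omega) hn
  obtain ⟨a3, -⟩ := h1 W y S D m' n hW0 hP1 hWy b1 b2 (by omega) hn
  have a1 : (∑ e ∈ monF F m, ∑ e' ∈ monF F m', ∑ d ∈ monF F i, ∑ d' ∈ monF F i',
      ind (d' * e' = d * e + h) * (tot Z Φ (d * e) *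
        (nu W y S (d * e) * |mu d| * (nu W y S (d' * e') * |mu d'|)))) * qq F n ≤
      qq F (i + i') * K * (∏ s ∈ range S, VS (bl W y s)) ^ 2 *
      ((∑ e ∈ monF F m, ind (IsCoprime e W) * GG W y S e) *
        ∑ e' ∈ monF F m', ind (IsCoprime e' W) * GG W y S e') := by
    rw [sum_mul_sum, sum_mul, mul_sum]
    refine sum_le_sum fun e he => ?_
    rw [sum_mul, mul_sum]
    exact sum_le_sum fun e' he' => h2 h W e e' n i i' m m' y S R lo up' K ι Z M Φ hF hWM hP2 hpos
      hK hL hm.symm hm'.symm he he' (by omega)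
  have hV0 : 0 ≤ ∏ s ∈ range S, VS (bl W y s) := prod_nonneg fun _ _ => TSieve.VS_nonneg _
  have g1 : 0 ≤ (m : ℝ) * ∑ e ∈ monF F m, ind (IsCoprime e W) * GG W y S e :=
    mul_nonneg (Nat.cast_nonneg _)
      (sum_nonneg fun _ _ => mul_nonneg (ind_nonneg _) (TSieve.GG_nonneg _ _ _ _))
  have g2 : 0 ≤ (m' : ℝ) * ∑ e ∈ monF F m', ind (IsCoprime e W) * GG W y S e :=
    mul_nonneg (Nat.cast_nonneg _)
      (sum_nonneg fun _ _ => mul_nonneg (ind_nonneg _) (TSieve.GG_nonneg _ _ _ _))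
  generalize (∑ e ∈ monF F m, ∑ e' ∈ monF F m', ∑ d ∈ monF F i, ∑ d' ∈ monF F i',
      ind (d' * e' = d * e + h) * (tot Z Φ (d * e) *
        (nu W y S (d * e) * |mu d| * (nu W y S (d' * e') * |mu d'|)))) = T at a1 ⊢
  generalize (∑ e ∈ monF F m, ind (IsCoprime e W) * GG W y S e) = A at a1 a2 g1
  generalize (∑ e ∈ monF F m', ind (IsCoprime e W) * GG W y S e) = A' at a1 a3 g2
  generalize (∏ s ∈ range S, VS (bl W y s)) = V at a1 a4' hV0
  generalize (VS (pf W))⁻¹ = U at a4' ⊢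
  generalize Real.exp (Real.exp 14 + 2 * D) = E at a2 a3 ⊢
  have a4 : (n : ℝ) * V ≤ D * U := by
    have c1 : (n : ℝ) ≤ D * y := by exact_mod_cast hn
    calc (n : ℝ) * V ≤ D * y * V := mul_le_mul_of_nonneg_right c1 hV0
      _ = D * (y * V) := mul_assoc _ _ _
      _ ≤ D * U := mul_le_mul_of_nonneg_left a4' (Nat.cast_nonneg _)
  have hn0 : (0 : ℝ) < n := by exact_mod_cast (Nat.zero_le i).trans_lt hi
  have a5 : qq F (i + i') * (qq F m * qq F m') = qq F n * qq F n := by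
    rw [← qq_add, ← qq_add, ← qq_add, show i + i' + (m + m') = n + n by omega]
  rw [le_div_iff₀ (by positivity)]
  refine le_of_mul_le_mul_right ?_ (qq_pos (F := F) n)
  calc (m : ℝ) * m' * T * (n : ℝ) ^ 2 * qq F n = (m * m' * (n : ℝ) ^ 2) * (T * qq F n) := by ring
    _ ≤ (m * m' * (n : ℝ) ^ 2) * (qq F (i + i') * K * V ^ 2 * (A * A')) :=
        mul_le_mul_of_nonneg_left a1 (by positivity)
    _ = qq F (i + i') * K * ((n * V) ^ 2 * ((m * A) * (m' * A'))) := by ring
    _ ≤ qq F (i + i') * K * ((D * U) ^ 2 * ((5 * E * qq F m) * (5 * E * qq F m'))) := by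
        refine mul_le_mul_of_nonneg_left ?_ (mul_nonneg (qq_pos _).le hK)
        exact mul_le_mul (pow_le_pow_left₀ (mul_nonneg hn0.le hV0) a4 2)
          (mul_le_mul a2 a3 g2 (g1.trans a2)) (mul_nonneg g1 g2) (sq_nonneg _)
    _ = (5 * D * E) ^ 2 * (U ^ 2 * K) * (qq F (i + i') * (qq F m * qq F m')) := by ring
    _ = (5 * D * E) ^ 2 * (U ^ 2 * K) * qq F n * qq F n := by rw [a5]; ring

end Pool.Agent.PPf
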